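import Mathlib

/-!
# The free alternative ring

Definitions used in the statement about `MP_2692c1_al`.
-/

namespace Run7.h727

/-- The defining relators of the free alternative ring on `X`: all associators `(f, f, g)` and
`(g, f, f)`, where `f` and `g` range over the free nonassociative ring on `X`
(the free non-unital non-associative `ℤ`-algebra). -/
def altRelators (X : Type) : Set (FreeNonUnitalNonAssocAlgebra ℤ X) :=
  {z | ∃ f g : FreeNonUnitalNonAssocAlgebra ℤ X, z = associator f f g ∨ z = associator g f f}

/-- The free alternative ring `Alt_ℤ[X]` on `X`: the quotient of the free nonassociative ring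
on `X` by the two-sided ideal generated by all `(f, f, g)` and `(g, f, f)`. -/
abbrev FreeAltRing (X : Type) : Type :=
  (TwoSidedIdeal.span (altRelators X)).ringCon.Quotient

end Run7.h727
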