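import Mathlib
import Pool.Agent.Run7.h727.AltModel

/-!
# The alternative ring defined by the structure constants
-/

namespace Run7.h727.Model

/-! ### Consequences of the checks -/

theorem beq_true_iff (a b : Nat) : Nat.beq a b = true ↔ a = b := by rw [Nat.beq_eq]

theorem beq_false_iff (a b : Nat) : Nat.beq a b = false ↔ a ≠ b := by
  constructor
  · exact Nat.ne_of_beq_eq_false
  · intro h
    by_contra h2
    rw [Bool.not_eq_false, beq_true_iff] at h2
    exact h h2

theorem land_comm' (a b : Nat) : Nat.land a b = Nat.land b a := Nat.land_comm a b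

theorem land_lor_eq_zero (a b d : Nat) :
    Nat.land (Nat.lor a b) d = 0 ↔ Nat.land a d = 0 ∧ Nat.land b d = 0 := by
  have h : (a ||| b) &&& d = (a &&& d) ||| (b &&& d) := Nat.and_or_distrib_right a b d
  change (a ||| b) &&& d = 0 ↔ (a &&& d) = 0 ∧ (b &&& d) = 0
  rw [h, Nat.or_eq_zero_iff]

theorem land_lor_eq_zero' (a b d : Nat) :
    Nat.land d (Nat.lor a b) = 0 ↔ Nat.land d a = 0 ∧ Nat.land d b = 0 := by
  rw [land_comm' d, land_lor_eq_zero, land_comm' a, land_comm' b]

theorem c_of_ne (i j : Nat) (h : Nat.land (mask i) (mask j) ≠ 0) : c i j = [] := by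
  unfold c
  rw [(beq_false_iff _ _).2 h]
  rfl

theorem checks (i j : Nat) (hi : i < 130) (hj : j < 130)
    (h : Nat.land (mask i) (mask j) = 0) :
    chk2 i j = true ∧ ∀ l < 130, Nat.land (Nat.lor (mask i) (mask j)) (mask l) = 0 →
      chk3 i j l = true := by
  have h0 := checkAll_true
  unfold checkAll at h0
  rw [allB_iff] at h0
  have h1 := h0 i hi
  rw [allB_iff] at h1
  have h2 := h1 j hj
  rw [(beq_true_iff _ _).2 h, cond_true, Bool.and_eq_true, allB_iff] at h2
  refine ⟨h2.1, fun l hl hm => ?_⟩
  have h4 := h2.2 l hl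
  rwa [(beq_true_iff _ _).2 hm, cond_true] at h4

/-- All the indices of a list vector are in range. -/
def Ok (L : List (Nat × Nat)) : Prop := ∀ q ∈ L, q.1 < 130

theorem c_spec (i j : Nat) (hi : i < 130) (hj : j < 130) :
    ∀ q ∈ c i j, q.1 < 130 ∧ mask q.1 = Nat.lor (mask i) (mask j) := by
  by_cases h : Nat.land (mask i) (mask j) = 0
  · have h1 := (checks i j hi hj h).1
    unfold chk2 at h1
    rw [List.all_eq_true] at h1
    intro q hq
    have h2 := h1 q hq
    rw [Bool.and_eq_true, beq_true_iff, Nat.blt_eq] at h2
    exact h2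
  · rw [c_of_ne i j h]; simp

theorem ok_c (i j : Nat) (hi : i < 130) (hj : j < 130) : Ok (c i j) :=
  fun q hq => (c_spec i j hi hj q hq).1

theorem mulR_eq_nil (L : List (Nat × Nat)) (l : Nat) (h : ∀ q ∈ L, c q.1 l = []) :
    mulR L l = [] := by
  induction L with
  | nil => rfl
  | cons q L ih =>
    simp only [mulR, h q (by simp), scale, List.nil_append]
    exact ih fun q hq => h q (by simp [hq])

theorem mulLft_eq_nil (L : List (Nat × Nat)) (l : Nat) (h : ∀ q ∈ L, c l q.1 = []) :
    mulLft l L = [] := by
  induction L with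
  | nil => rfl
  | cons q L ih =>
    simp only [mulLft, h q (by simp), scale, List.nil_append]
    exact ih fun q hq => h q (by simp [hq])

/-- Pairwise disjoint degrees. -/
def Dj (i j l : Nat) : Prop :=
  Nat.land (mask i) (mask j) = 0 ∧ Nat.land (mask i) (mask l) = 0 ∧
    Nat.land (mask j) (mask l) = 0

theorem asc_eq_nil (i j l : Nat) (hi : i < 130) (hj : j < 130) (hl : l < 130)
    (h : ¬ Dj i j l) : asc i j l = [] := by
  have h1 : mulR (c i j) l = [] := by
    by_cases hij : Nat.land (mask i) (mask j) = 0
    · apply mulR_eq_nil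
      intro q hq
      apply c_of_ne
      rw [(c_spec i j hi hj q hq).2]
      intro h0
      rw [land_lor_eq_zero] at h0
      exact h ⟨hij, h0.1, h0.2⟩
    · rw [c_of_ne i j hij]; rfl
  have h2 : mulLft i (c j l) = [] := by
    by_cases hjl : Nat.land (mask j) (mask l) = 0
    · apply mulLft_eq_nil
      intro q hq
      apply c_of_ne
      rw [(c_spec j l hj hl q hq).2]
      intro h0
      rw [land_lor_eq_zero'] at h0
      exact h ⟨h0.1, h0.2, hjl⟩
    · rw [c_of_ne j l hjl]; rfl
  unfold asc
  rw [h1, h2]; rfl

theorem zero3_asc (i j l : Nat) (hi : i < 130) (hj : j < 130) (hl : l < 130) :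
    zero3 (asc i j l ++ asc j i l) = true ∧ zero3 (asc i j l ++ asc i l j) = true := by
  by_cases h : Dj i j l
  · have h1 := (checks i j hi hj h.1).2 l hl (by rw [land_lor_eq_zero]; exact h.2)
    unfold chk3 at h1
    rwa [Bool.and_eq_true] at h1
  · have e1 := asc_eq_nil i j l hi hj hl h
    have e2 := asc_eq_nil j i l hj hi hl (fun h' => h ⟨by rw [land_comm']; exact h'.1, h'.2.2, h'.2.1⟩)
    have e3 := asc_eq_nil i l j hi hl hj (fun h' => h ⟨h'.2.1, h'.1, by rw [land_comm']; exact h'.2.2⟩)
    rw [e1, e2, e3]
    exact ⟨rfl, rfl⟩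

/-! ### The ring -/

/-- The underlying group of the ring. -/
def Bm : Type := Fin 130 → ZMod 3

instance : AddCommGroup Bm := inferInstanceAs (AddCommGroup (Fin 130 → ZMod 3))

instance : Module (ZMod 3) Bm := inferInstanceAs (Module (ZMod 3) (Fin 130 → ZMod 3))

/-- Basis elements (zero when out of range). -/
def e (m : ℕ) : Bm := fun k => if k.val = m then 1 else 0

/-- The element of the ring given by a list vector. -/
def vec : List (ℕ × ℕ) → Bm
  | [] => 0
  | q :: L => q.2 • e q.1 + vec L

theorem add_apply' (x y : Bm) (k : Fin 130) : (x + y) k = x k + y k := rfl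

theorem zero_apply' (k : Fin 130) : (0 : Bm) k = 0 := rfl

theorem smul_apply' (a : ZMod 3) (y : Bm) (k : Fin 130) : (a • y) k = a * y k := rfl

theorem nsmul_apply' (a : ℕ) (y : Bm) (k : Fin 130) : (a • y) k = (a : ZMod 3) * y k := by
  have : a • y = (a : ZMod 3) • y := (Nat.cast_smul_eq_nsmul (ZMod 3) a y).symm
  rw [this, smul_apply']

theorem three_smul (y : Bm) : (3 : ℕ) • y = 0 := by
  funext k
  rw [nsmul_apply', zero_apply']
  have : ((3 : ℕ) : ZMod 3) = 0 := by decide
  rw [this, zero_mul]

theorem two_smul_eq_neg (y : Bm) : (2 : ℕ) • y = -y := by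
  have := three_smul y
  rw [show (3 : ℕ) = 1 + 2 from rfl, add_smul, one_smul] at this
  exact eq_neg_of_add_eq_zero_right this

theorem vec_apply (L : List (ℕ × ℕ)) (k : Fin 130) : vec L k = (sumAt k.val L : ZMod 3) := by
  induction L with
  | nil => simp [vec, sumAt, zero_apply']
  | cons q L ih =>
    simp only [vec, sumAt]
    rw [add_apply', nsmul_apply', ih]
    by_cases h : q.1 = k.val
    · rw [(beq_true_iff _ _).2 h, cond_true]
      simp [e, h]
    · rw [(beq_false_iff _ _).2 h, cond_false]
      simp [e, Ne.symm h]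

theorem sumAt_eq_zero (L : List (ℕ × ℕ)) (m : ℕ) (h : ∀ q ∈ L, q.1 ≠ m) : sumAt m L = 0 := by
  induction L with
  | nil => rfl
  | cons q L ih =>
    simp only [sumAt]
    rw [(beq_false_iff _ _).2 (h q (by simp)), cond_false]
    exact ih fun q hq => h q (by simp [hq])

theorem vec_eq_zero (L : List (ℕ × ℕ)) (h : zero3 L = true) : vec L = 0 := by
  funext k
  rw [vec_apply, zero_apply']
  by_cases hk : ∃ q ∈ L, q.1 = k.val
  · obtain ⟨q, hq, hk⟩ := hk
    unfold zero3 at h
    rw [List.all_eq_true] at h
    have h1 := h q hq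
    rw [beq_true_iff] at h1
    rw [← hk, ZMod.natCast_eq_zero_iff]
    exact Nat.dvd_of_mod_eq_zero h1
  · push Not at hk
    rw [sumAt_eq_zero L k.val hk, Nat.cast_zero]

theorem vec_append (L M : List (ℕ × ℕ)) : vec (L ++ M) = vec L + vec M := by
  induction L with
  | nil => simp [vec]
  | cons q L ih => simp [vec, ih, add_assoc]

theorem vec_scale (a : ℕ) (L : List (ℕ × ℕ)) : vec (scale a L) = a • vec L := by
  induction L with
  | nil => simp [vec, scale]
  | cons q L ih => simp [vec, scale, ih, smul_add, mul_smul]

instance : Mul Bm := ⟨fun x y => ∑ i : Fin 130, ∑ j : Fin 130, (x i * y j) • vec (c i j)⟩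

theorem mul_def' (x y : Bm) :
    x * y = ∑ i : Fin 130, ∑ j : Fin 130, (x i * y j) • vec (c i j) := rfl

instance : NonUnitalNonAssocRing Bm :=
  { (inferInstance : AddCommGroup Bm), (inferInstance : Mul Bm) with
    left_distrib := by
      intro x y z
      simp only [mul_def', add_apply', mul_add, add_smul, Finset.sum_add_distrib]
    right_distrib := by
      intro x y z
      simp only [mul_def', add_apply', add_mul, add_smul, Finset.sum_add_distrib]
    zero_mul := by
      intro x
      simp only [mul_def', zero_apply', zero_mul, zero_smul, Finset.sum_const_zero]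
    mul_zero := by
      intro x
      simp only [mul_def', zero_apply', mul_zero, zero_smul, Finset.sum_const_zero] }

theorem e_mul_e (i j : ℕ) (hi : i < 130) (hj : j < 130) : e i * e j = vec (c i j) := by
  rw [mul_def', Finset.sum_eq_single (⟨i, hi⟩ : Fin 130), Finset.sum_eq_single (⟨j, hj⟩ : Fin 130)]
  · simp [e]
  · intro b _ hb
    have : b.val ≠ j := fun h => hb (Fin.ext h)
    simp [e, this]
  · intro h; exact absurd (Finset.mem_univ _) h
  · intro b _ hb
    have : b.val ≠ i := fun h => hb (Fin.ext h)
    simp [e, this]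
  · intro h; exact absurd (Finset.mem_univ _) h

theorem vec_mul_e (L : List (ℕ × ℕ)) (hL : Ok L) (l : ℕ) (hl : l < 130) :
    vec L * e l = vec (mulR L l) := by
  induction L with
  | nil => simp [vec, mulR]
  | cons q L ih =>
    simp only [vec, mulR]
    rw [add_mul, vec_append, vec_scale, ih fun q hq => hL q (by simp [hq]), smul_mul_assoc,
      e_mul_e _ _ (hL q (by simp)) hl]

theorem e_mul_vec (L : List (ℕ × ℕ)) (hL : Ok L) (l : ℕ) (hl : l < 130) :
    e l * vec L = vec (mulLft l L) := by
  induction L with
  | nil => simp [vec, mulLft]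
  | cons q L ih =>
    simp only [vec, mulLft]
    rw [mul_add, vec_append, vec_scale, ih fun q hq => hL q (by simp [hq]), mul_smul_comm,
      e_mul_e _ _ hl (hL q (by simp))]

theorem associator_e (i j l : ℕ) (hi : i < 130) (hj : j < 130) (hl : l < 130) :
    associator (e i) (e j) (e l) = vec (asc i j l) := by
  unfold asc
  rw [associator_apply, e_mul_e i j hi hj, e_mul_e j l hj hl, vec_mul_e _ (ok_c i j hi hj) l hl,
    e_mul_vec _ (ok_c j l hj hl) i hi, vec_append, vec_scale, sub_eq_add_neg, two_smul_eq_neg]

theorem Bm.induction {P : Bm → Prop} (h0 : P 0) (hadd : ∀ x y, P x → P y → P (x + y))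
    (he : ∀ i < 130, P (e i)) (x : Bm) : P x := by
  have hx : x = ∑ i : Fin 130, (x i).val • e i.val := by
    funext k
    have : ∀ s : Finset (Fin 130), (∑ i ∈ s, (x i).val • e i.val : Bm) k
        = ∑ i ∈ s, ((x i).val • e i.val : Bm) k := by
      intro s
      induction s using Finset.induction with
      | empty => rfl
      | insert a s ha ih => rw [Finset.sum_insert ha, Finset.sum_insert ha, add_apply', ih]
    rw [this, Finset.sum_eq_single k]
    · rw [nsmul_apply', ZMod.natCast_val, ZMod.cast_id]
      simp [e]
    · intro b _ hb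
      have : k.val ≠ b.val := fun h => hb (Fin.ext h).symm
      rw [nsmul_apply']
      simp [e, this]
    · intro h; exact absurd (Finset.mem_univ _) h
  rw [hx]
  apply Finset.sum_induction _ P hadd h0
  intro i _
  generalize (x i).val = n
  induction n with
  | zero => rw [zero_smul]; exact h0
  | succ n ih => rw [succ_nsmul]; exact hadd _ _ ih (he _ i.isLt)

theorem lin12 (x y z : Bm) : associator x y z + associator y x z = 0 := by
  revert x y z
  have add1 : ∀ a b y z : Bm, associator (a + b) y z + associator y (a + b) z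
      = (associator a y z + associator y a z) + (associator b y z + associator y b z) := by
    intro a b y z
    rw [assoc_add1, assoc_add2]; abel
  have add3 : ∀ a b x y : Bm, associator x y (a + b) + associator y x (a + b)
      = (associator x y a + associator y x a) + (associator x y b + associator y x b) := by
    intro a b x y
    rw [assoc_add3, assoc_add3]; abel
  have add2 : ∀ a b x z : Bm, associator x (a + b) z + associator (a + b) x z
      = (associator x a z + associator a x z) + (associator x b z + associator b x z) := by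
    intro a b x z
    rw [assoc_add1, assoc_add2]; abel
  have zz : ∀ y z : Bm, associator 0 y z = 0 ∧ associator y 0 z = 0 ∧ associator y z 0 = 0 := by
    intro y z; simp [associator]
  intro x y z
  refine Bm.induction (P := fun x => associator x y z + associator y x z = 0) ?_ ?_ ?_ x
  · rw [(zz y z).1, (zz y z).2.1, add_zero]
  · intro a b ha hb; rw [add1, ha, hb, add_zero]
  · intro i hi
    refine Bm.induction (P := fun y => associator (e i) y z + associator y (e i) z = 0) ?_ ?_ ?_ y
    · rw [(zz (e i) z).1, (zz (e i) z).2.1, add_zero]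
    · intro a b ha hb; rw [add2, ha, hb, add_zero]
    · intro j hj
      refine Bm.induction
        (P := fun z => associator (e i) (e j) z + associator (e j) (e i) z = 0) ?_ ?_ ?_ z
      · rw [(zz (e i) (e j)).2.2, (zz (e j) (e i)).2.2, add_zero]
      · intro a b ha hb; rw [add3, ha, hb, add_zero]
      · intro l hl
        rw [associator_e i j l hi hj hl, associator_e j i l hj hi hl, ← vec_append]
        exact vec_eq_zero _ (zero3_asc i j l hi hj hl).1

theorem lin23 (x y z : Bm) : associator x y z + associator x z y = 0 := by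
  have add1 : ∀ a b y z : Bm, associator (a + b) y z + associator (a + b) z y
      = (associator a y z + associator a z y) + (associator b y z + associator b z y) := by
    intro a b y z
    rw [assoc_add1, assoc_add1]; abel
  have add2 : ∀ a b x z : Bm, associator x (a + b) z + associator x z (a + b)
      = (associator x a z + associator x z a) + (associator x b z + associator x z b) := by
    intro a b x z
    rw [assoc_add3, assoc_add2]; abel
  have add3 : ∀ a b x y : Bm, associator x y (a + b) + associator x (a + b) y
      = (associator x y a + associator x a y) + (associator x y b + associator x b y) := by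
    intro a b x y
    rw [assoc_add3, assoc_add2]; abel
  have zz : ∀ y z : Bm, associator 0 y z = 0 ∧ associator y 0 z = 0 ∧ associator y z 0 = 0 := by
    intro y z; simp [associator]
  refine Bm.induction (P := fun x => associator x y z + associator x z y = 0) ?_ ?_ ?_ x
  · rw [(zz y z).1, (zz z y).1, add_zero]
  · intro a b ha hb; rw [add1, ha, hb, add_zero]
  · intro i hi
    refine Bm.induction (P := fun y => associator (e i) y z + associator (e i) z y = 0) ?_ ?_ ?_ y
    · rw [(zz (e i) z).2.1, (zz (e i) z).2.2, add_zero]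
    · intro a b ha hb; rw [add2, ha, hb, add_zero]
    · intro j hj
      refine Bm.induction
        (P := fun z => associator (e i) (e j) z + associator (e i) z (e j) = 0) ?_ ?_ ?_ z
      · rw [(zz (e i) (e j)).2.2, (zz (e i) (e j)).2.1, add_zero]
      · intro a b ha hb; rw [add3, ha, hb, add_zero]
      · intro l hl
        rw [associator_e i j l hi hj hl, associator_e i l j hi hl hj, ← vec_append]
        exact vec_eq_zero _ (zero3_asc i j l hi hj hl).2

theorem eq_zero_of_add_self (x : Bm) (h : x + x = 0) : x = 0 := by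
  have h3 := three_smul x
  rw [show (3 : ℕ) = 1 + 2 from rfl, add_smul, one_smul, two_smul, h, add_zero] at h3
  exact h3

theorem isAlt_Bm : IsAlt Bm :=
  ⟨fun x y => eq_zero_of_add_self _ (lin12 x x y), fun x y => eq_zero_of_add_self _ (lin23 y x x)⟩

/-! ### Evaluation -/

/-- Add a multiple of a basis element to a list vector. -/
def addTo (m a : Nat) : List (Nat × Nat) → List (Nat × Nat)
  | [] => bif Nat.beq (a % 3) 0 then [] else [(m, a % 3)]
  | q :: L => bif Nat.beq q.1 m then
      (bif Nat.beq ((a + q.2) % 3) 0 then L else (m, (a + q.2) % 3) :: L)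
    else q :: addTo m a L

/-- Normalise a list vector. -/
def norm : List (Nat × Nat) → List (Nat × Nat)
  | [] => []
  | q :: L => addTo q.1 q.2 (norm L)

/-- Product of list vectors. -/
def mulL (L : List (Nat × Nat)) : List (Nat × Nat) → List (Nat × Nat)
  | [] => []
  | q :: M => scale q.2 (mulR L q.1) ++ mulL L M

/-- Evaluation of trees in list vectors. -/
def evL : Tr → List (Nat × Nat)
  | .x i => bif Nat.blt i 130 then [(i, 1)] else []
  | .p l r => norm (mulL (evL l) (evL r))
  | .a u v w => norm (mulL (norm (mulL (evL u) (evL v))) (evL w) ++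
      scale 2 (mulL (evL u) (norm (mulL (evL v) (evL w)))))

theorem mod3_smul (a : ℕ) (x : Bm) : (a % 3) • x = a • x := by
  conv_rhs => rw [← Nat.mod_add_div a 3, add_smul, mul_comm, mul_smul, three_smul, smul_zero,
    add_zero]

theorem vec_addTo (m a : ℕ) (L : List (ℕ × ℕ)) : vec (addTo m a L) = a • e m + vec L := by
  induction L with
  | nil =>
    unfold addTo
    by_cases h : a % 3 = 0
    · rw [(beq_true_iff _ _).2 h, cond_true, ← mod3_smul, h, zero_smul]; simp [vec]
    · rw [(beq_false_iff _ _).2 h, cond_false]; simp [vec, mod3_smul]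
  | cons q L ih =>
    unfold addTo
    by_cases hq : q.1 = m
    · rw [(beq_true_iff _ _).2 hq, cond_true]
      have h1 : a • e m + vec (q :: L) = ((a + q.2) % 3) • e m + vec L := by
        rw [mod3_smul, add_smul, vec, hq]; abel
      rw [h1]
      by_cases h : (a + q.2) % 3 = 0
      · rw [(beq_true_iff _ _).2 h, cond_true, h, zero_smul, zero_add]
      · rw [(beq_false_iff _ _).2 h, cond_false]; rfl
    · rw [(beq_false_iff _ _).2 hq, cond_false]
      simp only [vec, ih]; abel

theorem ok_addTo (m a : ℕ) (hm : m < 130) (L : List (ℕ × ℕ)) (hL : Ok L) : Ok (addTo m a L) := by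
  induction L with
  | nil =>
    unfold addTo
    cases Nat.beq (a % 3) 0
    · intro q hq
      simp only [cond_false, List.mem_singleton] at hq
      rw [hq]; exact hm
    · intro q hq; simp at hq
  | cons q L ih =>
    have hL' : Ok L := fun q hq => hL q (by simp [hq])
    unfold addTo
    cases Nat.beq q.1 m
    · intro r hr
      simp only [cond_false, List.mem_cons] at hr
      rcases hr with rfl | hr
      · exact hL _ (by simp)
      · exact ih hL' r hr
    · cases Nat.beq ((a + q.2) % 3) 0
      · intro r hr
        simp only [cond_false, cond_true, List.mem_cons] at hr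
        rcases hr with rfl | hr
        · exact hm
        · exact hL' r hr
      · intro r hr
        simp only [cond_true] at hr
        exact hL' r hr

theorem vec_norm (L : List (ℕ × ℕ)) : vec (norm L) = vec L := by
  induction L with
  | nil => rfl
  | cons q L ih => rw [norm, vec_addTo, ih]; rfl

theorem ok_norm (L : List (ℕ × ℕ)) (hL : Ok L) : Ok (norm L) := by
  induction L with
  | nil => exact hL
  | cons q L ih =>
    exact ok_addTo _ _ (hL q (by simp)) _ (ih fun q hq => hL q (by simp [hq]))

theorem ok_append (L M : List (ℕ × ℕ)) (hL : Ok L) (hM : Ok M) : Ok (L ++ M) := by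
  intro q hq
  rcases List.mem_append.1 hq with h | h
  · exact hL q h
  · exact hM q h

theorem ok_scale (a : ℕ) (L : List (ℕ × ℕ)) (hL : Ok L) : Ok (scale a L) := by
  induction L with
  | nil => exact hL
  | cons q L ih =>
    intro r hr
    simp only [scale, List.mem_cons] at hr
    rcases hr with rfl | hr
    · exact hL q (by simp)
    · exact ih (fun q hq => hL q (by simp [hq])) r hr

theorem ok_mulR (L : List (ℕ × ℕ)) (hL : Ok L) (l : ℕ) (hl : l < 130) : Ok (mulR L l) := by
  induction L with
  | nil => exact hL
  | cons q L ih =>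
    exact ok_append _ _ (ok_scale _ _ (ok_c _ _ (hL q (by simp)) hl))
      (ih fun q hq => hL q (by simp [hq]))

theorem ok_mulL (L M : List (ℕ × ℕ)) (hL : Ok L) (hM : Ok M) : Ok (mulL L M) := by
  induction M with
  | nil => exact hM
  | cons q M ih =>
    exact ok_append _ _ (ok_scale _ _ (ok_mulR L hL _ (hM q (by simp))))
      (ih fun q hq => hM q (by simp [hq]))

theorem vec_mulL (L M : List (ℕ × ℕ)) (hL : Ok L) (hM : Ok M) :
    vec (mulL L M) = vec L * vec M := by
  induction M with
  | nil => simp [mulL, vec]
  | cons q M ih =>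
    rw [mulL, vec_append, vec_scale, ih fun q hq => hM q (by simp [hq]), vec, mul_add,
      mul_smul_comm, vec_mul_e L hL _ (hM q (by simp))]

/-- The evaluation point. -/
def pt (i : ℕ) : Bm := e i

theorem e_big (i : ℕ) (h : ¬ i < 130) : e i = 0 := by
  funext k
  have : k.val ≠ i := fun h' => h (h' ▸ k.isLt)
  simp [e, this, zero_apply']

theorem evL_spec (t : Tr) : Ok (evL t) ∧ vec (evL t) = t.ev pt := by
  induction t with
  | x i =>
    unfold evL
    by_cases h : i < 130
    · have : Nat.blt i 130 = true := by rw [Nat.blt_eq]; exact h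
      rw [this, cond_true]
      refine ⟨fun q hq => ?_, ?_⟩
      · rw [List.mem_singleton] at hq; rw [hq]; exact h
      · simp [vec, Tr.ev, pt]
    · have : Nat.blt i 130 = false := by
        by_contra h2
        rw [Bool.not_eq_false, Nat.blt_eq] at h2
        exact h h2
      rw [this, cond_false]
      refine ⟨fun q hq => by simp at hq, ?_⟩
      simp [vec, Tr.ev, pt, e_big i h]
  | p l r ihl ihr =>
    unfold evL
    have hok := ok_mulL _ _ ihl.1 ihr.1
    refine ⟨ok_norm _ hok, ?_⟩
    rw [vec_norm, vec_mulL _ _ ihl.1 ihr.1, ihl.2, ihr.2]; rfl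
  | a u v w ihu ihv ihw =>
    unfold evL
    have h1 := ok_norm _ (ok_mulL _ _ ihu.1 ihv.1)
    have h2 := ok_norm _ (ok_mulL _ _ ihv.1 ihw.1)
    have h3 := ok_mulL _ _ h1 ihw.1
    have h4 := ok_mulL _ _ ihu.1 h2
    refine ⟨ok_norm _ (ok_append _ _ h3 (ok_scale _ _ h4)), ?_⟩
    rw [vec_norm, vec_append, vec_scale, vec_mulL _ _ h1 ihw.1, vec_mulL _ _ ihu.1 h2, vec_norm,
      vec_norm, vec_mulL _ _ ihu.1 ihv.1, vec_mulL _ _ ihv.1 ihw.1, ihu.2, ihv.2, ihw.2]
    rw [two_smul_eq_neg, Tr.ev, associator_apply, sub_eq_add_neg]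

/-- A coefficient of the value of a formal sum. -/
def val (k : Nat) : FS → Int
  | [] => 0
  | q :: L => q.1 * Int.ofNat (sumAt k (evL q.2)) + val k L

theorem zsmul_apply' (a : ℤ) (y : Bm) (k : Fin 130) : (a • y) k = (a : ZMod 3) * y k := by
  have : a • y = (a : ZMod 3) • y := (Int.cast_smul_eq_zsmul (ZMod 3) a y).symm
  rw [this, smul_apply']

theorem evS_apply (k : Fin 130) (L : FS) : evS pt L k = (val k.val L : ZMod 3) := by
  induction L with
  | nil => rw [evS_nil, val, zero_apply', Int.cast_zero]
  | cons q L ih =>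
    rw [evS_cons, add_apply', zsmul_apply', ih, ← (evL_spec q.2).2, vec_apply, val, Int.cast_add,
      Int.cast_mul, Int.ofNat_eq_natCast, Int.cast_natCast]

end Run7.h727.Model
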