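import Pool.Agent.Run7.h727.AltData

/-!
# Three times an explicit degree six element vanishes in every alternative ring
-/

set_option maxRecDepth 100000

namespace Run7.h727

open Cert

theorem check_cert : Bt.allZero (Bt.run c27 (Bt.run c26 (Bt.run c25 (Bt.run c24 (Bt.run c23 (Bt.run c22 (Bt.run c21 (Bt.run c20 (Bt.run c19 (Bt.run c18 (Bt.run c17 (Bt.run c16 (Bt.run c15 (Bt.run c14 (Bt.run c13 (Bt.run c12 (Bt.run c11 (Bt.run c10 (Bt.run c9 (Bt.run c8 (Bt.run c7 (Bt.run c6 (Bt.run c5 (Bt.run c4 (Bt.run c3 (Bt.run c2 (Bt.run c1 (Bt.run c0 (Bt.adds (-3) f10 (Bt.adds (-3) f9 (Bt.adds (-3) f8 (Bt.adds (-3) f7 (Bt.adds (-3) f6 (Bt.adds (-3) f5 (Bt.adds (-3) f4 (Bt.adds (-3) f3 (Bt.adds (-3) f2 (Bt.adds (-3) f1 (Bt.adds (-3) f0 Bt.e))))))))))))))))))))))))))))))))))))))) = true := by decide +kernel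

/-- The explicit formal sum. -/
def fhat : FS := f0 ++ f1 ++ f2 ++ f3 ++ f4 ++ f5 ++ f6 ++ f7 ++ f8 ++ f9 ++ f10

theorem evS_fhat {R : Type*} [NonUnitalNonAssocRing R] (ρ : Nat → R) (h : IsAlt R) :
    (3 : ℤ) • evS ρ fhat = 0 := by
  have h1 := Bt.ev_of_allZero ρ _ check_cert
  simp only [Bt.ev_run ρ h, Bt.ev_adds ρ h, Bt.ev] at h1
  simp only [fhat, evS_append]
  rw [zero_add] at h1
  simp only [neg_smul, ← neg_add, neg_eq_zero, ← smul_add] at h1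
  exact h1

end Run7.h727
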