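import Mathlib
import Pool.Agent.Run7.h727.AltDefs
import Pool.Agent.Run7.h727.AltThree
import Pool.Agent.Run7.h727.AltRing

/-!
# Torsion in the free alternative ring
-/

set_option maxRecDepth 100000

namespace Run7.h727

open Model

theorem val_fhat : (val 129 fhat) % 3 ≠ 0 := by decide +kernel

theorem evS_pt_ne_zero : evS pt fhat ≠ 0 := by
  intro h
  have h1 := evS_apply ⟨129, by norm_num⟩ fhat
  rw [h] at h1
  have h2 : ((val 129 fhat : ℤ) : ZMod 3) = 0 := h1.symm
  rw [ZMod.intCast_zmod_eq_zero_iff_dvd] at h2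
  exact val_fhat (Int.emod_eq_zero_of_dvd h2)

theorem map_ev {R S : Type*} [NonUnitalNonAssocRing R] [NonUnitalNonAssocRing S] (φ : R →ₙ+* S)
    (ρ : Nat → R) (t : Tr) : φ (t.ev ρ) = t.ev (fun i => φ (ρ i)) := by
  induction t with
  | x i => rfl
  | p l r ihl ihr => simp only [Tr.ev, map_mul, ihl, ihr]
  | a u v w ihu ihv ihw => simp only [Tr.ev, associator, map_mul, map_sub, ihu, ihv, ihw]

theorem map_evS {R S : Type*} [NonUnitalNonAssocRing R] [NonUnitalNonAssocRing S] (φ : R →ₙ+* S)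
    (ρ : Nat → R) (L : FS) : φ (evS ρ L) = evS (fun i => φ (ρ i)) L := by
  induction L with
  | nil => simp
  | cons q L ih => simp only [evS_cons, map_add, map_zsmul, map_ev, ih]

/-- The quotient map. -/
noncomputable def quo (X : Type) : FreeNonUnitalNonAssocAlgebra ℤ X →ₙ+* FreeAltRing X where
  toFun x := (x : (TwoSidedIdeal.span (altRelators X)).ringCon.Quotient)
  map_mul' _ _ := rfl
  map_zero' := rfl
  map_add' _ _ := rfl

theorem quo_eq_zero {X : Type} {z : FreeNonUnitalNonAssocAlgebra ℤ X} :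
    quo X z = 0 ↔ z ∈ TwoSidedIdeal.span (altRelators X) := by
  change ((z : (TwoSidedIdeal.span (altRelators X)).ringCon.Quotient) = (0 : _)) ↔ _
  rw [TwoSidedIdeal.mem_iff]
  exact RingCon.eq _

theorem quo_surjective (X : Type) : Function.Surjective (quo X) := by
  intro y
  induction y using Quotient.inductionOn' with
  | h a => exact ⟨a, rfl⟩

theorem isAlt_free (X : Type) : IsAlt (FreeAltRing X) := by
  constructor
  · intro x y
    obtain ⟨a, rfl⟩ := quo_surjective X x
    obtain ⟨b, rfl⟩ := quo_surjective X y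
    have : associator (quo X a) (quo X a) (quo X b) = quo X (associator a a b) := by
      simp only [associator, map_mul, map_sub]
    rw [this, quo_eq_zero]
    exact TwoSidedIdeal.subset_span ⟨a, b, Or.inl rfl⟩
  · intro x y
    obtain ⟨a, rfl⟩ := quo_surjective X x
    obtain ⟨b, rfl⟩ := quo_surjective X y
    have : associator (quo X b) (quo X a) (quo X a) = quo X (associator b a a) := by
      simp only [associator, map_mul, map_sub]
    rw [this, quo_eq_zero]
    exact TwoSidedIdeal.subset_span ⟨a, b, Or.inr rfl⟩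

theorem lift_eq_zero {X : Type} {S : Type} [NonUnitalNonAssocRing S] (hS : IsAlt S) (g : X → S)
    {z : FreeNonUnitalNonAssocAlgebra ℤ X} (hz : z ∈ TwoSidedIdeal.span (altRelators X)) :
    FreeNonUnitalNonAssocAlgebra.lift ℤ g z = 0 := by
  have h : TwoSidedIdeal.span (altRelators X) ≤
      TwoSidedIdeal.ker (FreeNonUnitalNonAssocAlgebra.lift ℤ g) := by
    rw [TwoSidedIdeal.span_le]
    rintro z ⟨a, b, rfl | rfl⟩
    · rw [SetLike.mem_coe, TwoSidedIdeal.mem_ker]
      simp only [associator, map_mul, map_sub]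
      exact hS.1 _ _
    · rw [SetLike.mem_coe, TwoSidedIdeal.mem_ker]
      simp only [associator, map_mul, map_sub]
      exact hS.2 _ _
  exact (TwoSidedIdeal.mem_ker _).1 (h hz)

/-- The free nonassociative ring element underlying the torsion element. -/
noncomputable def bigF : FreeNonUnitalNonAssocAlgebra ℤ ℕ :=
  evS (fun i => FreeNonUnitalNonAssocAlgebra.of ℤ i) fhat

theorem bigF_not_mem : bigF ∉ TwoSidedIdeal.span (altRelators ℕ) := by
  intro h
  have h1 := lift_eq_zero isAlt_Bm pt h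
  have h2 := map_evS ((FreeNonUnitalNonAssocAlgebra.lift ℤ pt : _ →ₙₐ[ℤ] Bm) : _ →ₙ+* Bm)
    (fun i => FreeNonUnitalNonAssocAlgebra.of ℤ i) fhat
  have h3 : evS pt fhat = 0 := by
    have h4 : (fun i => ((FreeNonUnitalNonAssocAlgebra.lift ℤ pt : _ →ₙₐ[ℤ] Bm) : _ →ₙ+* Bm)
        (FreeNonUnitalNonAssocAlgebra.of ℤ i)) = pt := by
      funext i
      exact FreeNonUnitalNonAssocAlgebra.lift_of_apply ℤ pt i
    rw [h4] at h2
    rw [← h2]
    exact h1
  exact evS_pt_ne_zero h3

theorem torsion_free_alt : ∃ f : FreeAltRing ℕ, f ≠ 0 ∧ (3 : ℤ) • f = 0 := by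
  refine ⟨quo ℕ bigF, fun h => bigF_not_mem (quo_eq_zero.1 h), ?_⟩
  have h1 := map_evS (quo ℕ) (fun i => FreeNonUnitalNonAssocAlgebra.of ℤ i) fhat
  rw [bigF, h1]
  exact evS_fhat _ (isAlt_free ℕ)

theorem not_free_alt : ¬ Module.Free ℤ (FreeAltRing ℕ) := by
  intro hfree
  obtain ⟨f, hf, h3⟩ := torsion_free_alt
  have : Module.IsTorsionFree ℤ (FreeAltRing ℕ) := inferInstance
  rcases smul_eq_zero.1 h3 with h | h
  · norm_num at h
  · exact hf h

end Run7.h727
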