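import Mathlib

/-!
# Formal sums of nonassociative monomials and a checker for consequences of the alternative laws
-/

namespace Run7.h727

/-- The alternative laws. -/
def IsAlt (R : Type*) [NonUnitalNonAssocRing R] : Prop :=
  (∀ x y : R, associator x x y = 0) ∧ ∀ x y : R, associator y x x = 0

section basic

variable {R : Type*} [NonUnitalNonAssocRing R]

theorem assoc_add1 (a b c d : R) :
    associator (a + b) c d = associator a c d + associator b c d := by
  simp only [associator, add_mul]; abel

theorem assoc_add2 (a b c d : R) :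
    associator c (a + b) d = associator c a d + associator c b d := by
  simp only [associator, add_mul, mul_add]; abel

theorem assoc_add3 (a b c d : R) :
    associator c d (a + b) = associator c d a + associator c d b := by
  simp only [associator, mul_add]; abel

theorem IsAlt.swap12 (h : IsAlt R) (x y z : R) : associator x y z = - associator y x z := by
  have h1 := h.1 (x + y) z
  rw [assoc_add1, assoc_add2, assoc_add2, h.1, h.1, zero_add, add_zero] at h1
  exact eq_neg_of_add_eq_zero_left h1

theorem IsAlt.swap23 (h : IsAlt R) (x y z : R) : associator x y z = - associator x z y := by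
  have h1 := h.2 (y + z) x
  rw [assoc_add2, assoc_add3, assoc_add3, h.2, h.2, zero_add, add_zero] at h1
  exact eq_neg_of_add_eq_zero_left h1

end basic

/-- Nonassociative monomials which may contain associator nodes. -/
inductive Tr where
  | x (i : Nat) : Tr
  | p (l r : Tr) : Tr
  | a (u v w : Tr) : Tr

namespace Tr

/-- Evaluation of a tree in a nonassociative ring. -/
def ev {R : Type*} [NonUnitalNonAssocRing R] (ρ : Nat → R) : Tr → R
  | x i => ρ i
  | p l r => ev ρ l * ev ρ r
  | a u v w => associator (ev ρ u) (ev ρ v) (ev ρ w)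

/-- Equality test. -/
def beq : Tr → Tr → Bool
  | x i, x j => Nat.beq i j
  | p l r, p l' r' => beq l l' && beq r r'
  | a u v w, a u' v' w' => beq u u' && (beq v v' && beq w w')
  | _, _ => false

theorem eq_of_beq : ∀ s t : Tr, beq s t = true → s = t
  | x i, x j, h => by
      have := Nat.eq_of_beq_eq_true h
      rw [this]
  | p l r, p l' r', h => by
      simp only [beq, Bool.and_eq_true] at h
      rw [eq_of_beq l l' h.1, eq_of_beq r r' h.2]
  | a u v w, a u' v' w', h => by
      simp only [beq, Bool.and_eq_true] at h
      rw [eq_of_beq u u' h.1, eq_of_beq v v' h.2.1, eq_of_beq w w' h.2.2]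
  | x _, p _ _, h => by simp [beq] at h
  | x _, a _ _ _, h => by simp [beq] at h
  | p _ _, x _, h => by simp [beq] at h
  | p _ _, a _ _ _, h => by simp [beq] at h
  | a _ _ _, x _, h => by simp [beq] at h
  | a _ _ _, p _ _, h => by simp [beq] at h

/-- A numerical key of a tree. -/
def code : Tr → Nat → Nat
  | x i, n => n * 16 + i
  | p l r, n => code r (code l (n * 16 + 8))
  | a u v w, n => code w (code v (code u (n * 16 + 9)))

/-- Does the tree contain an associator node? -/
def hasA : Tr → Bool
  | x _ => false
  | p l r => hasA l || hasA r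
  | a _ _ _ => true

end Tr

open Tr

/-- Formal sums. -/
abbrev FS := List (Int × Tr)

/-- Evaluation of a formal sum. -/
def evS {R : Type*} [NonUnitalNonAssocRing R] (ρ : Nat → R) : FS → R
  | [] => 0
  | c :: L => c.1 • c.2.ev ρ + evS ρ L

section evS

variable {R : Type*} [NonUnitalNonAssocRing R] (ρ : Nat → R)

@[simp] theorem evS_nil : evS ρ [] = 0 := rfl

@[simp] theorem evS_cons (c : Int × Tr) (L : FS) : evS ρ (c :: L) = c.1 • c.2.ev ρ + evS ρ L := rfl

theorem evS_append (L M : FS) : evS ρ (L ++ M) = evS ρ L + evS ρ M := by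
  induction L with
  | nil => simp
  | cons c L ih => simp [ih, add_assoc]

end evS

/-- Apply a function to all the trees of a formal sum. -/
def mapS (f : Tr → Tr) : FS → FS
  | [] => []
  | c :: L => (c.1, f c.2) :: mapS f L

/-- Negate and apply a function to all the trees of a formal sum. -/
def nmapS (f : Tr → Tr) : FS → FS
  | [] => []
  | c :: L => (-c.1, f c.2) :: nmapS f L

/-- Expansion of an associator node in one of the six arrangements of its arguments. -/
def expandA (s : Nat) (u v w : Tr) : FS :=
  match s with
  | 0 => [(1, p (p u v) w), (-1, p u (p v w))]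
  | 1 => [(1, p (p v w) u), (-1, p v (p w u))]
  | 2 => [(1, p (p w u) v), (-1, p w (p u v))]
  | 3 => [(-1, p (p v u) w), (1, p v (p u w))]
  | 4 => [(-1, p (p u w) v), (1, p u (p w v))]
  | _ => [(-1, p (p w v) u), (1, p w (p v u))]

/-- Expansion of one associator node of a tree. -/
def expand (s : Nat) : Tr → FS
  | x i => [(1, x i)]
  | p l r => bif hasA l then mapS (fun t => p t r) (expand s l) else mapS (fun t => p l t) (expand s r)
  | a u v w => expandA s u v w

section sound

variable {R : Type*} [NonUnitalNonAssocRing R] (ρ : Nat → R)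

theorem evS_mapS_left (r : Tr) (L : FS) :
    evS ρ (mapS (fun t => p t r) L) = evS ρ L * r.ev ρ := by
  induction L with
  | nil => simp [mapS]
  | cons c L ih => simp [mapS, ih, ev, add_mul, smul_mul_assoc]

theorem evS_mapS_right (r : Tr) (L : FS) :
    evS ρ (mapS (fun t => p r t) L) = r.ev ρ * evS ρ L := by
  induction L with
  | nil => simp [mapS]
  | cons c L ih => simp [mapS, ih, ev, mul_add, mul_smul_comm]

theorem evS_nmapS (f : Tr → Tr) (L : FS) : evS ρ (nmapS f L) = - evS ρ (mapS f L) := by
  induction L with
  | nil => simp [mapS, nmapS]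
  | cons c L ih => simp [mapS, nmapS, ih, add_comm]

theorem assoc_zsmul (n : ℤ) (x y z : R) : associator (n • x) y z = n • associator x y z := by
  simp [associator, smul_sub, smul_mul_assoc]

theorem evS_mapS_a (v w : Tr) (L : FS) :
    evS ρ (mapS (fun t => a t v w) L) = associator (evS ρ L) (v.ev ρ) (w.ev ρ) := by
  induction L with
  | nil => simp [mapS, associator]
  | cons c L ih => simp [mapS, ih, ev, assoc_add1, assoc_zsmul]

variable (h : IsAlt R)
include h

theorem evS_expandA (s : Nat) (u v w : Tr) :
    evS ρ (expandA s u v w) = associator (u.ev ρ) (v.ev ρ) (w.ev ρ) := by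
  unfold expandA
  split
  · simp [ev, associator, sub_eq_add_neg]
  · rw [h.swap12 (u.ev ρ), h.swap23 (v.ev ρ)]
    simp [ev, associator, sub_eq_add_neg]
  · rw [h.swap23 (u.ev ρ), h.swap12 (u.ev ρ)]
    simp [ev, associator, sub_eq_add_neg]
  · rw [h.swap12 (u.ev ρ)]
    simp [ev, associator, sub_eq_add_neg, add_comm]
  · rw [h.swap23 (u.ev ρ)]
    simp [ev, associator, sub_eq_add_neg, add_comm]
  · rw [h.swap12 (u.ev ρ), h.swap23 (v.ev ρ), h.swap12 (v.ev ρ)]
    simp [ev, associator, sub_eq_add_neg, add_comm]

theorem evS_expand (s : Nat) (t : Tr) : evS ρ (expand s t) = t.ev ρ := by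
  induction t with
  | x i => simp [expand]
  | p l r ihl ihr =>
    unfold expand
    cases hasA l
    · simp only [cond_false]; rw [evS_mapS_right, ihr]; rfl
    · simp only [cond_true]; rw [evS_mapS_left, ihl]; rfl
  | a u v w => exact evS_expandA ρ h s u v w

end sound

/-- Relations that hold in every alternative ring. -/
inductive Rl where
  | T (u v w z : Tr) : Rl
  | PP (a b : Tr) (s t : Nat) : Rl
  | N (a v w : Tr) (s t : Nat) : Rl
  | PL (r : Rl) (m : Tr) : Rl
  | PR (m : Tr) (r : Rl) : Rl

/-- The formal sum of a relation. -/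
def Rl.sum : Rl → FS
  | T u v w z => [(1, a (p u v) w z), (-1, a u (p v w) z), (1, a u v (p w z)), (-1, p u (a v w z)),
      (-1, p (a u v w) z)]
  | PP c d s t => mapS (fun q => p q d) (expand s c) ++ nmapS (fun q => p c q) (expand t d)
  | N c v w s t => expandA s c v w ++ nmapS (fun q => a q v w) (expand t c)
  | PL r m => mapS (fun q => p q m) r.sum
  | PR m r => mapS (fun q => p m q) r.sum

theorem Rl.sum_sound {R : Type*} [NonUnitalNonAssocRing R] (ρ : Nat → R) (h : IsAlt R) (r : Rl) :
    evS ρ r.sum = 0 := by
  induction r with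
  | T u v w z =>
    have := associator_cocycle (u.ev ρ) (v.ev ρ) (w.ev ρ) (z.ev ρ)
    simp only [Rl.sum, evS_cons, evS_nil, ev, one_smul, neg_smul, add_zero]
    rw [← neg_eq_zero, ← this]
    abel
  | PP c d s t =>
    rw [Rl.sum, evS_append, evS_nmapS, evS_mapS_left, evS_mapS_right, evS_expand ρ h,
      evS_expand ρ h, add_neg_cancel]
  | N c v w s t =>
    rw [Rl.sum, evS_append, evS_nmapS, evS_mapS_a, evS_expandA ρ h, evS_expand ρ h, add_neg_cancel]
  | PL r m ih => rw [Rl.sum, evS_mapS_left, ih, zero_mul]
  | PR m r ih => rw [Rl.sum, evS_mapS_right, ih, mul_zero]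

/-- Canonical form: sort the arguments of associator nodes; the Boolean records a sign. -/
def sort3 (u v w : Tr) : Bool × Tr :=
  bif Nat.blt (code v 0) (code u 0) then
    bif Nat.blt (code w 0) (code u 0) then
      bif Nat.blt (code w 0) (code v 0) then (true, a w v u) else (false, a v w u)
    else (true, a v u w)
  else
    bif Nat.blt (code w 0) (code v 0) then
      bif Nat.blt (code w 0) (code u 0) then (false, a w u v) else (true, a u w v)
    else (false, a u v w)

/-- Canonical form of a tree up to sign. -/
def canon : Tr → Bool × Tr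
  | x i => (false, x i)
  | p l r => match canon l, canon r with
    | (s, l'), (t, r') => (xor s t, p l' r')
  | a u v w => sort3 u v w

/-- Sign of a Boolean. -/
def sg (b : Bool) (c : Int) : Int := bif b then -c else c

theorem sort3_sound {R : Type*} [NonUnitalNonAssocRing R] (ρ : Nat → R) (h : IsAlt R)
    (u v w : Tr) :
    associator (u.ev ρ) (v.ev ρ) (w.ev ρ) = sg (sort3 u v w).1 1 • (sort3 u v w).2.ev ρ := by
  unfold sort3
  cases Nat.blt (code v 0) (code u 0) <;> cases Nat.blt (code w 0) (code u 0) <;>
    cases Nat.blt (code w 0) (code v 0) <;>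
    simp only [cond_true, cond_false, sg, ev, one_smul, neg_smul]
  · rw [h.swap23]
  · rw [h.swap23 (u.ev ρ), h.swap12 (u.ev ρ), neg_neg]
  · rw [h.swap12]
  · rw [h.swap12]
  · rw [h.swap12 (u.ev ρ), h.swap23 (v.ev ρ), neg_neg]
  · rw [h.swap12 (u.ev ρ), h.swap23 (v.ev ρ), h.swap12 (v.ev ρ), neg_neg]

theorem canon_sound {R : Type*} [NonUnitalNonAssocRing R] (ρ : Nat → R) (h : IsAlt R) (t : Tr) :
    t.ev ρ = sg (canon t).1 1 • (canon t).2.ev ρ := by
  induction t with
  | x i => simp [canon, sg]
  | p l r ihl ihr =>
    simp only [canon, ev]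
    rw [ihl, ihr]
    generalize canon l = cl, canon r = cr
    obtain ⟨s, l'⟩ := cl
    obtain ⟨t, r'⟩ := cr
    cases s <;> cases t <;> simp [sg]
  | a u v w => exact sort3_sound ρ h u v w

/-- Binary search trees of coefficients. -/
inductive Bt where
  | e : Bt
  | n (l : Bt) (k : Nat) (t : Tr) (c : Int) (r : Bt) : Bt

namespace Bt

/-- Value of a coefficient tree. -/
def ev {R : Type*} [NonUnitalNonAssocRing R] (ρ : Nat → R) : Bt → R
  | e => 0
  | n l _ t c r => ev ρ l + c • t.ev ρ + ev ρ r

/-- Insertion. -/
def ins (k : Nat) (t : Tr) (c : Int) : Bt → Bt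
  | e => n e k t c e
  | n l k' t' c' r =>
    bif Nat.blt k k' then
      match ins k t c l with
      | e => n e k' t' c' r
      | n l1 k1 t1 c1 r1 => n (n l1 k1 t1 c1 r1) k' t' c' r
    else bif Nat.blt k' k then
      match ins k t c r with
      | e => n l k' t' c' e
      | n l1 k1 t1 c1 r1 => n l k' t' c' (n l1 k1 t1 c1 r1)
    else bif Tr.beq t t' then n l k' t' (c' + c) r
    else
      match ins k t c l with
      | e => n e k' t' c' r
      | n l1 k1 t1 c1 r1 => n (n l1 k1 t1 c1 r1) k' t' c' r

theorem ev_ins {R : Type*} [NonUnitalNonAssocRing R] (ρ : Nat → R) (k : Nat) (t : Tr) (c : Int)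
    (b : Bt) : (ins k t c b).ev ρ = b.ev ρ + c • t.ev ρ := by
  induction b with
  | e => simp [ins, ev]
  | n l k' t' c' r ihl ihr =>
    have hL : (match ins k t c l with
      | e => n e k' t' c' r
      | n l1 k1 t1 c1 r1 => n (n l1 k1 t1 c1 r1) k' t' c' r).ev ρ
        = (n l k' t' c' r).ev ρ + c • t.ev ρ := by
      revert ihl
      cases ins k t c l with
      | e => intro ihl; simp only [ev] at ihl ⊢; rw [ihl]; abel
      | n l1 k1 t1 c1 r1 => intro ihl; simp only [ev] at ihl ⊢; rw [ihl]; abel
    have hR : (match ins k t c r with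
      | e => n l k' t' c' e
      | n l1 k1 t1 c1 r1 => n l k' t' c' (n l1 k1 t1 c1 r1)).ev ρ
        = (n l k' t' c' r).ev ρ + c • t.ev ρ := by
      revert ihr
      cases ins k t c r with
      | e => intro ihr; simp only [ev] at ihr ⊢; rw [ihr]; abel
      | n l1 k1 t1 c1 r1 => intro ihr; simp only [ev] at ihr ⊢; rw [ihr]; abel
    rw [ins]
    cases h1 : Nat.blt k k' with
    | true => simpa only [cond_true] using hL
    | false =>
      cases h2 : Nat.blt k' k with
      | true => simpa only [cond_true, cond_false] using hR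
      | false =>
        cases h3 : Tr.beq t t' with
        | true =>
          simp only [cond_true, cond_false]
          have := Tr.eq_of_beq _ _ h3
          subst this
          simp only [ev, add_smul]
          abel
        | false => simpa only [cond_false] using hL

/-- Add a multiple of a formal sum to a coefficient tree, after canonicalising the trees. -/
def adds (s : Int) : FS → Bt → Bt
  | [], b => b
  | c :: L, b =>
    match canon c.2 with
    | (g, t) =>
      match ins (code t 0) t (sg g (s * c.1)) b with
      | e => adds s L e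
      | n l1 k1 t1 c1 r1 => adds s L (n l1 k1 t1 c1 r1)

theorem ev_adds {R : Type*} [NonUnitalNonAssocRing R] (ρ : Nat → R) (h : IsAlt R) (s : Int)
    (L : FS) (b : Bt) : (adds s L b).ev ρ = b.ev ρ + s • evS ρ L := by
  induction L generalizing b with
  | nil => simp [adds]
  | cons c L ih =>
    have hc := canon_sound ρ h c.2
    simp only [adds]
    revert hc
    cases canon c.2 with
    | mk g t =>
      intro hc
      have key : (ins (code t 0) t (sg g (s * c.1)) b).ev ρ = b.ev ρ + (s * c.1) • c.2.ev ρ := by
        rw [ev_ins, hc]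
        cases g <;> simp [sg]
      have h2 : ∀ b' : Bt, ins (code t 0) t (sg g (s * c.1)) b = b' →
          (adds s L b').ev ρ = b.ev ρ + s • (c.1 • c.2.ev ρ + evS ρ L) := by
        intro b' hb'
        rw [ih, ← hb', key, smul_add, smul_smul, add_assoc]
      simp only [evS_cons]
      cases hb : ins (code t 0) t (sg g (s * c.1)) b with
      | e => exact h2 _ hb
      | n l1 k1 t1 c1 r1 => exact h2 _ hb

/-- Run through a list of signed relations. -/
def run : List (Int × Rl) → Bt → Bt
  | [], b => b
  | c :: L, b =>
    match adds c.1 c.2.sum b with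
    | e => run L e
    | n l1 k1 t1 c1 r1 => run L (n l1 k1 t1 c1 r1)

theorem ev_run {R : Type*} [NonUnitalNonAssocRing R] (ρ : Nat → R) (h : IsAlt R)
    (L : List (Int × Rl)) (b : Bt) : (run L b).ev ρ = b.ev ρ := by
  induction L generalizing b with
  | nil => rfl
  | cons c L ih =>
    have h2 : ∀ b' : Bt, adds c.1 c.2.sum b = b' → (run L b').ev ρ = b.ev ρ := by
      intro b' hb'
      rw [ih, ← hb', ev_adds ρ h, Rl.sum_sound ρ h, smul_zero, add_zero]
    rw [run]
    cases hb : adds c.1 c.2.sum b with
    | e => exact h2 _ hb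
    | n l1 k1 t1 c1 r1 => exact h2 _ hb

/-- Are all coefficients zero? -/
def allZero : Bt → Bool
  | e => true
  | n l _ _ c r => (c == 0) && (allZero l && allZero r)

theorem ev_of_allZero {R : Type*} [NonUnitalNonAssocRing R] (ρ : Nat → R) (b : Bt)
    (hb : allZero b = true) : b.ev ρ = 0 := by
  induction b with
  | e => rfl
  | n l k t c r ihl ihr =>
    simp only [allZero, Bool.and_eq_true, beq_iff_eq] at hb
    simp [ev, ihl hb.2.1, ihr hb.2.2, hb.1]

end Bt

end Run7.h727
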