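import Pool.Agent.Run7.h727.AltCert

set_option maxRecDepth 100000

namespace Run7.h727.Cert

open Run7.h727 Tr

def c0 : List (Int × Rl) := [
  (1, (.PR (x 1) (.PR (x 2) (.T (x 3) (x 4) (x 5) (x 0))))),
  (-1, (.PL (.T (x 1) (p (x 3) (x 5)) (x 2) (x 4)) (x 0))),
  (1, (.PR (x 2) (.N (a (x 0) (x 3) (x 4)) (x 1) (x 5) 4 0))),
  (1, (.N (a (x 1) (x 3) (x 5)) (x 0) (p (x 2) (x 4)) 0 4)),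
  (1, (.N (a (x 0) (x 2) (p (x 4) (x 5))) (x 1) (x 3) 0 2)),
  (1, (.PL (.T (x 1) (p (x 4) (x 5)) (x 2) (x 3)) (x 0))),
  (1, (.PR (p (x 4) (x 2)) (.T (x 0) (x 5) (x 3) (x 1)))),
  (-1, (.PR (x 0) (.N (a (x 2) (x 3) (x 4)) (x 1) (x 5) 0 4))),
  (-1, (.PL (.PL (.T (x 0) (x 3) (x 5) (x 1)) (x 4)) (x 2))),
  (-1, (.T (x 0) (p (x 5) (x 2)) (x 1) (p (x 3) (x 4)))),
  (1, (.T (x 0) (x 3) (p (p (x 5) (x 4)) (x 2)) (x 1))),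
  (-1, (.T (p (x 2) (x 3)) (x 1) (p (x 4) (x 5)) (x 0))),
  (-1, (.PL (.N (a (x 2) (x 3) (x 5)) (x 1) (x 4) 0 0) (x 0))),
  (1, (.PR (p (x 2) (x 0)) (.T (x 1) (x 4) (x 5) (x 3)))),
  (1, (.PR (x 2) (.T (p (x 3) (x 4)) (x 0) (x 5) (x 1)))),
  (-1, (.N (a (x 0) (x 3) (x 5)) (p (x 4) (x 1)) (x 2) 5 0)),
  (-1, (.PL (.PL (.T (x 1) (x 4) (x 0) (x 3)) (x 2)) (x 5))),
  (1, (.T (x 0) (x 5) (p (x 2) (x 1)) (p (x 3) (x 4)))),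
  (-1, (.T (x 0) (x 3) (p (p (x 5) (x 4)) (x 1)) (x 2))),
  (1, (.PR (x 2) (.PL (.T (x 0) (x 5) (x 4) (x 3)) (x 1)))),
  (1, (.PR (x 2) (.N (a (x 1) (x 3) (x 5)) (x 0) (x 4) 1 0))),
  (-1, (.T (x 1) (x 4) (p (x 2) (x 0)) (p (x 3) (x 5)))),
  (1, (.PR (x 1) (.PL (.T (x 0) (x 2) (x 3) (x 5)) (x 4)))),
  (-1, (.PR (x 0) (.T (x 2) (x 5) (p (x 4) (x 3)) (x 1)))),
  (-1, (.PR (x 0) (.PL (.T (x 5) (x 2) (x 4) (x 3)) (x 1)))),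
  (-1, (.PL (.T (x 1) (x 4) (x 3) (x 5)) (p (x 0) (x 2)))),
  (-1, (.PR (x 1) (.T (p (x 3) (x 4)) (x 2) (x 5) (x 0)))),
  (-1, (.T (x 0) (x 5) (p (x 2) (x 3)) (p (x 1) (x 4)))),
  (1, (.N (p (a (x 1) (x 2) (x 5)) (x 4)) (x 0) (x 3) 4 0)),
  (-1, (.PR (x 1) (.PR (x 5) (.T (x 2) (x 4) (x 0) (x 3))))),
  (-1, (.T (x 0) (x 3) (p (x 2) (x 5)) (p (x 1) (x 4)))),
  (-1, (.PP (a (x 0) (x 1) (x 4)) (a (x 2) (x 3) (x 5)) 1 0)),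
  (-1, (.PR (x 1) (.PR (x 5) (.T (x 2) (x 3) (x 4) (x 0))))),
  (1, (.PR (p (x 0) (x 2)) (.T (x 1) (x 3) (x 4) (x 5)))),
  (-1, (.PR (p (x 1) (x 4)) (.T (x 0) (x 5) (x 2) (x 3)))),
  (1, (.PL (.PR (x 4) (.T (x 0) (x 3) (x 1) (x 5))) (x 2))),
  (1, (.N (a (x 1) (x 2) (p (x 3) (x 4))) (x 0) (x 5) 4 0)),
  (1, (.T (p (x 0) (x 3)) (p (x 4) (x 5)) (x 2) (x 1))),
  (1, (.N (a (x 3) (x 4) (x 5)) (x 0) (p (x 2) (x 1)) 1 0)),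
  (1, (.N (a (x 3) (x 4) (p (x 1) (x 5))) (x 0) (x 2) 0 4)),
  (-1, (.PL (.PL (.T (x 3) (x 4) (x 1) (x 5)) (x 2)) (x 0))),
  (1, (.T (p (p (x 3) (x 4)) (x 5)) (x 0) (x 2) (x 1))),
  (-1, (.PR (x 1) (.N (a (x 2) (x 4) (x 5)) (x 0) (x 3) 0 3))),
  (1, (.T (x 0) (x 2) (p (p (x 5) (x 4)) (x 3)) (x 1))),
  (-1, (.PR (p (x 5) (x 4)) (.T (x 1) (x 2) (x 3) (x 0)))),
  (-1, (.PR (x 0) (.PR (x 1) (.T (x 2) (x 4) (x 3) (x 5))))),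
  (1, (.PR (x 2) (.T (x 3) (p (x 1) (x 5)) (x 0) (x 4)))),
  (1, (.N (a (x 0) (x 3) (x 5)) (p (x 1) (x 4)) (x 2) 1 0)),
  (-1, (.T (p (x 1) (x 4)) (p (x 3) (x 5)) (x 2) (x 0))),
  (1, (.PR (p (x 5) (x 4)) (.T (x 1) (x 2) (x 0) (x 3)))),
  (-1, (.PL (.N (a (x 2) (x 3) (x 5)) (x 1) (x 4) 0 1) (x 0))),
  (1, (.N (p (a (x 0) (x 2) (x 3)) (x 4)) (x 1) (x 5) 0 3)),
  (-1, (.N (p (a (x 0) (x 1) (x 4)) (x 3)) (x 2) (x 5) 0 1)),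
  (1, (.PL (.PL (.T (x 1) (x 2) (x 5) (x 4)) (x 0)) (x 3))),
  (1, (.N (p (a (x 0) (x 2) (x 5)) (x 4)) (x 1) (x 3) 0 0)),
  (-1, (.PP (a (x 0) (x 1) (x 2)) (a (x 3) (x 4) (x 5)) 4 0)),
  (1, (.PR (p (x 1) (x 4)) (.T (x 2) (x 5) (x 0) (x 3)))),
  (1, (.N (a (x 1) (x 3) (x 5)) (p (x 0) (x 4)) (x 2) 2 0)),
  (1, (.PL (.T (x 0) (x 4) (p (x 1) (x 5)) (x 3)) (x 2))),
  (-1, (.PL (.N (a (x 1) (x 4) (x 5)) (x 2) (x 3) 4 0) (x 0))),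
  (1, (.PL (.T (x 0) (x 4) (x 2) (x 1)) (p (x 3) (x 5)))),
  (1, (.N (a (x 3) (x 4) (p (x 2) (x 5))) (x 0) (x 1) 0 2)),
  (1, (.PL (.PL (.T (x 2) (x 4) (x 5) (x 1)) (x 3)) (x 0))),
  (1, (.PL (.N (a (x 0) (x 3) (x 4)) (x 1) (x 5) 4 0) (x 2))),
  (-1, (.N (p (a (x 2) (x 3) (x 4)) (x 1)) (x 0) (x 5) 3 0)),
  (-1, (.PR (x 2) (.PR (x 3) (.T (x 1) (x 4) (x 0) (x 5))))),
  (1, (.N (a (x 1) (x 2) (p (x 5) (x 4))) (x 0) (x 3) 0 0)),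
  (-1, (.T (p (p (x 5) (x 3)) (x 4)) (x 1) (x 2) (x 0))),
  (-1, (.N (p (a (x 1) (x 3) (x 4)) (x 5)) (x 0) (x 2) 5 0)),
  (1, (.T (x 2) (p (x 3) (x 4)) (p (x 0) (x 5)) (x 1))),
  (1, (.T (x 1) (x 3) (x 2) (p (p (x 5) (x 4)) (x 0)))),
  (1, (.N (a (x 0) (x 3) (p (x 5) (x 2))) (x 1) (x 4) 0 5)),
  (1, (.PR (p (x 2) (x 0)) (.T (x 1) (x 3) (x 4) (x 5)))),
  (-1, (.N (a (x 1) (x 2) (p (x 3) (x 5))) (x 0) (x 4) 0 1)),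
  (-1, (.T (p (x 5) (x 1)) (p (x 4) (x 2)) (x 3) (x 0))),
  (-1, (.PL (.T (x 2) (x 4) (p (x 5) (x 3)) (x 1)) (x 0))),
  (1, (.PL (.PR (x 4) (.T (x 1) (x 3) (x 5) (x 2))) (x 0))),
  (1, (.T (p (x 1) (x 5)) (p (x 4) (x 2)) (x 3) (x 0))),
  (-1, (.PL (.N (a (x 2) (x 3) (x 5)) (x 0) (x 4) 0 0) (x 1))),
  (1, (.T (x 1) (p (p (x 4) (x 0)) (x 3)) (x 2) (x 5))),
  (1, (.PR (p (x 5) (x 3)) (.T (x 0) (x 1) (x 2) (x 4)))),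
  (-1, (.PR (x 0) (.N (a (x 2) (x 3) (x 4)) (x 1) (x 5) 0 1))),
  (-1, (.PR (x 2) (.T (x 0) (x 4) (p (x 3) (x 5)) (x 1)))),
  (-1, (.PL (.T (x 2) (x 4) (p (x 3) (x 5)) (x 1)) (x 0))),
  (-1, (.N (a (x 2) (x 4) (x 5)) (p (x 3) (x 0)) (x 1) 0 2)),
  (1, (.PR (x 2) (.PL (.T (x 0) (x 3) (x 1) (x 5)) (x 4)))),
  (1, (.N (a (x 2) (x 4) (x 5)) (x 0) (p (x 1) (x 3)) 4 0)),
  (-1, (.PL (.T (x 1) (x 2) (x 5) (x 3)) (p (x 0) (x 4)))),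
  (1, (.N (a (x 3) (x 4) (x 5)) (x 0) (p (x 2) (x 1)) 0 1)),
  (-1, (.N (a (x 3) (x 4) (x 5)) (p (x 0) (x 2)) (x 1) 1 0)),
  (-1, (.PL (.T (x 1) (x 4) (x 5) (p (x 3) (x 2))) (x 0))),
  (-1, (.PL (.T (x 0) (x 5) (x 3) (p (x 2) (x 4))) (x 1))),
  (1, (.N (p (a (x 0) (x 3) (x 5)) (x 4)) (x 1) (x 2) 4 0)),
  (-1, (.PL (.T (x 3) (x 4) (p (x 5) (x 1)) (x 2)) (x 0))),
  (-1, (.PR (x 2) (.T (x 3) (x 4) (p (x 1) (x 5)) (x 0)))),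
  (-1, (.N (a (x 3) (x 4) (p (x 5) (x 2))) (x 0) (x 1) 0 1)),
  (1, (.PR (x 0) (.T (p (x 5) (x 2)) (x 3) (x 4) (x 1)))),
  (1, (.T (p (x 2) (x 5)) (p (x 4) (x 0)) (x 3) (x 1))),
  (-1, (.N (a (x 1) (x 2) (x 4)) (x 0) (p (x 5) (x 3)) 0 1)),
  (1, (.PL (.PR (x 3) (.T (x 0) (x 4) (x 5) (x 2))) (x 1)))]

def c1 : List (Int × Rl) := [
  (1, (.T (x 1) (x 4) (p (x 5) (x 2)) (p (x 0) (x 3)))),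
  (-1, (.N (a (x 2) (x 3) (x 5)) (p (x 4) (x 0)) (x 1) 2 0)),
  (1, (.PR (p (x 0) (x 3)) (.T (x 1) (x 5) (x 4) (x 2)))),
  (1, (.N (a (x 1) (x 2) (x 3)) (x 0) (p (x 4) (x 5)) 0 2)),
  (1, (.PR (x 1) (.PR (x 3) (.T (x 2) (x 4) (x 5) (x 0))))),
  (-1, (.N (a (x 2) (x 5) (p (x 4) (x 0))) (x 1) (x 3) 0 4)),
  (-1, (.PL (.PR (x 3) (.T (x 0) (x 4) (x 1) (x 5))) (x 2))),
  (1, (.T (x 0) (x 1) (p (p (x 5) (x 3)) (x 4)) (x 2))),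
  (1, (.N (a (x 1) (x 3) (x 5)) (p (x 0) (x 4)) (x 2) 0 1)),
  (-1, (.N (a (x 0) (x 2) (x 5)) (x 1) (p (x 3) (x 4)) 0 1)),
  (-1, (.T (p (p (x 2) (x 4)) (x 3)) (x 1) (x 5) (x 0))),
  (1, (.PL (.PL (.T (x 0) (x 3) (x 4) (x 5)) (x 1)) (x 2))),
  (-1, (.PR (x 0) (.T (x 1) (p (x 5) (x 3)) (x 2) (x 4)))),
  (1, (.PP (a (x 0) (x 4) (x 5)) (a (x 1) (x 2) (x 3)) 0 0)),
  (-1, (.PR (x 0) (.T (x 2) (p (x 3) (x 5)) (x 4) (x 1)))),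
  (-1, (.PR (x 1) (.PL (.T (x 0) (x 4) (x 5) (x 3)) (x 2)))),
  (1, (.PL (.T (x 1) (p (x 5) (x 4)) (x 2) (x 3)) (x 0))),
  (1, (.PL (.PL (.T (x 2) (x 3) (x 4) (x 0)) (x 1)) (x 5))),
  (1, (.N (a (x 1) (x 3) (x 5)) (x 0) (p (x 4) (x 2)) 0 5)),
  (-1, (.PL (.T (x 0) (x 3) (x 1) (x 4)) (p (x 5) (x 2)))),
  (-1, (.T (p (p (x 3) (x 5)) (x 2)) (x 1) (x 4) (x 0))),
  (1, (.T (x 0) (x 5) (p (x 3) (x 2)) (p (x 4) (x 1)))),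
  (1, (.N (a (x 0) (x 3) (x 4)) (x 1) (p (x 5) (x 2)) 0 0)),
  (-1, (.PL (.PR (x 2) (.T (x 1) (x 4) (x 3) (x 5))) (x 0))),
  (-1, (.PL (.T (x 0) (x 1) (x 4) (p (x 3) (x 5))) (x 2))),
  (-1, (.PR (x 1) (.T (x 0) (x 3) (x 4) (p (x 2) (x 5))))),
  (1, (.PL (.PL (.T (x 3) (x 4) (x 5) (x 0)) (x 1)) (x 2))),
  (-1, (.N (a (x 1) (x 3) (x 4)) (p (x 0) (x 5)) (x 2) 0 2)),
  (-1, (.T (x 2) (p (p (x 5) (x 0)) (x 4)) (x 3) (x 1))),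
  (1, (.T (x 0) (x 3) (p (x 5) (x 4)) (p (x 2) (x 1)))),
  (1, (.N (a (x 0) (x 2) (x 3)) (x 1) (p (x 4) (x 5)) 3 0)),
  (-1, (.PL (.PR (x 1) (.T (x 2) (x 3) (x 5) (x 4))) (x 0))),
  (1, (.PR (x 2) (.T (x 3) (p (x 0) (x 5)) (x 4) (x 1)))),
  (1, (.N (a (x 0) (x 2) (p (x 4) (x 5))) (x 1) (x 3) 0 1)),
  (-1, (.N (p (x 1) (a (x 2) (x 3) (x 4))) (x 0) (x 5) 4 0)),
  (-1, (.PL (.T (p (x 3) (x 5)) (x 1) (x 4) (x 0)) (x 2))),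
  (-1, (.PL (.T (x 2) (x 0) (x 4) (x 5)) (p (x 1) (x 3)))),
  (1, (.PR (x 1) (.PL (.T (x 0) (x 2) (x 5) (x 3)) (x 4)))),
  (-1, (.PR (p (x 5) (x 4)) (.T (x 0) (x 3) (x 1) (x 2)))),
  (1, (.T (x 0) (x 1) (p (x 4) (x 5)) (p (x 3) (x 2)))),
  (1, (.PL (.T (x 2) (x 5) (x 3) (p (x 4) (x 1))) (x 0))),
  (-1, (.PP (a (x 0) (x 1) (x 5)) (a (x 2) (x 3) (x 4)) 0 4)),
  (-1, (.N (a (x 2) (x 5) (p (x 1) (x 4))) (x 0) (x 3) 0 2)),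
  (1, (.N (a (x 2) (x 3) (x 5)) (x 0) (p (x 4) (x 1)) 2 0)),
  (1, (.PL (.T (x 3) (p (x 5) (x 2)) (x 4) (x 1)) (x 0))),
  (1, (.N (p (a (x 1) (x 2) (x 3)) (x 4)) (x 0) (x 5) 0 4)),
  (-1, (.PL (.N (a (x 2) (x 3) (x 4)) (x 0) (x 5) 4 0) (x 1))),
  (1, (.PL (.T (x 0) (x 2) (x 5) (p (x 4) (x 3))) (x 1))),
  (-1, (.N (a (x 0) (x 3) (x 4)) (x 1) (p (x 5) (x 2)) 2 0)),
  (1, (.T (p (p (x 4) (x 3)) (x 5)) (x 0) (x 2) (x 1))),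
  (1, (.N (a (x 2) (x 3) (x 4)) (p (x 5) (x 0)) (x 1) 4 0)),
  (1, (.PL (.PR (x 4) (.T (x 0) (x 1) (x 5) (x 3))) (x 2))),
  (1, (.T (x 1) (x 3) (p (x 4) (x 2)) (p (x 0) (x 5)))),
  (-1, (.T (p (x 3) (x 2)) (p (x 5) (x 4)) (x 0) (x 1))),
  (1, (.PR (x 1) (.T (x 2) (p (x 5) (x 3)) (x 4) (x 0)))),
  (-1, (.PL (.N (a (x 1) (x 3) (x 5)) (x 2) (x 4) 1 0) (x 0))),
  (-1, (.N (a (x 1) (x 3) (x 5)) (x 0) (p (x 4) (x 2)) 0 0)),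
  (-1, (.PR (x 2) (.T (p (x 4) (x 1)) (x 3) (x 5) (x 0)))),
  (1, (.N (p (a (x 0) (x 3) (x 4)) (x 1)) (x 2) (x 5) 3 0)),
  (1, (.N (a (x 0) (x 4) (p (x 5) (x 3))) (x 1) (x 2) 0 1)),
  (1, (.T (x 1) (x 3) (p (x 2) (x 0)) (p (x 5) (x 4)))),
  (-1, (.T (x 1) (x 3) (p (p (x 0) (x 4)) (x 5)) (x 2))),
  (1, (.T (p (x 4) (x 5)) (x 0) (x 1) (p (x 3) (x 2)))),
  (1, (.N (a (x 1) (x 5) (p (x 3) (x 4))) (x 0) (x 2) 0 2)),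
  (-1, (.N (a (x 1) (x 3) (p (x 4) (x 5))) (x 0) (x 2) 0 5)),
  (-1, (.PL (.PL (.T (x 0) (x 4) (x 5) (x 3)) (x 2)) (x 1))),
  (1, (.T (x 0) (x 2) (p (x 3) (x 4)) (p (x 1) (x 5)))),
  (-1, (.T (p (x 5) (x 1)) (p (x 2) (x 3)) (x 4) (x 0))),
  (-1, (.PL (.PL (.T (x 0) (x 5) (x 1) (x 4)) (x 3)) (x 2))),
  (1, (.T (x 0) (x 4) (x 2) (p (p (x 3) (x 5)) (x 1)))),
  (1, (.T (x 0) (x 3) (p (p (x 4) (x 1)) (x 5)) (x 2))),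
  (1, (.PL (.T (x 1) (x 4) (p (x 3) (x 5)) (x 0)) (x 2))),
  (-1, (.PR (x 0) (.T (x 1) (x 2) (x 4) (p (x 5) (x 3))))),
  (1, (.N (p (a (x 2) (x 4) (x 5)) (x 0)) (x 1) (x 3) 4 0)),
  (-1, (.PL (.T (x 4) (x 2) (p (x 3) (x 5)) (x 1)) (x 0))),
  (1, (.PR (x 1) (.T (x 2) (x 3) (x 4) (p (x 5) (x 0))))),
  (1, (.PR (x 0) (.PR (x 3) (.T (x 1) (x 5) (x 4) (x 2))))),
  (-1, (.T (x 2) (p (x 0) (x 5)) (p (x 4) (x 3)) (x 1))),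
  (1, (.N (a (x 1) (x 2) (p (x 4) (x 3))) (x 0) (x 5) 1 0)),
  (-1, (.T (p (x 4) (x 3)) (p (x 5) (x 0)) (x 1) (x 2))),
  (-1, (.T (p (x 3) (x 5)) (p (x 4) (x 0)) (x 1) (x 2))),
  (1, (.PL (.N (a (x 2) (x 4) (x 5)) (x 0) (x 3) 1 0) (x 1))),
  (1, (.T (p (p (x 4) (x 0)) (x 5)) (x 2) (x 3) (x 1))),
  (-1, (.T (p (p (x 2) (x 4)) (x 5)) (x 1) (x 3) (x 0))),
  (-1, (.N (a (x 1) (x 3) (x 4)) (x 0) (p (x 5) (x 2)) 0 0)),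
  (1, (.N (a (x 2) (x 5) (p (x 3) (x 4))) (x 0) (x 1) 0 1)),
  (-1, (.PR (x 0) (.PL (.T (x 4) (x 2) (x 5) (x 1)) (x 3)))),
  (1, (.N (a (x 2) (x 3) (p (x 4) (x 5))) (x 0) (x 1) 2 0)),
  (-1, (.PR (x 1) (.T (x 3) (x 4) (p (x 0) (x 5)) (x 2)))),
  (-1, (.T (x 2) (x 5) (p (x 0) (x 4)) (p (x 1) (x 3)))),
  (1, (.T (p (p (x 3) (x 1)) (x 5)) (x 0) (x 4) (x 2))),
  (-1, (.PL (.N (a (x 2) (x 4) (x 5)) (x 0) (x 3) 0 2) (x 1))),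
  (-1, (.N (a (x 2) (x 4) (x 5)) (x 0) (p (x 1) (x 3)) 2 0)),
  (-1, (.PL (.T (x 0) (x 3) (p (x 4) (x 5)) (x 1)) (x 2))),
  (1, (.PR (x 0) (.T (x 1) (x 4) (x 3) (p (x 2) (x 5))))),
  (1, (.T (p (p (x 3) (x 2)) (x 4)) (x 0) (x 5) (x 1))),
  (1, (.T (x 1) (x 2) (p (p (x 5) (x 4)) (x 3)) (x 0))),
  (-1, (.PL (.N (a (x 2) (x 4) (x 5)) (x 0) (x 3) 0 4) (x 1))),
  (1, (.PL (.N (a (x 2) (x 4) (x 5)) (x 1) (x 3) 4 0) (x 0))),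
  (-1, (.PL (.N (a (x 2) (x 3) (x 4)) (x 0) (x 5) 0 1) (x 1)))]

def c2 : List (Int × Rl) := [
  (1, (.PL (.PL (.T (x 0) (x 2) (x 3) (x 4)) (x 1)) (x 5))),
  (1, (.N (p (a (x 0) (x 3) (x 5)) (x 4)) (x 1) (x 2) 0 0)),
  (1, (.PR (p (x 3) (x 5)) (.T (x 0) (x 4) (x 2) (x 1)))),
  (-1, (.PR (x 1) (.PR (x 5) (.T (x 0) (x 3) (x 4) (x 2))))),
  (-1, (.N (a (x 0) (x 4) (p (x 3) (x 2))) (x 1) (x 5) 0 5)),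
  (1, (.T (p (x 5) (x 0)) (p (x 4) (x 2)) (x 3) (x 1))),
  (1, (.T (x 0) (x 1) (x 2) (p (p (x 5) (x 3)) (x 4)))),
  (1, (.T (x 0) (p (p (x 2) (x 3)) (x 5)) (x 1) (x 4))),
  (-1, (.T (x 0) (p (x 3) (x 2)) (x 1) (p (x 4) (x 5)))),
  (1, (.PR (x 0) (.T (x 2) (x 1) (x 3) (p (x 4) (x 5))))),
  (-1, (.PR (x 2) (.PR (x 5) (.T (x 0) (x 1) (x 3) (x 4))))),
  (1, (.PL (.N (a (x 3) (x 4) (x 5)) (x 0) (x 1) 0 2) (x 2))),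
  (1, (.PR (x 2) (.T (x 1) (x 3) (p (x 5) (x 4)) (x 0)))),
  (1, (.PL (.T (x 2) (p (x 4) (x 3)) (x 5) (x 1)) (x 0))),
  (-1, (.N (a (x 1) (x 2) (x 5)) (x 0) (p (x 4) (x 3)) 1 0)),
  (-1, (.N (p (a (x 2) (x 4) (x 5)) (x 1)) (x 0) (x 3) 0 0)),
  (1, (.PR (p (x 3) (x 0)) (.T (x 1) (x 4) (x 2) (x 5)))),
  (1, (.T (p (p (x 0) (x 4)) (x 3)) (x 1) (x 5) (x 2))),
  (-1, (.T (x 0) (x 4) (p (x 2) (x 5)) (p (x 1) (x 3)))),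
  (-1, (.T (p (x 2) (x 5)) (p (x 1) (x 4)) (x 3) (x 0))),
  (-1, (.PR (x 0) (.T (x 1) (x 2) (x 5) (p (x 3) (x 4))))),
  (-1, (.N (a (x 1) (x 3) (p (x 4) (x 5))) (x 0) (x 2) 3 0)),
  (1, (.PL (.T (x 1) (x 5) (x 4) (x 2)) (p (x 0) (x 3)))),
  (-1, (.PL (.PL (.T (x 1) (x 3) (x 4) (x 5)) (x 2)) (x 0))),
  (1, (.PR (x 1) (.PR (x 2) (.T (x 0) (x 4) (x 3) (x 5))))),
  (1, (.PR (p (x 0) (x 4)) (.T (x 1) (x 2) (x 3) (x 5)))),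
  (-1, (.T (x 0) (x 5) (p (x 3) (x 2)) (p (x 1) (x 4)))),
  (1, (.N (a (x 2) (x 4) (x 5)) (p (x 0) (x 3)) (x 1) 3 0)),
  (-1, (.PL (.N (a (x 1) (x 3) (x 4)) (x 0) (x 5) 4 0) (x 2))),
  (1, (.N (a (x 2) (x 4) (x 5)) (p (x 3) (x 0)) (x 1) 0 0)),
  (1, (.PL (.PL (.T (x 0) (x 5) (x 1) (x 3)) (x 4)) (x 2))),
  (-1, (.PL (.T (x 3) (p (x 5) (x 2)) (x 4) (x 0)) (x 1))),
  (-1, (.PR (x 2) (.PL (.T (x 0) (x 1) (x 4) (x 5)) (x 3)))),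
  (-1, (.N (a (x 0) (x 4) (x 5)) (p (x 1) (x 3)) (x 2) 0 1)),
  (1, (.PL (.T (x 1) (x 4) (x 5) (x 2)) (p (x 3) (x 0)))),
  (-1, (.N (a (x 2) (x 5) (p (x 3) (x 4))) (x 0) (x 1) 0 5)),
  (-1, (.PL (.N (a (x 2) (x 3) (x 4)) (x 0) (x 5) 0 0) (x 1))),
  (-1, (.PP (a (x 0) (x 2) (x 4)) (a (x 1) (x 3) (x 5)) 1 0)),
  (1, (.PL (.PL (.T (x 3) (x 5) (x 1) (x 4)) (x 2)) (x 0))),
  (1, (.PL (.T (x 1) (p (x 4) (x 3)) (x 2) (x 5)) (x 0))),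
  (-1, (.PR (x 0) (.N (a (x 2) (x 3) (x 5)) (x 1) (x 4) 0 4))),
  (1, (.PR (x 0) (.PR (x 4) (.T (x 2) (x 5) (x 1) (x 3))))),
  (1, (.N (a (x 1) (x 3) (p (x 5) (x 2))) (x 0) (x 4) 0 4)),
  (1, (.PR (x 0) (.T (x 5) (x 2) (p (x 4) (x 3)) (x 1)))),
  (-1, (.PR (x 2) (.T (x 1) (x 3) (x 4) (p (x 5) (x 0))))),
  (1, (.PR (p (x 4) (x 1)) (.T (x 0) (x 3) (x 5) (x 2)))),
  (1, (.N (a (x 1) (x 3) (x 5)) (p (x 4) (x 0)) (x 2) 2 0)),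
  (-1, (.N (a (x 2) (x 3) (x 5)) (x 0) (p (x 1) (x 4)) 0 1)),
  (-1, (.PL (.PR (x 0) (.T (x 5) (x 2) (x 4) (x 3))) (x 1))),
  (-1, (.N (a (x 1) (x 4) (x 5)) (p (x 0) (x 3)) (x 2) 1 0)),
  (1, (.PL (.PL (.T (x 3) (x 4) (x 2) (x 5)) (x 0)) (x 1))),
  (-1, (.PR (x 0) (.PR (x 1) (.T (x 2) (x 3) (x 4) (x 5))))),
  (-1, (.T (p (x 5) (x 4)) (p (x 3) (x 0)) (x 2) (x 1))),
  (1, (.PL (.T (x 0) (x 4) (p (x 2) (x 5)) (x 3)) (x 1))),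
  (-1, (.PL (.T (x 0) (x 5) (x 4) (p (x 3) (x 2))) (x 1))),
  (1, (.PL (.T (x 2) (x 3) (p (x 5) (x 4)) (x 0)) (x 1))),
  (1, (.T (p (x 3) (x 0)) (x 2) (p (x 5) (x 4)) (x 1))),
  (1, (.PL (.PL (.T (x 0) (x 3) (x 2) (x 4)) (x 5)) (x 1))),
  (1, (.PR (x 1) (.T (x 2) (x 3) (x 5) (p (x 4) (x 0))))),
  (1, (.N (a (x 2) (x 3) (x 5)) (p (x 0) (x 4)) (x 1) 0 5)),
  (-1, (.N (p (a (x 0) (x 1) (x 3)) (x 4)) (x 2) (x 5) 1 0)),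
  (1, (.PL (.PL (.T (x 0) (x 3) (x 1) (x 5)) (x 4)) (x 2))),
  (-1, (.PR (x 1) (.T (x 0) (x 3) (x 2) (p (x 4) (x 5))))),
  (1, (.N (a (x 3) (x 5) (p (x 4) (x 1))) (x 0) (x 2) 0 4)),
  (1, (.PL (.T (x 1) (x 3) (x 5) (p (x 2) (x 4))) (x 0))),
  (1, (.PR (x 2) (.N (a (x 1) (x 4) (x 5)) (x 0) (x 3) 3 0))),
  (1, (.PL (.T (x 3) (x 2) (x 4) (p (x 5) (x 1))) (x 0))),
  (1, (.PL (.N (a (x 3) (x 4) (x 5)) (x 1) (x 2) 0 4) (x 0))),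
  (1, (.PR (x 0) (.N (a (x 2) (x 3) (x 4)) (x 1) (x 5) 2 0))),
  (-1, (.T (p (x 2) (x 5)) (p (x 1) (x 3)) (x 4) (x 0))),
  (-1, (.PR (x 0) (.T (x 3) (x 2) (x 4) (p (x 5) (x 1))))),
  (1, (.PL (.T (x 2) (p (x 5) (x 4)) (x 0) (x 3)) (x 1))),
  (-1, (.N (a (x 1) (x 3) (x 5)) (x 0) (p (x 2) (x 4)) 0 0)),
  (1, (.N (a (x 2) (x 3) (p (x 1) (x 4))) (x 0) (x 5) 0 4)),
  (-1, (.PR (x 0) (.T (x 1) (x 5) (x 2) (p (x 3) (x 4))))),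
  (1, (.PL (.T (x 2) (x 4) (x 0) (x 3)) (p (x 1) (x 5)))),
  (-1, (.T (p (x 2) (x 4)) (p (x 5) (x 3)) (x 0) (x 1))),
  (1, (.N (a (x 2) (x 3) (p (x 1) (x 5))) (x 0) (x 4) 0 2)),
  (-1, (.PL (.N (a (x 3) (x 4) (x 5)) (x 0) (x 1) 0 0) (x 2))),
  (1, (.N (a (x 1) (x 2) (p (x 3) (x 4))) (x 0) (x 5) 0 5)),
  (-1, (.PL (.T (x 0) (x 4) (x 5) (p (x 3) (x 2))) (x 1))),
  (-1, (.PP (a (x 0) (x 3) (x 4)) (a (x 1) (x 2) (x 5)) 0 0)),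
  (-1, (.PL (.PR (x 2) (.T (x 5) (x 1) (x 4) (x 3))) (x 0))),
  (-1, (.PL (.T (x 2) (x 5) (p (x 0) (x 4)) (x 3)) (x 1))),
  (-1, (.N (a (x 0) (x 3) (x 5)) (p (x 4) (x 1)) (x 2) 0 0)),
  (-1, (.PR (x 2) (.N (a (x 3) (x 4) (x 5)) (x 0) (x 1) 0 1))),
  (-1, (.PR (x 1) (.T (x 0) (p (x 5) (x 3)) (x 2) (x 4)))),
  (-1, (.T (p (x 4) (x 5)) (p (x 3) (x 1)) (x 2) (x 0))),
  (-1, (.PR (p (x 4) (x 3)) (.T (x 0) (x 5) (x 2) (x 1)))),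
  (-1, (.PL (.N (a (x 0) (x 3) (x 4)) (x 1) (x 2) 2 0) (x 5))),
  (-1, (.PR (x 2) (.T (x 1) (x 5) (x 4) (p (x 3) (x 0))))),
  (1, (.PL (.PL (.T (x 4) (x 3) (x 5) (x 1)) (x 0)) (x 2))),
  (1, (.PL (.N (a (x 2) (x 3) (x 4)) (x 1) (x 5) 4 0) (x 0))),
  (1, (.PR (x 1) (.T (x 0) (x 4) (x 5) (p (x 2) (x 3))))),
  (1, (.PL (.T (x 1) (x 2) (p (x 5) (x 4)) (x 3)) (x 0))),
  (-1, (.T (p (x 5) (x 2)) (p (x 3) (x 0)) (x 4) (x 1))),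
  (-1, (.PR (x 0) (.PL (.T (x 1) (x 2) (x 5) (x 3)) (x 4)))),
  (1, (.T (x 2) (p (x 1) (x 3)) (p (x 4) (x 5)) (x 0))),
  (-1, (.N (a (x 1) (x 3) (x 4)) (p (x 5) (x 0)) (x 2) 2 0)),
  (-1, (.PL (.T (x 2) (x 1) (x 5) (p (x 4) (x 3))) (x 0)))]

def c3 : List (Int × Rl) := [
  (-1, (.PR (p (x 4) (x 5)) (.T (x 1) (x 2) (x 3) (x 0)))),
  (-1, (.T (p (p (x 4) (x 3)) (x 2)) (x 1) (x 5) (x 0))),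
  (-1, (.N (a (x 1) (x 2) (p (x 4) (x 5))) (x 0) (x 3) 0 2)),
  (-1, (.PR (p (x 5) (x 1)) (.T (x 0) (x 3) (x 4) (x 2)))),
  (1, (.PL (.T (x 3) (p (x 0) (x 4)) (x 1) (x 5)) (x 2))),
  (1, (.N (p (x 3) (a (x 0) (x 4) (x 5))) (x 1) (x 2) 2 0)),
  (1, (.PR (x 1) (.PR (x 5) (.T (x 0) (x 4) (x 2) (x 3))))),
  (1, (.T (x 0) (x 2) (x 1) (p (p (x 3) (x 4)) (x 5)))),
  (1, (.PR (x 0) (.PL (.T (x 3) (x 4) (x 5) (x 1)) (x 2)))),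
  (1, (.N (a (x 0) (x 4) (x 5)) (x 1) (p (x 3) (x 2)) 0 4)),
  (-1, (.PR (x 1) (.PR (x 0) (.T (x 3) (x 5) (x 2) (x 4))))),
  (-1, (.PR (x 2) (.T (p (x 0) (x 4)) (x 1) (x 5) (x 3)))),
  (-1, (.PL (.T (x 2) (x 4) (x 5) (x 0)) (p (x 1) (x 3)))),
  (1, (.PR (x 1) (.T (x 2) (x 0) (x 4) (p (x 3) (x 5))))),
  (-1, (.T (p (x 2) (x 0)) (p (x 4) (x 3)) (x 5) (x 1))),
  (1, (.PL (.N (a (x 1) (x 3) (x 4)) (x 2) (x 5) 0 0) (x 0))),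
  (-1, (.PR (p (x 2) (x 3)) (.T (x 0) (x 5) (x 4) (x 1)))),
  (1, (.PR (x 1) (.PL (.T (x 2) (x 4) (x 0) (x 5)) (x 3)))),
  (1, (.PR (p (x 1) (x 3)) (.T (x 0) (x 2) (x 4) (x 5)))),
  (-1, (.N (a (x 1) (x 3) (x 5)) (x 0) (p (x 4) (x 2)) 0 1)),
  (-1, (.PL (.T (x 1) (x 4) (x 2) (p (x 5) (x 3))) (x 0))),
  (-1, (.N (p (a (x 1) (x 3) (x 4)) (x 2)) (x 0) (x 5) 1 0)),
  (-1, (.T (p (p (x 1) (x 3)) (x 5)) (x 0) (x 4) (x 2))),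
  (-1, (.N (a (x 1) (x 2) (x 5)) (x 0) (p (x 3) (x 4)) 0 0)),
  (1, (.T (x 1) (x 2) (p (p (x 5) (x 3)) (x 4)) (x 0))),
  (1, (.PL (.PL (.T (x 2) (x 5) (x 1) (x 3)) (x 4)) (x 0))),
  (1, (.T (x 0) (x 3) (p (x 2) (x 5)) (p (x 4) (x 1)))),
  (1, (.PL (.N (a (x 1) (x 4) (x 5)) (x 2) (x 3) 3 0) (x 0))),
  (-1, (.PL (.N (a (x 1) (x 3) (x 5)) (x 2) (x 4) 0 4) (x 0))),
  (1, (.T (p (x 0) (x 5)) (p (x 3) (x 2)) (x 4) (x 1))),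
  (1, (.PL (.PR (x 0) (.T (x 3) (x 4) (x 5) (x 2))) (x 1))),
  (-1, (.N (a (x 4) (x 5) (p (x 3) (x 0))) (x 1) (x 2) 0 5)),
  (-1, (.PL (.PL (.T (x 4) (x 1) (x 5) (x 0)) (x 3)) (x 2))),
  (-1, (.PL (.T (x 3) (p (x 5) (x 0)) (x 2) (x 4)) (x 1))),
  (-1, (.PR (x 1) (.T (x 0) (x 3) (p (x 5) (x 4)) (x 2)))),
  (-1, (.N (a (x 2) (x 3) (p (x 0) (x 5))) (x 1) (x 4) 0 5)),
  (1, (.PR (x 1) (.PR (x 0) (.T (x 2) (x 3) (x 5) (x 4))))),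
  (-1, (.PR (p (x 2) (x 4)) (.T (x 1) (x 5) (x 0) (x 3)))),
  (-1, (.PL (.PL (.T (x 1) (x 4) (x 5) (x 2)) (x 0)) (x 3))),
  (-1, (.PL (.T (x 1) (x 2) (x 3) (x 0)) (p (x 4) (x 5)))),
  (1, (.PL (.T (p (x 4) (x 3)) (x 1) (x 5) (x 0)) (x 2))),
  (-1, (.N (a (x 1) (x 2) (x 3)) (x 0) (p (x 4) (x 5)) 0 5)),
  (1, (.PL (.T (x 0) (p (x 4) (x 3)) (x 1) (x 5)) (x 2))),
  (-1, (.T (x 1) (x 3) (p (x 0) (x 2)) (p (x 4) (x 5)))),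
  (-1, (.PL (.T (x 3) (p (x 4) (x 0)) (x 2) (x 5)) (x 1))),
  (1, (.PL (.N (a (x 1) (x 4) (x 5)) (x 2) (x 3) 0 4) (x 0))),
  (-1, (.T (x 0) (p (x 3) (x 4)) (x 1) (p (x 5) (x 2)))),
  (-1, (.N (p (a (x 3) (x 4) (x 5)) (x 2)) (x 0) (x 1) 0 0)),
  (1, (.PL (.T (x 0) (x 3) (x 1) (p (x 5) (x 4))) (x 2))),
  (1, (.PR (p (x 3) (x 4)) (.T (x 1) (x 2) (x 5) (x 0)))),
  (1, (.PR (x 0) (.N (a (x 1) (x 3) (x 4)) (x 2) (x 5) 0 0))),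
  (1, (.PL (.N (a (x 3) (x 4) (x 5)) (x 1) (x 2) 2 0) (x 0))),
  (1, (.N (p (a (x 2) (x 3) (x 4)) (x 0)) (x 1) (x 5) 1 0)),
  (-1, (.PR (x 0) (.N (a (x 3) (x 4) (x 5)) (x 1) (x 2) 2 0))),
  (-1, (.PR (x 0) (.T (x 2) (x 4) (x 5) (p (x 3) (x 1))))),
  (-1, (.T (p (x 4) (x 0)) (p (x 1) (x 5)) (x 3) (x 2))),
  (-1, (.PL (.T (x 3) (x 1) (p (x 5) (x 4)) (x 0)) (x 2))),
  (1, (.PR (p (x 0) (x 4)) (.T (x 1) (x 3) (x 5) (x 2)))),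
  (1, (.N (p (a (x 0) (x 2) (x 4)) (x 5)) (x 1) (x 3) 1 0)),
  (-1, (.N (a (x 3) (x 4) (x 5)) (x 0) (p (x 2) (x 1)) 0 5)),
  (-1, (.PL (.T (x 1) (p (x 5) (x 3)) (x 0) (x 4)) (x 2))),
  (-1, (.PR (x 1) (.T (x 0) (x 2) (x 4) (p (x 5) (x 3))))),
  (-1, (.T (p (p (x 5) (x 0)) (x 4)) (x 2) (x 3) (x 1))),
  (-1, (.PR (x 0) (.PL (.T (x 2) (x 3) (x 4) (x 5)) (x 1)))),
  (-1, (.T (p (x 5) (x 2)) (x 0) (x 1) (p (x 3) (x 4)))),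
  (1, (.N (p (a (x 0) (x 2) (x 5)) (x 3)) (x 1) (x 4) 0 3)),
  (1, (.PL (.T (x 0) (x 2) (x 5) (x 4)) (p (x 1) (x 3)))),
  (1, (.PL (.PL (.T (x 1) (x 5) (x 4) (x 2)) (x 3)) (x 0))),
  (1, (.PL (.T (p (x 5) (x 1)) (x 3) (x 4) (x 2)) (x 0))),
  (1, (.PR (x 2) (.PR (x 1) (.T (x 0) (x 4) (x 5) (x 3))))),
  (1, (.N (a (x 0) (x 3) (p (x 5) (x 4))) (x 1) (x 2) 0 5)),
  (-1, (.PL (.PL (.T (x 3) (x 5) (x 0) (x 4)) (x 2)) (x 1))),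
  (1, (.PL (.T (x 2) (p (x 5) (x 3)) (x 0) (x 4)) (x 1))),
  (1, (.PR (x 1) (.T (p (x 5) (x 3)) (x 2) (x 4) (x 0)))),
  (1, (.PL (.T (x 1) (p (x 3) (x 5)) (x 0) (x 4)) (x 2))),
  (-1, (.N (a (x 0) (x 3) (x 5)) (x 1) (p (x 4) (x 2)) 3 0)),
  (1, (.PR (x 0) (.N (a (x 2) (x 3) (x 4)) (x 1) (x 5) 0 3))),
  (-1, (.T (p (x 1) (x 5)) (p (x 2) (x 4)) (x 3) (x 0))),
  (-1, (.N (p (a (x 0) (x 3) (x 5)) (x 4)) (x 1) (x 2) 0 2)),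
  (1, (.PR (x 0) (.PL (.T (x 4) (x 3) (x 5) (x 1)) (x 2)))),
  (-1, (.PL (.N (a (x 1) (x 3) (x 4)) (x 2) (x 5) 0 1) (x 0))),
  (-1, (.T (p (x 1) (x 4)) (p (x 5) (x 3)) (x 2) (x 0))),
  (-1, (.N (a (x 1) (x 3) (p (x 4) (x 5))) (x 0) (x 2) 1 0)),
  (-1, (.T (x 1) (p (x 3) (x 2)) (p (x 4) (x 5)) (x 0))),
  (-1, (.N (p (a (x 2) (x 3) (x 4)) (x 5)) (x 0) (x 1) 0 4)),
  (1, (.PR (x 1) (.T (x 3) (p (x 5) (x 0)) (x 4) (x 2)))),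
  (1, (.PR (x 0) (.T (x 2) (x 5) (x 3) (p (x 1) (x 4))))),
  (-1, (.N (a (x 1) (x 3) (x 4)) (x 0) (p (x 5) (x 2)) 3 0)),
  (1, (.PL (.T (x 0) (x 3) (x 1) (x 5)) (p (x 4) (x 2)))),
  (-1, (.PL (.T (x 1) (x 3) (p (x 4) (x 5)) (x 2)) (x 0))),
  (-1, (.PR (x 0) (.PL (.T (x 3) (x 5) (x 1) (x 4)) (x 2)))),
  (1, (.N (a (x 1) (x 3) (x 5)) (x 0) (p (x 4) (x 2)) 0 4)),
  (-1, (.N (a (x 2) (x 3) (x 5)) (p (x 4) (x 0)) (x 1) 0 4)),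
  (1, (.N (a (x 0) (x 3) (x 4)) (p (x 1) (x 5)) (x 2) 0 3)),
  (-1, (.PL (.PL (.T (x 3) (x 4) (x 5) (x 2)) (x 1)) (x 0))),
  (1, (.T (p (x 4) (x 2)) (p (x 0) (x 3)) (x 5) (x 1))),
  (1, (.N (a (x 0) (x 4) (x 5)) (x 1) (p (x 3) (x 2)) 0 2)),
  (-1, (.T (x 2) (x 3) (p (x 1) (x 4)) (p (x 0) (x 5)))),
  (-1, (.N (a (x 3) (x 4) (p (x 5) (x 0))) (x 1) (x 2) 0 1)),
  (-1, (.PR (x 2) (.N (a (x 1) (x 3) (x 4)) (x 0) (x 5) 4 0)))]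

def c4 : List (Int × Rl) := [
  (-1, (.T (x 1) (x 3) (x 2) (p (p (x 4) (x 5)) (x 0)))),
  (1, (.N (a (x 1) (x 2) (x 3)) (x 0) (p (x 5) (x 4)) 0 3)),
  (1, (.PL (.T (x 3) (p (x 4) (x 1)) (x 2) (x 5)) (x 0))),
  (-1, (.N (a (x 0) (x 3) (x 4)) (p (x 1) (x 5)) (x 2) 0 1)),
  (-1, (.PR (x 1) (.N (a (x 2) (x 4) (x 5)) (x 0) (x 3) 0 0))),
  (-1, (.PL (.T (x 1) (x 5) (x 2) (x 4)) (p (x 3) (x 0)))),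
  (-1, (.N (a (x 1) (x 2) (x 4)) (x 0) (p (x 5) (x 3)) 2 0)),
  (-1, (.PR (x 0) (.N (a (x 3) (x 4) (x 5)) (x 1) (x 2) 5 0))),
  (1, (.PR (x 0) (.N (a (x 2) (x 4) (x 5)) (x 1) (x 3) 0 4))),
  (-1, (.PR (x 2) (.PL (.T (x 0) (x 4) (x 3) (x 5)) (x 1)))),
  (1, (.PL (.N (a (x 0) (x 3) (x 4)) (x 1) (x 5) 0 4) (x 2))),
  (1, (.T (x 0) (x 5) (p (p (x 2) (x 3)) (x 4)) (x 1))),
  (-1, (.PR (x 0) (.PR (x 1) (.T (x 3) (x 5) (x 2) (x 4))))),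
  (-1, (.PR (p (x 0) (x 2)) (.T (x 1) (x 5) (x 3) (x 4)))),
  (1, (.PL (.T (x 3) (p (x 5) (x 1)) (x 4) (x 0)) (x 2))),
  (1, (.T (p (x 2) (x 4)) (p (x 0) (x 5)) (x 3) (x 1))),
  (-1, (.N (a (x 2) (x 4) (x 5)) (x 0) (p (x 3) (x 1)) 0 2)),
  (-1, (.PR (x 0) (.N (a (x 1) (x 2) (x 5)) (x 3) (x 4) 1 0))),
  (-1, (.PR (x 1) (.PR (x 0) (.T (x 3) (x 4) (x 5) (x 2))))),
  (1, (.PL (.T (x 0) (x 4) (x 5) (x 1)) (p (x 3) (x 2)))),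
  (-1, (.PL (.N (a (x 3) (x 4) (x 5)) (x 1) (x 2) 0 3) (x 0))),
  (-1, (.PL (.T (x 2) (p (x 5) (x 4)) (x 3) (x 1)) (x 0))),
  (1, (.N (a (x 3) (x 4) (x 5)) (p (x 0) (x 2)) (x 1) 0 4)),
  (1, (.T (x 1) (p (p (x 5) (x 3)) (x 4)) (x 0) (x 2))),
  (-1, (.T (x 1) (p (x 2) (x 3)) (x 0) (p (x 4) (x 5)))),
  (-1, (.N (a (x 1) (x 2) (x 3)) (x 0) (p (x 5) (x 4)) 0 2)),
  (1, (.N (a (x 1) (x 3) (x 4)) (p (x 0) (x 5)) (x 2) 0 3)),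
  (-1, (.PR (x 0) (.T (x 1) (x 2) (x 4) (p (x 3) (x 5))))),
  (1, (.N (a (x 0) (x 3) (x 4)) (x 1) (p (x 5) (x 2)) 0 2)),
  (-1, (.T (p (x 1) (x 2)) (p (x 3) (x 5)) (x 4) (x 0))),
  (-1, (.PR (x 0) (.T (p (x 4) (x 3)) (x 1) (x 5) (x 2)))),
  (1, (.T (x 0) (p (x 4) (x 5)) (x 1) (p (x 2) (x 3)))),
  (-1, (.T (p (x 0) (x 5)) (p (x 4) (x 3)) (x 2) (x 1))),
  (1, (.PL (.PL (.T (x 2) (x 5) (x 1) (x 4)) (x 0)) (x 3))),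
  (-1, (.N (p (x 2) (a (x 0) (x 4) (x 5))) (x 1) (x 3) 4 0)),
  (1, (.PR (x 1) (.T (x 3) (x 2) (p (x 5) (x 4)) (x 0)))),
  (1, (.T (x 0) (x 5) (p (x 3) (x 1)) (p (x 4) (x 2)))),
  (-1, (.N (p (x 2) (a (x 1) (x 4) (x 5))) (x 0) (x 3) 1 0)),
  (-1, (.T (x 2) (p (p (x 0) (x 5)) (x 3)) (x 4) (x 1))),
  (1, (.PP (a (x 0) (x 1) (x 5)) (a (x 2) (x 3) (x 4)) 0 0)),
  (1, (.PL (.T (x 0) (x 4) (x 1) (x 5)) (p (x 2) (x 3)))),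
  (1, (.N (a (x 0) (x 3) (x 4)) (p (x 1) (x 5)) (x 2) 0 5)),
  (1, (.T (p (x 3) (x 5)) (p (x 2) (x 4)) (x 1) (x 0))),
  (1, (.T (x 1) (x 4) (p (x 0) (x 5)) (p (x 2) (x 3)))),
  (1, (.PR (x 2) (.PR (x 5) (.T (x 0) (x 3) (x 1) (x 4))))),
  (1, (.PR (x 1) (.N (a (x 0) (x 4) (x 5)) (x 2) (x 3) 4 0))),
  (-1, (.PR (p (x 1) (x 3)) (.T (x 2) (x 5) (x 0) (x 4)))),
  (1, (.PL (.T (x 0) (x 3) (x 2) (p (x 4) (x 5))) (x 1))),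
  (-1, (.N (p (a (x 1) (x 3) (x 4)) (x 5)) (x 0) (x 2) 0 1)),
  (1, (.N (a (x 2) (x 4) (p (x 5) (x 3))) (x 0) (x 1) 0 5)),
  (-1, (.PR (x 1) (.N (a (x 0) (x 3) (x 4)) (x 2) (x 5) 0 3))),
  (-1, (.PR (x 2) (.PR (x 0) (.T (x 1) (x 3) (x 5) (x 4))))),
  (1, (.T (p (x 2) (x 5)) (x 1) (p (x 3) (x 4)) (x 0))),
  (1, (.PL (.PL (.T (x 1) (x 5) (x 3) (x 2)) (x 4)) (x 0))),
  (1, (.N (p (a (x 2) (x 3) (x 4)) (x 5)) (x 0) (x 1) 3 0)),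
  (1, (.N (a (x 0) (x 2) (x 3)) (x 1) (p (x 5) (x 4)) 0 0)),
  (1, (.T (p (p (x 4) (x 3)) (x 5)) (x 1) (x 2) (x 0))),
  (1, (.T (x 1) (p (x 2) (x 5)) (p (x 4) (x 3)) (x 0))),
  (-1, (.N (p (a (x 0) (x 3) (x 4)) (x 1)) (x 2) (x 5) 1 0)),
  (-1, (.PL (.PL (.T (x 2) (x 1) (x 3) (x 4)) (x 0)) (x 5))),
  (1, (.N (a (x 2) (x 3) (x 5)) (p (x 0) (x 4)) (x 1) 2 0)),
  (-1, (.PL (.T (x 0) (x 3) (x 1) (x 2)) (p (x 4) (x 5)))),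
  (1, (.PR (x 2) (.T (x 0) (x 1) (x 3) (p (x 5) (x 4))))),
  (-1, (.PL (.N (a (x 1) (x 4) (x 5)) (x 0) (x 3) 0 5) (x 2))),
  (-1, (.N (a (x 2) (x 4) (x 5)) (p (x 3) (x 0)) (x 1) 4 0)),
  (1, (.PR (x 0) (.PL (.T (x 1) (x 5) (x 3) (x 2)) (x 4)))),
  (-1, (.PR (x 1) (.N (a (x 0) (x 4) (x 5)) (x 2) (x 3) 0 5))),
  (1, (.N (a (x 0) (x 2) (p (x 5) (x 4))) (x 1) (x 3) 0 5)),
  (-1, (.N (a (x 0) (x 3) (x 4)) (x 1) (p (x 2) (x 5)) 0 5)),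
  (-1, (.PL (.PR (x 1) (.T (x 2) (x 4) (x 5) (x 3))) (x 0))),
  (1, (.PL (.PL (.T (x 2) (x 0) (x 4) (x 5)) (x 1)) (x 3))),
  (1, (.N (a (x 1) (x 4) (x 5)) (p (x 0) (x 3)) (x 2) 0 3)),
  (1, (.PR (x 1) (.T (x 0) (p (x 4) (x 5)) (x 2) (x 3)))),
  (-1, (.N (a (x 3) (x 4) (p (x 2) (x 1))) (x 0) (x 5) 0 5)),
  (-1, (.T (p (x 0) (x 4)) (p (x 1) (x 5)) (x 3) (x 2))),
  (1, (.PR (x 1) (.T (x 2) (p (x 3) (x 5)) (x 0) (x 4)))),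
  (1, (.PR (x 2) (.PR (x 0) (.T (x 1) (x 5) (x 3) (x 4))))),
  (1, (.PR (x 1) (.PR (x 5) (.T (x 0) (x 2) (x 4) (x 3))))),
  (1, (.T (p (p (x 3) (x 1)) (x 5)) (x 2) (x 4) (x 0))),
  (-1, (.PL (.PL (.T (x 2) (x 5) (x 4) (x 3)) (x 0)) (x 1))),
  (1, (.T (x 1) (p (p (x 5) (x 3)) (x 4)) (x 2) (x 0))),
  (-1, (.PR (p (x 3) (x 2)) (.T (x 0) (x 1) (x 4) (x 5)))),
  (-1, (.PL (.T (x 2) (x 3) (x 5) (p (x 4) (x 0))) (x 1))),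
  (1, (.PR (x 0) (.T (x 2) (x 1) (x 3) (p (x 5) (x 4))))),
  (-1, (.T (x 1) (p (p (x 4) (x 3)) (x 5)) (x 0) (x 2))),
  (1, (.N (p (a (x 2) (x 3) (x 5)) (x 0)) (x 1) (x 4) 0 0)),
  (1, (.PR (x 1) (.PL (.T (x 2) (x 5) (x 0) (x 3)) (x 4)))),
  (-1, (.N (a (x 2) (x 3) (x 5)) (x 0) (p (x 4) (x 1)) 0 4)),
  (-1, (.PR (p (x 1) (x 3)) (.T (x 0) (x 5) (x 2) (x 4)))),
  (-1, (.PR (x 1) (.PR (x 3) (.T (x 4) (x 2) (x 5) (x 0))))),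
  (1, (.PL (.T (x 2) (x 3) (x 5) (x 0)) (p (x 4) (x 1)))),
  (-1, (.PL (.T (x 0) (x 4) (x 5) (x 3)) (p (x 2) (x 1)))),
  (-1, (.N (a (x 2) (x 4) (x 5)) (x 0) (p (x 1) (x 3)) 0 3)),
  (1, (.PL (.PR (x 1) (.T (x 2) (x 5) (x 3) (x 4))) (x 0))),
  (-1, (.T (x 0) (x 5) (x 2) (p (p (x 4) (x 3)) (x 1)))),
  (1, (.N (a (x 2) (x 3) (x 4)) (p (x 5) (x 0)) (x 1) 5 0)),
  (-1, (.T (p (x 2) (x 3)) (p (x 5) (x 4)) (x 1) (x 0))),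
  (1, (.PR (p (x 2) (x 1)) (.T (x 0) (x 3) (x 5) (x 4)))),
  (1, (.PL (.N (a (x 1) (x 3) (x 4)) (x 0) (x 5) 0 0) (x 2))),
  (-1, (.T (p (x 1) (x 4)) (p (x 0) (x 5)) (x 3) (x 2)))]

def c5 : List (Int × Rl) := [
  (1, (.PR (x 1) (.PR (x 4) (.T (x 0) (x 5) (x 2) (x 3))))),
  (-1, (.PR (x 2) (.PL (.T (x 0) (x 5) (x 3) (x 1)) (x 4)))),
  (1, (.T (p (x 4) (x 1)) (p (x 3) (x 5)) (x 2) (x 0))),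
  (-1, (.PL (.T (x 0) (x 3) (x 4) (x 5)) (p (x 1) (x 2)))),
  (-1, (.PR (x 2) (.N (a (x 3) (x 4) (x 5)) (x 0) (x 1) 3 0))),
  (1, (.PR (x 1) (.PL (.T (x 0) (x 2) (x 4) (x 3)) (x 5)))),
  (-1, (.N (a (x 2) (x 4) (x 5)) (x 0) (p (x 1) (x 3)) 0 0)),
  (1, (.N (a (x 3) (x 4) (x 5)) (p (x 0) (x 2)) (x 1) 0 2)),
  (-1, (.T (p (x 3) (x 2)) (p (x 1) (x 4)) (x 5) (x 0))),
  (-1, (.PL (.N (a (x 2) (x 3) (x 4)) (x 0) (x 1) 3 0) (x 5))),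
  (1, (.PR (x 0) (.PL (.T (x 1) (x 5) (x 4) (x 2)) (x 3)))),
  (1, (.T (x 0) (x 5) (p (x 3) (x 4)) (p (x 2) (x 1)))),
  (1, (.T (x 1) (x 5) (p (x 2) (x 3)) (p (x 4) (x 0)))),
  (1, (.PR (x 1) (.N (a (x 0) (x 4) (x 5)) (x 2) (x 3) 0 1))),
  (1, (.PL (.PR (x 4) (.T (x 2) (x 3) (x 5) (x 1))) (x 0))),
  (-1, (.N (p (a (x 1) (x 2) (x 3)) (x 4)) (x 0) (x 5) 0 3)),
  (1, (.N (p (a (x 1) (x 2) (x 3)) (x 4)) (x 0) (x 5) 1 0)),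
  (-1, (.PL (.PL (.T (x 2) (x 5) (x 0) (x 4)) (x 3)) (x 1))),
  (1, (.PL (.T (x 0) (x 1) (x 3) (p (x 4) (x 5))) (x 2))),
  (1, (.PR (x 2) (.PR (x 1) (.T (x 3) (x 0) (x 4) (x 5))))),
  (-1, (.N (a (x 2) (x 3) (p (x 5) (x 0))) (x 1) (x 4) 0 5)),
  (-1, (.N (p (a (x 0) (x 3) (x 4)) (x 5)) (x 1) (x 2) 2 0)),
  (1, (.N (a (x 1) (x 4) (x 5)) (x 0) (p (x 3) (x 2)) 2 0)),
  (-1, (.PP (a (x 0) (x 4) (x 5)) (a (x 1) (x 2) (x 3)) 0 4)),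
  (-1, (.PR (x 1) (.N (a (x 2) (x 4) (x 5)) (x 0) (x 3) 0 4))),
  (-1, (.PR (p (x 4) (x 5)) (.T (x 0) (x 2) (x 3) (x 1)))),
  (-1, (.T (x 1) (x 3) (p (x 2) (x 4)) (p (x 5) (x 0)))),
  (1, (.T (p (x 2) (x 4)) (p (x 0) (x 3)) (x 5) (x 1))),
  (-1, (.PR (x 2) (.T (x 0) (x 4) (p (x 5) (x 3)) (x 1)))),
  (1, (.PR (x 2) (.T (x 1) (p (x 5) (x 3)) (x 0) (x 4)))),
  (-1, (.N (p (a (x 3) (x 4) (x 5)) (x 1)) (x 0) (x 2) 0 3)),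
  (1, (.N (p (a (x 0) (x 3) (x 4)) (x 2)) (x 1) (x 5) 3 0)),
  (1, (.N (a (x 0) (x 3) (x 5)) (p (x 4) (x 1)) (x 2) 0 2)),
  (-1, (.PL (.PL (.T (x 0) (x 4) (x 2) (x 5)) (x 3)) (x 1))),
  (-1, (.PR (x 1) (.PL (.T (x 0) (x 3) (x 5) (x 2)) (x 4)))),
  (-1, (.PR (x 1) (.T (x 0) (x 2) (p (x 5) (x 4)) (x 3)))),
  (1, (.T (x 2) (x 5) (p (p (x 3) (x 1)) (x 4)) (x 0))),
  (1, (.N (a (x 0) (x 2) (x 4)) (x 1) (p (x 5) (x 3)) 0 1)),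
  (-1, (.PR (x 1) (.T (x 2) (x 5) (p (x 4) (x 3)) (x 0)))),
  (1, (.T (x 1) (x 5) (p (p (x 0) (x 4)) (x 3)) (x 2))),
  (1, (.PL (.T (x 3) (p (x 4) (x 2)) (x 5) (x 1)) (x 0))),
  (1, (.N (a (x 3) (x 4) (x 5)) (p (x 0) (x 2)) (x 1) 0 1)),
  (-1, (.PL (.T (x 0) (x 5) (x 1) (x 4)) (p (x 2) (x 3)))),
  (-1, (.T (x 0) (x 4) (p (p (x 3) (x 5)) (x 1)) (x 2))),
  (-1, (.PR (x 2) (.T (x 0) (x 1) (p (x 3) (x 5)) (x 4)))),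
  (1, (.PR (x 1) (.T (x 0) (x 3) (p (x 2) (x 4)) (x 5)))),
  (-1, (.PL (.T (x 0) (p (x 5) (x 4)) (x 1) (x 3)) (x 2))),
  (-1, (.N (a (x 1) (x 2) (x 4)) (x 0) (p (x 5) (x 3)) 3 0)),
  (-1, (.N (a (x 0) (x 2) (x 3)) (x 1) (p (x 4) (x 5)) 0 1)),
  (1, (.PL (.T (x 1) (x 5) (p (x 4) (x 0)) (x 3)) (x 2))),
  (1, (.PL (.PL (.T (x 3) (x 5) (x 2) (x 4)) (x 0)) (x 1))),
  (1, (.PR (x 2) (.N (a (x 3) (x 4) (x 5)) (x 0) (x 1) 0 2))),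
  (-1, (.T (p (x 4) (x 1)) (p (x 2) (x 5)) (x 3) (x 0))),
  (-1, (.PL (.T (x 1) (x 5) (p (x 2) (x 4)) (x 3)) (x 0))),
  (-1, (.PL (.T (x 3) (x 2) (x 4) (x 5)) (p (x 0) (x 1)))),
  (1, (.T (x 0) (x 4) (p (p (x 2) (x 5)) (x 3)) (x 1))),
  (1, (.T (x 0) (x 5) (p (x 4) (x 1)) (p (x 2) (x 3)))),
  (-1, (.T (p (x 5) (x 2)) (p (x 4) (x 0)) (x 3) (x 1))),
  (1, (.PL (.T (x 0) (x 4) (x 2) (p (x 5) (x 3))) (x 1))),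
  (-1, (.PR (p (x 2) (x 4)) (.T (x 1) (x 3) (x 5) (x 0)))),
  (1, (.T (x 1) (p (x 4) (x 5)) (p (x 3) (x 2)) (x 0))),
  (1, (.PL (.T (x 2) (x 4) (x 3) (p (x 0) (x 5))) (x 1))),
  (-1, (.PR (x 2) (.PR (x 3) (.T (x 0) (x 4) (x 1) (x 5))))),
  (-1, (.PR (x 0) (.T (x 3) (p (x 2) (x 4)) (x 5) (x 1)))),
  (-1, (.PL (.T (x 0) (x 1) (x 2) (x 3)) (p (x 5) (x 4)))),
  (1, (.PR (x 0) (.PL (.T (x 2) (x 5) (x 3) (x 4)) (x 1)))),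
  (1, (.N (p (a (x 3) (x 4) (x 5)) (x 2)) (x 0) (x 1) 0 4)),
  (1, (.N (p (a (x 3) (x 4) (x 5)) (x 0)) (x 1) (x 2) 0 0)),
  (1, (.PR (x 1) (.N (a (x 2) (x 3) (x 4)) (x 0) (x 5) 0 4))),
  (1, (.N (a (x 0) (x 2) (x 3)) (x 1) (p (x 5) (x 4)) 0 4)),
  (1, (.PL (.T (x 3) (p (x 2) (x 5)) (x 4) (x 0)) (x 1))),
  (-1, (.T (x 2) (x 3) (p (x 4) (x 0)) (p (x 1) (x 5)))),
  (1, (.PR (x 0) (.T (x 3) (x 1) (x 5) (p (x 4) (x 2))))),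
  (-1, (.PL (.T (x 3) (p (x 4) (x 0)) (x 5) (x 2)) (x 1))),
  (-1, (.PR (x 2) (.T (x 0) (x 4) (x 3) (p (x 1) (x 5))))),
  (1, (.T (x 0) (x 5) (p (x 2) (x 4)) (p (x 3) (x 1)))),
  (-1, (.PL (.PR (x 2) (.T (x 3) (x 4) (x 5) (x 1))) (x 0))),
  (-1, (.T (x 1) (p (x 5) (x 3)) (p (x 2) (x 4)) (x 0))),
  (1, (.PR (x 0) (.T (x 1) (x 5) (p (x 3) (x 4)) (x 2)))),
  (1, (.PL (.T (p (x 4) (x 1)) (x 3) (x 5) (x 2)) (x 0))),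
  (-1, (.PL (.PL (.T (x 0) (x 4) (x 3) (x 2)) (x 5)) (x 1))),
  (-1, (.PR (x 2) (.PR (x 0) (.T (x 4) (x 3) (x 5) (x 1))))),
  (1, (.PL (.T (x 0) (x 5) (x 2) (x 1)) (p (x 4) (x 3)))),
  (1, (.PL (.T (x 1) (x 3) (p (x 2) (x 5)) (x 4)) (x 0))),
  (1, (.N (a (x 0) (x 2) (x 3)) (x 1) (p (x 5) (x 4)) 1 0)),
  (-1, (.PR (x 0) (.T (x 1) (x 3) (x 4) (p (x 5) (x 2))))),
  (-1, (.T (p (x 5) (x 1)) (p (x 3) (x 4)) (x 2) (x 0))),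
  (-1, (.N (p (a (x 1) (x 4) (x 5)) (x 3)) (x 0) (x 2) 3 0)),
  (1, (.PL (.T (x 2) (x 3) (x 4) (x 0)) (p (x 5) (x 1)))),
  (1, (.PR (x 2) (.PR (x 3) (.T (x 0) (x 5) (x 4) (x 1))))),
  (1, (.T (p (p (x 5) (x 4)) (x 2)) (x 1) (x 3) (x 0))),
  (1, (.N (a (x 1) (x 3) (x 4)) (x 0) (p (x 2) (x 5)) 0 3)),
  (-1, (.N (a (x 2) (x 3) (p (x 0) (x 4))) (x 1) (x 5) 0 5)),
  (1, (.PR (p (x 4) (x 3)) (.T (x 1) (x 2) (x 5) (x 0)))),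
  (1, (.PL (.T (x 2) (x 3) (p (x 4) (x 5)) (x 0)) (x 1))),
  (-1, (.PL (.T (x 1) (x 4) (x 0) (x 5)) (p (x 2) (x 3)))),
  (-1, (.PR (p (x 5) (x 2)) (.T (x 0) (x 1) (x 3) (x 4)))),
  (-1, (.PR (x 0) (.N (a (x 2) (x 4) (x 5)) (x 1) (x 3) 3 0))),
  (-1, (.PL (.T (x 0) (x 4) (x 1) (p (x 3) (x 5))) (x 2))),
  (-1, (.PL (.N (a (x 2) (x 3) (x 5)) (x 0) (x 4) 4 0) (x 1)))]

def c6 : List (Int × Rl) := [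
  (-1, (.PL (.T (x 1) (x 3) (x 0) (x 4)) (p (x 2) (x 5)))),
  (-1, (.PR (x 2) (.T (x 1) (p (x 4) (x 3)) (x 5) (x 0)))),
  (1, (.PR (p (x 0) (x 3)) (.T (x 1) (x 2) (x 5) (x 4)))),
  (-1, (.PL (.PL (.T (x 1) (x 3) (x 2) (x 5)) (x 0)) (x 4))),
  (-1, (.N (p (a (x 1) (x 4) (x 5)) (x 3)) (x 0) (x 2) 2 0)),
  (1, (.T (p (x 4) (x 0)) (p (x 2) (x 5)) (x 3) (x 1))),
  (-1, (.PR (x 0) (.T (x 1) (x 4) (x 5) (p (x 2) (x 3))))),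
  (1, (.N (p (a (x 2) (x 3) (x 5)) (x 4)) (x 0) (x 1) 0 4)),
  (-1, (.T (p (x 5) (x 3)) (p (x 1) (x 4)) (x 2) (x 0))),
  (1, (.N (a (x 1) (x 2) (p (x 3) (x 5))) (x 0) (x 4) 0 5)),
  (-1, (.T (x 1) (x 4) (p (p (x 5) (x 3)) (x 0)) (x 2))),
  (-1, (.PL (.T (x 0) (x 2) (p (x 4) (x 5)) (x 3)) (x 1))),
  (1, (.N (a (x 4) (x 5) (p (x 2) (x 3))) (x 0) (x 1) 0 2)),
  (1, (.N (a (x 2) (x 3) (x 4)) (x 0) (p (x 1) (x 5)) 0 4)),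
  (1, (.N (a (x 1) (x 2) (x 5)) (x 0) (p (x 3) (x 4)) 5 0)),
  (-1, (.N (a (x 1) (x 5) (p (x 4) (x 2))) (x 0) (x 3) 0 4)),
  (-1, (.N (a (x 1) (x 2) (x 3)) (x 0) (p (x 4) (x 5)) 3 0)),
  (1, (.T (p (x 2) (x 3)) (x 1) (p (x 5) (x 4)) (x 0))),
  (-1, (.N (a (x 1) (x 2) (p (x 3) (x 4))) (x 0) (x 5) 0 2)),
  (1, (.PL (.T (x 2) (x 1) (x 3) (x 5)) (p (x 0) (x 4)))),
  (-1, (.N (p (a (x 3) (x 4) (x 5)) (x 1)) (x 0) (x 2) 2 0)),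
  (-1, (.PL (.PL (.T (x 0) (x 5) (x 3) (x 4)) (x 1)) (x 2))),
  (-1, (.PL (.PR (x 3) (.T (x 0) (x 5) (x 4) (x 2))) (x 1))),
  (-1, (.PL (.T (x 1) (x 3) (p (x 5) (x 4)) (x 2)) (x 0))),
  (1, (.PL (.T (x 3) (x 1) (p (x 4) (x 5)) (x 0)) (x 2))),
  (1, (.N (a (x 4) (x 5) (p (x 3) (x 1))) (x 0) (x 2) 0 1)),
  (-1, (.PL (.T (x 0) (x 3) (x 2) (x 4)) (p (x 5) (x 1)))),
  (-1, (.PL (.N (a (x 1) (x 3) (x 5)) (x 0) (x 4) 0 1) (x 2))),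
  (1, (.PL (.T (x 2) (x 3) (x 5) (x 1)) (p (x 0) (x 4)))),
  (-1, (.PL (.T (x 1) (x 5) (x 0) (x 2)) (p (x 3) (x 4)))),
  (-1, (.PR (x 0) (.PL (.T (x 1) (x 3) (x 2) (x 5)) (x 4)))),
  (-1, (.T (p (p (x 5) (x 3)) (x 4)) (x 0) (x 2) (x 1))),
  (1, (.PR (x 1) (.PL (.T (x 3) (x 4) (x 2) (x 5)) (x 0)))),
  (-1, (.PL (.T (x 2) (x 0) (x 4) (p (x 5) (x 3))) (x 1))),
  (1, (.PL (.N (a (x 1) (x 4) (x 5)) (x 0) (x 3) 0 3) (x 2))),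
  (1, (.PL (.PR (x 3) (.T (x 1) (x 4) (x 2) (x 5))) (x 0))),
  (-1, (.PR (x 1) (.T (x 3) (x 2) (x 5) (p (x 4) (x 0))))),
  (-1, (.PP (a (x 0) (x 2) (x 4)) (a (x 1) (x 3) (x 5)) 0 4)),
  (-1, (.T (x 2) (x 4) (p (p (x 0) (x 3)) (x 5)) (x 1))),
  (1, (.T (x 2) (p (p (x 1) (x 4)) (x 5)) (x 3) (x 0))),
  (-1, (.T (p (x 5) (x 4)) (p (x 1) (x 2)) (x 3) (x 0))),
  (-1, (.N (a (x 0) (x 4) (x 5)) (p (x 1) (x 3)) (x 2) 2 0)),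
  (-1, (.PL (.PR (x 4) (.T (x 1) (x 2) (x 5) (x 3))) (x 0))),
  (1, (.PR (x 0) (.PL (.T (x 1) (x 5) (x 4) (x 3)) (x 2)))),
  (-1, (.T (x 1) (p (p (x 2) (x 4)) (x 5)) (x 0) (x 3))),
  (1, (.PR (p (x 5) (x 4)) (.T (x 0) (x 2) (x 1) (x 3)))),
  (-1, (.T (x 0) (x 5) (p (x 4) (x 3)) (p (x 1) (x 2)))),
  (-1, (.PL (.T (p (x 3) (x 5)) (x 0) (x 4) (x 2)) (x 1))),
  (1, (.PL (.PR (x 2) (.T (x 3) (x 4) (x 1) (x 5))) (x 0))),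
  (-1, (.N (p (a (x 1) (x 3) (x 5)) (x 4)) (x 0) (x 2) 0 5)),
  (-1, (.PR (x 1) (.N (a (x 2) (x 3) (x 5)) (x 0) (x 4) 0 2))),
  (-1, (.PR (x 1) (.N (a (x 3) (x 4) (x 5)) (x 0) (x 2) 0 0))),
  (1, (.PP (a (x 1) (x 2) (x 4)) (a (x 0) (x 3) (x 5)) 1 0)),
  (-1, (.PR (x 2) (.PL (.T (x 0) (x 1) (x 3) (x 4)) (x 5)))),
  (-1, (.PL (.N (a (x 2) (x 3) (x 4)) (x 0) (x 5) 0 5) (x 1))),
  (1, (.PL (.PL (.T (x 1) (x 2) (x 5) (x 3)) (x 4)) (x 0))),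
  (1, (.N (p (a (x 3) (x 4) (x 5)) (x 1)) (x 0) (x 2) 4 0)),
  (1, (.PR (x 1) (.T (x 4) (x 3) (p (x 2) (x 5)) (x 0)))),
  (1, (.PR (x 1) (.T (x 0) (x 4) (p (x 5) (x 2)) (x 3)))),
  (1, (.N (a (x 0) (x 2) (x 5)) (x 1) (p (x 3) (x 4)) 0 5)),
  (1, (.PR (x 0) (.PL (.T (x 3) (x 5) (x 2) (x 4)) (x 1)))),
  (-1, (.T (x 2) (p (x 1) (x 4)) (p (x 3) (x 5)) (x 0))),
  (-1, (.N (a (x 1) (x 2) (p (x 4) (x 5))) (x 0) (x 3) 0 4)),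
  (1, (.PP (a (x 0) (x 2) (x 4)) (a (x 1) (x 3) (x 5)) 4 0)),
  (-1, (.T (p (x 2) (x 4)) (p (x 1) (x 3)) (x 5) (x 0))),
  (-1, (.PR (x 0) (.N (a (x 1) (x 4) (x 5)) (x 2) (x 3) 0 5))),
  (1, (.T (x 1) (x 2) (p (x 0) (x 5)) (p (x 4) (x 3)))),
  (-1, (.PL (.T (p (x 5) (x 4)) (x 0) (x 3) (x 1)) (x 2))),
  (1, (.PR (p (x 4) (x 1)) (.T (x 0) (x 5) (x 2) (x 3)))),
  (-1, (.PL (.T (x 3) (x 4) (x 5) (x 0)) (p (x 1) (x 2)))),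
  (-1, (.PR (x 0) (.PL (.T (x 3) (x 4) (x 5) (x 2)) (x 1)))),
  (1, (.PR (x 1) (.T (x 3) (p (x 5) (x 2)) (x 4) (x 0)))),
  (-1, (.PR (p (x 0) (x 3)) (.T (x 1) (x 4) (x 5) (x 2)))),
  (1, (.PR (x 1) (.T (x 0) (x 2) (x 3) (p (x 5) (x 4))))),
  (-1, (.PP (a (x 0) (x 2) (x 5)) (a (x 1) (x 3) (x 4)) 1 0)),
  (1, (.T (x 1) (x 3) (p (x 4) (x 0)) (p (x 2) (x 5)))),
  (1, (.PR (x 2) (.T (x 3) (x 1) (p (x 5) (x 4)) (x 0)))),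
  (1, (.T (x 1) (p (x 2) (x 5)) (x 0) (p (x 4) (x 3)))),
  (-1, (.PL (.T (x 0) (x 5) (x 3) (x 2)) (p (x 4) (x 1)))),
  (1, (.T (x 2) (p (p (x 4) (x 0)) (x 3)) (x 1) (x 5))),
  (-1, (.N (a (x 2) (x 4) (p (x 5) (x 1))) (x 0) (x 3) 0 5)),
  (-1, (.N (p (a (x 2) (x 3) (x 5)) (x 4)) (x 0) (x 1) 0 3)),
  (-1, (.PR (x 2) (.T (x 3) (p (x 4) (x 0)) (x 5) (x 1)))),
  (-1, (.N (a (x 1) (x 2) (x 5)) (x 0) (p (x 3) (x 4)) 3 0)),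
  (1, (.PL (.T (x 3) (p (x 4) (x 1)) (x 5) (x 2)) (x 0))),
  (-1, (.N (a (x 0) (x 2) (x 4)) (x 1) (p (x 5) (x 3)) 0 4)),
  (-1, (.T (p (p (x 5) (x 2)) (x 4)) (x 0) (x 3) (x 1))),
  (1, (.PR (p (x 0) (x 5)) (.T (x 1) (x 3) (x 4) (x 2)))),
  (-1, (.PR (x 2) (.N (a (x 1) (x 3) (x 5)) (x 0) (x 4) 0 2))),
  (1, (.N (a (x 0) (x 2) (x 5)) (x 1) (p (x 4) (x 3)) 0 1)),
  (1, (.T (x 0) (x 5) (p (x 3) (x 4)) (p (x 1) (x 2)))),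
  (-1, (.T (x 1) (x 5) (p (x 0) (x 3)) (p (x 4) (x 2)))),
  (1, (.PL (.N (a (x 2) (x 4) (x 5)) (x 1) (x 3) 0 0) (x 0))),
  (-1, (.N (a (x 2) (x 5) (p (x 3) (x 1))) (x 0) (x 4) 0 5)),
  (-1, (.PL (.N (a (x 2) (x 3) (x 4)) (x 1) (x 5) 0 4) (x 0))),
  (1, (.N (a (x 2) (x 3) (x 5)) (p (x 4) (x 0)) (x 1) 3 0)),
  (1, (.T (x 0) (x 1) (p (x 3) (x 4)) (p (x 2) (x 5)))),
  (-1, (.T (p (x 2) (x 4)) (p (x 5) (x 0)) (x 3) (x 1))),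
  (-1, (.N (p (a (x 3) (x 4) (x 5)) (x 1)) (x 0) (x 2) 3 0)),
  (-1, (.PL (.T (x 3) (x 5) (x 2) (x 4)) (p (x 0) (x 1))))]

def c7 : List (Int × Rl) := [
  (-1, (.N (p (a (x 2) (x 4) (x 5)) (x 1)) (x 0) (x 3) 1 0)),
  (1, (.T (p (x 2) (x 3)) (p (x 1) (x 4)) (x 5) (x 0))),
  (-1, (.T (x 0) (x 1) (x 2) (p (p (x 3) (x 5)) (x 4)))),
  (1, (.PR (p (x 0) (x 4)) (.T (x 1) (x 3) (x 2) (x 5)))),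
  (-1, (.N (p (a (x 2) (x 4) (x 5)) (x 3)) (x 0) (x 1) 0 2)),
  (-1, (.N (p (a (x 0) (x 2) (x 5)) (x 3)) (x 1) (x 4) 1 0)),
  (-1, (.PR (x 1) (.T (x 0) (x 3) (x 4) (p (x 5) (x 2))))),
  (-1, (.N (p (a (x 1) (x 3) (x 4)) (x 5)) (x 0) (x 2) 3 0)),
  (1, (.PR (x 1) (.T (p (x 4) (x 2)) (x 3) (x 5) (x 0)))),
  (-1, (.N (p (x 2) (a (x 3) (x 4) (x 5))) (x 0) (x 1) 3 0)),
  (1, (.T (p (x 3) (x 2)) (p (x 4) (x 0)) (x 5) (x 1))),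
  (-1, (.PR (x 2) (.T (x 0) (x 3) (p (x 1) (x 4)) (x 5)))),
  (1, (.T (x 0) (p (x 4) (x 3)) (x 1) (p (x 2) (x 5)))),
  (1, (.PR (x 0) (.PR (x 1) (.T (x 3) (x 4) (x 5) (x 2))))),
  (1, (.PR (x 1) (.PR (x 3) (.T (x 0) (x 2) (x 5) (x 4))))),
  (-1, (.PL (.T (x 2) (x 0) (x 3) (p (x 4) (x 5))) (x 1))),
  (1, (.T (p (x 4) (x 2)) (x 0) (x 1) (p (x 3) (x 5)))),
  (-1, (.PR (x 0) (.PL (.T (x 1) (x 2) (x 3) (x 5)) (x 4)))),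
  (1, (.PL (.T (x 0) (x 3) (x 4) (x 5)) (p (x 2) (x 1)))),
  (-1, (.PR (x 0) (.T (x 3) (p (x 4) (x 1)) (x 5) (x 2)))),
  (1, (.N (a (x 4) (x 5) (p (x 3) (x 2))) (x 0) (x 1) 0 1)),
  (1, (.N (a (x 1) (x 4) (x 5)) (x 0) (p (x 3) (x 2)) 1 0)),
  (-1, (.N (a (x 1) (x 3) (x 5)) (x 0) (p (x 4) (x 2)) 1 0)),
  (-1, (.PL (.PR (x 3) (.T (x 2) (x 5) (x 0) (x 4))) (x 1))),
  (1, (.T (p (x 5) (x 2)) (p (x 1) (x 4)) (x 3) (x 0))),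
  (1, (.N (a (x 2) (x 3) (x 5)) (x 0) (p (x 1) (x 4)) 2 0)),
  (-1, (.PR (x 2) (.N (a (x 0) (x 4) (x 5)) (x 1) (x 3) 2 0))),
  (1, (.T (p (x 5) (x 2)) (p (x 4) (x 3)) (x 1) (x 0))),
  (1, (.T (x 1) (x 5) (x 2) (p (p (x 4) (x 3)) (x 0)))),
  (1, (.T (x 1) (p (x 3) (x 2)) (p (x 5) (x 4)) (x 0))),
  (-1, (.N (a (x 2) (x 5) (p (x 4) (x 3))) (x 0) (x 1) 0 4)),
  (-1, (.N (a (x 3) (x 5) (p (x 4) (x 1))) (x 0) (x 2) 0 2)),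
  (1, (.T (p (p (x 5) (x 0)) (x 3)) (x 2) (x 4) (x 1))),
  (1, (.PL (.T (x 0) (x 1) (p (x 4) (x 5)) (x 3)) (x 2))),
  (-1, (.PL (.PL (.T (x 0) (x 2) (x 5) (x 3)) (x 1)) (x 4))),
  (1, (.PR (x 1) (.T (x 2) (p (x 4) (x 3)) (x 5) (x 0)))),
  (1, (.PL (.PL (.T (x 2) (x 5) (x 4) (x 3)) (x 1)) (x 0))),
  (-1, (.N (p (a (x 1) (x 3) (x 5)) (x 4)) (x 0) (x 2) 0 0)),
  (-1, (.PL (.N (a (x 2) (x 3) (x 4)) (x 0) (x 5) 1 0) (x 1))),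
  (1, (.PR (x 2) (.PL (.T (x 1) (x 4) (x 0) (x 3)) (x 5)))),
  (1, (.PP (a (x 1) (x 4) (x 5)) (a (x 0) (x 2) (x 3)) 0 0)),
  (1, (.PR (p (x 4) (x 3)) (.T (x 0) (x 1) (x 2) (x 5)))),
  (1, (.N (p (a (x 0) (x 2) (x 3)) (x 4)) (x 1) (x 5) 4 0)),
  (-1, (.N (p (a (x 1) (x 2) (x 3)) (x 5)) (x 0) (x 4) 0 0)),
  (-1, (.T (p (x 5) (x 0)) (x 1) (x 2) (p (x 3) (x 4)))),
  (1, (.PL (.T (x 1) (p (x 4) (x 5)) (x 0) (x 3)) (x 2))),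
  (1, (.PR (x 2) (.PL (.T (x 3) (x 4) (x 5) (x 1)) (x 0)))),
  (-1, (.PL (.T (p (x 5) (x 2)) (x 3) (x 4) (x 1)) (x 0))),
  (1, (.N (a (x 2) (x 4) (p (x 3) (x 0))) (x 1) (x 5) 0 4)),
  (-1, (.N (a (x 3) (x 4) (p (x 1) (x 2))) (x 0) (x 5) 0 5)),
  (-1, (.PL (.T (x 3) (p (x 5) (x 0)) (x 4) (x 2)) (x 1))),
  (1, (.N (a (x 3) (x 5) (p (x 4) (x 2))) (x 0) (x 1) 0 5)),
  (-1, (.T (p (x 4) (x 0)) (x 2) (p (x 5) (x 3)) (x 1))),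
  (-1, (.PL (.T (x 2) (x 4) (x 3) (p (x 5) (x 0))) (x 1))),
  (-1, (.T (p (x 3) (x 5)) (p (x 2) (x 1)) (x 4) (x 0))),
  (-1, (.T (x 2) (x 5) (p (p (x 4) (x 0)) (x 3)) (x 1))),
  (-1, (.PL (.T (x 3) (p (x 0) (x 5)) (x 1) (x 4)) (x 2))),
  (1, (.PR (x 2) (.PR (x 0) (.T (x 3) (x 5) (x 1) (x 4))))),
  (-1, (.PL (.T (x 0) (x 5) (p (x 3) (x 4)) (x 2)) (x 1))),
  (-1, (.PL (.T (x 1) (p (x 4) (x 3)) (x 5) (x 0)) (x 2))),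
  (1, (.PR (x 2) (.PR (x 3) (.T (x 1) (x 5) (x 0) (x 4))))),
  (-1, (.PP (a (x 0) (x 1) (x 5)) (a (x 2) (x 3) (x 4)) 1 0)),
  (1, (.N (p (a (x 0) (x 3) (x 5)) (x 4)) (x 1) (x 2) 5 0)),
  (-1, (.T (x 1) (x 5) (p (x 2) (x 4)) (p (x 3) (x 0)))),
  (1, (.PL (.N (a (x 2) (x 3) (x 5)) (x 0) (x 4) 0 3) (x 1))),
  (1, (.PL (.T (x 2) (x 3) (x 5) (x 4)) (p (x 0) (x 1)))),
  (-1, (.PL (.T (p (x 3) (x 5)) (x 0) (x 4) (x 1)) (x 2))),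
  (1, (.PL (.PL (.T (x 0) (x 1) (x 5) (x 3)) (x 4)) (x 2))),
  (1, (.PR (x 0) (.PR (x 2) (.T (x 1) (x 4) (x 3) (x 5))))),
  (1, (.PR (x 0) (.T (x 1) (x 2) (p (x 5) (x 4)) (x 3)))),
  (1, (.N (a (x 1) (x 2) (x 3)) (x 0) (p (x 4) (x 5)) 2 0)),
  (1, (.PL (.N (a (x 2) (x 3) (x 5)) (x 0) (x 4) 0 1) (x 1))),
  (1, (.PR (x 1) (.N (a (x 3) (x 4) (x 5)) (x 0) (x 2) 0 5))),
  (-1, (.PR (x 0) (.T (x 3) (p (x 5) (x 1)) (x 2) (x 4)))),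
  (-1, (.N (a (x 0) (x 4) (x 5)) (x 1) (p (x 3) (x 2)) 3 0)),
  (-1, (.T (p (p (x 0) (x 3)) (x 5)) (x 1) (x 4) (x 2))),
  (1, (.PL (.N (a (x 1) (x 4) (x 5)) (x 2) (x 3) 0 3) (x 0))),
  (1, (.PP (a (x 2) (x 3) (x 4)) (a (x 0) (x 1) (x 5)) 4 0)),
  (-1, (.N (a (x 2) (x 3) (x 4)) (p (x 0) (x 5)) (x 1) 3 0)),
  (1, (.PR (x 1) (.PL (.T (x 2) (x 3) (x 4) (x 0)) (x 5)))),
  (-1, (.T (x 0) (x 4) (p (x 5) (x 3)) (p (x 2) (x 1)))),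
  (1, (.PL (.N (a (x 3) (x 4) (x 5)) (x 1) (x 2) 1 0) (x 0))),
  (-1, (.T (x 2) (x 4) (p (p (x 3) (x 5)) (x 0)) (x 1))),
  (-1, (.N (a (x 0) (x 2) (x 4)) (x 1) (p (x 3) (x 5)) 0 0)),
  (-1, (.PL (.N (a (x 2) (x 4) (x 5)) (x 0) (x 3) 4 0) (x 1))),
  (-1, (.PL (.N (a (x 1) (x 3) (x 5)) (x 0) (x 4) 0 2) (x 2))),
  (-1, (.T (p (x 3) (x 5)) (p (x 4) (x 0)) (x 2) (x 1))),
  (-1, (.T (p (p (x 3) (x 5)) (x 0)) (x 1) (x 4) (x 2))),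
  (-1, (.N (a (x 4) (x 5) (p (x 0) (x 3))) (x 1) (x 2) 0 2)),
  (-1, (.PR (x 1) (.T (x 0) (x 2) (x 5) (p (x 3) (x 4))))),
  (-1, (.N (a (x 0) (x 2) (p (x 5) (x 3))) (x 1) (x 4) 0 2)),
  (1, (.PR (p (x 3) (x 2)) (.T (x 0) (x 4) (x 1) (x 5)))),
  (1, (.PR (p (x 4) (x 0)) (.T (x 1) (x 5) (x 3) (x 2)))),
  (-1, (.PR (x 0) (.N (a (x 1) (x 4) (x 5)) (x 2) (x 3) 5 0))),
  (-1, (.N (a (x 1) (x 2) (x 4)) (x 0) (p (x 3) (x 5)) 0 3)),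
  (1, (.N (p (a (x 3) (x 4) (x 5)) (x 0)) (x 1) (x 2) 0 4)),
  (1, (.PR (x 1) (.N (a (x 2) (x 4) (x 5)) (x 0) (x 3) 0 5))),
  (-1, (.PL (.N (a (x 0) (x 3) (x 5)) (x 1) (x 4) 0 4) (x 2))),
  (1, (.N (p (a (x 1) (x 2) (x 4)) (x 3)) (x 0) (x 5) 0 3)),
  (1, (.PL (.PR (x 3) (.T (x 0) (x 5) (x 4) (x 1))) (x 2)))]

def c8 : List (Int × Rl) := [
  (1, (.N (p (a (x 1) (x 2) (x 3)) (x 4)) (x 0) (x 5) 0 1)),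
  (1, (.N (a (x 0) (x 2) (x 3)) (x 1) (p (x 4) (x 5)) 0 2)),
  (1, (.N (p (a (x 1) (x 2) (x 3)) (x 5)) (x 0) (x 4) 4 0)),
  (1, (.PL (.T (x 0) (x 2) (x 4) (x 1)) (p (x 5) (x 3)))),
  (1, (.PR (x 1) (.PL (.T (x 0) (x 5) (x 2) (x 3)) (x 4)))),
  (1, (.PR (p (x 4) (x 0)) (.T (x 2) (x 3) (x 5) (x 1)))),
  (1, (.PL (.PL (.T (x 0) (x 2) (x 3) (x 5)) (x 1)) (x 4))),
  (-1, (.N (p (a (x 2) (x 3) (x 5)) (x 4)) (x 0) (x 1) 0 0)),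
  (-1, (.PL (.T (x 0) (x 3) (x 2) (x 5)) (p (x 4) (x 1)))),
  (1, (.T (p (x 2) (x 5)) (p (x 3) (x 0)) (x 4) (x 1))),
  (1, (.PL (.PL (.T (x 3) (x 4) (x 5) (x 1)) (x 0)) (x 2))),
  (-1, (.PR (x 1) (.N (a (x 2) (x 3) (x 5)) (x 0) (x 4) 0 1))),
  (1, (.PR (x 2) (.T (p (x 3) (x 4)) (x 1) (x 5) (x 0)))),
  (1, (.PL (.T (p (x 3) (x 4)) (x 0) (x 5) (x 2)) (x 1))),
  (1, (.PL (.PL (.T (x 3) (x 4) (x 0) (x 5)) (x 2)) (x 1))),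
  (-1, (.T (x 1) (x 4) (p (x 0) (x 2)) (p (x 5) (x 3)))),
  (1, (.T (x 2) (p (p (x 4) (x 0)) (x 5)) (x 3) (x 1))),
  (1, (.PL (.PR (x 3) (.T (x 1) (x 5) (x 4) (x 2))) (x 0))),
  (-1, (.PL (.PR (x 2) (.T (x 1) (x 5) (x 3) (x 4))) (x 0))),
  (-1, (.PR (x 2) (.PL (.T (x 0) (x 1) (x 5) (x 4)) (x 3)))),
  (-1, (.T (p (x 4) (x 3)) (p (x 1) (x 5)) (x 2) (x 0))),
  (1, (.T (p (x 1) (x 2)) (p (x 4) (x 5)) (x 3) (x 0))),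
  (-1, (.T (x 1) (x 3) (x 2) (p (p (x 0) (x 4)) (x 5)))),
  (1, (.PR (x 1) (.PL (.T (x 0) (x 3) (x 2) (x 4)) (x 5)))),
  (1, (.N (a (x 0) (x 2) (p (x 3) (x 4))) (x 1) (x 5) 0 3)),
  (-1, (.N (a (x 0) (x 2) (x 3)) (x 1) (p (x 5) (x 4)) 0 3)),
  (-1, (.N (a (x 3) (x 4) (x 5)) (p (x 2) (x 0)) (x 1) 5 0)),
  (-1, (.PL (.PR (x 1) (.T (x 3) (x 4) (x 2) (x 5))) (x 0))),
  (1, (.PR (x 2) (.PR (x 5) (.T (x 0) (x 3) (x 4) (x 1))))),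
  (-1, (.PR (p (x 5) (x 3)) (.T (x 1) (x 4) (x 0) (x 2)))),
  (1, (.PL (.T (x 0) (x 3) (x 4) (x 2)) (p (x 5) (x 1)))),
  (-1, (.PR (x 2) (.T (x 3) (x 1) (p (x 4) (x 5)) (x 0)))),
  (1, (.N (a (x 0) (x 2) (x 3)) (x 1) (p (x 5) (x 4)) 0 5)),
  (-1, (.PL (.PR (x 4) (.T (x 1) (x 2) (x 3) (x 5))) (x 0))),
  (-1, (.T (x 0) (x 5) (p (x 4) (x 2)) (p (x 3) (x 1)))),
  (-1, (.N (a (x 1) (x 5) (p (x 3) (x 2))) (x 0) (x 4) 0 5)),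
  (1, (.PL (.PR (x 2) (.T (x 3) (x 4) (x 0) (x 5))) (x 1))),
  (-1, (.PL (.T (x 1) (x 4) (x 0) (x 5)) (p (x 3) (x 2)))),
  (1, (.PR (p (x 5) (x 2)) (.T (x 1) (x 3) (x 0) (x 4)))),
  (1, (.N (a (x 2) (x 3) (p (x 5) (x 4))) (x 0) (x 1) 3 0)),
  (-1, (.PR (x 2) (.N (a (x 0) (x 3) (x 4)) (x 1) (x 5) 0 5))),
  (1, (.N (a (x 0) (x 4) (x 5)) (x 1) (p (x 2) (x 3)) 0 0)),
  (1, (.N (a (x 0) (x 4) (x 5)) (x 1) (p (x 2) (x 3)) 5 0)),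
  (1, (.PR (x 2) (.N (a (x 1) (x 3) (x 5)) (x 0) (x 4) 0 4))),
  (-1, (.PL (.T (x 0) (x 4) (x 2) (x 5)) (p (x 3) (x 1)))),
  (1, (.N (a (x 0) (x 2) (x 5)) (x 1) (p (x 4) (x 3)) 4 0)),
  (1, (.PP (a (x 0) (x 1) (x 2)) (a (x 3) (x 4) (x 5)) 1 0)),
  (-1, (.T (x 1) (x 4) (p (x 2) (x 3)) (p (x 0) (x 5)))),
  (-1, (.N (p (x 2) (a (x 0) (x 3) (x 4))) (x 1) (x 5) 4 0)),
  (1, (.T (p (p (x 5) (x 4)) (x 3)) (x 1) (x 2) (x 0))),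
  (1, (.PR (p (x 5) (x 3)) (.T (x 0) (x 1) (x 4) (x 2)))),
  (-1, (.PL (.T (x 2) (x 5) (p (x 4) (x 3)) (x 0)) (x 1))),
  (1, (.N (a (x 1) (x 4) (p (x 2) (x 3))) (x 0) (x 5) 0 4)),
  (-1, (.PR (p (x 1) (x 2)) (.T (x 0) (x 5) (x 3) (x 4)))),
  (-1, (.N (p (a (x 2) (x 4) (x 5)) (x 1)) (x 0) (x 3) 4 0)),
  (-1, (.PR (x 0) (.T (x 3) (p (x 1) (x 5)) (x 2) (x 4)))),
  (-1, (.N (p (a (x 1) (x 2) (x 5)) (x 4)) (x 0) (x 3) 0 4)),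
  (-1, (.PR (p (x 2) (x 5)) (.T (x 0) (x 4) (x 1) (x 3)))),
  (-1, (.PR (x 0) (.T (x 1) (x 2) (p (x 4) (x 5)) (x 3)))),
  (-1, (.PR (x 0) (.T (x 2) (p (x 4) (x 5)) (x 1) (x 3)))),
  (-1, (.N (a (x 3) (x 5) (p (x 4) (x 1))) (x 0) (x 2) 0 1)),
  (-1, (.PL (.PR (x 4) (.T (x 2) (x 5) (x 1) (x 3))) (x 0))),
  (-1, (.N (a (x 1) (x 3) (x 4)) (x 0) (p (x 2) (x 5)) 0 4)),
  (1, (.PR (x 1) (.PL (.T (x 4) (x 2) (x 5) (x 0)) (x 3)))),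
  (-1, (.T (x 1) (x 4) (p (x 0) (x 2)) (p (x 3) (x 5)))),
  (-1, (.PR (x 1) (.T (x 3) (p (x 2) (x 4)) (x 5) (x 0)))),
  (-1, (.PR (x 1) (.PR (x 4) (.T (x 0) (x 2) (x 5) (x 3))))),
  (-1, (.T (x 2) (p (x 0) (x 4)) (p (x 3) (x 5)) (x 1))),
  (-1, (.N (a (x 1) (x 2) (x 4)) (x 0) (p (x 3) (x 5)) 5 0)),
  (1, (.T (p (p (x 3) (x 4)) (x 0)) (x 1) (x 5) (x 2))),
  (-1, (.PL (.T (x 1) (x 2) (x 5) (x 4)) (p (x 0) (x 3)))),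
  (1, (.PR (x 1) (.N (a (x 0) (x 3) (x 4)) (x 2) (x 5) 0 5))),
  (-1, (.PL (.T (x 1) (x 5) (x 3) (p (x 2) (x 4))) (x 0))),
  (-1, (.PR (x 1) (.T (x 2) (x 0) (x 5) (p (x 3) (x 4))))),
  (-1, (.PL (.T (x 0) (x 1) (x 5) (x 4)) (p (x 2) (x 3)))),
  (1, (.PL (.PL (.T (x 2) (x 5) (x 1) (x 4)) (x 3)) (x 0))),
  (-1, (.T (x 0) (x 5) (p (x 4) (x 3)) (p (x 2) (x 1)))),
  (1, (.PL (.T (x 1) (x 3) (x 2) (x 5)) (p (x 4) (x 0)))),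
  (-1, (.PL (.PL (.T (x 0) (x 5) (x 3) (x 1)) (x 4)) (x 2))),
  (-1, (.N (a (x 4) (x 5) (p (x 3) (x 2))) (x 0) (x 1) 0 2)),
  (-1, (.PR (x 0) (.T (x 1) (x 3) (x 2) (p (x 5) (x 4))))),
  (-1, (.N (p (a (x 0) (x 2) (x 5)) (x 4)) (x 1) (x 3) 0 1)),
  (1, (.N (a (x 2) (x 4) (p (x 3) (x 1))) (x 0) (x 5) 0 5)),
  (1, (.PL (.T (p (x 4) (x 3)) (x 0) (x 5) (x 1)) (x 2))),
  (1, (.T (x 2) (p (p (x 3) (x 1)) (x 5)) (x 4) (x 0))),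
  (1, (.PL (.T (p (x 3) (x 4)) (x 2) (x 5) (x 1)) (x 0))),
  (-1, (.PL (.N (a (x 0) (x 3) (x 4)) (x 2) (x 5) 3 0) (x 1))),
  (-1, (.PP (a (x 0) (x 2) (x 5)) (a (x 1) (x 3) (x 4)) 0 0)),
  (-1, (.N (a (x 0) (x 3) (p (x 2) (x 4))) (x 1) (x 5) 0 4)),
  (1, (.T (x 2) (p (x 3) (x 0)) (p (x 4) (x 5)) (x 1))),
  (-1, (.PR (p (x 1) (x 5)) (.T (x 0) (x 4) (x 3) (x 2)))),
  (1, (.T (p (x 2) (x 4)) (p (x 5) (x 3)) (x 1) (x 0))),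
  (1, (.PR (x 2) (.PL (.T (x 5) (x 1) (x 4) (x 3)) (x 0)))),
  (-1, (.PL (.PL (.T (x 1) (x 3) (x 2) (x 5)) (x 4)) (x 0))),
  (1, (.PR (x 0) (.N (a (x 3) (x 4) (x 5)) (x 1) (x 2) 0 0))),
  (-1, (.N (p (a (x 2) (x 3) (x 5)) (x 0)) (x 1) (x 4) 0 4)),
  (-1, (.N (a (x 2) (x 3) (p (x 5) (x 4))) (x 0) (x 1) 2 0)),
  (-1, (.N (p (a (x 0) (x 4) (x 5)) (x 2)) (x 1) (x 3) 0 0)),
  (1, (.T (x 0) (x 3) (p (p (x 1) (x 4)) (x 5)) (x 2))),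
  (-1, (.N (a (x 1) (x 5) (p (x 3) (x 2))) (x 0) (x 4) 0 4))]

def c9 : List (Int × Rl) := [
  (-1, (.T (x 1) (x 5) (p (p (x 4) (x 3)) (x 2)) (x 0))),
  (1, (.PL (.T (p (x 4) (x 3)) (x 1) (x 5) (x 2)) (x 0))),
  (-1, (.PL (.N (a (x 0) (x 3) (x 4)) (x 2) (x 5) 4 0) (x 1))),
  (-1, (.PP (a (x 1) (x 3) (x 5)) (a (x 0) (x 2) (x 4)) 0 0)),
  (-1, (.PL (.T (x 3) (p (x 1) (x 5)) (x 4) (x 0)) (x 2))),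
  (1, (.N (a (x 1) (x 2) (x 3)) (x 0) (p (x 4) (x 5)) 5 0)),
  (1, (.PR (x 2) (.T (x 0) (x 3) (x 5) (p (x 1) (x 4))))),
  (1, (.PL (.T (x 3) (x 5) (x 0) (x 4)) (p (x 1) (x 2)))),
  (1, (.PL (.PL (.T (x 0) (x 1) (x 3) (x 5)) (x 4)) (x 2))),
  (1, (.PR (x 2) (.PR (x 1) (.T (x 3) (x 4) (x 0) (x 5))))),
  (-1, (.N (a (x 0) (x 5) (p (x 3) (x 4))) (x 1) (x 2) 0 2)),
  (1, (.N (a (x 3) (x 5) (p (x 2) (x 4))) (x 0) (x 1) 0 4)),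
  (-1, (.N (a (x 3) (x 4) (x 5)) (p (x 0) (x 2)) (x 1) 0 5)),
  (1, (.N (p (a (x 3) (x 4) (x 5)) (x 0)) (x 1) (x 2) 1 0)),
  (-1, (.PR (p (x 2) (x 5)) (.T (x 0) (x 1) (x 4) (x 3)))),
  (-1, (.N (p (a (x 2) (x 3) (x 4)) (x 0)) (x 1) (x 5) 3 0)),
  (1, (.T (x 1) (p (p (x 3) (x 4)) (x 5)) (x 0) (x 2))),
  (1, (.N (p (a (x 1) (x 2) (x 5)) (x 3)) (x 0) (x 4) 0 3)),
  (1, (.PL (.T (x 3) (x 4) (x 0) (x 5)) (p (x 1) (x 2)))),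
  (-1, (.PR (x 1) (.PR (x 3) (.T (x 2) (x 5) (x 0) (x 4))))),
  (1, (.PL (.PL (.T (x 1) (x 5) (x 0) (x 3)) (x 4)) (x 2))),
  (-1, (.PL (.PR (x 4) (.T (x 1) (x 5) (x 2) (x 3))) (x 0))),
  (-1, (.PR (p (x 5) (x 0)) (.T (x 1) (x 3) (x 4) (x 2)))),
  (1, (.N (a (x 0) (x 3) (x 5)) (x 1) (p (x 4) (x 2)) 0 0)),
  (1, (.T (x 1) (x 5) (p (x 4) (x 2)) (p (x 0) (x 3)))),
  (-1, (.T (p (x 4) (x 0)) (p (x 3) (x 5)) (x 2) (x 1))),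
  (1, (.T (p (p (x 5) (x 4)) (x 3)) (x 0) (x 2) (x 1))),
  (-1, (.PR (p (x 2) (x 4)) (.T (x 0) (x 1) (x 5) (x 3)))),
  (-1, (.T (x 0) (x 4) (p (x 3) (x 1)) (p (x 5) (x 2)))),
  (1, (.PR (p (x 2) (x 0)) (.T (x 3) (x 5) (x 1) (x 4)))),
  (-1, (.PL (.PL (.T (x 3) (x 0) (x 4) (x 5)) (x 1)) (x 2))),
  (1, (.T (x 1) (p (x 3) (x 5)) (p (x 2) (x 4)) (x 0))),
  (1, (.T (x 2) (x 4) (p (p (x 5) (x 0)) (x 3)) (x 1))),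
  (1, (.PR (x 0) (.PR (x 2) (.T (x 3) (x 4) (x 5) (x 1))))),
  (-1, (.PR (p (x 0) (x 5)) (.T (x 2) (x 4) (x 1) (x 3)))),
  (-1, (.PL (.N (a (x 0) (x 3) (x 5)) (x 2) (x 4) 4 0) (x 1))),
  (1, (.T (x 1) (x 4) (p (p (x 0) (x 5)) (x 3)) (x 2))),
  (-1, (.PL (.T (x 0) (x 4) (x 3) (x 5)) (p (x 2) (x 1)))),
  (1, (.N (a (x 2) (x 3) (p (x 1) (x 4))) (x 0) (x 5) 0 5)),
  (1, (.N (a (x 1) (x 2) (p (x 5) (x 3))) (x 0) (x 4) 0 2)),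
  (-1, (.T (x 2) (p (p (x 0) (x 4)) (x 3)) (x 5) (x 1))),
  (1, (.T (x 0) (x 3) (p (x 5) (x 1)) (p (x 4) (x 2)))),
  (-1, (.PR (x 0) (.PL (.T (x 1) (x 4) (x 5) (x 3)) (x 2)))),
  (-1, (.N (a (x 0) (x 2) (p (x 4) (x 3))) (x 1) (x 5) 0 2)),
  (1, (.PR (x 0) (.T (x 3) (x 4) (p (x 2) (x 5)) (x 1)))),
  (-1, (.N (a (x 1) (x 2) (p (x 5) (x 4))) (x 0) (x 3) 0 2)),
  (-1, (.T (x 0) (x 2) (p (x 3) (x 5)) (p (x 4) (x 1)))),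
  (-1, (.PP (a (x 0) (x 2) (x 5)) (a (x 1) (x 3) (x 4)) 4 0)),
  (1, (.T (x 0) (x 3) (p (x 1) (x 4)) (p (x 2) (x 5)))),
  (1, (.T (x 0) (p (x 5) (x 3)) (x 1) (p (x 2) (x 4)))),
  (1, (.PR (x 2) (.T (x 5) (x 1) (p (x 4) (x 3)) (x 0)))),
  (1, (.T (x 1) (p (x 2) (x 4)) (x 0) (p (x 3) (x 5)))),
  (1, (.T (x 0) (p (x 3) (x 2)) (x 1) (p (x 5) (x 4)))),
  (-1, (.PR (x 1) (.N (a (x 2) (x 4) (x 5)) (x 0) (x 3) 3 0))),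
  (-1, (.T (p (x 1) (x 5)) (p (x 0) (x 3)) (x 4) (x 2))),
  (1, (.T (x 0) (x 5) (p (p (x 4) (x 3)) (x 1)) (x 2))),
  (-1, (.PR (x 2) (.PL (.T (x 3) (x 5) (x 0) (x 4)) (x 1)))),
  (-1, (.PR (x 1) (.N (a (x 2) (x 3) (x 4)) (x 0) (x 5) 0 2))),
  (1, (.N (a (x 1) (x 2) (x 4)) (x 0) (p (x 3) (x 5)) 0 1)),
  (-1, (.T (p (x 4) (x 5)) (p (x 0) (x 2)) (x 3) (x 1))),
  (-1, (.PR (x 0) (.N (a (x 3) (x 4) (x 5)) (x 1) (x 2) 0 2))),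
  (-1, (.PR (x 2) (.T (x 0) (x 4) (p (x 1) (x 5)) (x 3)))),
  (-1, (.PL (.PR (x 0) (.T (x 3) (x 4) (x 1) (x 5))) (x 2))),
  (-1, (.PL (.T (x 1) (x 2) (x 5) (x 3)) (p (x 4) (x 0)))),
  (1, (.N (a (x 2) (x 3) (x 4)) (p (x 0) (x 5)) (x 1) 0 1)),
  (1, (.T (x 2) (x 3) (p (p (x 4) (x 5)) (x 0)) (x 1))),
  (1, (.N (a (x 2) (x 3) (x 5)) (x 0) (p (x 1) (x 4)) 0 2)),
  (1, (.N (a (x 4) (x 5) (p (x 2) (x 3))) (x 0) (x 1) 0 5)),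
  (-1, (.PL (.PL (.T (x 1) (x 4) (x 5) (x 0)) (x 3)) (x 2))),
  (-1, (.PR (x 0) (.T (x 4) (x 2) (p (x 3) (x 5)) (x 1)))),
  (1, (.PR (x 1) (.T (x 2) (x 5) (x 4) (p (x 3) (x 0))))),
  (-1, (.PL (.PL (.T (x 0) (x 3) (x 4) (x 1)) (x 5)) (x 2))),
  (1, (.T (x 0) (x 1) (p (x 3) (x 4)) (p (x 5) (x 2)))),
  (-1, (.PR (p (x 0) (x 4)) (.T (x 2) (x 3) (x 5) (x 1)))),
  (1, (.N (p (a (x 1) (x 3) (x 5)) (x 4)) (x 0) (x 2) 0 3)),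
  (1, (.N (a (x 0) (x 3) (p (x 2) (x 5))) (x 1) (x 4) 0 2)),
  (-1, (.PL (.T (x 1) (x 5) (x 4) (x 2)) (p (x 3) (x 0)))),
  (1, (.N (a (x 0) (x 4) (x 5)) (x 1) (p (x 2) (x 3)) 0 3)),
  (1, (.PL (.T (x 3) (x 4) (x 2) (x 5)) (p (x 0) (x 1)))),
  (1, (.T (p (x 4) (x 1)) (p (x 3) (x 2)) (x 5) (x 0))),
  (1, (.N (a (x 2) (x 3) (x 4)) (x 0) (p (x 5) (x 1)) 0 0)),
  (1, (.N (p (a (x 0) (x 3) (x 4)) (x 2)) (x 1) (x 5) 0 0)),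
  (1, (.N (a (x 2) (x 3) (x 5)) (x 0) (p (x 4) (x 1)) 0 5)),
  (1, (.PR (x 0) (.PL (.T (x 1) (x 3) (x 4) (x 5)) (x 2)))),
  (1, (.PL (.T (x 0) (x 4) (x 2) (x 3)) (p (x 5) (x 1)))),
  (-1, (.N (a (x 4) (x 5) (p (x 0) (x 3))) (x 1) (x 2) 0 1)),
  (-1, (.PL (.T (x 2) (x 5) (x 3) (x 4)) (p (x 0) (x 1)))),
  (-1, (.T (p (x 4) (x 5)) (p (x 0) (x 3)) (x 2) (x 1))),
  (-1, (.N (a (x 4) (x 5) (p (x 3) (x 0))) (x 1) (x 2) 0 2)),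
  (1, (.PL (.T (x 0) (x 4) (x 3) (p (x 5) (x 2))) (x 1))),
  (1, (.PR (x 1) (.PL (.T (x 0) (x 4) (x 3) (x 5)) (x 2)))),
  (-1, (.PR (x 2) (.T (p (x 5) (x 3)) (x 0) (x 4) (x 1)))),
  (-1, (.T (x 0) (x 1) (p (x 5) (x 4)) (p (x 3) (x 2)))),
  (1, (.PL (.PR (x 2) (.T (x 3) (x 5) (x 1) (x 4))) (x 0))),
  (1, (.T (x 1) (x 4) (p (p (x 3) (x 2)) (x 5)) (x 0))),
  (-1, (.PL (.T (x 0) (p (x 5) (x 3)) (x 2) (x 4)) (x 1))),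
  (-1, (.PL (.PR (x 0) (.T (x 2) (x 5) (x 4) (x 3))) (x 1))),
  (1, (.N (a (x 2) (x 3) (x 4)) (x 0) (p (x 5) (x 1)) 0 3)),
  (-1, (.PL (.T (x 1) (x 3) (x 5) (x 4)) (p (x 0) (x 2)))),
  (1, (.PR (x 1) (.PL (.T (x 2) (x 5) (x 4) (x 3)) (x 0))))]

def c10 : List (Int × Rl) := [
  (1, (.N (a (x 3) (x 4) (x 5)) (x 0) (p (x 1) (x 2)) 0 1)),
  (-1, (.N (a (x 0) (x 4) (x 5)) (x 1) (p (x 2) (x 3)) 2 0)),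
  (1, (.T (p (p (x 2) (x 3)) (x 5)) (x 0) (x 4) (x 1))),
  (1, (.PL (.PR (x 1) (.T (x 0) (x 4) (x 3) (x 5))) (x 2))),
  (-1, (.N (a (x 0) (x 3) (p (x 5) (x 4))) (x 1) (x 2) 0 1)),
  (1, (.T (x 0) (p (p (x 3) (x 4)) (x 5)) (x 1) (x 2))),
  (-1, (.PR (p (x 0) (x 4)) (.T (x 1) (x 5) (x 3) (x 2)))),
  (-1, (.N (a (x 1) (x 3) (x 4)) (p (x 0) (x 5)) (x 2) 1 0)),
  (1, (.PR (p (x 0) (x 5)) (.T (x 1) (x 2) (x 4) (x 3)))),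
  (-1, (.T (p (p (x 2) (x 3)) (x 5)) (x 1) (x 4) (x 0))),
  (1, (.N (p (a (x 3) (x 4) (x 5)) (x 0)) (x 1) (x 2) 0 1)),
  (1, (.N (a (x 1) (x 2) (x 5)) (x 0) (p (x 3) (x 4)) 0 1)),
  (1, (.T (x 1) (p (x 5) (x 2)) (p (x 3) (x 4)) (x 0))),
  (1, (.PL (.T (x 2) (x 5) (p (x 3) (x 4)) (x 1)) (x 0))),
  (-1, (.PR (x 2) (.T (x 1) (p (x 4) (x 5)) (x 0) (x 3)))),
  (-1, (.N (a (x 1) (x 2) (x 4)) (x 0) (p (x 5) (x 3)) 0 0)),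
  (-1, (.PL (.T (x 0) (x 2) (p (x 3) (x 4)) (x 5)) (x 1))),
  (1, (.PR (x 1) (.T (p (x 5) (x 4)) (x 0) (x 3) (x 2)))),
  (1, (.PL (.T (x 0) (x 4) (p (x 3) (x 5)) (x 1)) (x 2))),
  (-1, (.PL (.T (x 0) (x 2) (x 1) (x 3)) (p (x 4) (x 5)))),
  (1, (.PR (p (x 0) (x 5)) (.T (x 2) (x 3) (x 4) (x 1)))),
  (-1, (.T (x 1) (x 5) (p (x 2) (x 0)) (p (x 4) (x 3)))),
  (1, (.PL (.T (x 2) (x 3) (x 4) (p (x 5) (x 0))) (x 1))),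
  (1, (.PR (x 2) (.T (x 1) (x 5) (p (x 4) (x 3)) (x 0)))),
  (-1, (.PL (.T (x 2) (p (x 5) (x 3)) (x 1) (x 4)) (x 0))),
  (1, (.N (p (a (x 0) (x 2) (x 4)) (x 5)) (x 1) (x 3) 0 1)),
  (1, (.T (p (p (x 3) (x 1)) (x 4)) (x 0) (x 5) (x 2))),
  (-1, (.N (a (x 1) (x 2) (p (x 4) (x 3))) (x 0) (x 5) 0 5)),
  (-1, (.PR (p (x 1) (x 2)) (.T (x 3) (x 4) (x 5) (x 0)))),
  (-1, (.T (x 1) (p (x 2) (x 4)) (x 0) (p (x 5) (x 3)))),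
  (-1, (.T (x 1) (x 5) (p (x 2) (x 3)) (p (x 0) (x 4)))),
  (-1, (.PR (x 1) (.T (x 3) (x 4) (p (x 5) (x 0)) (x 2)))),
  (-1, (.PL (.T (x 0) (x 5) (p (x 3) (x 4)) (x 1)) (x 2))),
  (-1, (.T (x 2) (p (p (x 5) (x 3)) (x 1)) (x 4) (x 0))),
  (1, (.N (a (x 1) (x 2) (x 5)) (x 0) (p (x 3) (x 4)) 0 5)),
  (1, (.PL (.T (x 1) (x 5) (x 4) (p (x 2) (x 3))) (x 0))),
  (1, (.PL (.T (x 2) (p (x 4) (x 3)) (x 1) (x 5)) (x 0))),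
  (1, (.PL (.N (a (x 0) (x 3) (x 5)) (x 2) (x 4) 0 1) (x 1))),
  (1, (.N (a (x 1) (x 4) (p (x 3) (x 2))) (x 0) (x 5) 0 4)),
  (-1, (.PL (.T (x 1) (x 4) (x 5) (x 2)) (p (x 0) (x 3)))),
  (-1, (.T (p (x 3) (x 0)) (p (x 4) (x 5)) (x 2) (x 1))),
  (-1, (.N (p (a (x 2) (x 4) (x 5)) (x 3)) (x 0) (x 1) 2 0)),
  (1, (.N (a (x 0) (x 1) (x 4)) (x 2) (p (x 3) (x 5)) 1 0)),
  (-1, (.PL (.PR (x 3) (.T (x 0) (x 5) (x 1) (x 4))) (x 2))),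
  (-1, (.PR (x 2) (.T (x 0) (x 1) (x 4) (p (x 3) (x 5))))),
  (-1, (.PR (x 0) (.N (a (x 1) (x 3) (x 5)) (x 2) (x 4) 0 4))),
  (-1, (.PR (x 1) (.N (a (x 2) (x 3) (x 4)) (x 0) (x 5) 4 0))),
  (1, (.PL (.PL (.T (x 0) (x 3) (x 5) (x 2)) (x 1)) (x 4))),
  (1, (.PL (.N (a (x 0) (x 3) (x 4)) (x 2) (x 5) 0 1) (x 1))),
  (1, (.PR (x 1) (.PR (x 5) (.T (x 0) (x 2) (x 3) (x 4))))),
  (1, (.PR (x 0) (.T (x 3) (p (x 1) (x 5)) (x 4) (x 2)))),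
  (-1, (.T (x 0) (x 3) (p (x 2) (x 1)) (p (x 4) (x 5)))),
  (-1, (.N (a (x 1) (x 4) (p (x 2) (x 3))) (x 0) (x 5) 0 2)),
  (-1, (.PR (p (x 3) (x 0)) (.T (x 1) (x 5) (x 4) (x 2)))),
  (1, (.N (p (a (x 3) (x 4) (x 5)) (x 1)) (x 0) (x 2) 0 0)),
  (-1, (.T (x 1) (x 4) (x 2) (p (p (x 0) (x 3)) (x 5)))),
  (1, (.PR (x 1) (.PL (.T (x 0) (x 2) (x 3) (x 4)) (x 5)))),
  (1, (.PR (x 2) (.T (x 0) (x 4) (x 5) (p (x 1) (x 3))))),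
  (1, (.N (a (x 1) (x 4) (x 5)) (x 0) (p (x 3) (x 2)) 0 3)),
  (-1, (.PP (a (x 2) (x 4) (x 5)) (a (x 0) (x 1) (x 3)) 0 4)),
  (1, (.PL (.T (p (x 0) (x 4)) (x 1) (x 5) (x 3)) (x 2))),
  (-1, (.N (p (x 2) (a (x 1) (x 3) (x 4))) (x 0) (x 5) 1 0)),
  (1, (.N (p (a (x 1) (x 2) (x 3)) (x 5)) (x 0) (x 4) 0 1)),
  (1, (.PL (.T (x 1) (x 5) (x 0) (x 2)) (p (x 4) (x 3)))),
  (-1, (.PL (.N (a (x 0) (x 4) (x 5)) (x 2) (x 3) 0 2) (x 1))),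
  (1, (.T (x 2) (x 1) (p (p (x 4) (x 5)) (x 3)) (x 0))),
  (-1, (.N (a (x 0) (x 1) (x 4)) (x 2) (p (x 3) (x 5)) 0 0)),
  (1, (.N (a (x 2) (x 5) (p (x 1) (x 3))) (x 0) (x 4) 0 5)),
  (1, (.PR (p (x 2) (x 4)) (.T (x 0) (x 5) (x 1) (x 3)))),
  (-1, (.PL (.PL (.T (x 1) (x 5) (x 2) (x 3)) (x 4)) (x 0))),
  (1, (.PR (x 2) (.PL (.T (x 0) (x 4) (x 5) (x 3)) (x 1)))),
  (1, (.PR (p (x 2) (x 3)) (.T (x 0) (x 4) (x 1) (x 5)))),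
  (-1, (.PL (.PL (.T (x 1) (x 2) (x 4) (x 3)) (x 0)) (x 5))),
  (1, (.N (p (x 3) (a (x 2) (x 4) (x 5))) (x 0) (x 1) 2 0)),
  (1, (.N (a (x 0) (x 4) (x 5)) (p (x 1) (x 3)) (x 2) 1 0)),
  (-1, (.N (a (x 1) (x 3) (x 4)) (x 0) (p (x 2) (x 5)) 0 2)),
  (1, (.N (p (x 1) (a (x 2) (x 4) (x 5))) (x 0) (x 3) 1 0)),
  (-1, (.PR (x 2) (.T (x 1) (p (x 3) (x 4)) (x 0) (x 5)))),
  (-1, (.PR (x 0) (.PR (x 4) (.T (x 1) (x 5) (x 2) (x 3))))),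
  (-1, (.PL (.T (x 1) (x 4) (x 3) (x 2)) (p (x 0) (x 5)))),
  (1, (.T (p (x 4) (x 3)) (x 0) (x 1) (p (x 2) (x 5)))),
  (1, (.PR (p (x 3) (x 4)) (.T (x 0) (x 2) (x 1) (x 5)))),
  (1, (.PL (.PL (.T (x 0) (x 4) (x 1) (x 5)) (x 3)) (x 2))),
  (-1, (.N (a (x 3) (x 4) (x 5)) (x 0) (p (x 1) (x 2)) 0 2)),
  (-1, (.N (a (x 2) (x 5) (p (x 1) (x 3))) (x 0) (x 4) 0 2)),
  (-1, (.N (a (x 2) (x 4) (p (x 3) (x 5))) (x 0) (x 1) 0 2)),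
  (1, (.T (p (x 4) (x 5)) (x 1) (x 2) (p (x 3) (x 0)))),
  (1, (.N (p (x 2) (a (x 1) (x 4) (x 5))) (x 0) (x 3) 4 0)),
  (1, (.N (a (x 0) (x 2) (x 4)) (x 1) (p (x 3) (x 5)) 3 0)),
  (1, (.PL (.N (a (x 3) (x 4) (x 5)) (x 0) (x 2) 0 2) (x 1))),
  (-1, (.PR (x 2) (.T (x 0) (x 3) (p (x 4) (x 5)) (x 1)))),
  (-1, (.PL (.PR (x 3) (.T (x 0) (x 5) (x 2) (x 4))) (x 1))),
  (1, (.T (x 0) (x 1) (x 2) (p (p (x 3) (x 4)) (x 5)))),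
  (1, (.PR (x 1) (.PR (x 2) (.T (x 0) (x 4) (x 5) (x 3))))),
  (1, (.PP (a (x 2) (x 3) (x 5)) (a (x 0) (x 1) (x 4)) 0 4)),
  (-1, (.PL (.T (x 1) (x 2) (x 0) (x 4)) (p (x 3) (x 5)))),
  (-1, (.N (a (x 4) (x 5) (p (x 0) (x 3))) (x 1) (x 2) 0 5)),
  (1, (.N (p (a (x 3) (x 4) (x 5)) (x 0)) (x 1) (x 2) 0 2)),
  (-1, (.N (a (x 0) (x 5) (p (x 3) (x 4))) (x 1) (x 2) 0 5)),
  (-1, (.PL (.T (x 2) (x 3) (x 4) (x 0)) (p (x 1) (x 5))))]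

def c11 : List (Int × Rl) := [
  (1, (.N (p (a (x 1) (x 3) (x 4)) (x 5)) (x 0) (x 2) 2 0)),
  (1, (.T (p (x 2) (x 5)) (p (x 4) (x 1)) (x 3) (x 0))),
  (1, (.PL (.T (x 0) (x 2) (x 5) (x 3)) (p (x 1) (x 4)))),
  (1, (.PL (.T (x 2) (x 5) (p (x 4) (x 0)) (x 3)) (x 1))),
  (-1, (.PR (x 0) (.PL (.T (x 2) (x 3) (x 5) (x 4)) (x 1)))),
  (1, (.T (x 2) (x 3) (p (x 4) (x 1)) (p (x 0) (x 5)))),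
  (1, (.N (a (x 4) (x 5) (p (x 1) (x 2))) (x 0) (x 3) 0 2)),
  (1, (.PR (p (x 2) (x 0)) (.T (x 1) (x 5) (x 3) (x 4)))),
  (-1, (.N (a (x 4) (x 5) (p (x 0) (x 2))) (x 1) (x 3) 0 2)),
  (-1, (.N (a (x 0) (x 3) (x 4)) (p (x 1) (x 5)) (x 2) 1 0)),
  (-1, (.N (a (x 2) (x 3) (x 5)) (p (x 0) (x 4)) (x 1) 0 0)),
  (1, (.PL (.PR (x 3) (.T (x 0) (x 1) (x 4) (x 5))) (x 2))),
  (-1, (.PR (x 0) (.PR (x 2) (.T (x 1) (x 4) (x 5) (x 3))))),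
  (1, (.PR (p (x 4) (x 5)) (.T (x 0) (x 2) (x 1) (x 3)))),
  (1, (.N (a (x 3) (x 5) (p (x 4) (x 0))) (x 1) (x 2) 0 5)),
  (1, (.PL (.T (x 3) (x 4) (p (x 5) (x 2)) (x 1)) (x 0))),
  (1, (.N (p (a (x 0) (x 4) (x 5)) (x 3)) (x 1) (x 2) 2 0)),
  (1, (.T (p (p (x 4) (x 5)) (x 0)) (x 1) (x 3) (x 2))),
  (1, (.PR (p (x 1) (x 3)) (.T (x 0) (x 2) (x 5) (x 4)))),
  (-1, (.PR (x 0) (.T (p (x 4) (x 1)) (x 3) (x 5) (x 2)))),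
  (-1, (.N (a (x 2) (x 3) (x 5)) (x 0) (p (x 4) (x 1)) 0 2)),
  (-1, (.T (p (x 5) (x 2)) (p (x 1) (x 3)) (x 4) (x 0))),
  (-1, (.N (p (x 2) (a (x 0) (x 3) (x 4))) (x 1) (x 5) 1 0)),
  (-1, (.PR (p (x 5) (x 2)) (.T (x 0) (x 1) (x 4) (x 3)))),
  (1, (.PL (.T (x 0) (x 3) (x 1) (p (x 4) (x 5))) (x 2))),
  (-1, (.PR (x 0) (.PR (x 1) (.T (x 3) (x 2) (x 4) (x 5))))),
  (1, (.PL (.PL (.T (x 1) (x 4) (x 3) (x 5)) (x 2)) (x 0))),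
  (-1, (.N (a (x 2) (x 4) (p (x 0) (x 3))) (x 1) (x 5) 0 5)),
  (1, (.N (a (x 1) (x 4) (x 5)) (x 0) (p (x 3) (x 2)) 0 1)),
  (1, (.PL (.T (x 0) (x 1) (x 5) (x 4)) (p (x 3) (x 2)))),
  (1, (.N (a (x 2) (x 4) (p (x 5) (x 0))) (x 1) (x 3) 0 4)),
  (-1, (.PL (.T (x 3) (x 4) (p (x 1) (x 5)) (x 2)) (x 0))),
  (1, (.PR (x 1) (.T (x 0) (x 5) (x 2) (p (x 4) (x 3))))),
  (-1, (.N (a (x 3) (x 4) (p (x 1) (x 5))) (x 0) (x 2) 0 5)),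
  (-1, (.PL (.T (x 3) (x 1) (x 5) (p (x 4) (x 2))) (x 0))),
  (1, (.PR (x 0) (.PR (x 1) (.T (x 2) (x 5) (x 3) (x 4))))),
  (1, (.PR (p (x 4) (x 3)) (.T (x 0) (x 1) (x 5) (x 2)))),
  (1, (.PR (x 2) (.T (x 1) (x 4) (p (x 3) (x 5)) (x 0)))),
  (-1, (.PR (x 1) (.T (x 4) (x 2) (p (x 5) (x 3)) (x 0)))),
  (-1, (.T (x 1) (p (x 4) (x 3)) (p (x 5) (x 2)) (x 0))),
  (1, (.T (x 0) (p (x 5) (x 4)) (x 1) (p (x 2) (x 3)))),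
  (-1, (.PL (.T (x 0) (x 2) (x 4) (x 3)) (p (x 1) (x 5)))),
  (-1, (.T (x 2) (x 3) (p (x 5) (x 0)) (p (x 1) (x 4)))),
  (1, (.N (a (x 1) (x 2) (x 4)) (x 0) (p (x 5) (x 3)) 4 0)),
  (1, (.N (a (x 0) (x 2) (x 5)) (x 1) (p (x 4) (x 3)) 0 4)),
  (-1, (.PP (a (x 2) (x 3) (x 4)) (a (x 0) (x 1) (x 5)) 0 1)),
  (1, (.PR (x 2) (.PR (x 1) (.T (x 0) (x 5) (x 3) (x 4))))),
  (1, (.N (a (x 1) (x 5) (p (x 3) (x 4))) (x 0) (x 2) 0 1)),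
  (1, (.T (x 1) (x 3) (p (x 5) (x 0)) (p (x 4) (x 2)))),
  (-1, (.PR (p (x 3) (x 4)) (.T (x 1) (x 5) (x 0) (x 2)))),
  (-1, (.T (x 0) (p (x 4) (x 2)) (x 1) (p (x 5) (x 3)))),
  (1, (.PR (x 0) (.PL (.T (x 1) (x 4) (x 5) (x 2)) (x 3)))),
  (-1, (.N (a (x 0) (x 2) (p (x 4) (x 3))) (x 1) (x 5) 0 1)),
  (-1, (.PL (.T (p (x 5) (x 4)) (x 2) (x 3) (x 0)) (x 1))),
  (1, (.PR (x 1) (.N (a (x 3) (x 4) (x 5)) (x 0) (x 2) 2 0))),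
  (-1, (.PL (.N (a (x 2) (x 4) (x 5)) (x 1) (x 3) 0 5) (x 0))),
  (1, (.N (a (x 1) (x 4) (p (x 2) (x 3))) (x 0) (x 5) 0 5)),
  (1, (.T (x 0) (x 2) (p (x 4) (x 3)) (p (x 5) (x 1)))),
  (-1, (.N (a (x 3) (x 4) (p (x 2) (x 5))) (x 0) (x 1) 0 4)),
  (-1, (.PL (.PL (.T (x 1) (x 5) (x 2) (x 4)) (x 3)) (x 0))),
  (1, (.PL (.PL (.T (x 1) (x 5) (x 2) (x 3)) (x 0)) (x 4))),
  (1, (.N (a (x 0) (x 3) (p (x 4) (x 5))) (x 1) (x 2) 0 2)),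
  (1, (.PR (x 2) (.N (a (x 0) (x 4) (x 5)) (x 1) (x 3) 4 0))),
  (-1, (.T (x 0) (x 5) (p (x 1) (x 3)) (p (x 4) (x 2)))),
  (-1, (.T (p (x 1) (x 3)) (p (x 4) (x 2)) (x 5) (x 0))),
  (-1, (.T (x 0) (x 2) (p (x 5) (x 3)) (p (x 4) (x 1)))),
  (-1, (.T (x 0) (x 1) (p (x 4) (x 2)) (p (x 5) (x 3)))),
  (-1, (.T (x 2) (x 3) (p (p (x 0) (x 5)) (x 4)) (x 1))),
  (1, (.PL (.T (x 0) (x 1) (p (x 5) (x 4)) (x 3)) (x 2))),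
  (-1, (.N (a (x 0) (x 3) (p (x 2) (x 4))) (x 1) (x 5) 0 5)),
  (1, (.T (p (x 5) (x 4)) (p (x 0) (x 3)) (x 2) (x 1))),
  (1, (.PL (.N (a (x 2) (x 3) (x 4)) (x 1) (x 5) 0 3) (x 0))),
  (-1, (.PL (.T (x 2) (x 3) (x 4) (p (x 5) (x 1))) (x 0))),
  (1, (.T (p (x 2) (x 5)) (p (x 3) (x 4)) (x 0) (x 1))),
  (-1, (.N (p (a (x 0) (x 3) (x 4)) (x 5)) (x 1) (x 2) 3 0)),
  (-1, (.PL (.T (x 2) (x 0) (x 4) (p (x 3) (x 5))) (x 1))),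
  (1, (.PL (.T (x 0) (x 5) (x 4) (p (x 2) (x 3))) (x 1))),
  (-1, (.N (a (x 1) (x 4) (p (x 5) (x 3))) (x 0) (x 2) 0 1)),
  (1, (.T (x 0) (x 1) (p (p (x 4) (x 5)) (x 3)) (x 2))),
  (1, (.PL (.PL (.T (x 0) (x 4) (x 1) (x 3)) (x 5)) (x 2))),
  (-1, (.PR (x 1) (.T (x 2) (x 0) (x 3) (p (x 4) (x 5))))),
  (-1, (.T (x 1) (x 5) (p (x 0) (x 4)) (p (x 3) (x 2)))),
  (-1, (.N (a (x 3) (x 4) (x 5)) (x 0) (p (x 2) (x 1)) 0 0)),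
  (1, (.PL (.T (x 0) (x 3) (x 1) (x 4)) (p (x 2) (x 5)))),
  (1, (.PL (.PR (x 3) (.T (x 0) (x 1) (x 5) (x 4))) (x 2))),
  (1, (.N (a (x 2) (x 3) (x 4)) (p (x 0) (x 5)) (x 1) 0 3)),
  (-1, (.T (x 0) (x 3) (p (x 4) (x 2)) (p (x 5) (x 1)))),
  (1, (.N (a (x 1) (x 4) (p (x 3) (x 5))) (x 0) (x 2) 0 2)),
  (1, (.N (p (a (x 2) (x 3) (x 4)) (x 1)) (x 0) (x 5) 4 0)),
  (1, (.T (x 0) (x 4) (p (p (x 5) (x 3)) (x 1)) (x 2))),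
  (-1, (.PR (x 2) (.T (x 0) (x 5) (p (x 4) (x 1)) (x 3)))),
  (-1, (.PL (.T (x 0) (x 4) (p (x 5) (x 3)) (x 1)) (x 2))),
  (-1, (.N (p (a (x 0) (x 4) (x 5)) (x 3)) (x 1) (x 2) 1 0)),
  (-1, (.PR (p (x 4) (x 0)) (.T (x 2) (x 5) (x 1) (x 3)))),
  (1, (.N (a (x 1) (x 4) (x 5)) (x 0) (p (x 2) (x 3)) 0 1)),
  (1, (.PR (x 1) (.T (x 4) (x 3) (p (x 0) (x 5)) (x 2)))),
  (-1, (.PL (.T (x 1) (x 5) (x 0) (x 3)) (p (x 4) (x 2)))),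
  (-1, (.T (x 2) (p (p (x 0) (x 3)) (x 4)) (x 5) (x 1))),
  (-1, (.PR (x 1) (.PL (.T (x 4) (x 3) (x 5) (x 0)) (x 2)))),
  (1, (.PL (.PL (.T (x 3) (x 2) (x 4) (x 5)) (x 0)) (x 1)))]

def c12 : List (Int × Rl) := [
  (1, (.T (p (x 3) (x 5)) (x 0) (x 1) (p (x 2) (x 4)))),
  (-1, (.PR (p (x 0) (x 2)) (.T (x 1) (x 5) (x 4) (x 3)))),
  (1, (.PL (.T (x 0) (x 3) (x 5) (p (x 2) (x 4))) (x 1))),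
  (1, (.PR (x 1) (.T (x 0) (x 2) (p (x 3) (x 5)) (x 4)))),
  (-1, (.N (a (x 4) (x 5) (p (x 2) (x 0))) (x 1) (x 3) 0 2)),
  (1, (.PL (.N (a (x 0) (x 4) (x 5)) (x 2) (x 3) 2 0) (x 1))),
  (1, (.N (a (x 1) (x 3) (p (x 4) (x 0))) (x 2) (x 5) 0 4)),
  (-1, (.PL (.PR (x 0) (.T (x 1) (x 3) (x 5) (x 4))) (x 2))),
  (1, (.N (p (a (x 2) (x 3) (x 4)) (x 1)) (x 0) (x 5) 0 0)),
  (1, (.T (x 1) (x 3) (p (x 2) (x 0)) (p (x 4) (x 5)))),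
  (-1, (.PL (.T (x 0) (x 1) (x 4) (x 3)) (p (x 2) (x 5)))),
  (1, (.PL (.T (p (x 4) (x 3)) (x 2) (x 5) (x 0)) (x 1))),
  (1, (.T (x 2) (x 3) (p (x 5) (x 1)) (p (x 0) (x 4)))),
  (1, (.PR (x 0) (.N (a (x 2) (x 3) (x 5)) (x 1) (x 4) 5 0))),
  (-1, (.T (x 0) (x 3) (p (x 4) (x 1)) (p (x 2) (x 5)))),
  (1, (.PL (.T (x 1) (x 5) (x 4) (x 3)) (p (x 0) (x 2)))),
  (1, (.PL (.PR (x 4) (.T (x 0) (x 1) (x 3) (x 5))) (x 2))),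
  (-1, (.N (a (x 1) (x 3) (x 4)) (x 0) (p (x 2) (x 5)) 5 0)),
  (-1, (.PR (p (x 4) (x 0)) (.T (x 1) (x 3) (x 5) (x 2)))),
  (1, (.N (a (x 3) (x 4) (x 5)) (x 0) (p (x 1) (x 2)) 0 3)),
  (1, (.T (x 0) (x 2) (p (p (x 4) (x 3)) (x 5)) (x 1))),
  (1, (.PR (x 2) (.PL (.T (x 3) (x 4) (x 5) (x 0)) (x 1)))),
  (-1, (.N (p (a (x 1) (x 2) (x 4)) (x 3)) (x 0) (x 5) 0 0)),
  (-1, (.PR (x 2) (.PL (.T (x 1) (x 3) (x 4) (x 0)) (x 5)))),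
  (1, (.T (x 2) (x 4) (p (p (x 3) (x 1)) (x 5)) (x 0))),
  (1, (.N (a (x 0) (x 3) (p (x 4) (x 5))) (x 1) (x 2) 0 3)),
  (1, (.PP (a (x 0) (x 2) (x 3)) (a (x 1) (x 4) (x 5)) 0 4)),
  (1, (.PL (.T (x 2) (x 3) (x 5) (p (x 4) (x 1))) (x 0))),
  (1, (.T (p (x 0) (x 5)) (p (x 2) (x 3)) (x 4) (x 1))),
  (-1, (.PR (x 1) (.N (a (x 3) (x 4) (x 5)) (x 0) (x 2) 5 0))),
  (-1, (.PL (.T (x 1) (x 5) (x 3) (x 2)) (p (x 4) (x 0)))),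
  (1, (.T (p (x 5) (x 1)) (p (x 0) (x 4)) (x 3) (x 2))),
  (-1, (.PL (.PR (x 0) (.T (x 4) (x 3) (x 5) (x 2))) (x 1))),
  (-1, (.N (a (x 3) (x 4) (p (x 2) (x 1))) (x 0) (x 5) 0 2)),
  (1, (.N (a (x 4) (x 5) (p (x 3) (x 1))) (x 0) (x 2) 0 2)),
  (-1, (.PR (x 2) (.N (a (x 0) (x 3) (x 4)) (x 1) (x 5) 2 0))),
  (-1, (.N (a (x 2) (x 3) (x 4)) (p (x 0) (x 5)) (x 1) 0 2)),
  (1, (.T (p (p (x 1) (x 4)) (x 5)) (x 2) (x 3) (x 0))),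
  (-1, (.N (a (x 1) (x 2) (x 5)) (x 0) (p (x 3) (x 4)) 1 0)),
  (-1, (.N (a (x 1) (x 3) (x 4)) (x 0) (p (x 5) (x 2)) 0 3)),
  (-1, (.PL (.N (a (x 0) (x 1) (x 5)) (x 3) (x 4) 2 0) (x 2))),
  (-1, (.PR (x 1) (.N (a (x 0) (x 3) (x 4)) (x 2) (x 5) 0 4))),
  (1, (.PR (x 0) (.N (a (x 2) (x 3) (x 5)) (x 1) (x 4) 0 3))),
  (-1, (.PR (x 0) (.T (x 2) (x 5) (x 3) (p (x 4) (x 1))))),
  (1, (.PL (.T (p (x 5) (x 0)) (x 3) (x 4) (x 1)) (x 2))),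
  (-1, (.PR (x 2) (.PL (.T (x 0) (x 3) (x 1) (x 4)) (x 5)))),
  (-1, (.PR (x 0) (.N (a (x 1) (x 2) (x 5)) (x 3) (x 4) 0 0))),
  (-1, (.PL (.T (x 3) (x 2) (p (x 5) (x 4)) (x 0)) (x 1))),
  (1, (.N (p (x 1) (a (x 2) (x 3) (x 5))) (x 0) (x 4) 1 0)),
  (1, (.N (p (a (x 1) (x 3) (x 4)) (x 5)) (x 0) (x 2) 0 5)),
  (1, (.PR (x 0) (.N (a (x 1) (x 3) (x 5)) (x 2) (x 4) 5 0))),
  (1, (.T (x 0) (x 2) (p (x 4) (x 3)) (p (x 1) (x 5)))),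
  (-1, (.PL (.N (a (x 1) (x 4) (x 5)) (x 2) (x 3) 1 0) (x 0))),
  (1, (.N (a (x 2) (x 3) (p (x 0) (x 5))) (x 1) (x 4) 0 4)),
  (-1, (.PP (a (x 0) (x 3) (x 5)) (a (x 1) (x 2) (x 4)) 0 0)),
  (1, (.T (x 1) (x 5) (x 2) (p (p (x 0) (x 3)) (x 4)))),
  (-1, (.N (a (x 1) (x 5) (p (x 4) (x 3))) (x 0) (x 2) 0 1)),
  (1, (.PR (x 1) (.T (x 2) (p (x 3) (x 5)) (x 4) (x 0)))),
  (-1, (.PR (x 1) (.T (x 0) (p (x 3) (x 4)) (x 2) (x 5)))),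
  (1, (.T (x 0) (x 4) (x 2) (p (p (x 1) (x 5)) (x 3)))),
  (-1, (.T (x 0) (x 4) (p (x 5) (x 1)) (p (x 2) (x 3)))),
  (-1, (.T (x 0) (p (x 5) (x 4)) (x 1) (p (x 3) (x 2)))),
  (-1, (.N (p (a (x 1) (x 3) (x 4)) (x 5)) (x 0) (x 2) 1 0)),
  (-1, (.PL (.T (x 2) (x 3) (p (x 5) (x 4)) (x 1)) (x 0))),
  (-1, (.PL (.T (x 1) (x 3) (x 4) (p (x 5) (x 0))) (x 2))),
  (1, (.PL (.T (x 0) (x 1) (x 3) (x 5)) (p (x 4) (x 2)))),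
  (1, (.N (a (x 1) (x 2) (x 5)) (x 0) (p (x 3) (x 4)) 0 2)),
  (-1, (.PL (.N (a (x 3) (x 4) (x 5)) (x 0) (x 1) 3 0) (x 2))),
  (1, (.PR (x 1) (.PR (x 3) (.T (x 0) (x 4) (x 5) (x 2))))),
  (-1, (.PL (.N (a (x 1) (x 3) (x 5)) (x 2) (x 4) 0 0) (x 0))),
  (1, (.PL (.T (x 2) (x 4) (p (x 5) (x 1)) (x 3)) (x 0))),
  (1, (.N (a (x 0) (x 3) (x 5)) (x 1) (p (x 2) (x 4)) 5 0)),
  (-1, (.PL (.PR (x 1) (.T (x 4) (x 3) (x 5) (x 2))) (x 0))),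
  (-1, (.PR (x 1) (.N (a (x 0) (x 3) (x 5)) (x 2) (x 4) 0 4))),
  (-1, (.PL (.PL (.T (x 0) (x 1) (x 3) (x 4)) (x 5)) (x 2))),
  (1, (.N (p (a (x 2) (x 4) (x 5)) (x 0)) (x 1) (x 3) 0 4)),
  (-1, (.PL (.T (x 0) (x 1) (x 3) (x 4)) (p (x 2) (x 5)))),
  (1, (.PR (x 2) (.PL (.T (x 0) (x 4) (x 3) (x 1)) (x 5)))),
  (-1, (.PR (x 0) (.N (a (x 3) (x 4) (x 5)) (x 1) (x 2) 0 5))),
  (1, (.T (p (x 2) (x 4)) (p (x 3) (x 5)) (x 1) (x 0))),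
  (-1, (.PP (a (x 2) (x 3) (x 4)) (a (x 0) (x 1) (x 5)) 0 4)),
  (-1, (.T (x 1) (x 5) (p (x 3) (x 2)) (p (x 0) (x 4)))),
  (1, (.T (x 2) (p (p (x 3) (x 1)) (x 4)) (x 5) (x 0))),
  (1, (.T (x 0) (x 1) (p (p (x 4) (x 3)) (x 5)) (x 2))),
  (-1, (.PL (.N (a (x 1) (x 4) (x 5)) (x 0) (x 3) 0 0) (x 2))),
  (1, (.PL (.T (x 3) (p (x 0) (x 5)) (x 4) (x 2)) (x 1))),
  (-1, (.N (a (x 2) (x 4) (p (x 1) (x 5))) (x 0) (x 3) 0 2)),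
  (1, (.PR (x 0) (.T (x 3) (x 5) (p (x 1) (x 4)) (x 2)))),
  (-1, (.PL (.N (a (x 3) (x 4) (x 5)) (x 0) (x 1) 2 0) (x 2))),
  (1, (.T (p (x 1) (x 5)) (p (x 4) (x 3)) (x 2) (x 0))),
  (-1, (.PR (x 0) (.T (x 5) (x 3) (p (x 4) (x 1)) (x 2)))),
  (1, (.N (a (x 1) (x 4) (x 5)) (p (x 3) (x 0)) (x 2) 3 0)),
  (1, (.PL (.T (x 1) (x 4) (p (x 3) (x 5)) (x 2)) (x 0))),
  (1, (.T (x 0) (x 4) (x 2) (p (p (x 1) (x 3)) (x 5)))),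
  (-1, (.PL (.T (p (x 4) (x 5)) (x 2) (x 3) (x 0)) (x 1))),
  (1, (.PL (.N (a (x 2) (x 3) (x 5)) (x 0) (x 4) 0 2) (x 1))),
  (1, (.N (a (x 1) (x 2) (p (x 4) (x 3))) (x 0) (x 5) 0 1)),
  (-1, (.N (a (x 0) (x 4) (x 5)) (x 1) (p (x 3) (x 2)) 0 5)),
  (-1, (.PL (.T (x 0) (x 2) (x 1) (x 5)) (p (x 4) (x 3)))),
  (-1, (.PR (x 0) (.T (x 2) (x 4) (x 3) (p (x 5) (x 1)))))]

def c13 : List (Int × Rl) := [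
  (-1, (.PL (.PL (.T (x 2) (x 5) (x 3) (x 4)) (x 1)) (x 0))),
  (-1, (.T (p (x 2) (x 3)) (p (x 5) (x 0)) (x 4) (x 1))),
  (-1, (.T (p (x 5) (x 4)) (p (x 2) (x 3)) (x 1) (x 0))),
  (-1, (.T (x 0) (x 4) (p (p (x 3) (x 1)) (x 5)) (x 2))),
  (1, (.N (a (x 1) (x 5) (p (x 4) (x 3))) (x 0) (x 2) 0 2)),
  (1, (.PL (.T (x 1) (x 2) (x 0) (x 3)) (p (x 4) (x 5)))),
  (1, (.T (x 2) (p (x 0) (x 3)) (p (x 4) (x 5)) (x 1))),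
  (-1, (.T (p (p (x 3) (x 5)) (x 2)) (x 0) (x 4) (x 1))),
  (1, (.PL (.T (x 0) (x 1) (x 5) (p (x 3) (x 4))) (x 2))),
  (-1, (.PR (x 0) (.N (a (x 1) (x 3) (x 5)) (x 2) (x 4) 0 5))),
  (1, (.PL (.T (x 1) (x 5) (x 3) (p (x 0) (x 4))) (x 2))),
  (1, (.PR (x 1) (.T (x 2) (x 5) (x 3) (p (x 4) (x 0))))),
  (-1, (.N (a (x 2) (x 3) (x 5)) (p (x 0) (x 4)) (x 1) 0 2)),
  (1, (.PL (.T (p (x 4) (x 5)) (x 1) (x 3) (x 2)) (x 0))),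
  (1, (.N (p (a (x 1) (x 2) (x 4)) (x 3)) (x 0) (x 5) 1 0)),
  (-1, (.N (a (x 1) (x 4) (x 5)) (p (x 3) (x 0)) (x 2) 2 0)),
  (1, (.T (p (x 2) (x 0)) (p (x 3) (x 5)) (x 4) (x 1))),
  (1, (.PR (x 1) (.PL (.T (x 0) (x 3) (x 2) (x 5)) (x 4)))),
  (1, (.PL (.N (a (x 2) (x 3) (x 4)) (x 1) (x 5) 3 0) (x 0))),
  (1, (.PL (.N (a (x 1) (x 3) (x 5)) (x 2) (x 4) 0 1) (x 0))),
  (-1, (.PL (.T (x 3) (p (x 4) (x 0)) (x 1) (x 5)) (x 2))),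
  (1, (.PR (x 1) (.T (x 3) (x 5) (p (x 4) (x 0)) (x 2)))),
  (-1, (.PR (x 0) (.T (x 2) (x 1) (x 4) (p (x 5) (x 3))))),
  (1, (.PR (x 1) (.PR (x 0) (.T (x 2) (x 3) (x 4) (x 5))))),
  (-1, (.T (x 0) (x 3) (p (p (x 2) (x 4)) (x 5)) (x 1))),
  (1, (.T (x 1) (p (p (x 2) (x 3)) (x 5)) (x 0) (x 4))),
  (-1, (.N (a (x 0) (x 2) (x 3)) (x 1) (p (x 5) (x 4)) 3 0)),
  (-1, (.N (a (x 1) (x 2) (x 5)) (x 0) (p (x 3) (x 4)) 2 0)),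
  (-1, (.PR (x 0) (.PR (x 5) (.T (x 2) (x 4) (x 1) (x 3))))),
  (-1, (.PL (.PR (x 3) (.T (x 2) (x 4) (x 5) (x 1))) (x 0))),
  (1, (.N (p (a (x 1) (x 4) (x 5)) (x 3)) (x 0) (x 2) 0 5)),
  (1, (.PL (.T (x 1) (x 2) (x 0) (x 3)) (p (x 5) (x 4)))),
  (-1, (.T (x 1) (x 3) (p (p (x 5) (x 0)) (x 4)) (x 2))),
  (-1, (.PL (.PL (.T (x 2) (x 5) (x 3) (x 4)) (x 0)) (x 1))),
  (1, (.PR (x 1) (.N (a (x 0) (x 3) (x 5)) (x 2) (x 4) 0 5))),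
  (-1, (.T (x 1) (x 5) (p (p (x 3) (x 0)) (x 4)) (x 2))),
  (-1, (.PR (p (x 2) (x 4)) (.T (x 0) (x 3) (x 5) (x 1)))),
  (-1, (.PR (x 0) (.T (x 1) (x 3) (x 4) (p (x 2) (x 5))))),
  (-1, (.N (a (x 1) (x 3) (x 4)) (x 0) (p (x 5) (x 2)) 2 0)),
  (-1, (.PR (p (x 5) (x 1)) (.T (x 2) (x 3) (x 4) (x 0)))),
  (-1, (.T (p (x 1) (x 3)) (p (x 0) (x 5)) (x 4) (x 2))),
  (-1, (.T (x 0) (x 5) (p (p (x 3) (x 4)) (x 2)) (x 1))),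
  (-1, (.PL (.PL (.T (x 1) (x 4) (x 3) (x 5)) (x 0)) (x 2))),
  (-1, (.PL (.N (a (x 0) (x 3) (x 4)) (x 1) (x 5) 0 5) (x 2))),
  (1, (.T (x 1) (x 5) (p (x 0) (x 4)) (p (x 2) (x 3)))),
  (-1, (.T (x 1) (x 4) (p (x 3) (x 0)) (p (x 2) (x 5)))),
  (1, (.PR (x 0) (.PR (x 3) (.T (x 2) (x 5) (x 1) (x 4))))),
  (-1, (.N (a (x 0) (x 2) (x 4)) (x 1) (p (x 5) (x 3)) 1 0)),
  (1, (.PR (x 0) (.T (x 1) (x 3) (p (x 5) (x 4)) (x 2)))),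
  (-1, (.N (p (a (x 2) (x 3) (x 5)) (x 4)) (x 0) (x 1) 3 0)),
  (-1, (.PP (a (x 1) (x 2) (x 5)) (a (x 0) (x 3) (x 4)) 4 0)),
  (-1, (.N (a (x 2) (x 3) (x 4)) (p (x 0) (x 5)) (x 1) 0 4)),
  (1, (.PR (x 2) (.T (p (x 3) (x 5)) (x 1) (x 4) (x 0)))),
  (-1, (.PL (.T (p (x 4) (x 0)) (x 3) (x 5) (x 2)) (x 1))),
  (-1, (.T (x 1) (x 2) (p (x 3) (x 0)) (p (x 5) (x 4)))),
  (1, (.N (a (x 0) (x 2) (x 3)) (x 1) (p (x 4) (x 5)) 0 5)),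
  (-1, (.PL (.PL (.T (x 2) (x 3) (x 1) (x 5)) (x 0)) (x 4))),
  (1, (.N (a (x 4) (x 5) (p (x 0) (x 3))) (x 1) (x 2) 0 4)),
  (1, (.PR (p (x 5) (x 4)) (.T (x 0) (x 3) (x 2) (x 1)))),
  (1, (.PR (x 1) (.N (a (x 3) (x 4) (x 5)) (x 0) (x 2) 0 3))),
  (1, (.PR (x 0) (.T (p (x 3) (x 5)) (x 1) (x 4) (x 2)))),
  (1, (.N (a (x 1) (x 2) (p (x 5) (x 4))) (x 0) (x 3) 1 0)),
  (-1, (.PR (x 2) (.T (x 1) (x 5) (p (x 0) (x 4)) (x 3)))),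
  (1, (.N (a (x 2) (x 3) (x 4)) (p (x 5) (x 0)) (x 1) 0 3)),
  (1, (.N (a (x 2) (x 3) (p (x 4) (x 5))) (x 0) (x 1) 0 4)),
  (-1, (.PL (.PR (x 3) (.T (x 0) (x 4) (x 2) (x 5))) (x 1))),
  (-1, (.N (p (a (x 1) (x 2) (x 5)) (x 4)) (x 0) (x 3) 1 0)),
  (-1, (.PL (.T (x 0) (x 2) (x 3) (x 1)) (p (x 5) (x 4)))),
  (-1, (.PR (p (x 0) (x 5)) (.T (x 1) (x 4) (x 3) (x 2)))),
  (1, (.PL (.T (x 0) (x 4) (x 2) (x 3)) (p (x 1) (x 5)))),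
  (-1, (.N (a (x 2) (x 3) (x 5)) (x 0) (p (x 4) (x 1)) 3 0)),
  (-1, (.PR (x 2) (.T (x 0) (x 5) (p (x 1) (x 4)) (x 3)))),
  (1, (.N (a (x 2) (x 5) (p (x 0) (x 3))) (x 1) (x 4) 0 4)),
  (1, (.PR (x 0) (.T (x 4) (x 3) (p (x 2) (x 5)) (x 1)))),
  (1, (.PL (.T (p (x 1) (x 4)) (x 2) (x 5) (x 3)) (x 0))),
  (-1, (.T (p (p (x 2) (x 4)) (x 5)) (x 0) (x 3) (x 1))),
  (-1, (.PR (x 0) (.PR (x 4) (.T (x 2) (x 3) (x 5) (x 1))))),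
  (-1, (.N (a (x 1) (x 2) (x 3)) (x 0) (p (x 4) (x 5)) 0 0)),
  (-1, (.T (x 1) (x 3) (p (x 2) (x 5)) (p (x 0) (x 4)))),
  (1, (.T (x 0) (x 2) (p (p (x 5) (x 3)) (x 4)) (x 1))),
  (1, (.PR (x 1) (.N (a (x 0) (x 2) (x 5)) (x 3) (x 4) 2 0))),
  (1, (.PR (x 2) (.T (p (x 4) (x 5)) (x 0) (x 3) (x 1)))),
  (1, (.PL (.PL (.T (x 2) (x 4) (x 0) (x 5)) (x 3)) (x 1))),
  (-1, (.N (a (x 1) (x 4) (x 5)) (x 0) (p (x 3) (x 2)) 0 4)),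
  (1, (.PL (.T (x 2) (x 0) (x 3) (p (x 5) (x 4))) (x 1))),
  (-1, (.PL (.PL (.T (x 2) (x 3) (x 0) (x 4)) (x 1)) (x 5))),
  (1, (.N (p (a (x 2) (x 4) (x 5)) (x 1)) (x 0) (x 3) 0 4)),
  (-1, (.N (p (a (x 2) (x 3) (x 5)) (x 1)) (x 0) (x 4) 1 0)),
  (-1, (.T (p (x 4) (x 0)) (p (x 2) (x 3)) (x 5) (x 1))),
  (1, (.PR (x 2) (.T (x 0) (p (x 4) (x 5)) (x 1) (x 3)))),
  (-1, (.N (p (a (x 0) (x 2) (x 4)) (x 5)) (x 1) (x 3) 0 0)),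
  (1, (.PL (.T (x 2) (x 5) (x 4) (p (x 3) (x 0))) (x 1))),
  (1, (.T (x 0) (x 3) (x 2) (p (p (x 1) (x 4)) (x 5)))),
  (1, (.N (a (x 3) (x 4) (x 5)) (p (x 2) (x 0)) (x 1) 4 0)),
  (-1, (.N (p (a (x 0) (x 4) (x 5)) (x 3)) (x 1) (x 2) 4 0)),
  (-1, (.PR (x 1) (.T (x 0) (x 4) (x 3) (p (x 2) (x 5))))),
  (1, (.N (p (a (x 0) (x 1) (x 3)) (x 4)) (x 2) (x 5) 4 0)),
  (1, (.PR (x 0) (.T (x 5) (x 3) (p (x 1) (x 4)) (x 2)))),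
  (1, (.PR (x 1) (.T (x 0) (x 2) (p (x 3) (x 4)) (x 5)))),
  (1, (.N (a (x 1) (x 3) (x 4)) (p (x 0) (x 5)) (x 2) 2 0))]

def c14 : List (Int × Rl) := [
  (1, (.PR (p (x 4) (x 2)) (.T (x 0) (x 3) (x 5) (x 1)))),
  (1, (.N (a (x 3) (x 5) (p (x 0) (x 4))) (x 1) (x 2) 0 4)),
  (-1, (.T (x 1) (p (p (x 5) (x 3)) (x 2)) (x 4) (x 0))),
  (-1, (.PL (.T (x 1) (x 4) (x 3) (p (x 2) (x 5))) (x 0))),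
  (1, (.PR (x 2) (.T (x 0) (x 5) (x 1) (p (x 3) (x 4))))),
  (-1, (.N (a (x 0) (x 2) (x 5)) (x 1) (p (x 4) (x 3)) 2 0)),
  (-1, (.T (x 1) (x 2) (p (x 0) (x 3)) (p (x 5) (x 4)))),
  (-1, (.N (a (x 1) (x 4) (p (x 5) (x 2))) (x 0) (x 3) 0 5)),
  (-1, (.N (a (x 2) (x 5) (p (x 3) (x 1))) (x 0) (x 4) 0 4)),
  (1, (.PR (p (x 3) (x 4)) (.T (x 0) (x 2) (x 5) (x 1)))),
  (-1, (.T (p (p (x 3) (x 0)) (x 4)) (x 1) (x 5) (x 2))),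
  (-1, (.PL (.T (x 2) (x 5) (x 1) (x 4)) (p (x 0) (x 3)))),
  (1, (.PR (x 0) (.T (x 1) (x 2) (p (x 3) (x 5)) (x 4)))),
  (-1, (.PL (.T (x 1) (x 5) (x 2) (x 3)) (p (x 4) (x 0)))),
  (-1, (.PR (x 2) (.T (p (x 3) (x 5)) (x 0) (x 4) (x 1)))),
  (-1, (.PR (x 2) (.N (a (x 1) (x 3) (x 4)) (x 0) (x 5) 0 1))),
  (1, (.T (x 0) (x 1) (p (x 4) (x 3)) (p (x 5) (x 2)))),
  (-1, (.PL (.T (x 1) (x 2) (x 0) (x 5)) (p (x 4) (x 3)))),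
  (1, (.N (a (x 2) (x 3) (x 4)) (x 0) (p (x 5) (x 1)) 0 1)),
  (-1, (.PL (.N (a (x 3) (x 4) (x 5)) (x 0) (x 2) 3 0) (x 1))),
  (1, (.PR (x 1) (.PL (.T (x 0) (x 4) (x 5) (x 2)) (x 3)))),
  (-1, (.PL (.T (x 2) (x 4) (x 5) (x 0)) (p (x 3) (x 1)))),
  (-1, (.T (x 2) (x 4) (p (x 5) (x 0)) (p (x 1) (x 3)))),
  (-1, (.T (p (x 3) (x 0)) (p (x 2) (x 5)) (x 4) (x 1))),
  (-1, (.PL (.T (p (x 5) (x 4)) (x 1) (x 3) (x 0)) (x 2))),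
  (-1, (.T (x 0) (x 5) (p (p (x 2) (x 4)) (x 3)) (x 1))),
  (-1, (.PR (x 1) (.T (x 2) (x 4) (p (x 5) (x 3)) (x 0)))),
  (1, (.N (a (x 0) (x 2) (x 5)) (x 1) (p (x 3) (x 4)) 3 0)),
  (-1, (.N (a (x 3) (x 4) (p (x 5) (x 0))) (x 1) (x 2) 0 2)),
  (1, (.N (a (x 1) (x 5) (p (x 2) (x 4))) (x 0) (x 3) 0 5)),
  (-1, (.PL (.T (x 3) (p (x 1) (x 4)) (x 2) (x 5)) (x 0))),
  (1, (.PR (x 1) (.N (a (x 2) (x 4) (x 5)) (x 0) (x 3) 2 0))),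
  (-1, (.PR (x 2) (.PL (.T (x 0) (x 5) (x 4) (x 1)) (x 3)))),
  (-1, (.PR (p (x 3) (x 4)) (.T (x 0) (x 5) (x 2) (x 1)))),
  (1, (.N (a (x 1) (x 5) (p (x 4) (x 3))) (x 0) (x 2) 0 5)),
  (-1, (.PL (.T (p (x 0) (x 4)) (x 2) (x 5) (x 3)) (x 1))),
  (-1, (.PL (.PL (.T (x 3) (x 4) (x 2) (x 5)) (x 1)) (x 0))),
  (-1, (.PR (x 0) (.PR (x 1) (.T (x 3) (x 4) (x 2) (x 5))))),
  (-1, (.PL (.N (a (x 2) (x 3) (x 4)) (x 0) (x 5) 0 4) (x 1))),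
  (1, (.N (a (x 3) (x 4) (p (x 2) (x 0))) (x 1) (x 5) 0 2)),
  (-1, (.N (p (a (x 2) (x 3) (x 5)) (x 4)) (x 0) (x 1) 0 5)),
  (1, (.PR (x 2) (.N (a (x 0) (x 4) (x 5)) (x 1) (x 3) 0 1))),
  (1, (.PR (x 2) (.T (x 0) (x 1) (x 5) (p (x 3) (x 4))))),
  (-1, (.PR (x 2) (.N (a (x 0) (x 3) (x 4)) (x 1) (x 5) 0 0))),
  (1, (.PL (.N (a (x 0) (x 3) (x 5)) (x 1) (x 4) 0 0) (x 2))),
  (1, (.T (p (x 5) (x 4)) (p (x 2) (x 1)) (x 3) (x 0))),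
  (1, (.PR (p (x 2) (x 5)) (.T (x 0) (x 4) (x 3) (x 1)))),
  (1, (.N (a (x 0) (x 4) (p (x 3) (x 5))) (x 1) (x 2) 0 5)),
  (-1, (.PR (x 1) (.PR (x 3) (.T (x 0) (x 4) (x 2) (x 5))))),
  (-1, (.PR (x 2) (.N (a (x 3) (x 4) (x 5)) (x 0) (x 1) 0 5))),
  (1, (.N (a (x 3) (x 4) (p (x 0) (x 2))) (x 1) (x 5) 0 5)),
  (-1, (.PL (.PL (.T (x 0) (x 1) (x 4) (x 3)) (x 5)) (x 2))),
  (-1, (.N (p (x 3) (a (x 1) (x 4) (x 5))) (x 0) (x 2) 2 0)),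
  (-1, (.PL (.N (a (x 2) (x 3) (x 4)) (x 0) (x 5) 0 2) (x 1))),
  (1, (.N (p (a (x 1) (x 3) (x 5)) (x 4)) (x 0) (x 2) 3 0)),
  (1, (.PR (x 2) (.T (p (x 4) (x 5)) (x 1) (x 3) (x 0)))),
  (1, (.PR (x 2) (.T (x 1) (p (x 3) (x 5)) (x 4) (x 0)))),
  (1, (.T (p (x 4) (x 3)) (x 2) (p (x 5) (x 0)) (x 1))),
  (-1, (.T (p (p (x 0) (x 3)) (x 4)) (x 2) (x 5) (x 1))),
  (-1, (.N (a (x 1) (x 2) (x 3)) (x 0) (p (x 5) (x 4)) 4 0)),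
  (1, (.PL (.PL (.T (x 0) (x 3) (x 4) (x 2)) (x 1)) (x 5))),
  (-1, (.PL (.T (x 1) (x 5) (x 2) (p (x 4) (x 3))) (x 0))),
  (-1, (.PL (.T (x 0) (x 5) (x 4) (x 3)) (p (x 1) (x 2)))),
  (-1, (.PR (p (x 2) (x 0)) (.T (x 3) (x 4) (x 5) (x 1)))),
  (-1, (.PL (.PL (.T (x 0) (x 2) (x 3) (x 5)) (x 4)) (x 1))),
  (1, (.PR (x 2) (.T (x 0) (x 3) (p (x 5) (x 4)) (x 1)))),
  (1, (.T (p (x 4) (x 3)) (p (x 5) (x 2)) (x 0) (x 1))),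
  (1, (.T (p (x 2) (x 3)) (p (x 5) (x 4)) (x 0) (x 1))),
  (1, (.N (p (a (x 0) (x 2) (x 3)) (x 5)) (x 1) (x 4) 1 0)),
  (-1, (.T (p (x 4) (x 2)) (x 1) (p (x 5) (x 3)) (x 0))),
  (-1, (.PR (x 1) (.PL (.T (x 3) (x 5) (x 0) (x 4)) (x 2)))),
  (-1, (.PR (x 2) (.T (x 5) (x 1) (p (x 3) (x 4)) (x 0)))),
  (1, (.PR (x 1) (.T (x 0) (x 2) (x 5) (p (x 4) (x 3))))),
  (-1, (.PR (x 0) (.T (x 2) (p (x 5) (x 4)) (x 3) (x 1)))),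
  (-1, (.PL (.N (a (x 3) (x 4) (x 5)) (x 0) (x 1) 0 3) (x 2))),
  (1, (.PL (.PL (.T (x 1) (x 4) (x 3) (x 2)) (x 5)) (x 0))),
  (1, (.T (x 2) (x 3) (p (p (x 4) (x 0)) (x 5)) (x 1))),
  (1, (.N (p (a (x 0) (x 3) (x 4)) (x 2)) (x 1) (x 5) 1 0)),
  (1, (.PL (.T (x 1) (p (x 5) (x 4)) (x 3) (x 0)) (x 2))),
  (-1, (.PR (x 0) (.T (x 1) (x 5) (x 4) (p (x 3) (x 2))))),
  (1, (.PR (p (x 5) (x 1)) (.T (x 2) (x 4) (x 0) (x 3)))),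
  (-1, (.PR (x 1) (.N (a (x 0) (x 3) (x 5)) (x 2) (x 4) 2 0))),
  (-1, (.T (x 2) (x 5) (p (p (x 0) (x 3)) (x 4)) (x 1))),
  (-1, (.T (p (p (x 1) (x 5)) (x 3)) (x 2) (x 4) (x 0))),
  (1, (.PR (x 0) (.T (x 1) (x 5) (p (x 2) (x 4)) (x 3)))),
  (1, (.N (a (x 3) (x 4) (p (x 1) (x 2))) (x 0) (x 5) 0 2)),
  (-1, (.T (x 2) (p (x 3) (x 5)) (p (x 4) (x 0)) (x 1))),
  (1, (.T (p (x 3) (x 2)) (x 1) (p (x 5) (x 4)) (x 0))),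
  (-1, (.T (x 0) (p (p (x 2) (x 4)) (x 5)) (x 1) (x 3))),
  (1, (.PL (.N (a (x 3) (x 4) (x 5)) (x 1) (x 2) 0 1) (x 0))),
  (1, (.N (a (x 2) (x 5) (p (x 4) (x 0))) (x 1) (x 3) 0 5)),
  (1, (.PR (x 1) (.T (x 2) (p (x 4) (x 5)) (x 3) (x 0)))),
  (-1, (.N (a (x 2) (x 5) (p (x 4) (x 3))) (x 0) (x 1) 0 1)),
  (1, (.PL (.T (x 1) (x 3) (p (x 5) (x 4)) (x 0)) (x 2))),
  (-1, (.PL (.T (x 0) (x 3) (x 4) (x 2)) (p (x 1) (x 5)))),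
  (-1, (.PR (x 1) (.PL (.T (x 0) (x 5) (x 3) (x 2)) (x 4)))),
  (1, (.PL (.N (a (x 0) (x 4) (x 5)) (x 1) (x 3) 2 0) (x 2))),
  (1, (.PL (.T (x 2) (p (x 4) (x 3)) (x 5) (x 0)) (x 1))),
  (1, (.PR (x 2) (.N (a (x 0) (x 3) (x 5)) (x 1) (x 4) 4 0))),
  (1, (.N (a (x 1) (x 4) (x 5)) (x 0) (p (x 2) (x 3)) 0 4))]

def c15 : List (Int × Rl) := [
  (1, (.N (a (x 2) (x 4) (x 5)) (x 0) (p (x 1) (x 3)) 0 1)),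
  (-1, (.T (x 0) (x 5) (x 2) (p (p (x 1) (x 4)) (x 3)))),
  (1, (.PR (x 0) (.T (x 1) (x 4) (x 2) (p (x 3) (x 5))))),
  (1, (.PR (x 1) (.T (x 0) (x 3) (x 5) (p (x 2) (x 4))))),
  (1, (.T (p (x 3) (x 4)) (x 1) (x 2) (p (x 0) (x 5)))),
  (-1, (.N (a (x 2) (x 4) (x 5)) (p (x 3) (x 0)) (x 1) 0 3)),
  (-1, (.PL (.T (x 0) (x 5) (x 1) (x 2)) (p (x 3) (x 4)))),
  (1, (.PR (x 2) (.T (x 3) (p (x 0) (x 4)) (x 5) (x 1)))),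
  (1, (.T (p (x 2) (x 4)) (x 1) (p (x 3) (x 5)) (x 0))),
  (1, (.N (a (x 1) (x 5) (p (x 2) (x 4))) (x 0) (x 3) 0 4)),
  (1, (.N (a (x 0) (x 5) (p (x 3) (x 4))) (x 1) (x 2) 0 1)),
  (-1, (.N (a (x 3) (x 5) (p (x 2) (x 1))) (x 0) (x 4) 0 5)),
  (1, (.T (p (p (x 3) (x 1)) (x 4)) (x 2) (x 5) (x 0))),
  (1, (.PL (.T (x 2) (p (x 4) (x 5)) (x 3) (x 0)) (x 1))),
  (1, (.N (p (a (x 1) (x 3) (x 4)) (x 5)) (x 0) (x 2) 0 4)),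
  (-1, (.PR (x 2) (.N (a (x 1) (x 3) (x 4)) (x 0) (x 5) 2 0))),
  (1, (.PR (x 0) (.T (x 1) (x 3) (p (x 2) (x 5)) (x 4)))),
  (1, (.T (p (x 2) (x 5)) (p (x 4) (x 3)) (x 1) (x 0))),
  (-1, (.PL (.PR (x 4) (.T (x 0) (x 5) (x 3) (x 1))) (x 2))),
  (-1, (.N (a (x 1) (x 2) (p (x 5) (x 3))) (x 0) (x 4) 0 5)),
  (-1, (.PL (.T (x 0) (p (x 3) (x 5)) (x 2) (x 4)) (x 1))),
  (-1, (.PR (p (x 1) (x 3)) (.T (x 0) (x 4) (x 5) (x 2)))),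
  (-1, (.N (a (x 0) (x 2) (x 4)) (x 1) (p (x 5) (x 3)) 2 0)),
  (-1, (.PR (x 2) (.T (x 3) (p (x 5) (x 0)) (x 4) (x 1)))),
  (1, (.PR (x 0) (.N (a (x 1) (x 3) (x 5)) (x 2) (x 4) 2 0))),
  (1, (.N (a (x 1) (x 3) (x 4)) (x 0) (p (x 2) (x 5)) 3 0)),
  (1, (.T (x 0) (x 5) (p (x 1) (x 4)) (p (x 3) (x 2)))),
  (-1, (.PR (x 2) (.N (a (x 1) (x 4) (x 5)) (x 0) (x 3) 0 0))),
  (1, (.N (a (x 2) (x 4) (p (x 0) (x 3))) (x 1) (x 5) 0 4)),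
  (-1, (.N (a (x 1) (x 4) (x 5)) (x 0) (p (x 2) (x 3)) 3 0)),
  (1, (.PR (x 1) (.PL (.T (x 2) (x 3) (x 4) (x 5)) (x 0)))),
  (1, (.PP (a (x 1) (x 2) (x 4)) (a (x 0) (x 3) (x 5)) 4 0)),
  (-1, (.T (x 0) (x 3) (p (x 1) (x 4)) (p (x 5) (x 2)))),
  (1, (.N (a (x 0) (x 2) (x 5)) (x 1) (p (x 4) (x 3)) 0 0)),
  (-1, (.N (a (x 2) (x 3) (x 5)) (x 0) (p (x 1) (x 4)) 0 5)),
  (1, (.T (x 1) (p (x 3) (x 4)) (x 0) (p (x 5) (x 2)))),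
  (-1, (.N (p (a (x 1) (x 2) (x 3)) (x 5)) (x 0) (x 4) 0 3)),
  (-1, (.N (p (a (x 2) (x 3) (x 5)) (x 1)) (x 0) (x 4) 0 4)),
  (1, (.T (p (p (x 1) (x 5)) (x 4)) (x 2) (x 3) (x 0))),
  (-1, (.PL (.PR (x 4) (.T (x 0) (x 3) (x 5) (x 1))) (x 2))),
  (1, (.N (a (x 1) (x 2) (p (x 4) (x 3))) (x 0) (x 5) 0 2)),
  (1, (.PR (x 0) (.N (a (x 1) (x 4) (x 5)) (x 2) (x 3) 0 0))),
  (1, (.T (p (x 4) (x 1)) (p (x 5) (x 3)) (x 2) (x 0))),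
  (-1, (.PR (x 2) (.T (x 0) (x 3) (x 5) (p (x 4) (x 1))))),
  (-1, (.N (a (x 3) (x 5) (p (x 4) (x 0))) (x 1) (x 2) 0 4)),
  (-1, (.PL (.PL (.T (x 1) (x 2) (x 3) (x 4)) (x 0)) (x 5))),
  (-1, (.PL (.T (x 0) (x 4) (x 3) (x 1)) (p (x 2) (x 5)))),
  (-1, (.N (p (a (x 0) (x 2) (x 4)) (x 3)) (x 1) (x 5) 0 1)),
  (1, (.PL (.N (a (x 1) (x 3) (x 5)) (x 2) (x 4) 0 3) (x 0))),
  (1, (.N (a (x 1) (x 3) (x 5)) (x 0) (p (x 4) (x 2)) 0 2)),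
  (-1, (.PR (x 1) (.T (x 0) (x 4) (x 3) (p (x 5) (x 2))))),
  (1, (.T (p (x 1) (x 2)) (p (x 5) (x 4)) (x 3) (x 0))),
  (-1, (.PP (a (x 1) (x 2) (x 5)) (a (x 0) (x 3) (x 4)) 0 0)),
  (-1, (.T (x 2) (x 4) (p (x 0) (x 5)) (p (x 1) (x 3)))),
  (-1, (.PL (.N (a (x 0) (x 4) (x 5)) (x 1) (x 3) 0 4) (x 2))),
  (-1, (.N (a (x 3) (x 4) (p (x 5) (x 0))) (x 1) (x 2) 0 5)),
  (1, (.T (p (x 0) (x 2)) (p (x 4) (x 5)) (x 3) (x 1))),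
  (1, (.T (x 0) (x 1) (p (x 5) (x 3)) (p (x 4) (x 2)))),
  (-1, (.N (a (x 1) (x 2) (x 4)) (x 0) (p (x 5) (x 3)) 0 4)),
  (-1, (.PL (.T (x 2) (x 4) (x 0) (x 3)) (p (x 5) (x 1)))),
  (1, (.T (p (x 4) (x 1)) (p (x 0) (x 5)) (x 3) (x 2))),
  (1, (.PL (.PL (.T (x 2) (x 3) (x 5) (x 4)) (x 0)) (x 1))),
  (1, (.PL (.N (a (x 1) (x 4) (x 5)) (x 0) (x 3) 3 0) (x 2))),
  (-1, (.N (a (x 2) (x 4) (p (x 3) (x 1))) (x 0) (x 5) 0 4)),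
  (-1, (.PR (x 2) (.N (a (x 0) (x 4) (x 5)) (x 1) (x 3) 0 0))),
  (-1, (.PR (x 1) (.T (x 2) (p (x 5) (x 3)) (x 0) (x 4)))),
  (1, (.N (p (a (x 0) (x 2) (x 5)) (x 4)) (x 1) (x 3) 4 0)),
  (-1, (.PR (x 1) (.PR (x 4) (.T (x 2) (x 5) (x 0) (x 3))))),
  (1, (.PL (.T (x 2) (x 5) (p (x 4) (x 1)) (x 3)) (x 0))),
  (-1, (.PL (.T (p (x 4) (x 5)) (x 2) (x 3) (x 1)) (x 0))),
  (-1, (.PL (.T (p (x 4) (x 0)) (x 3) (x 5) (x 1)) (x 2))),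
  (-1, (.T (x 2) (p (x 3) (x 0)) (p (x 5) (x 4)) (x 1))),
  (1, (.N (a (x 1) (x 3) (x 5)) (p (x 0) (x 4)) (x 2) 1 0)),
  (-1, (.N (a (x 2) (x 5) (p (x 4) (x 1))) (x 0) (x 3) 0 5)),
  (1, (.T (x 1) (p (p (x 5) (x 2)) (x 4)) (x 3) (x 0))),
  (1, (.PR (x 0) (.PL (.T (x 1) (x 3) (x 5) (x 4)) (x 2)))),
  (1, (.PL (.T (x 3) (x 0) (x 4) (x 5)) (p (x 1) (x 2)))),
  (1, (.PL (.T (p (x 5) (x 1)) (x 3) (x 4) (x 0)) (x 2))),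
  (1, (.N (p (a (x 2) (x 3) (x 4)) (x 5)) (x 0) (x 1) 2 0)),
  (-1, (.PR (x 0) (.PL (.T (x 4) (x 3) (x 5) (x 2)) (x 1)))),
  (-1, (.PR (x 2) (.N (a (x 3) (x 4) (x 5)) (x 0) (x 1) 2 0))),
  (-1, (.T (p (x 4) (x 0)) (p (x 3) (x 2)) (x 5) (x 1))),
  (1, (.PL (.T (x 1) (x 2) (x 5) (x 0)) (p (x 3) (x 4)))),
  (1, (.PR (x 0) (.T (x 1) (x 4) (x 5) (p (x 3) (x 2))))),
  (-1, (.PR (x 1) (.T (x 0) (x 2) (x 4) (p (x 3) (x 5))))),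
  (1, (.N (a (x 1) (x 2) (x 3)) (x 0) (p (x 4) (x 5)) 4 0)),
  (1, (.PR (x 0) (.N (a (x 1) (x 3) (x 5)) (x 2) (x 4) 0 0))),
  (-1, (.PL (.T (x 2) (x 4) (x 5) (x 3)) (p (x 0) (x 1)))),
  (1, (.T (p (x 2) (x 5)) (p (x 0) (x 3)) (x 4) (x 1))),
  (-1, (.PR (x 0) (.T (x 3) (x 5) (p (x 4) (x 1)) (x 2)))),
  (1, (.T (x 0) (p (x 2) (x 5)) (x 1) (p (x 3) (x 4)))),
  (-1, (.PL (.T (p (x 5) (x 2)) (x 3) (x 4) (x 0)) (x 1))),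
  (1, (.PL (.PR (x 3) (.T (x 2) (x 4) (x 5) (x 0))) (x 1))),
  (-1, (.PL (.PL (.T (x 0) (x 2) (x 4) (x 3)) (x 1)) (x 5))),
  (-1, (.PL (.T (x 0) (x 4) (p (x 3) (x 5)) (x 2)) (x 1))),
  (-1, (.N (a (x 0) (x 3) (x 5)) (p (x 4) (x 1)) (x 2) 3 0)),
  (1, (.PL (.T (x 3) (x 5) (p (x 4) (x 0)) (x 2)) (x 1))),
  (1, (.PR (x 1) (.T (x 2) (x 0) (x 5) (p (x 4) (x 3))))),
  (-1, (.N (a (x 1) (x 3) (x 4)) (x 0) (p (x 5) (x 2)) 0 5)),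
  (-1, (.T (x 2) (x 5) (p (x 1) (x 4)) (p (x 0) (x 3))))]

def c16 : List (Int × Rl) := [
  (-1, (.T (x 0) (x 4) (p (x 5) (x 1)) (p (x 3) (x 2)))),
  (-1, (.PL (.T (x 0) (x 4) (x 5) (p (x 2) (x 3))) (x 1))),
  (1, (.PR (x 2) (.T (x 1) (x 5) (p (x 4) (x 0)) (x 3)))),
  (-1, (.PR (p (x 3) (x 2)) (.T (x 0) (x 5) (x 1) (x 4)))),
  (-1, (.PR (x 0) (.PL (.T (x 2) (x 3) (x 5) (x 1)) (x 4)))),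
  (-1, (.N (a (x 1) (x 2) (p (x 3) (x 4))) (x 0) (x 5) 1 0)),
  (1, (.T (x 2) (x 5) (p (x 0) (x 3)) (p (x 4) (x 1)))),
  (-1, (.T (x 2) (x 4) (p (x 1) (x 3)) (p (x 0) (x 5)))),
  (1, (.PL (.N (a (x 1) (x 3) (x 4)) (x 2) (x 5) 0 3) (x 0))),
  (-1, (.PR (x 1) (.T (x 2) (p (x 3) (x 4)) (x 5) (x 0)))),
  (1, (.N (a (x 0) (x 2) (x 5)) (x 1) (p (x 3) (x 4)) 2 0)),
  (-1, (.PL (.T (x 0) (x 1) (x 4) (x 5)) (p (x 2) (x 3)))),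
  (-1, (.N (p (x 2) (a (x 1) (x 3) (x 5))) (x 0) (x 4) 4 0)),
  (1, (.PL (.T (x 3) (p (x 0) (x 4)) (x 5) (x 1)) (x 2))),
  (1, (.PL (.PR (x 1) (.T (x 3) (x 4) (x 0) (x 5))) (x 2))),
  (-1, (.N (a (x 2) (x 3) (x 4)) (x 0) (p (x 1) (x 5)) 5 0)),
  (-1, (.PR (p (x 0) (x 2)) (.T (x 1) (x 4) (x 5) (x 3)))),
  (1, (.PL (.N (a (x 0) (x 3) (x 5)) (x 2) (x 4) 3 0) (x 1))),
  (1, (.N (a (x 2) (x 3) (x 5)) (p (x 4) (x 0)) (x 1) 5 0)),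
  (1, (.N (a (x 2) (x 5) (p (x 1) (x 4))) (x 0) (x 3) 0 5)),
  (-1, (.N (p (a (x 1) (x 2) (x 4)) (x 5)) (x 0) (x 3) 1 0)),
  (1, (.T (p (x 5) (x 2)) (p (x 0) (x 3)) (x 4) (x 1))),
  (1, (.PL (.T (x 3) (p (x 2) (x 4)) (x 5) (x 1)) (x 0))),
  (1, (.N (a (x 0) (x 2) (x 3)) (x 1) (p (x 5) (x 4)) 2 0)),
  (-1, (.PL (.PL (.T (x 4) (x 3) (x 5) (x 2)) (x 1)) (x 0))),
  (1, (.PL (.T (x 2) (x 0) (x 3) (x 4)) (p (x 1) (x 5)))),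
  (1, (.PL (.N (a (x 1) (x 4) (x 5)) (x 0) (x 3) 4 0) (x 2))),
  (1, (.T (p (x 1) (x 5)) (p (x 2) (x 3)) (x 4) (x 0))),
  (-1, (.PR (x 0) (.N (a (x 1) (x 4) (x 5)) (x 2) (x 3) 3 0))),
  (1, (.T (p (p (x 3) (x 5)) (x 4)) (x 1) (x 2) (x 0))),
  (-1, (.T (p (x 4) (x 0)) (p (x 5) (x 2)) (x 3) (x 1))),
  (-1, (.PR (x 0) (.N (a (x 1) (x 4) (x 5)) (x 2) (x 3) 0 1))),
  (1, (.PL (.PL (.T (x 2) (x 4) (x 5) (x 0)) (x 1)) (x 3))),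
  (-1, (.T (p (x 3) (x 4)) (p (x 2) (x 5)) (x 1) (x 0))),
  (-1, (.PL (.T (x 2) (p (x 4) (x 5)) (x 0) (x 3)) (x 1))),
  (1, (.T (p (x 5) (x 3)) (p (x 2) (x 4)) (x 1) (x 0))),
  (1, (.T (p (x 3) (x 5)) (x 1) (p (x 4) (x 2)) (x 0))),
  (1, (.N (p (x 2) (a (x 0) (x 3) (x 5))) (x 1) (x 4) 1 0)),
  (1, (.N (a (x 0) (x 2) (x 4)) (x 1) (p (x 5) (x 3)) 0 2)),
  (1, (.PR (p (x 0) (x 3)) (.T (x 1) (x 2) (x 4) (x 5)))),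
  (-1, (.PL (.T (x 1) (x 2) (p (x 4) (x 5)) (x 3)) (x 0))),
  (-1, (.PL (.N (a (x 2) (x 3) (x 5)) (x 1) (x 4) 2 0) (x 0))),
  (1, (.T (x 0) (x 3) (p (x 2) (x 4)) (p (x 5) (x 1)))),
  (-1, (.T (x 1) (p (x 3) (x 4)) (p (x 2) (x 5)) (x 0))),
  (1, (.T (x 1) (x 5) (p (p (x 2) (x 4)) (x 3)) (x 0))),
  (-1, (.PR (x 0) (.T (p (x 5) (x 3)) (x 1) (x 4) (x 2)))),
  (1, (.PL (.N (a (x 0) (x 4) (x 5)) (x 2) (x 3) 5 0) (x 1))),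
  (1, (.T (x 0) (p (x 3) (x 5)) (x 1) (p (x 4) (x 2)))),
  (-1, (.PL (.N (a (x 2) (x 4) (x 5)) (x 1) (x 3) 0 4) (x 0))),
  (1, (.T (x 0) (x 1) (p (p (x 3) (x 4)) (x 5)) (x 2))),
  (-1, (.N (p (x 1) (a (x 3) (x 4) (x 5))) (x 0) (x 2) 5 0)),
  (-1, (.PL (.T (x 3) (p (x 5) (x 1)) (x 4) (x 2)) (x 0))),
  (1, (.PL (.T (x 0) (x 3) (x 5) (x 2)) (p (x 1) (x 4)))),
  (-1, (.PL (.T (x 1) (x 5) (x 2) (x 3)) (p (x 0) (x 4)))),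
  (-1, (.T (x 2) (x 4) (p (x 3) (x 0)) (p (x 1) (x 5)))),
  (-1, (.T (x 0) (x 3) (p (x 1) (x 2)) (p (x 4) (x 5)))),
  (1, (.T (x 0) (p (p (x 3) (x 5)) (x 4)) (x 1) (x 2))),
  (-1, (.N (a (x 2) (x 3) (x 5)) (x 0) (p (x 1) (x 4)) 0 3)),
  (-1, (.T (p (x 0) (x 2)) (p (x 4) (x 3)) (x 5) (x 1))),
  (1, (.PR (x 2) (.N (a (x 1) (x 4) (x 5)) (x 0) (x 3) 0 4))),
  (1, (.N (a (x 1) (x 2) (x 3)) (x 0) (p (x 5) (x 4)) 1 0)),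
  (1, (.PL (.T (x 1) (p (x 3) (x 5)) (x 4) (x 0)) (x 2))),
  (-1, (.T (p (x 0) (x 4)) (p (x 1) (x 3)) (x 5) (x 2))),
  (-1, (.PL (.PL (.T (x 1) (x 5) (x 0) (x 4)) (x 3)) (x 2))),
  (-1, (.PR (p (x 3) (x 2)) (.T (x 1) (x 4) (x 5) (x 0)))),
  (-1, (.PL (.PL (.T (x 0) (x 4) (x 5) (x 3)) (x 1)) (x 2))),
  (-1, (.N (p (a (x 3) (x 4) (x 5)) (x 2)) (x 0) (x 1) 0 1)),
  (1, (.T (p (x 1) (x 3)) (p (x 4) (x 5)) (x 2) (x 0))),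
  (1, (.PR (x 2) (.PL (.T (x 1) (x 3) (x 5) (x 0)) (x 4)))),
  (1, (.T (x 1) (x 4) (p (p (x 2) (x 5)) (x 3)) (x 0))),
  (-1, (.PL (.T (x 2) (x 5) (x 0) (x 3)) (p (x 4) (x 1)))),
  (-1, (.PR (x 1) (.N (a (x 0) (x 4) (x 5)) (x 2) (x 3) 0 0))),
  (1, (.N (a (x 2) (x 3) (p (x 4) (x 0))) (x 1) (x 5) 0 4)),
  (1, (.N (p (a (x 0) (x 2) (x 5)) (x 4)) (x 1) (x 3) 1 0)),
  (1, (.PL (.T (x 0) (x 3) (p (x 1) (x 4)) (x 5)) (x 2))),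
  (-1, (.PL (.T (p (x 4) (x 3)) (x 0) (x 5) (x 2)) (x 1))),
  (1, (.PL (.N (a (x 1) (x 3) (x 5)) (x 0) (x 4) 2 0) (x 2))),
  (-1, (.PL (.T (x 1) (x 2) (x 4) (x 3)) (p (x 5) (x 0)))),
  (-1, (.PL (.N (a (x 3) (x 4) (x 5)) (x 0) (x 2) 2 0) (x 1))),
  (-1, (.N (a (x 1) (x 2) (p (x 5) (x 4))) (x 0) (x 3) 0 1)),
  (-1, (.PL (.N (a (x 1) (x 2) (x 5)) (x 3) (x 4) 1 0) (x 0))),
  (-1, (.N (a (x 2) (x 4) (x 5)) (p (x 0) (x 3)) (x 1) 0 5)),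
  (1, (.N (a (x 0) (x 4) (x 5)) (p (x 1) (x 3)) (x 2) 0 3)),
  (-1, (.PR (x 0) (.PR (x 5) (.T (x 1) (x 4) (x 3) (x 2))))),
  (-1, (.PR (x 0) (.T (p (x 5) (x 4)) (x 2) (x 3) (x 1)))),
  (1, (.PL (.T (x 3) (p (x 2) (x 5)) (x 0) (x 4)) (x 1))),
  (-1, (.N (p (a (x 0) (x 2) (x 4)) (x 5)) (x 1) (x 3) 0 3)),
  (1, (.T (x 1) (x 5) (p (x 4) (x 3)) (p (x 0) (x 2)))),
  (-1, (.N (a (x 3) (x 4) (p (x 5) (x 2))) (x 0) (x 1) 0 4)),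
  (-1, (.T (x 0) (x 1) (p (p (x 3) (x 5)) (x 4)) (x 2))),
  (1, (.PR (x 2) (.T (x 0) (x 1) (p (x 5) (x 4)) (x 3)))),
  (-1, (.N (p (a (x 0) (x 3) (x 4)) (x 5)) (x 1) (x 2) 5 0)),
  (-1, (.N (a (x 0) (x 2) (x 3)) (x 1) (p (x 4) (x 5)) 0 0)),
  (1, (.PL (.T (p (x 5) (x 3)) (x 0) (x 4) (x 2)) (x 1))),
  (-1, (.PR (x 0) (.PR (x 2) (.T (x 3) (x 1) (x 4) (x 5))))),
  (1, (.N (p (a (x 3) (x 4) (x 5)) (x 0)) (x 1) (x 2) 3 0)),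
  (-1, (.PL (.N (a (x 2) (x 3) (x 5)) (x 1) (x 4) 0 5) (x 0))),
  (-1, (.PR (x 2) (.T (p (x 5) (x 1)) (x 3) (x 4) (x 0)))),
  (1, (.PR (x 2) (.N (a (x 0) (x 3) (x 5)) (x 1) (x 4) 0 4))),
  (1, (.N (a (x 0) (x 4) (p (x 2) (x 3))) (x 1) (x 5) 0 2))]

def c17 : List (Int × Rl) := [
  (-1, (.PR (p (x 4) (x 1)) (.T (x 2) (x 3) (x 5) (x 0)))),
  (-1, (.N (a (x 0) (x 3) (x 4)) (x 1) (p (x 2) (x 5)) 0 4)),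
  (-1, (.N (p (a (x 0) (x 4) (x 5)) (x 3)) (x 1) (x 2) 3 0)),
  (-1, (.PL (.PL (.T (x 1) (x 5) (x 3) (x 4)) (x 0)) (x 2))),
  (-1, (.N (a (x 2) (x 4) (p (x 1) (x 3))) (x 0) (x 5) 0 4)),
  (1, (.PL (.T (x 0) (x 3) (x 5) (x 1)) (p (x 4) (x 2)))),
  (-1, (.N (a (x 3) (x 5) (p (x 2) (x 0))) (x 1) (x 4) 0 5)),
  (-1, (.PR (p (x 2) (x 1)) (.T (x 0) (x 5) (x 4) (x 3)))),
  (-1, (.N (a (x 1) (x 4) (p (x 3) (x 5))) (x 0) (x 2) 0 5)),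
  (-1, (.N (p (a (x 0) (x 3) (x 4)) (x 5)) (x 1) (x 2) 4 0)),
  (-1, (.T (p (x 4) (x 5)) (p (x 3) (x 2)) (x 1) (x 0))),
  (1, (.PR (p (x 2) (x 3)) (.T (x 0) (x 1) (x 4) (x 5)))),
  (1, (.PL (.T (x 0) (x 5) (x 3) (x 2)) (p (x 1) (x 4)))),
  (-1, (.N (a (x 1) (x 2) (x 4)) (x 0) (p (x 5) (x 3)) 1 0)),
  (-1, (.PR (p (x 2) (x 4)) (.T (x 0) (x 1) (x 3) (x 5)))),
  (-1, (.PL (.T (x 3) (p (x 1) (x 4)) (x 5) (x 0)) (x 2))),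
  (1, (.N (a (x 2) (x 4) (x 5)) (p (x 0) (x 3)) (x 1) 0 1)),
  (-1, (.N (a (x 1) (x 2) (p (x 5) (x 3))) (x 0) (x 4) 4 0)),
  (-1, (.PL (.PL (.T (x 1) (x 4) (x 3) (x 2)) (x 0)) (x 5))),
  (-1, (.PR (x 2) (.PR (x 0) (.T (x 1) (x 4) (x 5) (x 3))))),
  (1, (.PL (.T (x 1) (x 4) (x 5) (p (x 2) (x 3))) (x 0))),
  (1, (.PL (.T (p (x 5) (x 4)) (x 0) (x 3) (x 2)) (x 1))),
  (-1, (.T (p (x 2) (x 3)) (p (x 1) (x 5)) (x 4) (x 0))),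
  (-1, (.PP (a (x 3) (x 4) (x 5)) (a (x 0) (x 1) (x 2)) 0 1)),
  (-1, (.PR (x 1) (.PL (.T (x 2) (x 3) (x 5) (x 0)) (x 4)))),
  (-1, (.N (a (x 4) (x 5) (p (x 1) (x 3))) (x 0) (x 2) 0 2)),
  (1, (.PR (x 2) (.T (x 5) (x 3) (p (x 4) (x 0)) (x 1)))),
  (-1, (.PL (.T (x 1) (x 2) (x 3) (p (x 5) (x 4))) (x 0))),
  (-1, (.T (p (p (x 5) (x 2)) (x 4)) (x 1) (x 3) (x 0))),
  (1, (.PL (.T (x 2) (x 4) (x 5) (p (x 3) (x 1))) (x 0))),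
  (1, (.PL (.T (x 1) (x 2) (x 0) (x 5)) (p (x 3) (x 4)))),
  (-1, (.T (x 1) (x 4) (p (p (x 5) (x 0)) (x 3)) (x 2))),
  (-1, (.T (x 1) (p (p (x 4) (x 5)) (x 3)) (x 0) (x 2))),
  (1, (.PL (.PL (.T (x 3) (x 5) (x 1) (x 4)) (x 0)) (x 2))),
  (-1, (.T (p (p (x 4) (x 3)) (x 2)) (x 0) (x 5) (x 1))),
  (-1, (.T (p (x 2) (x 1)) (p (x 4) (x 5)) (x 3) (x 0))),
  (-1, (.PL (.PR (x 1) (.T (x 2) (x 3) (x 4) (x 5))) (x 0))),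
  (-1, (.T (p (x 3) (x 2)) (p (x 0) (x 4)) (x 5) (x 1))),
  (-1, (.N (p (x 1) (a (x 3) (x 4) (x 5))) (x 0) (x 2) 1 0)),
  (1, (.N (a (x 3) (x 5) (p (x 1) (x 4))) (x 0) (x 2) 0 1)),
  (1, (.PL (.T (x 1) (x 4) (p (x 5) (x 0)) (x 3)) (x 2))),
  (1, (.N (a (x 1) (x 4) (p (x 0) (x 3))) (x 2) (x 5) 0 5)),
  (-1, (.PR (x 0) (.T (x 1) (x 2) (x 5) (p (x 4) (x 3))))),
  (-1, (.T (x 1) (x 2) (p (x 5) (x 3)) (p (x 0) (x 4)))),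
  (1, (.PR (x 1) (.PL (.T (x 2) (x 4) (x 5) (x 0)) (x 3)))),
  (-1, (.T (x 0) (x 3) (p (p (x 4) (x 5)) (x 1)) (x 2))),
  (1, (.T (x 1) (p (p (x 4) (x 5)) (x 2)) (x 3) (x 0))),
  (1, (.N (a (x 2) (x 4) (x 5)) (x 0) (p (x 1) (x 3)) 3 0)),
  (-1, (.PL (.T (x 1) (x 5) (x 4) (p (x 3) (x 0))) (x 2))),
  (1, (.T (x 2) (x 1) (p (p (x 4) (x 3)) (x 5)) (x 0))),
  (1, (.PL (.T (x 3) (p (x 5) (x 1)) (x 2) (x 4)) (x 0))),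
  (-1, (.PP (a (x 0) (x 2) (x 3)) (a (x 1) (x 4) (x 5)) 0 0)),
  (-1, (.T (p (x 2) (x 3)) (p (x 0) (x 5)) (x 4) (x 1))),
  (-1, (.N (a (x 3) (x 5) (p (x 1) (x 4))) (x 0) (x 2) 0 4)),
  (1, (.PL (.PL (.T (x 2) (x 4) (x 5) (x 3)) (x 0)) (x 1))),
  (1, (.PR (x 0) (.N (a (x 1) (x 3) (x 4)) (x 2) (x 5) 5 0))),
  (-1, (.PR (x 1) (.PL (.T (x 2) (x 4) (x 3) (x 5)) (x 0)))),
  (-1, (.PR (x 2) (.N (a (x 0) (x 4) (x 5)) (x 1) (x 3) 0 3))),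
  (1, (.PR (p (x 0) (x 4)) (.T (x 1) (x 2) (x 5) (x 3)))),
  (1, (.N (p (a (x 3) (x 4) (x 5)) (x 2)) (x 0) (x 1) 0 5)),
  (1, (.N (a (x 2) (x 3) (p (x 5) (x 0))) (x 1) (x 4) 0 4)),
  (1, (.PR (p (x 4) (x 5)) (.T (x 1) (x 2) (x 0) (x 3)))),
  (1, (.PR (x 2) (.N (a (x 1) (x 3) (x 5)) (x 0) (x 4) 0 0))),
  (-1, (.N (p (a (x 2) (x 3) (x 5)) (x 0)) (x 1) (x 4) 4 0)),
  (-1, (.PL (.T (x 0) (x 5) (x 2) (x 3)) (p (x 4) (x 1)))),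
  (1, (.T (x 1) (x 3) (p (x 4) (x 5)) (p (x 0) (x 2)))),
  (-1, (.PR (x 0) (.PR (x 3) (.T (x 2) (x 4) (x 1) (x 5))))),
  (1, (.PL (.N (a (x 0) (x 3) (x 4)) (x 1) (x 5) 0 0) (x 2))),
  (1, (.PR (p (x 5) (x 2)) (.T (x 0) (x 3) (x 4) (x 1)))),
  (1, (.PR (x 1) (.T (x 0) (x 5) (x 3) (p (x 2) (x 4))))),
  (1, (.PL (.T (x 2) (x 0) (x 5) (p (x 4) (x 3))) (x 1))),
  (1, (.T (x 2) (p (x 3) (x 4)) (p (x 5) (x 0)) (x 1))),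
  (1, (.PL (.N (a (x 3) (x 4) (x 5)) (x 0) (x 2) 0 1) (x 1))),
  (-1, (.PL (.T (x 3) (p (x 4) (x 0)) (x 5) (x 1)) (x 2))),
  (1, (.PL (.N (a (x 3) (x 4) (x 5)) (x 0) (x 1) 0 1) (x 2))),
  (1, (.PL (.PR (x 1) (.T (x 0) (x 5) (x 4) (x 3))) (x 2))),
  (1, (.PR (x 0) (.T (x 3) (p (x 5) (x 1)) (x 4) (x 2)))),
  (-1, (.PR (x 2) (.PL (.T (x 1) (x 4) (x 3) (x 5)) (x 0)))),
  (-1, (.PR (x 0) (.T (x 1) (x 3) (x 5) (p (x 2) (x 4))))),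
  (-1, (.PR (x 0) (.N (a (x 3) (x 4) (x 5)) (x 1) (x 2) 0 4))),
  (1, (.N (a (x 3) (x 4) (p (x 5) (x 1))) (x 0) (x 2) 0 4)),
  (-1, (.PR (x 0) (.T (x 1) (x 4) (p (x 2) (x 5)) (x 3)))),
  (-1, (.N (p (a (x 1) (x 2) (x 3)) (x 5)) (x 0) (x 4) 0 4)),
  (1, (.PL (.N (a (x 1) (x 4) (x 5)) (x 0) (x 3) 0 2) (x 2))),
  (1, (.PR (x 2) (.T (x 0) (x 1) (p (x 3) (x 4)) (x 5)))),
  (-1, (.PR (x 0) (.T (x 2) (x 1) (x 5) (p (x 4) (x 3))))),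
  (-1, (.N (a (x 0) (x 2) (x 5)) (x 1) (p (x 4) (x 3)) 3 0)),
  (-1, (.PL (.T (x 0) (x 2) (x 4) (x 1)) (p (x 3) (x 5)))),
  (1, (.N (p (a (x 3) (x 4) (x 5)) (x 0)) (x 1) (x 2) 0 3)),
  (1, (.T (x 1) (p (x 5) (x 4)) (p (x 2) (x 3)) (x 0))),
  (-1, (.PL (.PR (x 3) (.T (x 1) (x 2) (x 5) (x 4))) (x 0))),
  (1, (.N (p (a (x 1) (x 2) (x 4)) (x 5)) (x 0) (x 3) 0 0)),
  (1, (.PL (.T (x 1) (p (x 5) (x 4)) (x 0) (x 3)) (x 2))),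
  (-1, (.N (p (a (x 0) (x 2) (x 4)) (x 3)) (x 1) (x 5) 0 0)),
  (1, (.N (p (a (x 1) (x 2) (x 5)) (x 3)) (x 0) (x 4) 0 4)),
  (1, (.PL (.N (a (x 0) (x 3) (x 5)) (x 2) (x 4) 0 0) (x 1))),
  (-1, (.T (x 0) (x 2) (p (x 5) (x 3)) (p (x 1) (x 4)))),
  (1, (.N (p (a (x 0) (x 3) (x 4)) (x 5)) (x 1) (x 2) 0 1)),
  (-1, (.PR (x 0) (.T (x 2) (x 3) (x 4) (p (x 5) (x 1))))),
  (1, (.PR (x 1) (.T (x 3) (p (x 2) (x 5)) (x 0) (x 4))))]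

def c18 : List (Int × Rl) := [
  (1, (.T (p (x 3) (x 4)) (p (x 0) (x 2)) (x 5) (x 1))),
  (1, (.PL (.T (x 1) (x 4) (p (x 5) (x 2)) (x 3)) (x 0))),
  (1, (.N (a (x 1) (x 3) (p (x 4) (x 5))) (x 0) (x 2) 0 1)),
  (-1, (.PL (.T (x 0) (x 2) (x 1) (x 4)) (p (x 3) (x 5)))),
  (-1, (.T (p (x 5) (x 4)) (p (x 2) (x 0)) (x 3) (x 1))),
  (1, (.N (a (x 1) (x 2) (p (x 5) (x 3))) (x 0) (x 4) 0 4)),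
  (1, (.PL (.PL (.T (x 0) (x 5) (x 4) (x 2)) (x 3)) (x 1))),
  (1, (.T (p (x 4) (x 0)) (p (x 5) (x 3)) (x 2) (x 1))),
  (1, (.N (a (x 0) (x 3) (x 4)) (p (x 1) (x 5)) (x 2) 2 0)),
  (-1, (.PL (.PL (.T (x 1) (x 3) (x 5) (x 4)) (x 2)) (x 0))),
  (1, (.PL (.T (x 0) (x 4) (x 3) (x 2)) (p (x 5) (x 1)))),
  (1, (.N (a (x 0) (x 3) (p (x 2) (x 4))) (x 1) (x 5) 0 2)),
  (-1, (.PR (x 2) (.T (p (x 5) (x 3)) (x 1) (x 4) (x 0)))),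
  (1, (.N (a (x 2) (x 3) (x 5)) (p (x 0) (x 4)) (x 1) 0 4)),
  (1, (.N (a (x 0) (x 1) (x 5)) (x 2) (p (x 4) (x 3)) 0 0)),
  (-1, (.N (p (a (x 3) (x 4) (x 5)) (x 2)) (x 0) (x 1) 0 3)),
  (-1, (.N (a (x 1) (x 2) (x 5)) (x 0) (p (x 3) (x 4)) 0 4)),
  (-1, (.PL (.PL (.T (x 0) (x 4) (x 5) (x 2)) (x 1)) (x 3))),
  (1, (.PR (x 0) (.T (x 1) (x 4) (x 3) (p (x 5) (x 2))))),
  (-1, (.PR (p (x 2) (x 3)) (.T (x 1) (x 5) (x 0) (x 4)))),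
  (-1, (.PR (x 2) (.PL (.T (x 0) (x 4) (x 5) (x 1)) (x 3)))),
  (-1, (.PL (.T (x 2) (p (x 4) (x 5)) (x 3) (x 1)) (x 0))),
  (1, (.PR (p (x 3) (x 0)) (.T (x 2) (x 4) (x 5) (x 1)))),
  (-1, (.PL (.PR (x 1) (.T (x 3) (x 4) (x 5) (x 2))) (x 0))),
  (1, (.N (a (x 1) (x 2) (x 3)) (x 0) (p (x 5) (x 4)) 2 0)),
  (-1, (.N (a (x 1) (x 4) (p (x 3) (x 5))) (x 0) (x 2) 0 4)),
  (1, (.PR (x 1) (.N (a (x 0) (x 4) (x 5)) (x 2) (x 3) 5 0))),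
  (1, (.PR (x 0) (.PL (.T (x 1) (x 5) (x 3) (x 4)) (x 2)))),
  (-1, (.T (x 1) (p (x 3) (x 2)) (x 0) (p (x 5) (x 4)))),
  (-1, (.PL (.N (a (x 3) (x 4) (x 5)) (x 0) (x 2) 0 0) (x 1))),
  (-1, (.N (p (a (x 1) (x 3) (x 4)) (x 5)) (x 0) (x 2) 0 0)),
  (-1, (.N (a (x 3) (x 4) (x 5)) (x 0) (p (x 1) (x 2)) 0 5)),
  (-1, (.PL (.T (x 0) (p (x 3) (x 4)) (x 2) (x 5)) (x 1))),
  (-1, (.N (p (a (x 2) (x 3) (x 4)) (x 1)) (x 0) (x 5) 0 4)),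
  (-1, (.PR (x 0) (.T (x 3) (p (x 5) (x 2)) (x 1) (x 4)))),
  (1, (.N (a (x 1) (x 3) (p (x 2) (x 4))) (x 0) (x 5) 0 4)),
  (1, (.N (a (x 1) (x 2) (x 4)) (x 0) (p (x 3) (x 5)) 1 0)),
  (-1, (.N (a (x 2) (x 3) (x 5)) (x 0) (p (x 1) (x 4)) 0 4)),
  (-1, (.PL (.N (a (x 1) (x 4) (x 5)) (x 2) (x 3) 2 0) (x 0))),
  (-1, (.T (x 2) (p (p (x 1) (x 5)) (x 4)) (x 3) (x 0))),
  (1, (.N (a (x 2) (x 3) (x 5)) (x 0) (p (x 4) (x 1)) 0 3)),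
  (-1, (.PL (.N (a (x 0) (x 2) (x 5)) (x 3) (x 4) 0 0) (x 1))),
  (1, (.PL (.N (a (x 0) (x 4) (x 5)) (x 2) (x 3) 1 0) (x 1))),
  (1, (.PL (.T (x 0) (x 1) (x 2) (x 3)) (p (x 4) (x 5)))),
  (-1, (.PR (x 2) (.PL (.T (x 3) (x 4) (x 0) (x 5)) (x 1)))),
  (-1, (.PR (p (x 4) (x 3)) (.T (x 1) (x 5) (x 0) (x 2)))),
  (1, (.PR (x 1) (.T (x 2) (x 5) (p (x 4) (x 0)) (x 3)))),
  (1, (.PL (.N (a (x 0) (x 3) (x 4)) (x 2) (x 5) 0 5) (x 1))),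
  (-1, (.PR (x 0) (.PR (x 2) (.T (x 1) (x 5) (x 3) (x 4))))),
  (1, (.PL (.T (x 0) (x 4) (x 5) (x 2)) (p (x 1) (x 3)))),
  (-1, (.N (p (a (x 0) (x 3) (x 4)) (x 5)) (x 1) (x 2) 0 2)),
  (1, (.PL (.T (x 0) (x 1) (x 3) (x 2)) (p (x 4) (x 5)))),
  (-1, (.PL (.PR (x 4) (.T (x 1) (x 3) (x 2) (x 5))) (x 0))),
  (-1, (.PR (x 1) (.PL (.T (x 2) (x 4) (x 5) (x 3)) (x 0)))),
  (-1, (.PR (p (x 1) (x 5)) (.T (x 0) (x 4) (x 2) (x 3)))),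
  (1, (.N (a (x 2) (x 4) (p (x 1) (x 3))) (x 0) (x 5) 0 2)),
  (1, (.PL (.N (a (x 0) (x 2) (x 5)) (x 3) (x 4) 1 0) (x 1))),
  (-1, (.PR (x 2) (.PR (x 5) (.T (x 0) (x 4) (x 3) (x 1))))),
  (-1, (.PR (p (x 2) (x 5)) (.T (x 0) (x 1) (x 3) (x 4)))),
  (1, (.N (a (x 1) (x 3) (x 4)) (x 0) (p (x 5) (x 2)) 1 0)),
  (1, (.N (a (x 1) (x 3) (x 4)) (p (x 0) (x 5)) (x 2) 0 1)),
  (-1, (.N (p (a (x 1) (x 4) (x 5)) (x 2)) (x 0) (x 3) 4 0)),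
  (1, (.T (p (p (x 3) (x 2)) (x 4)) (x 1) (x 5) (x 0))),
  (-1, (.PL (.T (x 1) (x 5) (x 3) (p (x 4) (x 2))) (x 0))),
  (1, (.PR (x 2) (.T (x 0) (x 5) (x 3) (p (x 4) (x 1))))),
  (-1, (.PR (x 2) (.T (x 0) (x 4) (x 1) (p (x 3) (x 5))))),
  (1, (.N (p (a (x 2) (x 3) (x 4)) (x 0)) (x 1) (x 5) 0 4)),
  (1, (.PR (x 0) (.T (x 3) (x 4) (p (x 5) (x 2)) (x 1)))),
  (1, (.PR (x 1) (.T (x 5) (x 2) (p (x 3) (x 4)) (x 0)))),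
  (1, (.N (a (x 2) (x 3) (x 4)) (x 0) (p (x 5) (x 1)) 0 4)),
  (-1, (.N (a (x 0) (x 3) (x 5)) (x 1) (p (x 4) (x 2)) 0 1)),
  (1, (.PR (p (x 0) (x 2)) (.T (x 1) (x 3) (x 5) (x 4)))),
  (1, (.T (x 1) (x 3) (p (p (x 5) (x 2)) (x 4)) (x 0))),
  (-1, (.T (x 0) (x 1) (p (x 3) (x 2)) (p (x 4) (x 5)))),
  (1, (.N (p (a (x 2) (x 3) (x 4)) (x 5)) (x 0) (x 1) 0 0)),
  (1, (.N (a (x 0) (x 5) (p (x 3) (x 4))) (x 1) (x 2) 0 4)),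
  (1, (.PL (.PR (x 4) (.T (x 0) (x 5) (x 1) (x 3))) (x 2))),
  (1, (.PR (x 0) (.PR (x 1) (.T (x 2) (x 5) (x 4) (x 3))))),
  (-1, (.PR (p (x 4) (x 5)) (.T (x 0) (x 3) (x 2) (x 1)))),
  (-1, (.PL (.PR (x 2) (.T (x 3) (x 0) (x 4) (x 5))) (x 1))),
  (1, (.PL (.PR (x 2) (.T (x 0) (x 4) (x 3) (x 5))) (x 1))),
  (1, (.PL (.T (p (x 5) (x 4)) (x 2) (x 3) (x 1)) (x 0))),
  (1, (.N (a (x 0) (x 4) (x 5)) (p (x 3) (x 1)) (x 2) 2 0)),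
  (-1, (.T (p (x 2) (x 1)) (p (x 3) (x 5)) (x 4) (x 0))),
  (1, (.PR (x 0) (.T (x 5) (x 2) (p (x 3) (x 4)) (x 1)))),
  (-1, (.PL (.T (x 0) (x 4) (x 3) (p (x 5) (x 1))) (x 2))),
  (-1, (.T (x 1) (x 3) (p (x 2) (x 4)) (p (x 0) (x 5)))),
  (-1, (.PL (.T (x 2) (x 1) (x 4) (p (x 5) (x 3))) (x 0))),
  (1, (.PR (x 0) (.T (x 1) (x 3) (x 5) (p (x 4) (x 2))))),
  (1, (.T (x 1) (x 2) (p (p (x 3) (x 5)) (x 4)) (x 0))),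
  (1, (.T (p (x 4) (x 3)) (p (x 2) (x 5)) (x 1) (x 0))),
  (1, (.T (x 0) (x 2) (x 1) (p (p (x 4) (x 3)) (x 5)))),
  (1, (.PL (.PR (x 3) (.T (x 2) (x 5) (x 1) (x 4))) (x 0))),
  (-1, (.N (a (x 0) (x 4) (x 5)) (x 1) (p (x 2) (x 3)) 0 5)),
  (1, (.PL (.T (p (x 5) (x 3)) (x 1) (x 4) (x 2)) (x 0))),
  (-1, (.T (p (p (x 2) (x 3)) (x 4)) (x 1) (x 5) (x 0))),
  (-1, (.T (x 1) (p (p (x 4) (x 3)) (x 5)) (x 2) (x 0))),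
  (-1, (.PL (.T (x 0) (p (x 5) (x 3)) (x 1) (x 4)) (x 2))),
  (-1, (.PL (.N (a (x 2) (x 3) (x 4)) (x 1) (x 5) 0 1) (x 0))),
  (-1, (.PR (x 2) (.T (x 3) (x 4) (p (x 0) (x 5)) (x 1))))]

def c19 : List (Int × Rl) := [
  (1, (.PL (.PR (x 2) (.T (x 4) (x 3) (x 5) (x 1))) (x 0))),
  (-1, (.N (a (x 2) (x 3) (p (x 4) (x 5))) (x 0) (x 1) 0 0)),
  (-1, (.PL (.T (x 0) (x 5) (x 3) (p (x 1) (x 4))) (x 2))),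
  (1, (.T (x 0) (x 3) (p (p (x 5) (x 1)) (x 4)) (x 2))),
  (1, (.T (p (x 5) (x 0)) (p (x 4) (x 3)) (x 2) (x 1))),
  (-1, (.PR (p (x 2) (x 4)) (.T (x 0) (x 3) (x 1) (x 5)))),
  (1, (.PL (.PR (x 4) (.T (x 1) (x 5) (x 3) (x 2))) (x 0))),
  (-1, (.PL (.PR (x 0) (.T (x 2) (x 3) (x 5) (x 4))) (x 1))),
  (1, (.PR (x 0) (.PR (x 3) (.T (x 1) (x 4) (x 2) (x 5))))),
  (-1, (.T (x 0) (x 5) (p (p (x 1) (x 4)) (x 3)) (x 2))),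
  (1, (.T (p (x 3) (x 2)) (p (x 5) (x 0)) (x 4) (x 1))),
  (1, (.PL (.T (p (x 5) (x 0)) (x 1) (x 4) (x 3)) (x 2))),
  (-1, (.PL (.PL (.T (x 1) (x 3) (x 2) (x 4)) (x 5)) (x 0))),
  (1, (.T (x 1) (p (p (x 4) (x 2)) (x 5)) (x 3) (x 0))),
  (-1, (.PR (x 1) (.T (x 0) (x 2) (x 3) (p (x 4) (x 5))))),
  (1, (.PL (.T (x 1) (x 5) (p (x 4) (x 3)) (x 0)) (x 2))),
  (1, (.T (x 0) (x 5) (p (x 2) (x 3)) (p (x 4) (x 1)))),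
  (-1, (.PR (x 0) (.N (a (x 1) (x 2) (x 5)) (x 3) (x 4) 2 0))),
  (-1, (.PL (.PR (x 0) (.T (x 3) (x 4) (x 2) (x 5))) (x 1))),
  (-1, (.PR (x 2) (.PR (x 5) (.T (x 0) (x 4) (x 1) (x 3))))),
  (1, (.PR (x 0) (.T (x 1) (x 5) (x 3) (p (x 4) (x 2))))),
  (1, (.T (p (x 1) (x 2)) (p (x 4) (x 3)) (x 5) (x 0))),
  (1, (.PR (p (x 5) (x 1)) (.T (x 0) (x 2) (x 4) (x 3)))),
  (-1, (.N (a (x 2) (x 3) (x 4)) (p (x 5) (x 0)) (x 1) 0 2)),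
  (1, (.T (x 2) (p (p (x 5) (x 4)) (x 1)) (x 3) (x 0))),
  (1, (.PR (x 1) (.N (a (x 2) (x 3) (x 5)) (x 0) (x 4) 0 4))),
  (1, (.PL (.T (x 0) (x 1) (p (x 3) (x 4)) (x 5)) (x 2))),
  (1, (.PL (.T (x 3) (p (x 0) (x 4)) (x 2) (x 5)) (x 1))),
  (-1, (.PL (.N (a (x 3) (x 4) (x 5)) (x 0) (x 2) 0 5) (x 1))),
  (-1, (.PR (x 0) (.PL (.T (x 1) (x 3) (x 5) (x 2)) (x 4)))),
  (1, (.PL (.PL (.T (x 3) (x 5) (x 0) (x 4)) (x 1)) (x 2))),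
  (-1, (.PR (x 0) (.T (x 1) (x 4) (p (x 5) (x 2)) (x 3)))),
  (1, (.N (p (x 2) (a (x 3) (x 4) (x 5))) (x 0) (x 1) 2 0)),
  (-1, (.N (p (a (x 0) (x 4) (x 5)) (x 3)) (x 1) (x 2) 0 1)),
  (1, (.PR (x 0) (.T (x 2) (p (x 5) (x 3)) (x 4) (x 1)))),
  (-1, (.T (p (x 0) (x 3)) (p (x 1) (x 5)) (x 4) (x 2))),
  (-1, (.PR (p (x 2) (x 5)) (.T (x 1) (x 3) (x 0) (x 4)))),
  (-1, (.PL (.PL (.T (x 2) (x 3) (x 5) (x 1)) (x 0)) (x 4))),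
  (1, (.PL (.PR (x 0) (.T (x 3) (x 5) (x 1) (x 4))) (x 2))),
  (1, (.N (a (x 0) (x 3) (x 4)) (x 1) (p (x 5) (x 2)) 0 4)),
  (1, (.T (p (x 3) (x 0)) (p (x 5) (x 4)) (x 2) (x 1))),
  (-1, (.N (a (x 0) (x 5) (p (x 2) (x 4))) (x 1) (x 3) 0 2)),
  (1, (.PL (.N (a (x 1) (x 4) (x 5)) (x 2) (x 3) 5 0) (x 0))),
  (-1, (.PR (p (x 5) (x 0)) (.T (x 1) (x 4) (x 3) (x 2)))),
  (-1, (.PR (x 1) (.T (x 2) (x 4) (p (x 0) (x 5)) (x 3)))),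
  (-1, (.T (p (p (x 2) (x 3)) (x 4)) (x 0) (x 5) (x 1))),
  (1, (.PL (.N (a (x 0) (x 3) (x 4)) (x 1) (x 2) 3 0) (x 5))),
  (1, (.PR (p (x 4) (x 1)) (.T (x 2) (x 5) (x 0) (x 3)))),
  (1, (.N (a (x 3) (x 4) (x 5)) (x 0) (p (x 1) (x 2)) 3 0)),
  (-1, (.PR (p (x 2) (x 4)) (.T (x 0) (x 5) (x 3) (x 1)))),
  (-1, (.PR (x 1) (.T (x 0) (x 4) (x 2) (p (x 5) (x 3))))),
  (-1, (.T (x 0) (x 4) (x 1) (p (p (x 2) (x 3)) (x 5)))),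
  (1, (.PR (x 2) (.PR (x 0) (.T (x 1) (x 5) (x 4) (x 3))))),
  (-1, (.PL (.T (x 0) (x 3) (x 4) (x 1)) (p (x 2) (x 5)))),
  (1, (.T (p (x 4) (x 3)) (p (x 0) (x 5)) (x 2) (x 1))),
  (-1, (.PR (p (x 5) (x 2)) (.T (x 0) (x 4) (x 1) (x 3)))),
  (1, (.PR (x 1) (.T (p (x 4) (x 0)) (x 3) (x 5) (x 2)))),
  (1, (.N (a (x 2) (x 3) (x 4)) (x 0) (p (x 1) (x 5)) 3 0)),
  (1, (.N (a (x 0) (x 4) (p (x 3) (x 5))) (x 1) (x 2) 0 4)),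
  (-1, (.PL (.T (x 1) (x 4) (x 0) (x 2)) (p (x 3) (x 5)))),
  (1, (.PL (.PL (.T (x 0) (x 4) (x 5) (x 1)) (x 3)) (x 2))),
  (1, (.N (a (x 0) (x 2) (p (x 3) (x 5))) (x 1) (x 4) 0 3)),
  (1, (.T (x 0) (p (x 4) (x 3)) (x 1) (p (x 5) (x 2)))),
  (-1, (.PR (p (x 2) (x 5)) (.T (x 1) (x 3) (x 4) (x 0)))),
  (1, (.PL (.N (a (x 0) (x 4) (x 5)) (x 2) (x 3) 0 5) (x 1))),
  (1, (.PL (.PR (x 0) (.T (x 1) (x 5) (x 3) (x 4))) (x 2))),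
  (1, (.PL (.T (x 0) (x 3) (x 5) (x 4)) (p (x 1) (x 2)))),
  (1, (.T (x 2) (x 5) (p (p (x 3) (x 4)) (x 0)) (x 1))),
  (1, (.N (a (x 1) (x 3) (x 5)) (x 0) (p (x 4) (x 2)) 0 3)),
  (-1, (.PL (.T (x 0) (p (x 4) (x 5)) (x 2) (x 3)) (x 1))),
  (-1, (.PL (.T (x 3) (x 5) (x 1) (x 4)) (p (x 0) (x 2)))),
  (-1, (.PL (.T (x 0) (x 5) (p (x 4) (x 1)) (x 3)) (x 2))),
  (1, (.T (p (x 3) (x 4)) (p (x 5) (x 2)) (x 0) (x 1))),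
  (-1, (.T (p (p (x 4) (x 2)) (x 3)) (x 0) (x 5) (x 1))),
  (1, (.PR (x 1) (.PL (.T (x 3) (x 4) (x 0) (x 5)) (x 2)))),
  (1, (.N (p (x 2) (a (x 1) (x 3) (x 4))) (x 0) (x 5) 4 0)),
  (-1, (.T (p (x 2) (x 5)) (p (x 3) (x 4)) (x 1) (x 0))),
  (-1, (.N (a (x 4) (x 5) (p (x 3) (x 2))) (x 0) (x 1) 0 5)),
  (-1, (.N (a (x 1) (x 4) (x 5)) (x 0) (p (x 3) (x 2)) 0 2)),
  (1, (.PP (a (x 0) (x 2) (x 5)) (a (x 1) (x 3) (x 4)) 0 4)),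
  (1, (.T (x 1) (x 4) (p (x 5) (x 3)) (p (x 0) (x 2)))),
  (-1, (.T (p (x 2) (x 5)) (p (x 4) (x 3)) (x 0) (x 1))),
  (1, (.T (p (x 1) (x 3)) (p (x 5) (x 4)) (x 2) (x 0))),
  (-1, (.N (a (x 0) (x 3) (x 4)) (x 1) (p (x 2) (x 5)) 0 1)),
  (1, (.PL (.T (x 1) (x 3) (x 0) (x 2)) (p (x 4) (x 5)))),
  (-1, (.N (a (x 1) (x 2) (p (x 3) (x 5))) (x 0) (x 4) 0 2)),
  (-1, (.PR (p (x 5) (x 1)) (.T (x 0) (x 4) (x 2) (x 3)))),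
  (-1, (.T (x 2) (x 4) (p (p (x 1) (x 3)) (x 5)) (x 0))),
  (1, (.PR (x 2) (.N (a (x 0) (x 4) (x 5)) (x 1) (x 3) 3 0))),
  (1, (.PL (.T (x 1) (x 4) (x 2) (x 5)) (p (x 3) (x 0)))),
  (-1, (.T (x 1) (x 3) (p (x 5) (x 4)) (p (x 0) (x 2)))),
  (1, (.PL (.T (x 2) (p (x 3) (x 4)) (x 1) (x 5)) (x 0))),
  (1, (.PL (.T (x 0) (x 5) (p (x 1) (x 4)) (x 3)) (x 2))),
  (1, (.PR (x 2) (.T (x 3) (p (x 0) (x 5)) (x 1) (x 4)))),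
  (1, (.T (x 0) (x 5) (x 1) (p (p (x 2) (x 4)) (x 3)))),
  (1, (.PL (.T (x 3) (x 4) (p (x 5) (x 0)) (x 2)) (x 1))),
  (-1, (.N (a (x 2) (x 3) (p (x 5) (x 4))) (x 0) (x 1) 0 5)),
  (-1, (.T (x 0) (x 1) (p (x 2) (x 4)) (p (x 5) (x 3)))),
  (-1, (.T (x 0) (x 2) (p (x 3) (x 5)) (p (x 1) (x 4)))),
  (-1, (.PR (x 2) (.T (x 0) (p (x 3) (x 5)) (x 1) (x 4))))]

def c20 : List (Int × Rl) := [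
  (-1, (.PL (.PL (.T (x 1) (x 3) (x 5) (x 4)) (x 0)) (x 2))),
  (-1, (.T (x 0) (x 2) (x 1) (p (p (x 3) (x 5)) (x 4)))),
  (1, (.PR (x 0) (.N (a (x 2) (x 3) (x 4)) (x 1) (x 5) 5 0))),
  (1, (.T (p (x 5) (x 4)) (p (x 3) (x 1)) (x 2) (x 0))),
  (1, (.PR (p (x 1) (x 3)) (.T (x 0) (x 5) (x 4) (x 2)))),
  (1, (.N (a (x 2) (x 4) (x 5)) (x 0) (p (x 1) (x 3)) 0 2)),
  (1, (.T (x 1) (p (p (x 3) (x 4)) (x 5)) (x 2) (x 0))),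
  (-1, (.N (p (a (x 2) (x 3) (x 4)) (x 1)) (x 0) (x 5) 1 0)),
  (-1, (.PL (.N (a (x 2) (x 4) (x 5)) (x 0) (x 3) 5 0) (x 1))),
  (1, (.N (p (a (x 0) (x 4) (x 5)) (x 2)) (x 1) (x 3) 1 0)),
  (-1, (.T (x 1) (x 5) (p (x 4) (x 0)) (p (x 3) (x 2)))),
  (-1, (.PL (.N (a (x 0) (x 3) (x 4)) (x 2) (x 5) 0 3) (x 1))),
  (-1, (.PL (.PL (.T (x 2) (x 3) (x 5) (x 0)) (x 4)) (x 1))),
  (1, (.T (x 0) (x 2) (p (x 1) (x 3)) (p (x 5) (x 4)))),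
  (1, (.PR (p (x 2) (x 3)) (.T (x 0) (x 1) (x 5) (x 4)))),
  (1, (.N (a (x 1) (x 2) (p (x 5) (x 4))) (x 0) (x 3) 4 0)),
  (-1, (.PL (.T (x 1) (x 4) (x 2) (x 5)) (p (x 0) (x 3)))),
  (-1, (.T (p (x 4) (x 2)) (p (x 5) (x 1)) (x 3) (x 0))),
  (-1, (.N (p (a (x 1) (x 2) (x 4)) (x 5)) (x 0) (x 3) 4 0)),
  (-1, (.T (p (x 4) (x 5)) (p (x 2) (x 0)) (x 3) (x 1))),
  (-1, (.PP (a (x 0) (x 3) (x 5)) (a (x 1) (x 2) (x 4)) 0 4)),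
  (-1, (.PR (p (x 5) (x 4)) (.T (x 1) (x 3) (x 0) (x 2)))),
  (1, (.PR (x 2) (.PR (x 0) (.T (x 1) (x 4) (x 3) (x 5))))),
  (-1, (.PR (x 1) (.N (a (x 2) (x 4) (x 5)) (x 0) (x 3) 0 2))),
  (1, (.PL (.T (x 0) (x 5) (p (x 4) (x 3)) (x 1)) (x 2))),
  (1, (.N (a (x 3) (x 5) (p (x 4) (x 0))) (x 1) (x 2) 0 2)),
  (-1, (.T (p (x 5) (x 1)) (p (x 4) (x 3)) (x 2) (x 0))),
  (1, (.T (x 1) (x 4) (p (x 2) (x 5)) (p (x 3) (x 0)))),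
  (1, (.T (p (p (x 4) (x 0)) (x 5)) (x 1) (x 3) (x 2))),
  (1, (.T (x 1) (x 3) (p (p (x 2) (x 4)) (x 5)) (x 0))),
  (1, (.PL (.T (x 1) (x 3) (x 4) (x 2)) (p (x 0) (x 5)))),
  (1, (.PL (.PL (.T (x 2) (x 5) (x 0) (x 4)) (x 1)) (x 3))),
  (1, (.PR (x 1) (.T (x 2) (x 5) (p (x 3) (x 4)) (x 0)))),
  (-1, (.PL (.N (a (x 2) (x 3) (x 5)) (x 1) (x 4) 0 2) (x 0))),
  (-1, (.N (p (a (x 0) (x 2) (x 3)) (x 4)) (x 1) (x 5) 0 1)),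
  (-1, (.N (a (x 0) (x 2) (x 4)) (x 1) (p (x 3) (x 5)) 4 0)),
  (1, (.T (x 0) (x 1) (p (x 3) (x 2)) (p (x 5) (x 4)))),
  (1, (.T (x 0) (x 5) (p (p (x 4) (x 1)) (x 3)) (x 2))),
  (1, (.PL (.N (a (x 1) (x 2) (x 5)) (x 3) (x 4) 2 0) (x 0))),
  (-1, (.PL (.PL (.T (x 0) (x 2) (x 5) (x 3)) (x 4)) (x 1))),
  (-1, (.N (p (a (x 1) (x 2) (x 3)) (x 4)) (x 0) (x 5) 4 0)),
  (1, (.PL (.N (a (x 2) (x 3) (x 5)) (x 1) (x 4) 1 0) (x 0))),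
  (1, (.N (a (x 0) (x 5) (p (x 2) (x 3))) (x 1) (x 4) 0 4)),
  (-1, (.T (x 2) (x 3) (p (x 0) (x 4)) (p (x 1) (x 5)))),
  (-1, (.T (x 2) (p (p (x 1) (x 3)) (x 5)) (x 4) (x 0))),
  (-1, (.PL (.PL (.T (x 2) (x 3) (x 4) (x 5)) (x 0)) (x 1))),
  (1, (.N (a (x 0) (x 2) (p (x 5) (x 4))) (x 1) (x 3) 0 2)),
  (1, (.PR (p (x 0) (x 5)) (.T (x 1) (x 2) (x 3) (x 4)))),
  (1, (.N (p (a (x 1) (x 3) (x 5)) (x 2)) (x 0) (x 4) 1 0)),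
  (1, (.T (x 1) (p (x 2) (x 3)) (p (x 4) (x 5)) (x 0))),
  (1, (.N (p (a (x 2) (x 3) (x 4)) (x 5)) (x 0) (x 1) 0 3)),
  (-1, (.T (x 0) (p (p (x 2) (x 4)) (x 3)) (x 1) (x 5))),
  (1, (.N (a (x 1) (x 5) (p (x 3) (x 4))) (x 0) (x 2) 0 5)),
  (1, (.PR (x 0) (.PR (x 3) (.T (x 2) (x 4) (x 5) (x 1))))),
  (1, (.PR (x 0) (.T (x 1) (x 5) (p (x 4) (x 3)) (x 2)))),
  (1, (.T (x 1) (p (x 5) (x 2)) (p (x 4) (x 3)) (x 0))),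
  (-1, (.T (p (p (x 4) (x 2)) (x 3)) (x 1) (x 5) (x 0))),
  (1, (.PR (x 1) (.T (p (x 5) (x 0)) (x 3) (x 4) (x 2)))),
  (1, (.PL (.PL (.T (x 2) (x 4) (x 1) (x 5)) (x 3)) (x 0))),
  (-1, (.N (a (x 3) (x 4) (x 5)) (x 0) (p (x 1) (x 2)) 2 0)),
  (1, (.T (x 0) (x 4) (p (p (x 5) (x 3)) (x 2)) (x 1))),
  (1, (.PL (.T (x 1) (x 3) (x 5) (x 2)) (p (x 4) (x 0)))),
  (-1, (.N (a (x 2) (x 4) (x 5)) (p (x 0) (x 3)) (x 1) 0 4)),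
  (-1, (.PL (.T (x 0) (x 1) (x 3) (x 2)) (p (x 5) (x 4)))),
  (-1, (.PL (.N (a (x 0) (x 4) (x 5)) (x 1) (x 3) 0 0) (x 2))),
  (1, (.N (a (x 0) (x 4) (p (x 2) (x 5))) (x 1) (x 3) 0 2)),
  (1, (.PR (x 0) (.N (a (x 2) (x 4) (x 5)) (x 1) (x 3) 2 0))),
  (-1, (.PL (.PR (x 0) (.T (x 2) (x 5) (x 3) (x 4))) (x 1))),
  (1, (.T (x 1) (x 2) (p (x 4) (x 3)) (p (x 0) (x 5)))),
  (1, (.N (a (x 2) (x 4) (x 5)) (p (x 3) (x 0)) (x 1) 0 4)),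
  (1, (.PR (x 1) (.PR (x 3) (.T (x 0) (x 5) (x 2) (x 4))))),
  (1, (.N (a (x 1) (x 3) (p (x 5) (x 4))) (x 0) (x 2) 0 0)),
  (1, (.PL (.PL (.T (x 1) (x 3) (x 5) (x 2)) (x 0)) (x 4))),
  (-1, (.PL (.PL (.T (x 0) (x 4) (x 3) (x 5)) (x 2)) (x 1))),
  (1, (.PR (x 2) (.N (a (x 3) (x 4) (x 5)) (x 0) (x 1) 0 4))),
  (-1, (.T (x 2) (x 3) (p (p (x 5) (x 0)) (x 4)) (x 1))),
  (-1, (.N (p (a (x 2) (x 4) (x 5)) (x 3)) (x 0) (x 1) 0 1)),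
  (-1, (.N (a (x 1) (x 4) (p (x 5) (x 2))) (x 0) (x 3) 0 4)),
  (1, (.N (a (x 3) (x 4) (x 5)) (x 0) (p (x 2) (x 1)) 0 4)),
  (1, (.N (p (a (x 1) (x 3) (x 4)) (x 2)) (x 0) (x 5) 0 0)),
  (1, (.PP (a (x 0) (x 3) (x 4)) (a (x 1) (x 2) (x 5)) 4 0)),
  (1, (.PR (p (x 5) (x 3)) (.T (x 1) (x 2) (x 4) (x 0)))),
  (1, (.PL (.PR (x 0) (.T (x 3) (x 5) (x 2) (x 4))) (x 1))),
  (-1, (.T (x 0) (x 5) (p (x 2) (x 4)) (p (x 1) (x 3)))),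
  (1, (.T (x 1) (x 2) (p (x 0) (x 5)) (p (x 3) (x 4)))),
  (-1, (.PL (.T (x 0) (x 5) (x 1) (p (x 3) (x 4))) (x 2))),
  (-1, (.N (a (x 0) (x 4) (x 5)) (x 1) (p (x 2) (x 3)) 0 2)),
  (1, (.PL (.T (x 1) (x 5) (p (x 3) (x 4)) (x 0)) (x 2))),
  (1, (.T (x 2) (p (x 4) (x 0)) (p (x 5) (x 3)) (x 1))),
  (1, (.PR (x 2) (.T (x 0) (p (x 5) (x 3)) (x 1) (x 4)))),
  (-1, (.PR (x 2) (.PL (.T (x 0) (x 1) (x 4) (x 3)) (x 5)))),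
  (1, (.T (x 1) (x 2) (p (x 4) (x 5)) (p (x 0) (x 3)))),
  (-1, (.PR (p (x 4) (x 0)) (.T (x 1) (x 5) (x 2) (x 3)))),
  (-1, (.T (p (x 0) (x 3)) (p (x 5) (x 2)) (x 4) (x 1))),
  (1, (.N (p (a (x 1) (x 3) (x 5)) (x 2)) (x 0) (x 4) 0 4)),
  (-1, (.PR (x 0) (.N (a (x 2) (x 3) (x 5)) (x 1) (x 4) 2 0))),
  (1, (.T (x 0) (x 2) (x 1) (p (p (x 5) (x 3)) (x 4)))),
  (1, (.PR (p (x 3) (x 0)) (.T (x 1) (x 2) (x 4) (x 5)))),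
  (1, (.PL (.N (a (x 2) (x 4) (x 5)) (x 1) (x 3) 1 0) (x 0))),
  (1, (.N (p (a (x 0) (x 2) (x 4)) (x 3)) (x 1) (x 5) 1 0))]

def c21 : List (Int × Rl) := [
  (-1, (.T (x 0) (x 1) (p (x 2) (x 3)) (p (x 5) (x 4)))),
  (-1, (.T (x 0) (x 1) (p (x 5) (x 2)) (p (x 4) (x 3)))),
  (-1, (.PL (.PR (x 3) (.T (x 1) (x 4) (x 5) (x 2))) (x 0))),
  (-1, (.N (a (x 0) (x 5) (p (x 3) (x 2))) (x 1) (x 4) 0 5)),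
  (1, (.T (x 1) (x 3) (p (p (x 4) (x 5)) (x 0)) (x 2))),
  (1, (.N (a (x 1) (x 3) (x 4)) (x 0) (p (x 2) (x 5)) 0 1)),
  (1, (.N (a (x 1) (x 2) (p (x 3) (x 5))) (x 0) (x 4) 0 0)),
  (1, (.PR (x 2) (.T (x 0) (x 3) (x 1) (p (x 5) (x 4))))),
  (-1, (.PR (x 0) (.T (x 2) (x 5) (p (x 3) (x 4)) (x 1)))),
  (1, (.PL (.T (x 2) (x 5) (p (x 1) (x 4)) (x 3)) (x 0))),
  (1, (.PL (.PR (x 2) (.T (x 1) (x 4) (x 5) (x 3))) (x 0))),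
  (1, (.N (p (a (x 1) (x 2) (x 5)) (x 3)) (x 0) (x 4) 0 0)),
  (-1, (.N (a (x 0) (x 3) (x 5)) (p (x 1) (x 4)) (x 2) 2 0)),
  (-1, (.PR (p (x 3) (x 0)) (.T (x 2) (x 5) (x 1) (x 4)))),
  (-1, (.PL (.N (a (x 2) (x 4) (x 5)) (x 1) (x 3) 2 0) (x 0))),
  (1, (.N (a (x 2) (x 3) (x 5)) (p (x 0) (x 4)) (x 1) 0 3)),
  (-1, (.T (x 0) (x 5) (p (x 1) (x 2)) (p (x 3) (x 4)))),
  (1, (.N (p (a (x 0) (x 2) (x 5)) (x 3)) (x 1) (x 4) 0 0)),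
  (-1, (.N (a (x 1) (x 3) (p (x 5) (x 4))) (x 0) (x 2) 0 5)),
  (-1, (.PR (x 2) (.T (x 3) (p (x 0) (x 4)) (x 1) (x 5)))),
  (1, (.PR (x 1) (.T (x 2) (p (x 4) (x 5)) (x 0) (x 3)))),
  (1, (.N (p (x 1) (a (x 2) (x 3) (x 5))) (x 0) (x 4) 4 0)),
  (1, (.N (a (x 1) (x 3) (p (x 5) (x 4))) (x 0) (x 2) 0 1)),
  (1, (.N (a (x 1) (x 5) (p (x 4) (x 3))) (x 0) (x 2) 0 4)),
  (1, (.N (a (x 0) (x 3) (p (x 1) (x 4))) (x 2) (x 5) 0 2)),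
  (-1, (.N (a (x 0) (x 2) (x 3)) (x 1) (p (x 4) (x 5)) 0 3)),
  (-1, (.N (a (x 0) (x 1) (x 5)) (x 2) (p (x 4) (x 3)) 1 0)),
  (1, (.N (a (x 1) (x 3) (x 5)) (p (x 4) (x 0)) (x 2) 3 0)),
  (-1, (.N (a (x 0) (x 4) (x 5)) (p (x 3) (x 1)) (x 2) 5 0)),
  (-1, (.T (x 2) (p (x 0) (x 5)) (x 1) (p (x 3) (x 4)))),
  (1, (.PR (p (x 0) (x 4)) (.T (x 2) (x 5) (x 1) (x 3)))),
  (-1, (.T (x 0) (x 4) (p (x 5) (x 2)) (p (x 1) (x 3)))),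
  (1, (.PL (.PL (.T (x 2) (x 5) (x 1) (x 3)) (x 0)) (x 4))),
  (-1, (.PR (x 0) (.N (a (x 1) (x 3) (x 5)) (x 2) (x 4) 0 3))),
  (1, (.N (p (a (x 0) (x 2) (x 3)) (x 5)) (x 1) (x 4) 4 0)),
  (1, (.N (a (x 1) (x 3) (x 5)) (x 0) (p (x 2) (x 4)) 2 0)),
  (1, (.T (x 1) (x 5) (p (p (x 2) (x 3)) (x 4)) (x 0))),
  (-1, (.N (a (x 0) (x 3) (x 4)) (p (x 5) (x 1)) (x 2) 3 0)),
  (1, (.PR (x 1) (.T (x 2) (p (x 3) (x 4)) (x 0) (x 5)))),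
  (1, (.T (p (x 5) (x 4)) (x 0) (x 1) (p (x 3) (x 2)))),
  (-1, (.N (a (x 2) (x 3) (x 4)) (p (x 0) (x 5)) (x 1) 0 0)),
  (1, (.T (x 1) (x 2) (p (x 5) (x 0)) (p (x 3) (x 4)))),
  (-1, (.PR (x 1) (.T (x 0) (x 3) (p (x 2) (x 5)) (x 4)))),
  (-1, (.N (a (x 3) (x 4) (x 5)) (x 0) (p (x 2) (x 1)) 0 2)),
  (1, (.PL (.N (a (x 0) (x 3) (x 4)) (x 1) (x 5) 0 3) (x 2))),
  (-1, (.PR (x 2) (.PR (x 3) (.T (x 0) (x 4) (x 5) (x 1))))),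
  (1, (.PR (x 2) (.PL (.T (x 5) (x 0) (x 4) (x 3)) (x 1)))),
  (-1, (.T (x 2) (x 1) (p (p (x 5) (x 3)) (x 4)) (x 0))),
  (-1, (.PL (.PL (.T (x 3) (x 4) (x 1) (x 5)) (x 0)) (x 2))),
  (1, (.PL (.N (a (x 2) (x 3) (x 4)) (x 0) (x 1) 2 0) (x 5))),
  (1, (.PL (.T (x 0) (x 1) (x 3) (p (x 5) (x 4))) (x 2))),
  (1, (.N (a (x 1) (x 3) (x 5)) (p (x 4) (x 0)) (x 2) 5 0)),
  (1, (.PR (x 1) (.PL (.T (x 3) (x 5) (x 2) (x 4)) (x 0)))),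
  (1, (.N (p (x 2) (a (x 1) (x 3) (x 5))) (x 0) (x 4) 1 0)),
  (-1, (.PR (x 0) (.N (a (x 1) (x 3) (x 4)) (x 2) (x 5) 0 1))),
  (1, (.N (p (a (x 2) (x 3) (x 5)) (x 4)) (x 0) (x 1) 0 1)),
  (1, (.N (a (x 1) (x 2) (p (x 4) (x 3))) (x 0) (x 5) 4 0)),
  (-1, (.PR (x 1) (.T (x 0) (p (x 4) (x 3)) (x 2) (x 5)))),
  (1, (.T (x 0) (x 4) (p (p (x 3) (x 5)) (x 2)) (x 1))),
  (1, (.N (a (x 4) (x 5) (p (x 3) (x 1))) (x 0) (x 2) 0 4)),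
  (-1, (.PL (.T (x 0) (x 4) (x 3) (p (x 1) (x 5))) (x 2))),
  (1, (.PL (.T (x 0) (x 1) (x 5) (x 3)) (p (x 4) (x 2)))),
  (1, (.PR (x 0) (.N (a (x 1) (x 4) (x 5)) (x 2) (x 3) 4 0))),
  (1, (.PP (a (x 0) (x 3) (x 5)) (a (x 1) (x 2) (x 4)) 4 0)),
  (1, (.N (a (x 3) (x 5) (p (x 2) (x 0))) (x 1) (x 4) 0 2)),
  (1, (.T (p (p (x 5) (x 0)) (x 3)) (x 1) (x 4) (x 2))),
  (-1, (.PL (.N (a (x 0) (x 4) (x 5)) (x 2) (x 3) 3 0) (x 1))),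
  (1, (.PL (.PR (x 2) (.T (x 1) (x 3) (x 5) (x 4))) (x 0))),
  (1, (.PL (.PL (.T (x 2) (x 4) (x 1) (x 3)) (x 5)) (x 0))),
  (-1, (.PL (.T (x 3) (x 4) (x 1) (x 5)) (p (x 0) (x 2)))),
  (-1, (.PR (p (x 4) (x 5)) (.T (x 0) (x 3) (x 1) (x 2)))),
  (-1, (.N (a (x 0) (x 2) (x 4)) (x 1) (p (x 5) (x 3)) 4 0)),
  (1, (.PR (x 2) (.T (p (x 4) (x 0)) (x 3) (x 5) (x 1)))),
  (-1, (.T (p (p (x 0) (x 5)) (x 4)) (x 1) (x 3) (x 2))),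
  (-1, (.T (x 0) (x 3) (x 2) (p (p (x 1) (x 5)) (x 4)))),
  (1, (.PL (.T (x 0) (x 4) (x 5) (p (x 1) (x 3))) (x 2))),
  (1, (.PL (.N (a (x 1) (x 4) (x 5)) (x 2) (x 3) 0 2) (x 0))),
  (-1, (.N (a (x 0) (x 3) (x 4)) (p (x 1) (x 5)) (x 2) 0 2)),
  (1, (.T (x 1) (x 5) (p (x 2) (x 0)) (p (x 3) (x 4)))),
  (-1, (.PR (x 2) (.PL (.T (x 3) (x 5) (x 1) (x 4)) (x 0)))),
  (1, (.N (a (x 0) (x 5) (p (x 4) (x 3))) (x 1) (x 2) 0 1)),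
  (-1, (.PL (.PR (x 4) (.T (x 1) (x 3) (x 5) (x 0))) (x 2))),
  (-1, (.PR (x 1) (.PL (.T (x 0) (x 5) (x 4) (x 2)) (x 3)))),
  (-1, (.N (a (x 0) (x 4) (x 5)) (x 1) (p (x 2) (x 3)) 3 0)),
  (1, (.PR (p (x 1) (x 3)) (.T (x 2) (x 4) (x 5) (x 0)))),
  (-1, (.PL (.T (x 1) (x 3) (x 5) (x 2)) (p (x 0) (x 4)))),
  (1, (.N (p (a (x 0) (x 3) (x 5)) (x 4)) (x 1) (x 2) 0 3)),
  (-1, (.PL (.PL (.T (x 0) (x 3) (x 5) (x 4)) (x 1)) (x 2))),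
  (-1, (.PP (a (x 1) (x 4) (x 5)) (a (x 0) (x 2) (x 3)) 4 0)),
  (-1, (.PL (.T (x 0) (x 3) (x 4) (p (x 2) (x 5))) (x 1))),
  (-1, (.T (x 1) (p (x 2) (x 3)) (x 0) (p (x 5) (x 4)))),
  (-1, (.N (p (a (x 1) (x 2) (x 5)) (x 3)) (x 0) (x 4) 1 0)),
  (-1, (.PL (.T (x 1) (x 3) (x 0) (x 2)) (p (x 5) (x 4)))),
  (1, (.PR (x 1) (.T (p (x 3) (x 4)) (x 0) (x 5) (x 2)))),
  (-1, (.T (p (x 4) (x 2)) (p (x 5) (x 3)) (x 0) (x 1))),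
  (1, (.T (p (p (x 3) (x 4)) (x 5)) (x 1) (x 2) (x 0))),
  (-1, (.PL (.T (x 0) (x 5) (x 2) (x 4)) (p (x 1) (x 3)))),
  (-1, (.T (p (x 4) (x 3)) (x 1) (x 2) (p (x 0) (x 5)))),
  (1, (.PR (p (x 2) (x 0)) (.T (x 1) (x 5) (x 4) (x 3)))),
  (1, (.N (a (x 0) (x 4) (p (x 2) (x 3))) (x 1) (x 5) 0 5))]

def c22 : List (Int × Rl) := [
  (-1, (.PR (x 2) (.PR (x 5) (.T (x 0) (x 1) (x 4) (x 3))))),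
  (1, (.PL (.T (x 0) (x 3) (x 1) (x 2)) (p (x 5) (x 4)))),
  (-1, (.PR (x 2) (.PR (x 1) (.T (x 3) (x 5) (x 0) (x 4))))),
  (-1, (.PL (.PL (.T (x 0) (x 2) (x 5) (x 4)) (x 1)) (x 3))),
  (-1, (.N (p (a (x 0) (x 2) (x 3)) (x 4)) (x 1) (x 5) 1 0)),
  (1, (.PR (x 0) (.T (x 3) (x 1) (x 4) (p (x 5) (x 2))))),
  (1, (.PR (x 2) (.N (a (x 1) (x 3) (x 5)) (x 0) (x 4) 4 0))),
  (-1, (.T (x 1) (x 4) (p (x 0) (x 3)) (p (x 5) (x 2)))),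
  (-1, (.N (a (x 0) (x 4) (x 5)) (x 1) (p (x 3) (x 2)) 1 0)),
  (1, (.PR (x 2) (.PL (.T (x 1) (x 4) (x 0) (x 5)) (x 3)))),
  (-1, (.PR (x 1) (.T (x 2) (x 4) (x 3) (p (x 0) (x 5))))),
  (-1, (.T (x 1) (p (p (x 2) (x 4)) (x 3)) (x 5) (x 0))),
  (1, (.PL (.PL (.T (x 0) (x 5) (x 2) (x 3)) (x 1)) (x 4))),
  (-1, (.PR (x 0) (.N (a (x 2) (x 3) (x 4)) (x 1) (x 5) 0 5))),
  (-1, (.N (a (x 1) (x 2) (x 5)) (x 0) (p (x 4) (x 3)) 2 0)),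
  (1, (.N (a (x 2) (x 3) (x 4)) (x 0) (p (x 5) (x 1)) 3 0)),
  (1, (.T (x 1) (p (x 3) (x 5)) (p (x 4) (x 2)) (x 0))),
  (-1, (.PL (.T (x 3) (p (x 0) (x 4)) (x 5) (x 2)) (x 1))),
  (1, (.PL (.PL (.T (x 0) (x 5) (x 3) (x 2)) (x 1)) (x 4))),
  (1, (.PR (x 1) (.T (x 5) (x 3) (p (x 4) (x 0)) (x 2)))),
  (1, (.PR (p (x 5) (x 3)) (.T (x 0) (x 2) (x 1) (x 4)))),
  (1, (.PR (x 0) (.N (a (x 3) (x 4) (x 5)) (x 1) (x 2) 3 0))),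
  (1, (.PR (x 2) (.PR (x 1) (.T (x 0) (x 4) (x 3) (x 5))))),
  (1, (.PP (a (x 1) (x 2) (x 3)) (a (x 0) (x 4) (x 5)) 1 0)),
  (-1, (.T (x 0) (x 5) (p (p (x 4) (x 2)) (x 3)) (x 1))),
  (1, (.PP (a (x 1) (x 3) (x 5)) (a (x 0) (x 2) (x 4)) 0 4)),
  (1, (.T (x 0) (x 1) (x 2) (p (p (x 4) (x 3)) (x 5)))),
  (1, (.PL (.T (x 3) (x 2) (x 5) (p (x 4) (x 0))) (x 1))),
  (1, (.N (a (x 0) (x 3) (x 5)) (x 1) (p (x 4) (x 2)) 0 2)),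
  (1, (.N (a (x 2) (x 4) (x 5)) (p (x 3) (x 0)) (x 1) 3 0)),
  (1, (.T (p (x 5) (x 0)) (p (x 3) (x 2)) (x 4) (x 1))),
  (-1, (.T (p (x 3) (x 2)) (x 1) (p (x 4) (x 5)) (x 0))),
  (-1, (.PL (.PL (.T (x 2) (x 4) (x 0) (x 3)) (x 5)) (x 1))),
  (1, (.PR (x 0) (.PL (.T (x 2) (x 5) (x 4) (x 3)) (x 1)))),
  (-1, (.PL (.T (x 1) (x 2) (x 4) (x 0)) (p (x 3) (x 5)))),
  (-1, (.N (p (a (x 1) (x 4) (x 5)) (x 2)) (x 0) (x 3) 0 0)),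
  (1, (.PR (x 1) (.T (x 5) (x 2) (p (x 4) (x 3)) (x 0)))),
  (-1, (.PL (.T (x 1) (x 4) (x 0) (x 3)) (p (x 2) (x 5)))),
  (-1, (.N (a (x 0) (x 2) (p (x 5) (x 4))) (x 1) (x 3) 0 1)),
  (-1, (.PL (.PL (.T (x 0) (x 5) (x 3) (x 4)) (x 2)) (x 1))),
  (-1, (.PR (x 1) (.T (x 0) (x 3) (x 5) (p (x 4) (x 2))))),
  (1, (.N (a (x 3) (x 5) (p (x 0) (x 4))) (x 1) (x 2) 0 2)),
  (-1, (.T (x 1) (x 5) (p (p (x 4) (x 0)) (x 3)) (x 2))),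
  (1, (.T (x 0) (x 4) (p (p (x 1) (x 3)) (x 5)) (x 2))),
  (-1, (.PL (.T (x 3) (p (x 1) (x 5)) (x 4) (x 2)) (x 0))),
  (1, (.PL (.T (x 0) (x 2) (x 3) (x 1)) (p (x 4) (x 5)))),
  (1, (.PR (p (x 2) (x 0)) (.T (x 1) (x 3) (x 5) (x 4)))),
  (1, (.PR (x 1) (.PR (x 2) (.T (x 3) (x 4) (x 0) (x 5))))),
  (1, (.PR (x 0) (.PR (x 3) (.T (x 4) (x 2) (x 5) (x 1))))),
  (-1, (.N (p (a (x 2) (x 3) (x 5)) (x 4)) (x 0) (x 1) 2 0)),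
  (-1, (.PR (x 1) (.PL (.T (x 0) (x 4) (x 3) (x 2)) (x 5)))),
  (1, (.N (a (x 2) (x 3) (p (x 1) (x 5))) (x 0) (x 4) 0 5)),
  (-1, (.N (a (x 2) (x 3) (x 4)) (x 0) (p (x 1) (x 5)) 0 0)),
  (-1, (.T (p (x 2) (x 4)) (p (x 3) (x 5)) (x 0) (x 1))),
  (1, (.PL (.T (x 0) (x 3) (x 5) (x 4)) (p (x 2) (x 1)))),
  (-1, (.PL (.PR (x 2) (.T (x 3) (x 5) (x 0) (x 4))) (x 1))),
  (-1, (.N (p (a (x 1) (x 2) (x 4)) (x 5)) (x 0) (x 3) 0 4)),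
  (-1, (.N (a (x 1) (x 2) (x 4)) (x 0) (p (x 3) (x 5)) 0 0)),
  (1, (.PR (x 2) (.PR (x 3) (.T (x 0) (x 5) (x 1) (x 4))))),
  (-1, (.N (p (a (x 0) (x 2) (x 5)) (x 3)) (x 1) (x 4) 0 1)),
  (1, (.N (a (x 2) (x 4) (p (x 3) (x 5))) (x 0) (x 1) 0 1)),
  (-1, (.PR (x 0) (.PL (.T (x 2) (x 4) (x 5) (x 3)) (x 1)))),
  (-1, (.PR (x 2) (.PL (.T (x 1) (x 5) (x 0) (x 3)) (x 4)))),
  (1, (.PR (x 0) (.N (a (x 1) (x 3) (x 5)) (x 2) (x 4) 3 0))),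
  (-1, (.T (p (x 0) (x 4)) (p (x 5) (x 2)) (x 3) (x 1))),
  (-1, (.PR (x 1) (.PL (.T (x 2) (x 4) (x 0) (x 3)) (x 5)))),
  (1, (.PR (x 1) (.PL (.T (x 0) (x 5) (x 3) (x 4)) (x 2)))),
  (1, (.T (p (x 2) (x 1)) (p (x 4) (x 3)) (x 5) (x 0))),
  (-1, (.PL (.N (a (x 2) (x 3) (x 4)) (x 0) (x 5) 0 3) (x 1))),
  (1, (.N (a (x 2) (x 3) (p (x 4) (x 5))) (x 0) (x 1) 0 5)),
  (-1, (.PR (x 1) (.PL (.T (x 0) (x 3) (x 5) (x 4)) (x 2)))),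
  (1, (.PL (.N (a (x 1) (x 3) (x 4)) (x 2) (x 5) 3 0) (x 0))),
  (-1, (.PL (.T (x 1) (x 5) (x 3) (x 4)) (p (x 0) (x 2)))),
  (-1, (.PR (x 2) (.T (x 1) (x 5) (p (x 3) (x 4)) (x 0)))),
  (-1, (.T (x 0) (x 2) (p (p (x 3) (x 5)) (x 4)) (x 1))),
  (1, (.PR (x 2) (.T (x 1) (x 4) (p (x 0) (x 5)) (x 3)))),
  (-1, (.PR (x 2) (.T (x 1) (x 5) (x 3) (p (x 0) (x 4))))),
  (1, (.PL (.PR (x 0) (.T (x 1) (x 5) (x 4) (x 3))) (x 2))),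
  (1, (.T (x 0) (x 2) (p (x 4) (x 1)) (p (x 5) (x 3)))),
  (-1, (.PL (.PR (x 1) (.T (x 0) (x 4) (x 5) (x 3))) (x 2))),
  (-1, (.T (x 1) (p (p (x 2) (x 4)) (x 3)) (x 0) (x 5))),
  (-1, (.PR (p (x 3) (x 2)) (.T (x 0) (x 1) (x 5) (x 4)))),
  (-1, (.PR (p (x 0) (x 3)) (.T (x 1) (x 4) (x 2) (x 5)))),
  (-1, (.N (p (x 3) (a (x 2) (x 4) (x 5))) (x 0) (x 1) 3 0)),
  (-1, (.PR (p (x 4) (x 5)) (.T (x 1) (x 3) (x 0) (x 2)))),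
  (1, (.PR (x 0) (.T (x 1) (x 3) (p (x 4) (x 5)) (x 2)))),
  (1, (.PL (.T (p (x 4) (x 1)) (x 3) (x 5) (x 0)) (x 2))),
  (1, (.PR (p (x 5) (x 1)) (.T (x 0) (x 2) (x 3) (x 4)))),
  (1, (.N (a (x 2) (x 5) (p (x 0) (x 4))) (x 1) (x 3) 0 5)),
  (-1, (.PL (.T (x 1) (p (x 3) (x 4)) (x 2) (x 5)) (x 0))),
  (-1, (.PL (.N (a (x 1) (x 3) (x 5)) (x 0) (x 4) 0 4) (x 2))),
  (1, (.N (p (a (x 3) (x 4) (x 5)) (x 2)) (x 0) (x 1) 0 2)),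
  (-1, (.PL (.T (x 1) (x 2) (x 5) (p (x 4) (x 3))) (x 0))),
  (-1, (.T (x 2) (p (p (x 3) (x 0)) (x 4)) (x 5) (x 1))),
  (1, (.PR (x 2) (.PL (.T (x 0) (x 1) (x 3) (x 5)) (x 4)))),
  (-1, (.PL (.N (a (x 1) (x 3) (x 4)) (x 2) (x 5) 1 0) (x 0))),
  (1, (.T (x 1) (x 2) (p (x 0) (x 4)) (p (x 3) (x 5)))),
  (-1, (.PR (x 1) (.T (x 2) (p (x 5) (x 4)) (x 3) (x 0)))),
  (-1, (.PR (p (x 0) (x 5)) (.T (x 1) (x 4) (x 2) (x 3)))),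
  (1, (.PR (p (x 5) (x 1)) (.T (x 0) (x 3) (x 2) (x 4))))]

def c23 : List (Int × Rl) := [
  (1, (.PR (x 2) (.PR (x 5) (.T (x 1) (x 3) (x 4) (x 0))))),
  (1, (.N (a (x 3) (x 4) (p (x 5) (x 1))) (x 0) (x 2) 0 5)),
  (-1, (.N (p (a (x 1) (x 3) (x 5)) (x 4)) (x 0) (x 2) 5 0)),
  (-1, (.N (a (x 1) (x 3) (x 4)) (p (x 0) (x 5)) (x 2) 0 0)),
  (1, (.T (x 2) (x 4) (p (p (x 0) (x 5)) (x 3)) (x 1))),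
  (-1, (.N (a (x 3) (x 4) (x 5)) (x 0) (p (x 1) (x 2)) 4 0)),
  (1, (.PL (.T (x 0) (x 5) (x 2) (p (x 4) (x 3))) (x 1))),
  (1, (.PR (x 1) (.N (a (x 0) (x 3) (x 4)) (x 2) (x 5) 0 0))),
  (-1, (.PR (p (x 2) (x 5)) (.T (x 0) (x 3) (x 1) (x 4)))),
  (1, (.PR (x 2) (.T (x 3) (x 5) (p (x 4) (x 0)) (x 1)))),
  (-1, (.PL (.T (x 0) (x 3) (x 2) (x 4)) (p (x 1) (x 5)))),
  (1, (.N (p (a (x 0) (x 2) (x 4)) (x 3)) (x 1) (x 5) 4 0)),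
  (1, (.N (a (x 1) (x 4) (x 5)) (x 0) (p (x 3) (x 2)) 3 0)),
  (1, (.PL (.PL (.T (x 4) (x 2) (x 5) (x 1)) (x 3)) (x 0))),
  (1, (.N (a (x 0) (x 3) (x 4)) (p (x 5) (x 1)) (x 2) 2 0)),
  (-1, (.PL (.PL (.T (x 1) (x 4) (x 5) (x 2)) (x 3)) (x 0))),
  (-1, (.PL (.T (x 1) (x 3) (x 5) (x 0)) (p (x 4) (x 2)))),
  (-1, (.N (a (x 0) (x 2) (x 5)) (x 1) (p (x 4) (x 3)) 0 5)),
  (-1, (.N (p (a (x 3) (x 4) (x 5)) (x 1)) (x 0) (x 2) 0 1)),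
  (-1, (.T (x 1) (x 5) (p (p (x 4) (x 2)) (x 3)) (x 0))),
  (1, (.T (x 0) (p (x 5) (x 2)) (x 1) (p (x 4) (x 3)))),
  (-1, (.N (p (a (x 1) (x 3) (x 5)) (x 4)) (x 0) (x 2) 1 0)),
  (1, (.PL (.N (a (x 1) (x 3) (x 4)) (x 0) (x 5) 0 4) (x 2))),
  (-1, (.PR (x 0) (.T (x 2) (p (x 5) (x 3)) (x 1) (x 4)))),
  (1, (.PR (x 2) (.T (x 1) (x 4) (p (x 5) (x 3)) (x 0)))),
  (1, (.T (x 0) (x 3) (p (p (x 1) (x 5)) (x 4)) (x 2))),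
  (1, (.PR (x 0) (.T (x 2) (p (x 3) (x 5)) (x 1) (x 4)))),
  (1, (.PR (x 1) (.N (a (x 0) (x 2) (x 5)) (x 3) (x 4) 1 0))),
  (1, (.N (a (x 0) (x 2) (p (x 4) (x 5))) (x 1) (x 3) 0 5)),
  (1, (.N (a (x 3) (x 5) (p (x 0) (x 2))) (x 1) (x 4) 0 2)),
  (1, (.PL (.T (x 3) (p (x 4) (x 2)) (x 5) (x 0)) (x 1))),
  (-1, (.T (p (p (x 1) (x 3)) (x 5)) (x 2) (x 4) (x 0))),
  (1, (.PL (.PR (x 2) (.T (x 0) (x 5) (x 3) (x 4))) (x 1))),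
  (-1, (.N (p (a (x 3) (x 4) (x 5)) (x 0)) (x 1) (x 2) 2 0)),
  (-1, (.PR (x 0) (.T (p (x 5) (x 1)) (x 3) (x 4) (x 2)))),
  (-1, (.T (p (x 3) (x 4)) (p (x 1) (x 5)) (x 2) (x 0))),
  (-1, (.T (x 1) (x 4) (p (p (x 3) (x 5)) (x 2)) (x 0))),
  (-1, (.T (x 0) (p (x 2) (x 3)) (x 1) (p (x 4) (x 5)))),
  (1, (.T (x 1) (x 2) (p (p (x 3) (x 4)) (x 5)) (x 0))),
  (-1, (.PL (.PL (.T (x 3) (x 5) (x 2) (x 4)) (x 1)) (x 0))),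
  (1, (.PL (.N (a (x 2) (x 3) (x 5)) (x 0) (x 4) 1 0) (x 1))),
  (-1, (.PL (.N (a (x 1) (x 4) (x 5)) (x 0) (x 3) 5 0) (x 2))),
  (-1, (.N (a (x 2) (x 4) (p (x 5) (x 3))) (x 0) (x 1) 0 1)),
  (-1, (.PL (.T (x 1) (x 2) (x 3) (x 5)) (p (x 0) (x 4)))),
  (-1, (.PL (.T (p (x 4) (x 5)) (x 0) (x 3) (x 2)) (x 1))),
  (1, (.PL (.T (x 0) (x 5) (x 2) (x 3)) (p (x 1) (x 4)))),
  (-1, (.N (p (a (x 0) (x 3) (x 5)) (x 4)) (x 1) (x 2) 1 0)),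
  (-1, (.T (p (x 3) (x 0)) (x 2) (p (x 4) (x 5)) (x 1))),
  (1, (.PL (.PL (.T (x 1) (x 3) (x 4) (x 5)) (x 0)) (x 2))),
  (1, (.N (p (a (x 3) (x 4) (x 5)) (x 1)) (x 0) (x 2) 0 5)),
  (-1, (.PR (p (x 1) (x 2)) (.T (x 0) (x 5) (x 4) (x 3)))),
  (1, (.PR (x 1) (.PR (x 3) (.T (x 0) (x 2) (x 4) (x 5))))),
  (-1, (.T (p (p (x 3) (x 0)) (x 4)) (x 2) (x 5) (x 1))),
  (1, (.N (a (x 1) (x 4) (x 5)) (x 0) (p (x 2) (x 3)) 0 5)),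
  (-1, (.PR (p (x 2) (x 1)) (.T (x 0) (x 5) (x 3) (x 4)))),
  (-1, (.T (p (x 3) (x 4)) (x 1) (p (x 5) (x 2)) (x 0))),
  (1, (.PR (x 2) (.T (p (x 5) (x 0)) (x 3) (x 4) (x 1)))),
  (-1, (.PR (x 1) (.PR (x 4) (.T (x 0) (x 2) (x 3) (x 5))))),
  (-1, (.T (p (p (x 5) (x 0)) (x 4)) (x 1) (x 3) (x 2))),
  (1, (.PR (x 1) (.N (a (x 3) (x 4) (x 5)) (x 0) (x 2) 0 2))),
  (-1, (.PR (x 2) (.N (a (x 1) (x 4) (x 5)) (x 0) (x 3) 0 1))),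
  (1, (.PL (.T (x 1) (x 5) (p (x 3) (x 4)) (x 2)) (x 0))),
  (1, (.PL (.PR (x 2) (.T (x 3) (x 1) (x 4) (x 5))) (x 0))),
  (1, (.N (p (a (x 0) (x 2) (x 4)) (x 5)) (x 1) (x 3) 4 0)),
  (-1, (.T (p (x 5) (x 0)) (p (x 1) (x 4)) (x 3) (x 2))),
  (-1, (.T (x 2) (x 4) (p (x 1) (x 5)) (p (x 0) (x 3)))),
  (-1, (.PL (.T (x 1) (p (x 5) (x 3)) (x 2) (x 4)) (x 0))),
  (1, (.PL (.PL (.T (x 2) (x 4) (x 1) (x 3)) (x 0)) (x 5))),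
  (-1, (.PL (.PL (.T (x 2) (x 0) (x 3) (x 4)) (x 1)) (x 5))),
  (1, (.T (x 0) (x 4) (p (p (x 3) (x 2)) (x 5)) (x 1))),
  (-1, (.N (a (x 0) (x 4) (p (x 2) (x 5))) (x 1) (x 3) 0 5)),
  (1, (.PR (x 1) (.T (x 4) (x 2) (p (x 3) (x 5)) (x 0)))),
  (1, (.T (p (p (x 5) (x 4)) (x 2)) (x 0) (x 3) (x 1))),
  (1, (.N (a (x 1) (x 2) (x 4)) (x 0) (p (x 3) (x 5)) 3 0)),
  (-1, (.N (a (x 1) (x 3) (p (x 4) (x 5))) (x 0) (x 2) 0 3)),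
  (-1, (.PR (p (x 0) (x 2)) (.T (x 1) (x 4) (x 3) (x 5)))),
  (-1, (.PL (.T (x 0) (x 1) (p (x 3) (x 5)) (x 4)) (x 2))),
  (1, (.PL (.T (x 4) (x 1) (p (x 3) (x 5)) (x 0)) (x 2))),
  (1, (.PR (x 2) (.PL (.T (x 0) (x 1) (x 5) (x 3)) (x 4)))),
  (-1, (.PR (x 2) (.T (x 1) (x 4) (x 3) (p (x 5) (x 0))))),
  (1, (.T (x 0) (x 1) (p (x 4) (x 3)) (p (x 2) (x 5)))),
  (1, (.N (a (x 3) (x 4) (p (x 5) (x 2))) (x 0) (x 1) 0 2)),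
  (1, (.T (p (x 4) (x 1)) (p (x 5) (x 2)) (x 3) (x 0))),
  (1, (.PR (x 1) (.T (x 0) (p (x 3) (x 5)) (x 2) (x 4)))),
  (1, (.PL (.PL (.T (x 1) (x 4) (x 5) (x 3)) (x 2)) (x 0))),
  (1, (.PR (x 0) (.N (a (x 2) (x 3) (x 5)) (x 1) (x 4) 3 0))),
  (1, (.PR (x 0) (.PR (x 4) (.T (x 1) (x 3) (x 5) (x 2))))),
  (1, (.T (x 0) (x 3) (p (x 1) (x 2)) (p (x 5) (x 4)))),
  (1, (.PR (x 1) (.N (a (x 3) (x 4) (x 5)) (x 0) (x 2) 0 4))),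
  (-1, (.T (p (x 3) (x 0)) (p (x 1) (x 5)) (x 4) (x 2))),
  (-1, (.N (a (x 1) (x 4) (x 5)) (p (x 0) (x 3)) (x 2) 0 2)),
  (1, (.PL (.PL (.T (x 0) (x 5) (x 4) (x 3)) (x 2)) (x 1))),
  (1, (.PL (.T (x 0) (x 2) (x 1) (x 5)) (p (x 3) (x 4)))),
  (1, (.T (x 1) (p (x 2) (x 4)) (p (x 5) (x 3)) (x 0))),
  (-1, (.PL (.T (x 4) (x 3) (p (x 0) (x 5)) (x 1)) (x 2))),
  (-1, (.T (p (x 2) (x 4)) (p (x 3) (x 1)) (x 5) (x 0))),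
  (-1, (.PL (.N (a (x 2) (x 3) (x 4)) (x 1) (x 5) 0 2) (x 0))),
  (-1, (.PL (.T (x 3) (x 4) (p (x 2) (x 5)) (x 0)) (x 1))),
  (-1, (.PR (x 1) (.T (x 0) (x 5) (p (x 4) (x 2)) (x 3)))),
  (1, (.T (x 1) (x 3) (p (p (x 5) (x 4)) (x 0)) (x 2)))]

def c24 : List (Int × Rl) := [
  (1, (.PL (.N (a (x 2) (x 4) (x 5)) (x 0) (x 3) 0 3) (x 1))),
  (-1, (.T (x 2) (x 1) (p (p (x 3) (x 5)) (x 4)) (x 0))),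
  (1, (.PP (a (x 1) (x 2) (x 3)) (a (x 0) (x 4) (x 5)) 4 0)),
  (1, (.N (a (x 1) (x 4) (x 5)) (p (x 0) (x 3)) (x 2) 3 0)),
  (1, (.N (a (x 0) (x 2) (x 4)) (x 1) (p (x 3) (x 5)) 0 2)),
  (1, (.T (x 0) (x 3) (p (x 1) (x 5)) (p (x 4) (x 2)))),
  (1, (.PL (.T (x 0) (x 3) (x 5) (p (x 4) (x 2))) (x 1))),
  (1, (.N (p (a (x 3) (x 4) (x 5)) (x 1)) (x 0) (x 2) 0 2)),
  (1, (.N (a (x 1) (x 4) (x 5)) (x 0) (p (x 2) (x 3)) 2 0)),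
  (-1, (.PR (x 1) (.T (x 3) (p (x 0) (x 5)) (x 2) (x 4)))),
  (-1, (.T (x 1) (x 4) (x 2) (p (p (x 5) (x 3)) (x 0)))),
  (1, (.PR (x 1) (.T (x 3) (x 2) (p (x 4) (x 5)) (x 0)))),
  (-1, (.N (a (x 2) (x 3) (p (x 5) (x 4))) (x 0) (x 1) 0 1)),
  (1, (.T (x 2) (p (p (x 1) (x 3)) (x 4)) (x 5) (x 0))),
  (-1, (.N (a (x 2) (x 5) (p (x 0) (x 4))) (x 1) (x 3) 0 4)),
  (1, (.PR (x 2) (.N (a (x 1) (x 4) (x 5)) (x 0) (x 3) 0 5))),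
  (-1, (.PL (.PL (.T (x 2) (x 1) (x 3) (x 5)) (x 0)) (x 4))),
  (-1, (.N (a (x 4) (x 5) (p (x 1) (x 3))) (x 0) (x 2) 0 4)),
  (-1, (.PR (x 1) (.PR (x 0) (.T (x 2) (x 4) (x 3) (x 5))))),
  (1, (.PR (x 0) (.T (x 1) (x 4) (p (x 5) (x 3)) (x 2)))),
  (-1, (.PR (x 1) (.PL (.T (x 0) (x 3) (x 4) (x 5)) (x 2)))),
  (1, (.PR (x 0) (.PL (.T (x 1) (x 5) (x 2) (x 4)) (x 3)))),
  (1, (.N (a (x 2) (x 3) (x 5)) (x 0) (p (x 4) (x 1)) 0 1)),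
  (1, (.PR (x 1) (.T (p (x 4) (x 5)) (x 0) (x 3) (x 2)))),
  (1, (.PR (x 0) (.T (x 1) (x 4) (p (x 3) (x 5)) (x 2)))),
  (1, (.T (p (x 2) (x 0)) (p (x 5) (x 3)) (x 4) (x 1))),
  (1, (.PL (.PR (x 1) (.T (x 3) (x 5) (x 2) (x 4))) (x 0))),
  (1, (.N (a (x 1) (x 2) (p (x 4) (x 3))) (x 0) (x 5) 0 0)),
  (1, (.PR (x 1) (.T (x 3) (p (x 0) (x 4)) (x 5) (x 2)))),
  (1, (.N (a (x 2) (x 3) (x 5)) (x 0) (p (x 4) (x 1)) 0 0)),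
  (-1, (.PL (.T (x 3) (x 2) (p (x 4) (x 5)) (x 1)) (x 0))),
  (1, (.PL (.N (a (x 2) (x 4) (x 5)) (x 0) (x 3) 0 5) (x 1))),
  (1, (.PL (.PL (.T (x 1) (x 4) (x 2) (x 5)) (x 0)) (x 3))),
  (-1, (.N (p (a (x 0) (x 3) (x 5)) (x 2)) (x 1) (x 4) 1 0)),
  (1, (.PR (x 2) (.N (a (x 0) (x 4) (x 5)) (x 1) (x 3) 0 2))),
  (1, (.N (p (a (x 0) (x 2) (x 3)) (x 5)) (x 1) (x 4) 0 3)),
  (-1, (.N (a (x 2) (x 5) (p (x 4) (x 3))) (x 0) (x 1) 0 5)),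
  (-1, (.T (x 0) (x 4) (p (x 5) (x 3)) (p (x 1) (x 2)))),
  (1, (.PP (a (x 1) (x 2) (x 5)) (a (x 0) (x 3) (x 4)) 0 4)),
  (-1, (.PR (x 0) (.T (x 3) (x 2) (x 5) (p (x 4) (x 1))))),
  (1, (.N (a (x 0) (x 3) (x 4)) (x 1) (p (x 5) (x 2)) 1 0)),
  (1, (.PL (.N (a (x 2) (x 3) (x 5)) (x 1) (x 4) 0 4) (x 0))),
  (-1, (.PL (.T (x 1) (x 2) (x 3) (x 5)) (p (x 4) (x 0)))),
  (1, (.PR (x 1) (.PL (.T (x 2) (x 5) (x 3) (x 4)) (x 0)))),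
  (1, (.PL (.T (x 0) (x 3) (x 5) (p (x 1) (x 4))) (x 2))),
  (1, (.PL (.N (a (x 1) (x 3) (x 4)) (x 0) (x 5) 0 3) (x 2))),
  (1, (.T (x 0) (x 4) (x 2) (p (p (x 5) (x 3)) (x 1)))),
  (1, (.PR (x 0) (.N (a (x 1) (x 4) (x 5)) (x 2) (x 3) 0 2))),
  (1, (.N (a (x 2) (x 3) (x 5)) (x 0) (p (x 1) (x 4)) 3 0)),
  (-1, (.PL (.PL (.T (x 1) (x 3) (x 5) (x 0)) (x 4)) (x 2))),
  (1, (.PR (x 1) (.T (x 3) (p (x 0) (x 4)) (x 2) (x 5)))),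
  (-1, (.T (p (x 5) (x 3)) (p (x 0) (x 4)) (x 2) (x 1))),
  (-1, (.T (p (x 1) (x 3)) (p (x 5) (x 2)) (x 4) (x 0))),
  (-1, (.PR (p (x 1) (x 4)) (.T (x 2) (x 3) (x 5) (x 0)))),
  (1, (.PR (x 1) (.PL (.T (x 0) (x 5) (x 4) (x 3)) (x 2)))),
  (1, (.PL (.N (a (x 1) (x 4) (x 5)) (x 0) (x 3) 1 0) (x 2))),
  (1, (.N (p (x 1) (a (x 3) (x 4) (x 5))) (x 0) (x 2) 2 0)),
  (-1, (.PL (.T (x 2) (p (x 3) (x 5)) (x 0) (x 4)) (x 1))),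
  (1, (.PL (.T (x 0) (x 5) (x 1) (x 4)) (p (x 3) (x 2)))),
  (-1, (.PL (.T (x 2) (p (x 5) (x 3)) (x 4) (x 0)) (x 1))),
  (1, (.N (a (x 0) (x 4) (x 5)) (x 1) (p (x 3) (x 2)) 2 0)),
  (1, (.PR (p (x 3) (x 4)) (.T (x 0) (x 1) (x 5) (x 2)))),
  (-1, (.PR (p (x 3) (x 2)) (.T (x 1) (x 4) (x 0) (x 5)))),
  (1, (.PR (x 1) (.T (x 5) (x 3) (p (x 0) (x 4)) (x 2)))),
  (-1, (.PR (x 1) (.T (x 4) (x 3) (p (x 5) (x 0)) (x 2)))),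
  (-1, (.PR (p (x 1) (x 4)) (.T (x 0) (x 3) (x 2) (x 5)))),
  (1, (.PR (x 1) (.N (a (x 0) (x 4) (x 5)) (x 2) (x 3) 2 0))),
  (1, (.T (p (p (x 3) (x 5)) (x 4)) (x 0) (x 2) (x 1))),
  (1, (.PR (x 1) (.N (a (x 0) (x 2) (x 5)) (x 3) (x 4) 0 0))),
  (-1, (.PL (.T (x 0) (x 5) (x 2) (p (x 3) (x 4))) (x 1))),
  (-1, (.N (a (x 0) (x 5) (p (x 2) (x 4))) (x 1) (x 3) 0 4)),
  (1, (.PR (x 0) (.PR (x 2) (.T (x 3) (x 4) (x 1) (x 5))))),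
  (1, (.N (p (x 2) (a (x 0) (x 4) (x 5))) (x 1) (x 3) 1 0)),
  (1, (.T (x 1) (p (p (x 2) (x 3)) (x 5)) (x 4) (x 0))),
  (1, (.PL (.T (x 1) (x 5) (p (x 0) (x 4)) (x 3)) (x 2))),
  (-1, (.PR (x 1) (.T (p (x 5) (x 2)) (x 3) (x 4) (x 0)))),
  (1, (.PR (x 0) (.PR (x 3) (.T (x 1) (x 4) (x 5) (x 2))))),
  (1, (.PR (x 0) (.T (x 1) (x 4) (x 2) (p (x 5) (x 3))))),
  (1, (.T (x 0) (x 4) (p (x 1) (x 5)) (p (x 3) (x 2)))),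
  (1, (.PR (x 1) (.PL (.T (x 0) (x 4) (x 2) (x 5)) (x 3)))),
  (-1, (.PR (x 0) (.N (a (x 2) (x 4) (x 5)) (x 1) (x 3) 0 5))),
  (1, (.PL (.N (a (x 1) (x 3) (x 4)) (x 2) (x 5) 0 4) (x 0))),
  (1, (.PL (.T (x 3) (x 4) (p (x 5) (x 0)) (x 1)) (x 2))),
  (-1, (.T (p (x 0) (x 5)) (p (x 1) (x 3)) (x 4) (x 2))),
  (1, (.T (p (x 4) (x 2)) (p (x 0) (x 5)) (x 3) (x 1))),
  (1, (.PL (.T (x 2) (p (x 3) (x 4)) (x 5) (x 0)) (x 1))),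
  (1, (.N (p (a (x 3) (x 4) (x 5)) (x 1)) (x 0) (x 2) 5 0)),
  (-1, (.PR (x 0) (.T (x 1) (x 5) (p (x 4) (x 2)) (x 3)))),
  (1, (.PL (.N (a (x 0) (x 3) (x 4)) (x 1) (x 5) 3 0) (x 2))),
  (1, (.PL (.PL (.T (x 2) (x 4) (x 5) (x 0)) (x 3)) (x 1))),
  (-1, (.T (x 1) (x 4) (p (x 2) (x 3)) (p (x 5) (x 0)))),
  (-1, (.PR (x 0) (.T (x 4) (x 3) (p (x 1) (x 5)) (x 2)))),
  (1, (.N (p (a (x 1) (x 3) (x 4)) (x 5)) (x 0) (x 2) 0 2)),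
  (1, (.T (p (x 4) (x 1)) (p (x 2) (x 3)) (x 5) (x 0))),
  (-1, (.PL (.T (x 3) (x 5) (p (x 1) (x 4)) (x 2)) (x 0))),
  (1, (.N (a (x 2) (x 4) (p (x 5) (x 3))) (x 0) (x 1) 0 4)),
  (-1, (.PR (x 2) (.PL (.T (x 3) (x 4) (x 1) (x 5)) (x 0)))),
  (1, (.N (a (x 3) (x 5) (p (x 1) (x 4))) (x 0) (x 2) 0 5)),
  (-1, (.T (x 2) (p (x 0) (x 5)) (p (x 3) (x 4)) (x 1))),
  (1, (.PR (x 2) (.T (x 0) (x 5) (x 3) (p (x 1) (x 4)))))]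

def c25 : List (Int × Rl) := [
  (1, (.T (x 2) (x 5) (p (p (x 0) (x 4)) (x 3)) (x 1))),
  (1, (.N (a (x 0) (x 4) (p (x 5) (x 2))) (x 1) (x 3) 0 5)),
  (1, (.N (a (x 2) (x 3) (x 4)) (p (x 5) (x 0)) (x 1) 2 0)),
  (-1, (.T (x 2) (x 4) (p (x 0) (x 3)) (p (x 1) (x 5)))),
  (1, (.N (a (x 0) (x 2) (x 3)) (x 1) (p (x 4) (x 5)) 1 0)),
  (-1, (.PR (x 1) (.N (a (x 2) (x 3) (x 4)) (x 0) (x 5) 0 0))),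
  (1, (.T (x 0) (x 2) (p (x 1) (x 4)) (p (x 3) (x 5)))),
  (1, (.N (a (x 1) (x 4) (p (x 3) (x 5))) (x 0) (x 2) 0 1)),
  (-1, (.PL (.N (a (x 1) (x 3) (x 5)) (x 0) (x 4) 0 0) (x 2))),
  (1, (.PR (x 1) (.PL (.T (x 2) (x 3) (x 5) (x 4)) (x 0)))),
  (-1, (.PR (x 0) (.T (x 2) (x 4) (p (x 5) (x 1)) (x 3)))),
  (-1, (.N (a (x 3) (x 5) (p (x 2) (x 4))) (x 0) (x 1) 0 5)),
  (-1, (.PR (x 1) (.PR (x 0) (.T (x 2) (x 4) (x 5) (x 3))))),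
  (-1, (.PL (.T (x 2) (p (x 4) (x 3)) (x 0) (x 5)) (x 1))),
  (1, (.PR (x 0) (.PR (x 2) (.T (x 3) (x 5) (x 1) (x 4))))),
  (-1, (.PL (.PR (x 3) (.T (x 1) (x 2) (x 4) (x 5))) (x 0))),
  (1, (.N (a (x 1) (x 3) (x 4)) (x 0) (p (x 2) (x 5)) 2 0)),
  (1, (.PR (p (x 1) (x 2)) (.T (x 0) (x 4) (x 5) (x 3)))),
  (1, (.PR (x 2) (.T (x 0) (x 4) (p (x 5) (x 1)) (x 3)))),
  (1, (.N (a (x 2) (x 3) (x 5)) (p (x 4) (x 0)) (x 1) 0 2)),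
  (-1, (.T (p (x 3) (x 5)) (x 1) (x 2) (p (x 0) (x 4)))),
  (-1, (.N (a (x 0) (x 4) (x 5)) (p (x 1) (x 3)) (x 2) 0 2)),
  (1, (.PR (x 0) (.N (a (x 2) (x 4) (x 5)) (x 1) (x 3) 0 1))),
  (1, (.N (p (a (x 3) (x 4) (x 5)) (x 0)) (x 1) (x 2) 4 0)),
  (1, (.PL (.T (x 2) (x 3) (x 1) (x 5)) (p (x 0) (x 4)))),
  (-1, (.T (x 0) (x 3) (p (p (x 2) (x 5)) (x 4)) (x 1))),
  (1, (.PL (.PL (.T (x 2) (x 4) (x 1) (x 5)) (x 0)) (x 3))),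
  (-1, (.PR (x 1) (.T (x 2) (p (x 4) (x 3)) (x 0) (x 5)))),
  (-1, (.PL (.T (x 0) (p (x 3) (x 5)) (x 1) (x 4)) (x 2))),
  (1, (.PR (x 1) (.T (x 2) (x 3) (p (x 4) (x 5)) (x 0)))),
  (1, (.T (x 0) (x 2) (x 1) (p (p (x 4) (x 5)) (x 3)))),
  (1, (.PR (x 0) (.N (a (x 1) (x 3) (x 4)) (x 2) (x 5) 4 0))),
  (-1, (.PR (x 2) (.PR (x 0) (.T (x 3) (x 4) (x 5) (x 1))))),
  (1, (.PL (.T (x 0) (x 3) (p (x 2) (x 5)) (x 4)) (x 1))),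
  (-1, (.T (x 2) (x 5) (p (p (x 3) (x 0)) (x 4)) (x 1))),
  (1, (.T (x 1) (x 2) (p (x 4) (x 0)) (p (x 3) (x 5)))),
  (-1, (.PP (a (x 2) (x 3) (x 4)) (a (x 0) (x 1) (x 5)) 0 0)),
  (-1, (.T (p (x 5) (x 0)) (p (x 1) (x 3)) (x 4) (x 2))),
  (1, (.PR (p (x 4) (x 3)) (.T (x 0) (x 2) (x 1) (x 5)))),
  (1, (.PR (x 0) (.T (x 3) (x 4) (p (x 5) (x 1)) (x 2)))),
  (-1, (.T (x 1) (p (p (x 5) (x 2)) (x 3)) (x 4) (x 0))),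
  (1, (.PR (x 0) (.PR (x 5) (.T (x 1) (x 3) (x 2) (x 4))))),
  (-1, (.N (p (a (x 1) (x 2) (x 3)) (x 4)) (x 0) (x 5) 0 0)),
  (1, (.N (a (x 1) (x 3) (x 4)) (p (x 5) (x 0)) (x 2) 5 0)),
  (1, (.PL (.T (x 1) (x 3) (x 5) (p (x 4) (x 2))) (x 0))),
  (-1, (.N (a (x 2) (x 3) (p (x 4) (x 5))) (x 0) (x 1) 0 1)),
  (1, (.PR (x 1) (.T (x 0) (x 5) (x 4) (p (x 2) (x 3))))),
  (1, (.PR (p (x 1) (x 5)) (.T (x 0) (x 3) (x 2) (x 4)))),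
  (1, (.PL (.N (a (x 2) (x 4) (x 5)) (x 0) (x 3) 2 0) (x 1))),
  (-1, (.N (a (x 2) (x 4) (x 5)) (x 0) (p (x 3) (x 1)) 0 5)),
  (1, (.PL (.T (x 3) (x 5) (p (x 4) (x 0)) (x 1)) (x 2))),
  (1, (.N (a (x 1) (x 2) (p (x 5) (x 3))) (x 0) (x 4) 0 1)),
  (1, (.N (a (x 0) (x 2) (x 3)) (x 1) (p (x 5) (x 4)) 4 0)),
  (1, (.PL (.PR (x 2) (.T (x 1) (x 3) (x 4) (x 5))) (x 0))),
  (1, (.PR (p (x 3) (x 0)) (.T (x 1) (x 2) (x 5) (x 4)))),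
  (1, (.PL (.PR (x 4) (.T (x 1) (x 5) (x 0) (x 3))) (x 2))),
  (-1, (.PL (.T (x 0) (x 2) (x 3) (x 5)) (p (x 1) (x 4)))),
  (-1, (.PR (p (x 5) (x 3)) (.T (x 0) (x 4) (x 2) (x 1)))),
  (1, (.N (a (x 0) (x 2) (p (x 5) (x 3))) (x 1) (x 4) 0 1)),
  (-1, (.N (p (a (x 1) (x 3) (x 5)) (x 4)) (x 0) (x 2) 0 1)),
  (-1, (.N (p (a (x 1) (x 2) (x 4)) (x 3)) (x 0) (x 5) 4 0)),
  (-1, (.PR (p (x 4) (x 1)) (.T (x 0) (x 5) (x 3) (x 2)))),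
  (1, (.PL (.T (x 2) (p (x 3) (x 5)) (x 4) (x 0)) (x 1))),
  (-1, (.N (a (x 1) (x 3) (x 5)) (x 0) (p (x 2) (x 4)) 5 0)),
  (-1, (.T (x 0) (x 3) (p (x 5) (x 2)) (p (x 4) (x 1)))),
  (-1, (.N (a (x 1) (x 4) (p (x 5) (x 3))) (x 0) (x 2) 0 5)),
  (-1, (.T (x 1) (p (p (x 2) (x 3)) (x 4)) (x 5) (x 0))),
  (-1, (.N (a (x 1) (x 2) (x 5)) (x 0) (p (x 4) (x 3)) 4 0)),
  (1, (.PR (x 2) (.N (a (x 0) (x 3) (x 4)) (x 1) (x 5) 5 0))),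
  (-1, (.PR (x 1) (.PR (x 2) (.T (x 0) (x 5) (x 3) (x 4))))),
  (-1, (.PL (.PL (.T (x 0) (x 4) (x 3) (x 5)) (x 1)) (x 2))),
  (-1, (.N (a (x 2) (x 5) (p (x 1) (x 3))) (x 0) (x 4) 0 4)),
  (1, (.PR (x 0) (.T (x 2) (x 3) (p (x 5) (x 4)) (x 1)))),
  (1, (.N (p (a (x 1) (x 4) (x 5)) (x 3)) (x 0) (x 2) 0 2)),
  (1, (.PL (.N (a (x 1) (x 3) (x 5)) (x 2) (x 4) 0 5) (x 0))),
  (1, (.N (a (x 2) (x 3) (p (x 1) (x 5))) (x 0) (x 4) 0 4)),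
  (1, (.T (p (x 2) (x 0)) (p (x 5) (x 4)) (x 3) (x 1))),
  (-1, (.PL (.T (x 0) (x 3) (x 4) (p (x 5) (x 2))) (x 1))),
  (1, (.T (x 0) (x 3) (p (x 5) (x 2)) (p (x 1) (x 4)))),
  (1, (.PL (.T (x 2) (x 1) (x 3) (x 4)) (p (x 0) (x 5)))),
  (1, (.T (x 0) (x 1) (x 2) (p (p (x 4) (x 5)) (x 3)))),
  (1, (.N (a (x 2) (x 3) (x 4)) (x 0) (p (x 5) (x 1)) 2 0)),
  (-1, (.PL (.T (x 3) (p (x 5) (x 2)) (x 1) (x 4)) (x 0))),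
  (-1, (.T (x 1) (x 5) (p (x 4) (x 0)) (p (x 2) (x 3)))),
  (-1, (.PR (x 2) (.T (p (x 4) (x 3)) (x 0) (x 5) (x 1)))),
  (-1, (.PL (.PR (x 3) (.T (x 2) (x 4) (x 1) (x 5))) (x 0))),
  (1, (.N (a (x 3) (x 4) (p (x 0) (x 5))) (x 1) (x 2) 0 2)),
  (1, (.PR (x 0) (.T (x 3) (x 2) (p (x 4) (x 5)) (x 1)))),
  (-1, (.N (p (a (x 1) (x 4) (x 5)) (x 3)) (x 0) (x 2) 0 0)),
  (1, (.T (x 1) (x 2) (p (x 5) (x 4)) (p (x 0) (x 3)))),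
  (1, (.PR (p (x 1) (x 4)) (.T (x 0) (x 5) (x 3) (x 2)))),
  (1, (.PL (.T (x 4) (x 3) (p (x 1) (x 5)) (x 2)) (x 0))),
  (1, (.PR (x 0) (.N (a (x 2) (x 3) (x 5)) (x 1) (x 4) 0 2))),
  (1, (.PL (.T (x 0) (x 1) (x 4) (x 5)) (p (x 3) (x 2)))),
  (-1, (.T (x 0) (x 3) (x 2) (p (p (x 5) (x 4)) (x 1)))),
  (-1, (.N (a (x 2) (x 3) (x 5)) (x 0) (p (x 1) (x 4)) 5 0)),
  (1, (.T (x 1) (p (x 3) (x 2)) (x 0) (p (x 4) (x 5)))),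
  (-1, (.N (a (x 0) (x 3) (x 5)) (x 1) (p (x 4) (x 2)) 1 0)),
  (1, (.T (x 0) (x 4) (p (x 3) (x 5)) (p (x 1) (x 2)))),
  (1, (.PL (.T (x 2) (x 5) (x 0) (x 4)) (p (x 3) (x 1))))]

def c26 : List (Int × Rl) := [
  (-1, (.N (a (x 1) (x 3) (p (x 5) (x 4))) (x 0) (x 2) 3 0)),
  (1, (.PR (x 0) (.T (x 2) (x 4) (p (x 5) (x 3)) (x 1)))),
  (1, (.PR (p (x 2) (x 1)) (.T (x 0) (x 3) (x 4) (x 5)))),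
  (-1, (.PR (p (x 0) (x 3)) (.T (x 1) (x 5) (x 2) (x 4)))),
  (-1, (.PL (.PR (x 1) (.T (x 3) (x 2) (x 4) (x 5))) (x 0))),
  (1, (.T (p (x 3) (x 2)) (p (x 4) (x 1)) (x 5) (x 0))),
  (1, (.PR (p (x 3) (x 4)) (.T (x 0) (x 1) (x 2) (x 5)))),
  (1, (.PL (.PL (.T (x 2) (x 4) (x 0) (x 3)) (x 1)) (x 5))),
  (1, (.T (x 0) (p (x 3) (x 5)) (x 1) (p (x 2) (x 4)))),
  (-1, (.N (p (a (x 3) (x 4) (x 5)) (x 0)) (x 1) (x 2) 0 5)),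
  (1, (.PL (.T (x 2) (x 1) (x 3) (p (x 4) (x 5))) (x 0))),
  (-1, (.T (x 1) (x 5) (p (p (x 3) (x 2)) (x 4)) (x 0))),
  (-1, (.T (x 1) (x 2) (p (x 3) (x 4)) (p (x 0) (x 5)))),
  (-1, (.N (a (x 3) (x 5) (p (x 2) (x 4))) (x 0) (x 1) 0 1)),
  (1, (.T (x 2) (p (p (x 1) (x 4)) (x 3)) (x 5) (x 0))),
  (-1, (.PR (x 1) (.T (x 2) (x 0) (x 3) (p (x 5) (x 4))))),
  (1, (.PR (x 1) (.T (x 3) (p (x 2) (x 5)) (x 4) (x 0)))),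
  (-1, (.PL (.T (x 2) (x 5) (x 3) (p (x 4) (x 0))) (x 1))),
  (-1, (.N (a (x 0) (x 2) (x 3)) (x 1) (p (x 4) (x 5)) 0 4)),
  (1, (.PR (p (x 5) (x 2)) (.T (x 1) (x 3) (x 4) (x 0)))),
  (-1, (.N (p (a (x 3) (x 4) (x 5)) (x 1)) (x 0) (x 2) 0 4)),
  (1, (.PL (.PR (x 1) (.T (x 3) (x 0) (x 4) (x 5))) (x 2))),
  (1, (.PL (.T (x 3) (x 5) (p (x 0) (x 4)) (x 2)) (x 1))),
  (1, (.T (x 0) (x 2) (p (x 4) (x 5)) (p (x 3) (x 1)))),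
  (1, (.N (a (x 2) (x 3) (x 4)) (x 0) (p (x 1) (x 5)) 2 0)),
  (-1, (.PL (.N (a (x 2) (x 3) (x 5)) (x 0) (x 4) 0 5) (x 1))),
  (-1, (.N (a (x 2) (x 3) (x 4)) (x 0) (p (x 1) (x 5)) 4 0)),
  (-1, (.PL (.N (a (x 0) (x 4) (x 5)) (x 2) (x 3) 0 0) (x 1))),
  (-1, (.T (p (x 2) (x 5)) (x 1) (p (x 4) (x 3)) (x 0))),
  (1, (.PL (.N (a (x 3) (x 4) (x 5)) (x 0) (x 2) 0 4) (x 1))),
  (1, (.PR (x 0) (.PL (.T (x 2) (x 4) (x 3) (x 5)) (x 1)))),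
  (-1, (.PL (.N (a (x 0) (x 3) (x 5)) (x 2) (x 4) 0 4) (x 1))),
  (1, (.PL (.PL (.T (x 1) (x 4) (x 0) (x 5)) (x 3)) (x 2))),
  (1, (.PR (x 2) (.PR (x 1) (.T (x 0) (x 5) (x 4) (x 3))))),
  (-1, (.N (a (x 3) (x 4) (x 5)) (p (x 0) (x 2)) (x 1) 0 0)),
  (1, (.T (p (x 3) (x 2)) (p (x 5) (x 1)) (x 4) (x 0))),
  (1, (.N (p (x 1) (a (x 2) (x 3) (x 4))) (x 0) (x 5) 1 0)),
  (1, (.PL (.PR (x 3) (.T (x 4) (x 2) (x 5) (x 1))) (x 0))),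
  (1, (.T (x 0) (x 5) (p (p (x 3) (x 2)) (x 4)) (x 1))),
  (1, (.T (x 0) (x 4) (p (x 1) (x 3)) (p (x 2) (x 5)))),
  (-1, (.N (a (x 0) (x 3) (x 5)) (p (x 1) (x 4)) (x 2) 0 1)),
  (1, (.PL (.N (a (x 0) (x 4) (x 5)) (x 1) (x 3) 0 1) (x 2))),
  (1, (.T (p (x 2) (x 1)) (p (x 5) (x 3)) (x 4) (x 0))),
  (1, (.PL (.PL (.T (x 1) (x 2) (x 3) (x 5)) (x 4)) (x 0))),
  (-1, (.N (a (x 3) (x 5) (p (x 2) (x 1))) (x 0) (x 4) 0 2)),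
  (1, (.PR (x 1) (.T (x 2) (x 4) (x 5) (p (x 3) (x 0))))),
  (1, (.PL (.T (x 0) (x 2) (x 4) (p (x 5) (x 3))) (x 1))),
  (-1, (.N (p (a (x 0) (x 4) (x 5)) (x 3)) (x 1) (x 2) 5 0)),
  (1, (.T (p (x 5) (x 3)) (x 0) (x 1) (p (x 2) (x 4)))),
  (-1, (.T (x 0) (x 2) (p (x 4) (x 1)) (p (x 3) (x 5)))),
  (-1, (.T (x 2) (p (p (x 5) (x 0)) (x 3)) (x 4) (x 1))),
  (1, (.PL (.T (x 2) (x 5) (x 0) (x 4)) (p (x 1) (x 3)))),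
  (-1, (.PR (x 1) (.PR (x 4) (.T (x 0) (x 3) (x 5) (x 2))))),
  (-1, (.PL (.T (x 2) (x 5) (x 0) (x 3)) (p (x 1) (x 4)))),
  (-1, (.PL (.N (a (x 0) (x 4) (x 5)) (x 1) (x 3) 0 2) (x 2))),
  (1, (.PL (.T (x 0) (x 5) (p (x 4) (x 3)) (x 2)) (x 1))),
  (1, (.PL (.T (x 2) (x 1) (x 3) (p (x 5) (x 4))) (x 0))),
  (-1, (.N (a (x 1) (x 2) (x 5)) (x 0) (p (x 4) (x 3)) 0 4)),
  (1, (.T (p (x 0) (x 4)) (p (x 2) (x 3)) (x 5) (x 1))),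
  (1, (.PR (p (x 3) (x 2)) (.T (x 0) (x 5) (x 4) (x 1)))),
  (1, (.PR (x 0) (.N (a (x 2) (x 3) (x 5)) (x 1) (x 4) 0 5))),
  (1, (.N (p (a (x 0) (x 3) (x 4)) (x 5)) (x 1) (x 2) 0 3)),
  (1, (.T (p (x 1) (x 3)) (p (x 2) (x 4)) (x 5) (x 0))),
  (1, (.T (x 0) (x 1) (p (x 3) (x 5)) (p (x 4) (x 2)))),
  (-1, (.N (a (x 1) (x 3) (p (x 2) (x 4))) (x 0) (x 5) 0 5)),
  (-1, (.PL (.N (a (x 2) (x 4) (x 5)) (x 0) (x 3) 0 0) (x 1))),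
  (-1, (.N (a (x 0) (x 5) (p (x 4) (x 3))) (x 1) (x 2) 0 5)),
  (1, (.T (x 1) (x 5) (p (x 3) (x 4)) (p (x 0) (x 2)))),
  (1, (.PP (a (x 3) (x 4) (x 5)) (a (x 0) (x 1) (x 2)) 0 4)),
  (1, (.PP (a (x 2) (x 4) (x 5)) (a (x 0) (x 1) (x 3)) 0 1)),
  (-1, (.T (x 1) (p (p (x 3) (x 2)) (x 4)) (x 5) (x 0))),
  (-1, (.T (x 0) (x 2) (p (x 5) (x 1)) (p (x 3) (x 4)))),
  (-1, (.PL (.PL (.T (x 1) (x 4) (x 0) (x 3)) (x 5)) (x 2))),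
  (-1, (.T (p (x 0) (x 2)) (p (x 5) (x 3)) (x 4) (x 1))),
  (-1, (.PL (.T (p (x 1) (x 5)) (x 2) (x 4) (x 3)) (x 0))),
  (-1, (.PL (.T (x 3) (x 0) (x 4) (p (x 5) (x 2))) (x 1))),
  (1, (.PL (.T (x 3) (p (x 1) (x 4)) (x 5) (x 2)) (x 0))),
  (1, (.PP (a (x 1) (x 3) (x 5)) (a (x 0) (x 2) (x 4)) 4 0)),
  (-1, (.N (a (x 2) (x 3) (p (x 4) (x 1))) (x 0) (x 5) 0 5)),
  (-1, (.N (a (x 0) (x 4) (p (x 3) (x 5))) (x 1) (x 2) 0 1)),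
  (-1, (.PR (p (x 2) (x 3)) (.T (x 1) (x 4) (x 5) (x 0)))),
  (1, (.T (p (p (x 0) (x 5)) (x 3)) (x 1) (x 4) (x 2))),
  (-1, (.PL (.PR (x 3) (.T (x 4) (x 2) (x 5) (x 0))) (x 1))),
  (-1, (.T (x 0) (x 1) (p (x 2) (x 4)) (p (x 3) (x 5)))),
  (1, (.N (p (a (x 0) (x 3) (x 5)) (x 2)) (x 1) (x 4) 4 0)),
  (1, (.N (a (x 1) (x 3) (x 5)) (p (x 0) (x 4)) (x 2) 3 0)),
  (-1, (.T (x 0) (x 5) (p (p (x 3) (x 4)) (x 1)) (x 2))),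
  (1, (.PR (x 2) (.PR (x 1) (.T (x 3) (x 4) (x 5) (x 0))))),
  (-1, (.T (x 1) (x 3) (p (p (x 4) (x 5)) (x 2)) (x 0))),
  (-1, (.PR (x 2) (.N (a (x 0) (x 4) (x 5)) (x 1) (x 3) 5 0))),
  (-1, (.N (a (x 0) (x 2) (x 4)) (x 1) (p (x 3) (x 5)) 0 5)),
  (-1, (.N (p (a (x 1) (x 3) (x 4)) (x 5)) (x 0) (x 2) 0 3)),
  (-1, (.PR (x 0) (.N (a (x 1) (x 3) (x 5)) (x 2) (x 4) 4 0))),
  (-1, (.T (x 1) (x 4) (p (p (x 5) (x 2)) (x 3)) (x 0))),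
  (-1, (.N (p (a (x 1) (x 3) (x 5)) (x 2)) (x 0) (x 4) 4 0)),
  (1, (.PR (x 0) (.PL (.T (x 2) (x 5) (x 1) (x 4)) (x 3)))),
  (1, (.T (x 0) (x 2) (p (x 1) (x 3)) (p (x 4) (x 5)))),
  (-1, (.PR (x 1) (.N (a (x 3) (x 4) (x 5)) (x 0) (x 2) 3 0))),
  (1, (.N (a (x 1) (x 2) (p (x 5) (x 3))) (x 0) (x 4) 0 0)),
  (1, (.PL (.N (a (x 0) (x 1) (x 5)) (x 3) (x 4) 0 0) (x 2)))]

def c27 : List (Int × Rl) := [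
  (1, (.PR (x 1) (.PR (x 0) (.T (x 3) (x 4) (x 2) (x 5))))),
  (-1, (.N (a (x 1) (x 5) (p (x 2) (x 3))) (x 0) (x 4) 0 2)),
  (1, (.PL (.T (x 3) (p (x 1) (x 5)) (x 2) (x 4)) (x 0))),
  (-1, (.PL (.T (x 1) (x 2) (p (x 3) (x 5)) (x 4)) (x 0))),
  (1, (.N (a (x 3) (x 4) (x 5)) (x 0) (p (x 1) (x 2)) 5 0)),
  (-1, (.N (a (x 0) (x 2) (x 4)) (x 1) (p (x 3) (x 5)) 0 1)),
  (-1, (.PL (.T (x 0) (x 5) (x 3) (p (x 4) (x 2))) (x 1))),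
  (-1, (.N (a (x 1) (x 2) (p (x 4) (x 5))) (x 0) (x 3) 1 0)),
  (-1, (.PP (a (x 0) (x 2) (x 3)) (a (x 1) (x 4) (x 5)) 4 0)),
  (-1, (.T (p (x 4) (x 5)) (p (x 1) (x 2)) (x 3) (x 0))),
  (1, (.N (a (x 3) (x 4) (p (x 0) (x 5))) (x 1) (x 2) 0 4)),
  (-1, (.N (a (x 2) (x 4) (x 5)) (x 0) (p (x 3) (x 1)) 3 0)),
  (1, (.PL (.PL (.T (x 0) (x 3) (x 2) (x 4)) (x 1)) (x 5))),
  (-1, (.PL (.T (x 1) (x 2) (x 5) (x 0)) (p (x 4) (x 3)))),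
  (1, (.PL (.PR (x 3) (.T (x 1) (x 5) (x 0) (x 4))) (x 2))),
  (1, (.PP (a (x 0) (x 2) (x 4)) (a (x 1) (x 3) (x 5)) 0 0)),
  (-1, (.PL (.T (x 1) (x 3) (x 2) (x 4)) (p (x 0) (x 5)))),
  (-1, (.T (p (x 5) (x 1)) (p (x 3) (x 2)) (x 4) (x 0))),
  (-1, (.PL (.T (x 1) (x 2) (x 3) (x 4)) (p (x 5) (x 0)))),
  (-1, (.PP (a (x 0) (x 4) (x 5)) (a (x 1) (x 2) (x 3)) 4 0)),
  (-1, (.PL (.PL (.T (x 0) (x 4) (x 2) (x 3)) (x 1)) (x 5))),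
  (1, (.PL (.T (x 2) (p (x 3) (x 5)) (x 1) (x 4)) (x 0))),
  (-1, (.T (x 1) (x 5) (p (p (x 4) (x 3)) (x 0)) (x 2))),
  (-1, (.T (p (x 4) (x 2)) (p (x 3) (x 1)) (x 5) (x 0))),
  (1, (.PR (p (x 1) (x 2)) (.T (x 3) (x 5) (x 0) (x 4)))),
  (-1, (.PL (.T (x 3) (x 5) (p (x 4) (x 1)) (x 2)) (x 0))),
  (1, (.N (a (x 0) (x 2) (x 4)) (x 1) (p (x 3) (x 5)) 2 0)),
  (1, (.PL (.PR (x 0) (.T (x 1) (x 4) (x 3) (x 5))) (x 2))),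
  (1, (.T (p (x 4) (x 3)) (p (x 5) (x 2)) (x 1) (x 0))),
  (-1, (.T (x 1) (x 5) (x 2) (p (p (x 0) (x 4)) (x 3)))),
  (-1, (.T (p (x 3) (x 2)) (p (x 4) (x 5)) (x 1) (x 0))),
  (-1, (.PL (.T (x 2) (x 4) (x 1) (x 5)) (p (x 0) (x 3)))),
  (1, (.T (p (x 1) (x 4)) (p (x 5) (x 2)) (x 3) (x 0))),
  (1, (.T (x 1) (p (p (x 3) (x 2)) (x 5)) (x 4) (x 0))),
  (1, (.PL (.PR (x 3) (.T (x 1) (x 4) (x 0) (x 5))) (x 2))),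
  (-1, (.PR (x 2) (.PL (.T (x 0) (x 5) (x 1) (x 4)) (x 3)))),
  (-1, (.T (p (x 3) (x 4)) (p (x 5) (x 1)) (x 2) (x 0))),
  (-1, (.PL (.PR (x 3) (.T (x 2) (x 4) (x 0) (x 5))) (x 1)))]

def f0 : FS := [
  (-1, (p (x 1) (a (x 0) (x 3) (p (x 2) (p (x 4) (x 5)))))),
  (-1, (a (x 1) (p (x 2) (x 5)) (p (p (x 4) (x 0)) (x 3)))),
  (1, (a (x 0) (x 1) (p (p (p (x 3) (x 2)) (x 4)) (x 5)))),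
  (1, (p (a (x 2) (x 3) (p (p (x 5) (x 4)) (x 0))) (x 1))),
  (1, (p (p (x 0) (a (x 1) (x 2) (x 5))) (p (x 3) (x 4)))),
  (1, (p (x 2) (p (x 0) (a (x 3) (x 5) (p (x 1) (x 4)))))),
  (1, (p (x 0) (a (x 1) (x 2) (p (x 5) (p (x 4) (x 3)))))),
  (-1, (p (p (p (x 3) (a (x 1) (x 4) (x 5))) (x 0)) (x 2))),
  (-1, (a (x 1) (p (x 5) (x 0)) (p (p (x 4) (x 2)) (x 3)))),
  (-1, (a (p (x 0) (x 3)) (p (x 4) (x 2)) (p (x 5) (x 1)))),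
  (1, (p (p (p (a (x 0) (x 3) (x 4)) (x 1)) (x 5)) (x 2))),
  (1, (p (p (x 4) (a (x 1) (x 3) (p (x 0) (x 5)))) (x 2))),
  (1, (p (p (x 0) (p (a (x 1) (x 3) (x 4)) (x 5))) (x 2))),
  (1, (p (x 1) (p (x 4) (p (a (x 0) (x 2) (x 5)) (x 3))))),
  (-1, (a (x 2) (p (x 1) (x 5)) (p (p (x 3) (x 0)) (x 4)))),
  (1, (p (x 1) (a (x 5) (p (x 0) (x 3)) (p (x 4) (x 2))))),
  (-1, (p (x 2) (a (x 1) (x 3) (p (p (x 4) (x 5)) (x 0))))),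
  (1, (p (p (x 3) (p (x 1) (a (x 2) (x 4) (x 5)))) (x 0))),
  (1, (p (a (x 2) (x 3) (p (x 0) (x 4))) (p (x 1) (x 5)))),
  (1, (p (p (a (x 2) (x 3) (x 4)) (x 0)) (p (x 5) (x 1)))),
  (-1, (a (x 0) (x 3) (p (p (x 2) (p (x 4) (x 5))) (x 1)))),
  (-1, (p (x 1) (p (x 3) (p (a (x 0) (x 4) (x 5)) (x 2))))),
  (-1, (a (x 2) (p (x 1) (x 5)) (p (p (x 4) (x 3)) (x 0)))),
  (1, (p (p (x 3) (x 2)) (p (a (x 0) (x 1) (x 4)) (x 5)))),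
  (1, (p (p (a (x 1) (x 2) (x 3)) (x 5)) (p (x 4) (x 0)))),
  (-1, (a (x 1) (x 4) (p (p (p (x 5) (x 0)) (x 3)) (x 2)))),
  (1, (p (p (x 0) (x 4)) (a (x 1) (x 3) (p (x 2) (x 5))))),
  (1, (p (x 0) (p (x 1) (a (x 3) (x 4) (p (x 2) (x 5)))))),
  (1, (a (x 0) (p (x 4) (x 3)) (p (p (x 1) (x 2)) (x 5)))),
  (1, (p (p (x 2) (a (x 0) (x 4) (p (x 3) (x 5)))) (x 1))),
  (1, (p (x 1) (a (x 0) (p (x 2) (x 4)) (p (x 3) (x 5))))),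
  (1, (p (p (p (x 1) (a (x 2) (x 4) (x 5))) (x 3)) (x 0))),
  (1, (a (x 0) (x 1) (p (p (x 3) (x 4)) (p (x 2) (x 5))))),
  (1, (p (a (x 2) (x 5) (p (p (x 4) (x 0)) (x 3))) (x 1))),
  (1, (p (p (a (x 3) (x 4) (p (x 2) (x 5))) (x 0)) (x 1))),
  (-1, (p (x 0) (p (x 5) (a (x 1) (x 2) (p (x 4) (x 3)))))),
  (-1, (p (p (x 4) (x 0)) (a (x 1) (x 2) (p (x 3) (x 5))))),
  (1, (p (a (x 2) (x 3) (p (x 5) (x 4))) (p (x 0) (x 1)))),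
  (1, (p (a (x 0) (x 2) (p (x 5) (x 3))) (p (x 1) (x 4)))),
  (1, (p (a (x 2) (p (x 1) (x 4)) (p (x 5) (x 3))) (x 0))),
  (1, (p (p (x 5) (x 4)) (p (x 0) (a (x 1) (x 2) (x 3))))),
  (1, (p (x 0) (a (x 2) (p (x 1) (x 5)) (p (x 4) (x 3))))),
  (1, (p (a (x 0) (p (x 1) (x 4)) (p (x 3) (x 5))) (x 2))),
  (1, (p (p (p (x 4) (x 5)) (a (x 1) (x 2) (x 3))) (x 0))),
  (1, (a (x 0) (x 1) (p (x 4) (p (p (x 3) (x 5)) (x 2))))),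
  (-1, (p (p (a (x 1) (x 2) (x 4)) (p (x 5) (x 3))) (x 0))),
  (1, (p (a (x 4) (p (x 0) (x 3)) (p (x 5) (x 2))) (x 1))),
  (-1, (p (x 2) (p (p (x 1) (a (x 3) (x 4) (x 5))) (x 0)))),
  (-1, (a (x 1) (x 2) (p (p (x 0) (p (x 4) (x 5))) (x 3)))),
  (-1, (p (p (a (x 1) (x 5) (p (x 0) (x 4))) (x 3)) (x 2))),
  (1, (a (x 1) (x 2) (p (p (x 0) (x 5)) (p (x 4) (x 3))))),
  (-1, (p (a (x 3) (p (x 1) (x 2)) (p (x 4) (x 5))) (x 0))),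
  (-1, (p (a (x 1) (p (x 2) (x 3)) (p (x 4) (x 5))) (x 0))),
  (-1, (p (x 0) (a (x 5) (p (x 3) (x 1)) (p (x 4) (x 2))))),
  (-1, (a (p (x 1) (x 4)) (p (x 2) (x 3)) (p (x 5) (x 0)))),
  (1, (p (a (x 0) (x 3) (x 4)) (p (x 1) (p (x 2) (x 5))))),
  (1, (p (a (x 3) (x 4) (p (x 2) (x 1))) (p (x 0) (x 5)))),
  (1, (a (x 1) (x 2) (p (p (x 4) (x 5)) (p (x 0) (x 3))))),
  (1, (p (p (x 2) (x 3)) (p (x 1) (a (x 0) (x 4) (x 5))))),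
  (-1, (p (p (a (x 0) (x 3) (x 5)) (p (x 1) (x 4))) (x 2))),
  (-1, (a (x 0) (p (x 5) (x 4)) (p (x 1) (p (x 3) (x 2))))),
  (-1, (p (a (x 5) (p (x 3) (x 2)) (p (x 4) (x 0))) (x 1))),
  (1, (a (x 2) (p (x 4) (x 0)) (p (p (x 1) (x 3)) (x 5)))),
  (1, (p (x 2) (p (x 0) (p (a (x 1) (x 4) (x 5)) (x 3))))),
  (-1, (p (a (x 0) (x 4) (p (x 2) (p (x 3) (x 5)))) (x 1))),
  (-1, (p (a (x 2) (x 3) (p (x 5) (p (x 4) (x 0)))) (x 1))),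
  (-1, (p (a (x 1) (x 2) (p (x 3) (x 5))) (p (x 0) (x 4)))),
  (1, (a (x 1) (p (x 2) (x 5)) (p (p (x 4) (x 3)) (x 0)))),
  (-1, (p (p (x 0) (a (x 3) (x 4) (p (x 1) (x 5)))) (x 2))),
  (1, (p (a (x 1) (x 5) (p (p (x 4) (x 2)) (x 3))) (x 0))),
  (1, (p (x 1) (a (x 2) (p (x 3) (x 0)) (p (x 5) (x 4))))),
  (1, (p (p (x 5) (x 1)) (p (x 0) (a (x 2) (x 3) (x 4))))),
  (1, (p (a (x 0) (x 4) (p (x 2) (p (x 5) (x 3)))) (x 1))),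
  (-1, (a (x 0) (p (x 3) (x 4)) (p (x 1) (p (x 2) (x 5))))),
  (-1, (p (x 1) (a (x 3) (x 4) (p (p (x 0) (x 2)) (x 5))))),
  (1, (p (p (x 1) (p (a (x 0) (x 4) (x 5)) (x 3))) (x 2))),
  (1, (p (p (x 1) (a (x 0) (x 3) (x 5))) (p (x 4) (x 2)))),
  (1, (p (a (x 2) (x 4) (p (x 3) (p (x 5) (x 1)))) (x 0))),
  (1, (p (x 1) (a (x 2) (x 3) (p (x 0) (p (x 4) (x 5)))))),
  (-1, (a (x 1) (p (x 2) (x 0)) (p (p (x 5) (x 3)) (x 4)))),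
  (1, (p (x 2) (p (x 3) (p (a (x 0) (x 4) (x 5)) (x 1))))),
  (-1, (p (p (x 2) (x 4)) (a (x 1) (x 3) (p (x 5) (x 0))))),
  (-1, (p (p (a (x 1) (x 3) (x 5)) (p (x 4) (x 2))) (x 0))),
  (1, (a (x 1) (x 5) (p (p (x 2) (x 0)) (p (x 3) (x 4))))),
  (-1, (p (p (a (x 1) (x 5) (p (x 4) (x 3))) (x 0)) (x 2))),
  (1, (p (a (x 0) (x 4) (p (x 5) (x 1))) (p (x 3) (x 2)))),
  (1, (p (p (a (x 2) (x 3) (x 4)) (p (x 5) (x 1))) (x 0))),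
  (-1, (a (x 1) (p (x 2) (x 5)) (p (p (x 3) (x 0)) (x 4)))),
  (1, (p (x 0) (a (x 3) (x 4) (p (p (x 1) (x 2)) (x 5))))),
  (-1, (p (a (x 0) (x 2) (p (x 1) (x 3))) (p (x 5) (x 4)))),
  (-1, (p (a (x 0) (x 5) (p (p (x 3) (x 2)) (x 4))) (x 1))),
  (-1, (a (p (x 1) (x 2)) (p (x 3) (x 5)) (p (x 4) (x 0)))),
  (1, (a (x 1) (x 2) (p (p (p (x 5) (x 3)) (x 4)) (x 0)))),
  (1, (p (x 0) (p (a (x 3) (x 5) (p (x 2) (x 4))) (x 1)))),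
  (1, (p (p (p (a (x 2) (x 3) (x 5)) (x 0)) (x 4)) (x 1))),
  (-1, (p (a (x 2) (x 5) (p (x 0) (p (x 3) (x 4)))) (x 1))),
  (-1, (p (x 1) (a (x 0) (x 3) (p (p (x 2) (x 5)) (x 4))))),
  (-1, (p (a (x 0) (x 3) (p (p (x 5) (x 1)) (x 4))) (x 2))),
  (-1, (p (x 1) (p (a (x 2) (x 3) (x 4)) (p (x 5) (x 0))))),
  (1, (p (p (a (x 0) (x 3) (x 4)) (x 1)) (p (x 5) (x 2))))]

def f1 : FS := [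
  (1, (p (p (x 5) (x 4)) (a (x 0) (x 3) (p (x 2) (x 1))))),
  (1, (p (p (x 0) (x 3)) (a (x 1) (x 2) (p (x 5) (x 4))))),
  (1, (p (p (x 0) (a (x 2) (x 4) (p (x 3) (x 5)))) (x 1))),
  (-1, (p (x 2) (p (a (x 3) (x 4) (p (x 5) (x 0))) (x 1)))),
  (1, (a (x 2) (p (x 3) (x 0)) (p (p (x 4) (x 5)) (x 1)))),
  (-1, (a (x 0) (p (x 3) (x 2)) (p (p (x 1) (x 4)) (x 5)))),
  (1, (p (a (x 2) (x 5) (p (p (x 1) (x 4)) (x 3))) (x 0))),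
  (-1, (p (p (x 2) (a (x 3) (x 4) (p (x 5) (x 0)))) (x 1))),
  (1, (p (p (p (a (x 0) (x 2) (x 5)) (x 3)) (x 1)) (x 4))),
  (1, (a (p (x 0) (x 2)) (p (x 1) (x 3)) (p (x 4) (x 5)))),
  (1, (p (x 1) (p (a (x 3) (x 5) (p (x 0) (x 4))) (x 2)))),
  (-1, (a (x 1) (p (x 5) (x 3)) (p (p (x 2) (x 4)) (x 0)))),
  (1, (p (p (a (x 0) (x 3) (p (x 4) (x 5))) (x 1)) (x 2))),
  (-1, (p (x 2) (a (x 1) (p (x 0) (x 4)) (p (x 5) (x 3))))),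
  (-1, (p (p (p (x 2) (a (x 1) (x 3) (x 4))) (x 5)) (x 0))),
  (1, (p (p (x 2) (a (x 0) (x 3) (p (x 4) (x 5)))) (x 1))),
  (1, (a (x 0) (p (x 3) (x 2)) (p (x 1) (p (x 4) (x 5))))),
  (1, (p (x 0) (a (x 2) (x 5) (p (x 1) (p (x 3) (x 4)))))),
  (1, (p (x 0) (p (x 2) (a (x 3) (x 5) (p (x 1) (x 4)))))),
  (-1, (p (x 0) (p (x 3) (p (x 2) (a (x 1) (x 4) (x 5)))))),
  (1, (a (p (x 1) (x 4)) (p (x 2) (x 5)) (p (x 3) (x 0)))),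
  (-1, (a (x 1) (x 5) (p (x 2) (p (x 0) (p (x 3) (x 4)))))),
  (-1, (p (p (p (x 1) (a (x 2) (x 3) (x 5))) (x 0)) (x 4))),
  (1, (p (a (x 1) (p (x 2) (x 5)) (p (x 3) (x 4))) (x 0))),
  (-1, (p (a (x 3) (p (x 1) (x 4)) (p (x 2) (x 5))) (x 0))),
  (1, (p (a (x 1) (x 3) (x 4)) (p (x 0) (p (x 5) (x 2))))),
  (1, (p (x 1) (a (x 0) (x 3) (p (p (x 4) (x 5)) (x 2))))),
  (-1, (a (x 0) (p (x 4) (x 3)) (p (x 1) (p (x 2) (x 5))))),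
  (1, (p (x 1) (p (a (x 0) (x 3) (p (x 2) (x 5))) (x 4)))),
  (-1, (a (x 1) (x 2) (p (p (p (x 4) (x 5)) (x 3)) (x 0)))),
  (-1, (a (x 0) (x 2) (p (p (p (x 3) (x 5)) (x 4)) (x 1)))),
  (-1, (p (x 1) (a (x 2) (x 3) (p (p (x 5) (x 4)) (x 0))))),
  (-1, (p (a (x 1) (x 2) (p (x 4) (x 3))) (p (x 0) (x 5)))),
  (1, (p (p (x 0) (a (x 1) (x 4) (x 5))) (p (x 2) (x 3)))),
  (2, (p (x 1) (p (x 0) (a (x 2) (x 5) (p (x 3) (x 4)))))),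
  (-1, (p (a (x 2) (x 4) (p (x 1) (p (x 3) (x 5)))) (x 0))),
  (-1, (p (a (x 4) (p (x 0) (x 5)) (p (x 2) (x 3))) (x 1))),
  (1, (a (p (x 0) (x 3)) (p (x 1) (x 4)) (p (x 2) (x 5)))),
  (-1, (p (p (p (x 3) (x 4)) (a (x 1) (x 2) (x 5))) (x 0))),
  (-1, (p (p (x 0) (x 3)) (a (x 1) (x 4) (p (x 5) (x 2))))),
  (1, (a (x 0) (p (x 1) (x 2)) (p (p (x 3) (x 5)) (x 4)))),
  (-1, (a (x 1) (x 2) (p (p (p (x 0) (x 3)) (x 5)) (x 4)))),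
  (-1, (p (a (x 1) (x 5) (p (x 3) (p (x 2) (x 4)))) (x 0))),
  (-1, (p (x 0) (p (a (x 1) (x 4) (p (x 3) (x 5))) (x 2)))),
  (1, (a (x 1) (x 2) (p (p (p (x 0) (x 4)) (x 5)) (x 3)))),
  (1, (a (x 1) (p (x 0) (x 2)) (p (x 3) (p (x 4) (x 5))))),
  (1, (p (p (p (x 1) (a (x 2) (x 4) (x 5))) (x 0)) (x 3))),
  (-1, (a (x 1) (x 5) (p (p (p (x 0) (x 3)) (x 4)) (x 2)))),
  (1, (p (p (a (x 2) (x 4) (p (x 5) (x 0))) (x 1)) (x 3))),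
  (1, (p (p (x 3) (p (a (x 2) (x 4) (x 5)) (x 1))) (x 0))),
  (-1, (a (x 0) (p (x 1) (x 4)) (p (p (x 2) (x 3)) (x 5)))),
  (1, (p (a (x 0) (x 3) (p (p (x 5) (x 2)) (x 4))) (x 1))),
  (-1, (p (a (x 1) (x 4) (p (x 2) (x 5))) (p (x 0) (x 3)))),
  (-1, (p (x 0) (a (x 2) (p (x 1) (x 4)) (p (x 3) (x 5))))),
  (1, (p (p (x 4) (x 0)) (p (x 1) (a (x 2) (x 3) (x 5))))),
  (-1, (p (p (x 0) (x 2)) (p (a (x 1) (x 3) (x 4)) (x 5)))),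
  (-1, (p (p (a (x 0) (x 2) (p (x 5) (x 3))) (x 4)) (x 1))),
  (-1, (p (a (x 1) (x 5) (p (p (x 2) (x 4)) (x 3))) (x 0))),
  (1, (p (x 1) (p (x 5) (a (x 0) (x 4) (p (x 2) (x 3)))))),
  (-1, (a (x 0) (p (x 2) (x 1)) (p (p (x 5) (x 3)) (x 4)))),
  (1, (p (x 2) (p (x 1) (p (a (x 0) (x 3) (x 5)) (x 4))))),
  (1, (p (x 1) (p (a (x 3) (x 4) (p (x 2) (x 5))) (x 0)))),
  (-1, (a (x 0) (x 1) (p (x 2) (p (p (x 3) (x 5)) (x 4))))),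
  (2, (p (x 2) (a (x 0) (p (x 1) (x 4)) (p (x 3) (x 5))))),
  (-1, (p (x 1) (p (x 3) (p (a (x 0) (x 2) (x 4)) (x 5))))),
  (-1, (a (p (x 1) (x 3)) (p (x 4) (x 2)) (p (x 5) (x 0)))),
  (1, (a (x 0) (x 5) (p (p (x 2) (x 4)) (p (x 3) (x 1))))),
  (1, (p (a (x 0) (x 1) (p (x 5) (x 2))) (p (x 4) (x 3)))),
  (-1, (p (a (x 2) (p (x 4) (x 0)) (p (x 5) (x 3))) (x 1))),
  (-1, (p (a (x 1) (x 3) (x 5)) (p (x 0) (p (x 4) (x 2))))),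
  (1, (a (x 0) (x 1) (p (x 2) (p (p (x 4) (x 3)) (x 5))))),
  (1, (p (p (x 2) (x 3)) (a (x 0) (x 5) (p (x 1) (x 4))))),
  (-1, (p (a (x 1) (x 2) (p (x 0) (x 5))) (p (x 4) (x 3)))),
  (-1, (a (p (x 0) (x 2)) (p (x 3) (x 1)) (p (x 4) (x 5)))),
  (-1, (p (a (x 0) (x 2) (x 5)) (p (x 1) (p (x 3) (x 4))))),
  (-1, (p (p (a (x 0) (x 5) (p (x 4) (x 3))) (x 1)) (x 2))),
  (-1, (a (p (x 0) (x 1)) (p (x 2) (x 4)) (p (x 5) (x 3)))),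
  (-1, (p (p (a (x 3) (x 4) (p (x 5) (x 0))) (x 2)) (x 1))),
  (-1, (p (a (x 3) (p (x 0) (x 2)) (p (x 4) (x 5))) (x 1))),
  (-1, (p (p (a (x 1) (x 3) (x 4)) (x 0)) (p (x 5) (x 2)))),
  (-1, (p (x 2) (a (x 1) (x 5) (p (p (x 0) (x 4)) (x 3))))),
  (-1, (p (p (x 4) (x 0)) (a (x 1) (x 3) (p (x 5) (x 2))))),
  (1, (p (x 1) (a (x 3) (x 4) (p (x 0) (p (x 2) (x 5)))))),
  (-1, (a (x 2) (p (x 1) (x 5)) (p (p (x 4) (x 0)) (x 3)))),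
  (1, (p (p (a (x 1) (x 2) (x 3)) (p (x 5) (x 4))) (x 0))),
  (-1, (p (a (x 2) (x 5) (p (x 0) (x 3))) (p (x 1) (x 4)))),
  (-1, (p (p (a (x 1) (x 4) (p (x 5) (x 2))) (x 0)) (x 3))),
  (-1, (p (a (x 0) (x 4) (p (x 3) (p (x 5) (x 1)))) (x 2))),
  (-1, (p (a (x 0) (p (x 3) (x 4)) (p (x 5) (x 2))) (x 1))),
  (-1, (a (x 0) (p (x 1) (x 2)) (p (p (x 4) (x 5)) (x 3)))),
  (1, (p (a (x 1) (x 5) (p (x 3) (x 2))) (p (x 0) (x 4)))),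
  (-1, (p (a (x 2) (x 3) (x 5)) (p (x 0) (p (x 4) (x 1))))),
  (1, (p (a (x 0) (x 1) (p (x 2) (x 3))) (p (x 4) (x 5)))),
  (-1, (p (a (x 0) (x 2) (x 3)) (p (x 1) (p (x 5) (x 4))))),
  (1, (a (x 1) (p (x 5) (x 2)) (p (p (x 0) (x 4)) (x 3)))),
  (-1, (a (x 0) (p (x 4) (x 2)) (p (x 1) (p (x 3) (x 5))))),
  (-1, (p (x 2) (p (x 3) (a (x 1) (x 5) (p (x 4) (x 0)))))),
  (-1, (p (p (x 5) (x 2)) (a (x 0) (x 4) (p (x 1) (x 3))))),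
  (1, (a (x 1) (x 2) (p (p (x 0) (p (x 3) (x 5))) (x 4)))),
  (-1, (p (p (x 2) (x 3)) (a (x 0) (x 1) (p (x 5) (x 4)))))]

def f2 : FS := [
  (1, (p (x 0) (p (x 2) (p (x 1) (a (x 3) (x 4) (x 5)))))),
  (-1, (p (x 2) (a (x 3) (p (x 4) (x 0)) (p (x 5) (x 1))))),
  (-1, (a (x 0) (p (x 1) (x 5)) (p (p (x 4) (x 2)) (x 3)))),
  (1, (p (p (x 4) (x 0)) (a (x 1) (x 2) (p (x 5) (x 3))))),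
  (-1, (a (x 2) (p (x 1) (x 4)) (p (p (x 3) (x 5)) (x 0)))),
  (-1, (p (a (x 2) (x 4) (p (p (x 5) (x 3)) (x 1))) (x 0))),
  (-1, (p (p (a (x 0) (x 2) (x 5)) (x 4)) (p (x 1) (x 3)))),
  (1, (p (p (p (a (x 1) (x 3) (x 4)) (x 5)) (x 2)) (x 0))),
  (1, (p (p (a (x 1) (x 2) (p (x 5) (x 3))) (x 4)) (x 0))),
  (1, (p (a (x 0) (x 3) (p (x 2) (p (x 5) (x 4)))) (x 1))),
  (1, (p (x 2) (a (x 1) (p (x 0) (x 5)) (p (x 3) (x 4))))),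
  (1, (a (x 1) (p (x 2) (x 3)) (p (p (x 4) (x 0)) (x 5)))),
  (1, (p (p (x 2) (a (x 3) (x 4) (p (x 0) (x 5)))) (x 1))),
  (-1, (p (a (x 0) (p (x 3) (x 2)) (p (x 4) (x 5))) (x 1))),
  (2, (a (x 1) (x 2) (p (p (p (x 0) (x 3)) (x 4)) (x 5)))),
  (-1, (p (p (a (x 3) (x 4) (p (x 5) (x 0))) (x 1)) (x 2))),
  (1, (a (x 1) (p (x 2) (x 4)) (p (p (x 5) (x 0)) (x 3)))),
  (1, (p (a (x 0) (x 5) (p (x 3) (x 2))) (p (x 1) (x 4)))),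
  (-1, (p (p (a (x 0) (x 2) (p (x 4) (x 3))) (x 1)) (x 5))),
  (1, (a (x 0) (x 2) (p (p (x 4) (x 5)) (p (x 3) (x 1))))),
  (1, (a (x 1) (p (x 3) (x 4)) (p (x 0) (p (x 2) (x 5))))),
  (-1, (a (x 0) (x 1) (p (p (x 4) (x 2)) (p (x 5) (x 3))))),
  (1, (p (p (p (a (x 0) (x 1) (x 4)) (x 3)) (x 5)) (x 2))),
  (1, (a (x 0) (x 2) (p (p (x 1) (x 4)) (p (x 3) (x 5))))),
  (-1, (p (x 2) (p (a (x 1) (x 5) (p (x 4) (x 3))) (x 0)))),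
  (1, (p (p (a (x 3) (x 5) (p (x 4) (x 2))) (x 0)) (x 1))),
  (1, (p (p (p (x 1) (a (x 0) (x 4) (x 5))) (x 3)) (x 2))),
  (-1, (p (p (p (x 2) (x 3)) (x 4)) (a (x 0) (x 1) (x 5)))),
  (-1, (a (p (x 2) (x 0)) (p (x 3) (x 1)) (p (x 5) (x 4)))),
  (-1, (a (x 2) (p (x 3) (x 0)) (p (p (x 5) (x 4)) (x 1)))),
  (-1, (p (p (x 0) (x 2)) (a (x 1) (x 4) (p (x 5) (x 3))))),
  (-1, (p (a (x 2) (p (x 0) (x 3)) (p (x 4) (x 5))) (x 1))),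
  (-1, (p (x 1) (p (p (a (x 0) (x 4) (x 5)) (x 2)) (x 3)))),
  (-1, (p (a (x 1) (x 5) (p (x 2) (x 3))) (p (x 4) (x 0)))),
  (1, (p (p (x 2) (p (a (x 0) (x 3) (x 5)) (x 4))) (x 1))),
  (1, (p (p (a (x 2) (x 5) (p (x 1) (x 4))) (x 0)) (x 3))),
  (1, (p (p (a (x 1) (x 4) (x 5)) (x 0)) (p (x 2) (x 3)))),
  (1, (p (p (a (x 0) (x 2) (p (x 3) (x 4))) (x 1)) (x 5))),
  (-1, (p (a (x 1) (x 5) (p (x 2) (x 4))) (p (x 0) (x 3)))),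
  (1, (p (p (p (a (x 3) (x 4) (x 5)) (x 0)) (x 1)) (x 2))),
  (-1, (p (x 1) (p (x 0) (p (a (x 2) (x 3) (x 4)) (x 5))))),
  (-1, (a (x 1) (x 3) (p (p (x 0) (x 2)) (p (x 4) (x 5))))),
  (-1, (p (p (x 4) (x 5)) (a (x 0) (x 2) (p (x 3) (x 1))))),
  (-1, (p (x 1) (a (x 4) (p (x 0) (x 5)) (p (x 2) (x 3))))),
  (-1, (p (p (x 0) (a (x 1) (x 4) (x 5))) (p (x 3) (x 2)))),
  (1, (p (p (a (x 0) (x 2) (x 4)) (x 3)) (p (x 1) (x 5)))),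
  (1, (a (x 1) (p (x 3) (x 5)) (p (p (x 2) (x 4)) (x 0)))),
  (1, (p (x 1) (p (x 2) (a (x 0) (x 4) (p (x 5) (x 3)))))),
  (-1, (a (p (x 0) (x 3)) (p (x 2) (x 1)) (p (x 4) (x 5)))),
  (-1, (p (p (p (x 0) (a (x 2) (x 3) (x 5))) (x 1)) (x 4))),
  (1, (p (p (x 5) (x 1)) (a (x 0) (x 3) (p (x 2) (x 4))))),
  (1, (p (p (x 2) (x 0)) (a (x 1) (x 4) (p (x 3) (x 5))))),
  (1, (a (x 0) (x 1) (p (p (x 4) (x 3)) (p (x 5) (x 2))))),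
  (1, (p (a (x 1) (x 3) (p (p (x 4) (x 5)) (x 2))) (x 0))),
  (1, (p (x 1) (a (x 2) (p (x 0) (x 3)) (p (x 5) (x 4))))),
  (1, (a (x 0) (x 4) (p (x 2) (p (p (x 5) (x 3)) (x 1))))),
  (1, (a (x 1) (p (x 0) (x 2)) (p (p (x 4) (x 3)) (x 5)))),
  (-1, (p (x 2) (p (a (x 0) (x 4) (p (x 5) (x 1))) (x 3)))),
  (1, (p (x 1) (p (p (x 3) (a (x 0) (x 4) (x 5))) (x 2)))),
  (-1, (p (a (x 1) (p (x 0) (x 3)) (p (x 4) (x 5))) (x 2))),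
  (1, (p (p (a (x 1) (x 4) (x 5)) (x 2)) (p (x 0) (x 3)))),
  (1, (a (x 0) (x 3) (p (p (x 5) (x 1)) (p (x 4) (x 2))))),
  (1, (p (a (x 0) (x 3) (p (x 4) (x 2))) (p (x 5) (x 1)))),
  (1, (p (a (x 0) (x 3) (p (x 1) (x 2))) (p (x 4) (x 5)))),
  (-1, (p (x 1) (a (x 0) (x 2) (p (p (x 5) (x 3)) (x 4))))),
  (1, (p (a (x 1) (x 5) (p (p (x 3) (x 0)) (x 4))) (x 2))),
  (-1, (p (p (p (x 1) (a (x 3) (x 4) (x 5))) (x 0)) (x 2))),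
  (-1, (p (p (p (a (x 1) (x 2) (x 5)) (x 3)) (x 4)) (x 0))),
  (-1, (p (p (a (x 0) (x 1) (p (x 5) (x 4))) (x 3)) (x 2))),
  (-1, (p (x 1) (p (p (a (x 2) (x 3) (x 4)) (x 0)) (x 5)))),
  (-1, (p (x 1) (a (x 2) (p (x 0) (x 4)) (p (x 3) (x 5))))),
  (1, (p (p (x 4) (x 1)) (a (x 2) (x 3) (p (x 0) (x 5))))),
  (-1, (p (x 1) (a (x 2) (x 4) (p (p (x 0) (x 5)) (x 3))))),
  (1, (p (p (x 4) (x 5)) (p (x 1) (a (x 0) (x 2) (x 3))))),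
  (-1, (a (x 0) (x 2) (p (p (x 4) (x 1)) (p (x 3) (x 5))))),
  (1, (p (x 1) (p (p (a (x 3) (x 4) (x 5)) (x 0)) (x 2)))),
  (1, (p (p (x 4) (x 1)) (a (x 0) (x 2) (p (x 3) (x 5))))),
  (1, (p (x 0) (p (x 2) (a (x 3) (x 4) (p (x 5) (x 1)))))),
  (-1, (p (p (a (x 0) (x 3) (x 4)) (p (x 1) (x 5))) (x 2))),
  (-1, (p (p (x 0) (x 2)) (p (a (x 1) (x 3) (x 5)) (x 4)))),
  (-1, (p (x 0) (a (x 3) (p (x 1) (x 5)) (p (x 4) (x 2))))),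
  (1, (p (x 0) (p (x 4) (p (a (x 2) (x 3) (x 5)) (x 1))))),
  (-1, (a (x 0) (x 1) (p (p (x 2) (x 5)) (p (x 4) (x 3))))),
  (1, (a (x 2) (p (x 4) (x 1)) (p (x 0) (p (x 3) (x 5))))),
  (1, (a (x 0) (p (x 2) (x 3)) (p (p (x 5) (x 4)) (x 1)))),
  (-1, (p (p (a (x 2) (x 5) (p (x 3) (x 1))) (x 0)) (x 4))),
  (-1, (p (x 1) (a (x 3) (p (x 0) (x 5)) (p (x 2) (x 4))))),
  (1, (p (p (p (x 3) (a (x 0) (x 4) (x 5))) (x 2)) (x 1))),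
  (-1, (p (p (a (x 2) (x 5) (p (x 3) (x 4))) (x 1)) (x 0))),
  (1, (p (x 0) (p (a (x 1) (x 4) (p (x 5) (x 2))) (x 3)))),
  (-1, (p (x 1) (p (x 2) (p (a (x 3) (x 4) (x 5)) (x 0))))),
  (1, (a (x 1) (p (x 5) (x 2)) (p (p (x 3) (x 4)) (x 0)))),
  (1, (p (x 1) (p (p (x 3) (x 4)) (a (x 0) (x 2) (x 5))))),
  (1, (p (a (x 2) (x 5) (p (p (x 0) (x 3)) (x 4))) (x 1))),
  (-1, (a (x 0) (x 2) (p (p (x 1) (p (x 3) (x 5))) (x 4)))),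
  (-1, (p (x 2) (a (x 5) (p (x 0) (x 3)) (p (x 1) (x 4))))),
  (1, (p (p (a (x 0) (x 5) (p (x 1) (x 3))) (x 4)) (x 2))),
  (1, (p (a (x 0) (x 5) (p (x 1) (x 3))) (p (x 4) (x 2)))),
  (1, (a (x 0) (x 1) (p (p (x 3) (x 4)) (p (x 5) (x 2))))),
  (1, (p (p (x 2) (x 0)) (a (x 1) (x 5) (p (x 3) (x 4)))))]

def f3 : FS := [
  (-1, (p (x 2) (a (x 1) (p (x 4) (x 0)) (p (x 5) (x 3))))),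
  (-1, (p (p (a (x 1) (x 3) (x 5)) (p (x 2) (x 4))) (x 0))),
  (-1, (p (a (x 2) (p (x 1) (x 3)) (p (x 5) (x 4))) (x 0))),
  (1, (p (p (x 2) (x 4)) (p (x 1) (a (x 0) (x 3) (x 5))))),
  (-1, (p (x 2) (p (a (x 1) (x 3) (x 5)) (p (x 0) (x 4))))),
  (1, (p (p (a (x 1) (x 3) (x 5)) (x 4)) (p (x 0) (x 2)))),
  (1, (a (x 0) (p (x 5) (x 2)) (p (x 1) (p (x 4) (x 3))))),
  (-1, (a (x 0) (x 1) (p (p (x 5) (x 2)) (p (x 4) (x 3))))),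
  (-1, (p (a (x 1) (x 2) (p (x 3) (p (x 5) (x 4)))) (x 0))),
  (-1, (p (p (x 4) (x 1)) (p (a (x 0) (x 3) (x 5)) (x 2)))),
  (-1, (p (p (x 2) (x 3)) (a (x 1) (x 4) (p (x 5) (x 0))))),
  (-1, (p (x 0) (p (x 1) (a (x 2) (x 5) (p (x 3) (x 4)))))),
  (1, (p (x 1) (p (a (x 2) (x 5) (p (x 0) (x 3))) (x 4)))),
  (1, (p (x 1) (a (x 3) (p (x 0) (x 2)) (p (x 4) (x 5))))),
  (-1, (a (x 0) (x 4) (p (p (p (x 3) (x 1)) (x 5)) (x 2)))),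
  (1, (p (x 1) (a (x 0) (x 2) (p (p (x 3) (x 4)) (x 5))))),
  (-1, (p (p (a (x 2) (x 5) (p (x 4) (x 3))) (x 0)) (x 1))),
  (-1, (p (x 2) (a (x 0) (x 1) (p (x 4) (p (x 3) (x 5)))))),
  (1, (p (p (x 1) (x 2)) (a (x 0) (x 3) (p (x 4) (x 5))))),
  (-1, (p (p (a (x 0) (x 3) (x 5)) (p (x 2) (x 4))) (x 1))),
  (1, (p (p (a (x 1) (x 5) (p (x 0) (x 3))) (x 4)) (x 2))),
  (1, (p (p (a (x 2) (x 4) (x 5)) (x 3)) (p (x 0) (x 1)))),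
  (1, (p (p (p (x 0) (a (x 3) (x 4) (x 5))) (x 2)) (x 1))),
  (-1, (p (a (x 3) (p (x 2) (x 0)) (p (x 5) (x 4))) (x 1))),
  (-1, (p (x 0) (a (x 2) (x 3) (p (x 4) (p (x 5) (x 1)))))),
  (1, (p (x 1) (p (x 2) (a (x 0) (x 5) (p (x 4) (x 3)))))),
  (-1, (p (p (x 0) (x 3)) (a (x 2) (x 4) (p (x 1) (x 5))))),
  (-1, (p (p (p (x 2) (a (x 1) (x 4) (x 5))) (x 3)) (x 0))),
  (1, (a (x 2) (p (x 0) (x 4)) (p (p (x 1) (x 3)) (x 5)))),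
  (1, (p (p (a (x 0) (x 2) (x 3)) (x 1)) (p (x 5) (x 4)))),
  (1, (p (x 1) (a (x 2) (p (x 3) (x 5)) (p (x 4) (x 0))))),
  (-1, (p (p (x 4) (a (x 1) (x 3) (p (x 2) (x 5)))) (x 0))),
  (1, (p (a (x 1) (x 4) (p (p (x 3) (x 5)) (x 0))) (x 2))),
  (1, (p (x 1) (p (a (x 2) (x 4) (p (x 0) (x 5))) (x 3)))),
  (-1, (a (x 0) (x 3) (p (x 1) (p (p (x 2) (x 4)) (x 5))))),
  (-1, (p (p (a (x 1) (x 4) (p (x 5) (x 0))) (x 3)) (x 2))),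
  (-1, (p (p (a (x 0) (x 3) (x 4)) (x 5)) (p (x 2) (x 1)))),
  (-1, (a (x 1) (x 2) (p (p (x 0) (p (x 3) (x 4))) (x 5)))),
  (1, (p (p (x 5) (x 1)) (a (x 2) (x 4) (p (x 0) (x 3))))),
  (-1, (p (x 1) (a (x 0) (x 2) (p (x 4) (p (x 3) (x 5)))))),
  (2, (p (p (x 0) (a (x 3) (x 4) (p (x 5) (x 2)))) (x 1))),
  (-1, (p (x 2) (p (a (x 3) (x 5) (p (x 4) (x 0))) (x 1)))),
  (1, (a (x 0) (x 5) (p (x 1) (p (x 2) (p (x 4) (x 3)))))),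
  (2, (p (x 0) (a (x 1) (x 4) (p (x 2) (p (x 3) (x 5)))))),
  (-1, (p (p (x 1) (a (x 0) (x 3) (p (x 4) (x 5)))) (x 2))),
  (1, (a (p (x 0) (x 1)) (p (x 4) (x 3)) (p (x 5) (x 2)))),
  (-1, (p (x 2) (a (x 3) (p (x 0) (x 5)) (p (x 1) (x 4))))),
  (1, (p (a (x 0) (x 2) (p (x 5) (p (x 4) (x 3)))) (x 1))),
  (-1, (a (x 1) (x 3) (p (p (p (x 0) (x 2)) (x 5)) (x 4)))),
  (-1, (p (p (x 3) (x 2)) (a (x 1) (x 4) (p (x 0) (x 5))))),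
  (1, (a (x 0) (p (x 4) (x 2)) (p (p (x 3) (x 1)) (x 5)))),
  (1, (p (x 0) (a (x 1) (x 3) (p (p (x 2) (x 5)) (x 4))))),
  (1, (a (x 0) (x 4) (p (p (p (x 2) (x 3)) (x 5)) (x 1)))),
  (1, (a (x 1) (p (x 4) (x 5)) (p (p (x 3) (x 2)) (x 0)))),
  (-1, (a (x 0) (x 1) (p (p (x 2) (x 4)) (p (x 3) (x 5))))),
  (-1, (p (a (x 2) (x 3) (p (x 5) (p (x 0) (x 4)))) (x 1))),
  (1, (p (p (a (x 3) (x 4) (p (x 0) (x 2))) (x 1)) (x 5))),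
  (1, (p (x 0) (p (x 1) (a (x 2) (x 4) (p (x 5) (x 3)))))),
  (1, (p (p (x 4) (x 1)) (a (x 0) (x 5) (p (x 2) (x 3))))),
  (1, (p (p (x 4) (x 3)) (a (x 1) (x 2) (p (x 0) (x 5))))),
  (1, (a (p (x 0) (x 2)) (p (x 1) (x 4)) (p (x 3) (x 5)))),
  (-1, (a (p (x 1) (x 5)) (p (x 2) (x 4)) (p (x 3) (x 0)))),
  (-1, (p (p (a (x 0) (x 1) (p (x 3) (x 4))) (x 5)) (x 2))),
  (-1, (p (p (x 4) (a (x 2) (x 5) (p (x 1) (x 3)))) (x 0))),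
  (1, (p (p (a (x 3) (x 5) (p (x 1) (x 4))) (x 2)) (x 0))),
  (-1, (a (x 2) (p (x 0) (x 4)) (p (x 1) (p (x 3) (x 5))))),
  (-1, (a (x 1) (x 2) (p (p (x 4) (x 0)) (p (x 5) (x 3))))),
  (-1, (a (x 0) (x 1) (p (p (x 2) (x 4)) (p (x 5) (x 3))))),
  (1, (a (x 1) (x 5) (p (p (p (x 2) (x 3)) (x 4)) (x 0)))),
  (-1, (p (x 2) (p (a (x 1) (x 4) (p (x 3) (x 5))) (x 0)))),
  (-1, (a (x 1) (p (x 3) (x 0)) (p (p (x 5) (x 2)) (x 4)))),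
  (1, (p (p (a (x 0) (x 5) (p (x 4) (x 1))) (x 3)) (x 2))),
  (-1, (p (p (a (x 1) (x 3) (x 4)) (x 2)) (p (x 0) (x 5)))),
  (1, (p (a (x 2) (p (x 1) (x 4)) (p (x 3) (x 5))) (x 0))),
  (1, (p (p (x 2) (x 5)) (a (x 0) (x 1) (p (x 4) (x 3))))),
  (-1, (p (a (x 0) (x 3) (x 4)) (p (x 1) (p (x 5) (x 2))))),
  (1, (p (a (x 4) (p (x 0) (x 3)) (p (x 2) (x 5))) (x 1))),
  (-1, (p (x 1) (a (x 2) (x 4) (p (x 3) (p (x 0) (x 5)))))),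
  (1, (p (a (x 1) (x 5) (p (p (x 4) (x 3)) (x 2))) (x 0))),
  (-1, (p (x 2) (a (x 1) (x 5) (p (x 3) (p (x 0) (x 4)))))),
  (-1, (p (x 2) (p (a (x 1) (x 3) (p (x 4) (x 5))) (x 0)))),
  (1, (p (p (x 4) (a (x 1) (x 5) (p (x 0) (x 3)))) (x 2))),
  (-1, (p (a (x 0) (x 4) (p (x 1) (x 3))) (p (x 2) (x 5)))),
  (-1, (p (x 2) (p (a (x 3) (x 5) (p (x 0) (x 4))) (x 1)))),
  (-1, (p (x 0) (p (x 1) (a (x 3) (x 5) (p (x 2) (x 4)))))),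
  (1, (p (p (x 5) (x 4)) (p (x 1) (a (x 0) (x 2) (x 3))))),
  (1, (p (x 0) (p (a (x 1) (x 5) (p (x 4) (x 2))) (x 3)))),
  (1, (a (x 1) (x 2) (p (p (p (x 3) (x 0)) (x 4)) (x 5)))),
  (1, (p (x 2) (a (x 1) (x 4) (p (p (x 5) (x 3)) (x 0))))),
  (1, (p (p (p (a (x 1) (x 3) (x 4)) (x 2)) (x 5)) (x 0))),
  (-1, (p (a (x 0) (x 2) (x 5)) (p (x 1) (p (x 4) (x 3))))),
  (-1, (p (p (x 3) (a (x 2) (x 4) (p (x 5) (x 1)))) (x 0))),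
  (1, (a (p (x 1) (x 5)) (p (x 2) (x 3)) (p (x 4) (x 0)))),
  (1, (p (x 1) (p (a (x 0) (x 5) (p (x 4) (x 3))) (x 2)))),
  (-1, (p (x 2) (p (p (x 3) (x 5)) (a (x 0) (x 1) (x 4))))),
  (-1, (a (x 2) (p (x 1) (x 3)) (p (p (x 5) (x 0)) (x 4)))),
  (1, (p (x 2) (a (x 0) (x 4) (p (p (x 5) (x 1)) (x 3))))),
  (1, (p (p (x 3) (a (x 1) (x 5) (p (x 4) (x 2)))) (x 0))),
  (-1, (a (x 0) (p (x 3) (x 5)) (p (p (x 2) (x 4)) (x 1)))),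
  (-1, (a (p (x 0) (x 1)) (p (x 2) (x 4)) (p (x 3) (x 5))))]

def f4 : FS := [
  (1, (a (x 1) (x 2) (p (p (x 0) (x 5)) (p (x 3) (x 4))))),
  (1, (p (a (x 3) (x 4) (p (x 5) (x 0))) (p (x 1) (x 2)))),
  (-1, (p (p (a (x 1) (x 4) (x 5)) (x 2)) (p (x 3) (x 0)))),
  (-1, (p (x 0) (a (x 2) (x 4) (p (x 3) (p (x 5) (x 1)))))),
  (1, (p (x 0) (p (p (a (x 1) (x 3) (x 5)) (x 4)) (x 2)))),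
  (-1, (p (a (x 1) (x 2) (x 3)) (p (p (x 0) (x 4)) (x 5)))),
  (-1, (a (x 0) (x 5) (p (x 2) (p (p (x 1) (x 4)) (x 3))))),
  (-1, (p (x 1) (a (x 2) (x 5) (p (p (x 0) (x 4)) (x 3))))),
  (-1, (p (x 1) (a (x 3) (p (x 4) (x 0)) (p (x 5) (x 2))))),
  (-1, (p (x 1) (p (a (x 3) (x 4) (x 5)) (p (x 0) (x 2))))),
  (-1, (p (a (x 1) (x 2) (p (p (x 3) (x 5)) (x 4))) (x 0))),
  (1, (p (p (a (x 0) (x 3) (p (x 1) (x 5))) (x 4)) (x 2))),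
  (-1, (a (x 0) (p (x 1) (x 3)) (p (p (x 4) (x 5)) (x 2)))),
  (1, (a (x 1) (p (x 5) (x 3)) (p (p (x 0) (x 2)) (x 4)))),
  (1, (p (a (x 3) (p (x 2) (x 4)) (p (x 5) (x 0))) (x 1))),
  (1, (p (a (x 2) (x 5) (p (x 4) (x 3))) (p (x 0) (x 1)))),
  (1, (a (x 1) (p (x 5) (x 0)) (p (p (x 2) (x 3)) (x 4)))),
  (-1, (a (x 0) (p (x 1) (x 5)) (p (p (x 4) (x 3)) (x 2)))),
  (1, (p (p (x 4) (x 5)) (p (x 0) (a (x 1) (x 2) (x 3))))),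
  (-1, (p (p (x 5) (x 1)) (a (x 0) (x 3) (p (x 4) (x 2))))),
  (1, (p (p (x 2) (x 0)) (a (x 1) (x 4) (p (x 5) (x 3))))),
  (-1, (p (x 0) (p (p (a (x 3) (x 4) (x 5)) (x 1)) (x 2)))),
  (1, (a (x 0) (x 2) (p (x 4) (p (p (x 1) (x 3)) (x 5))))),
  (1, (p (x 0) (a (x 2) (x 4) (p (x 1) (p (x 3) (x 5)))))),
  (1, (p (p (a (x 0) (x 2) (x 5)) (x 1)) (p (x 4) (x 3)))),
  (-1, (p (x 1) (p (x 4) (a (x 0) (x 2) (p (x 3) (x 5)))))),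
  (1, (a (x 1) (x 2) (p (p (p (x 5) (x 0)) (x 3)) (x 4)))),
  (1, (a (x 0) (x 2) (p (p (p (x 1) (x 4)) (x 5)) (x 3)))),
  (-1, (p (p (a (x 1) (x 5) (p (x 3) (x 2))) (x 0)) (x 4))),
  (1, (p (a (x 1) (x 4) (p (p (x 2) (x 3)) (x 5))) (x 0))),
  (1, (a (x 1) (p (x 4) (x 2)) (p (p (x 5) (x 3)) (x 0)))),
  (1, (a (x 1) (p (x 4) (x 3)) (p (x 2) (p (x 0) (x 5))))),
  (1, (p (x 1) (p (x 4) (p (a (x 0) (x 3) (x 5)) (x 2))))),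
  (-1, (a (x 1) (p (x 5) (x 0)) (p (x 2) (p (x 3) (x 4))))),
  (1, (p (p (a (x 3) (x 4) (p (x 5) (x 1))) (x 0)) (x 2))),
  (1, (a (x 0) (p (x 2) (x 1)) (p (p (x 3) (x 5)) (x 4)))),
  (-1, (p (a (x 0) (x 5) (p (x 3) (p (x 4) (x 2)))) (x 1))),
  (-1, (p (x 0) (a (x 1) (x 3) (p (x 4) (p (x 5) (x 2)))))),
  (-1, (p (p (x 0) (p (x 3) (a (x 2) (x 4) (x 5)))) (x 1))),
  (1, (p (p (x 2) (a (x 0) (x 5) (p (x 3) (x 4)))) (x 1))),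
  (-1, (p (x 1) (a (x 2) (x 3) (p (p (x 0) (x 4)) (x 5))))),
  (-1, (p (p (a (x 1) (x 4) (x 5)) (p (x 2) (x 3))) (x 0))),
  (-1, (p (a (x 1) (x 2) (p (p (x 4) (x 3)) (x 5))) (x 0))),
  (-1, (a (x 0) (x 2) (p (p (p (x 3) (x 1)) (x 4)) (x 5)))),
  (1, (a (x 0) (x 2) (p (p (x 4) (x 3)) (p (x 1) (x 5))))),
  (1, (p (a (x 4) (x 5) (p (x 1) (x 3))) (p (x 0) (x 2)))),
  (1, (p (a (x 2) (p (x 3) (x 1)) (p (x 5) (x 4))) (x 0))),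
  (1, (p (x 0) (a (x 2) (x 3) (p (x 5) (p (x 4) (x 1)))))),
  (-1, (a (x 0) (x 2) (p (x 4) (p (p (x 3) (x 1)) (x 5))))),
  (1, (p (p (a (x 0) (x 5) (p (x 2) (x 3))) (x 1)) (x 4))),
  (-1, (p (a (x 1) (x 2) (p (x 4) (x 0))) (p (x 3) (x 5)))),
  (-1, (p (x 1) (p (a (x 0) (x 2) (x 3)) (p (x 5) (x 4))))),
  (-1, (p (p (a (x 3) (x 4) (p (x 2) (x 1))) (x 0)) (x 5))),
  (1, (p (a (x 2) (x 5) (p (p (x 3) (x 4)) (x 1))) (x 0))),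
  (-1, (p (p (x 3) (a (x 2) (x 4) (p (x 1) (x 5)))) (x 0))),
  (-1, (p (p (p (a (x 0) (x 4) (x 5)) (x 1)) (x 3)) (x 2))),
  (1, (p (p (x 0) (a (x 4) (x 5) (p (x 2) (x 3)))) (x 1))),
  (1, (p (p (x 2) (a (x 0) (x 5) (p (x 4) (x 3)))) (x 1))),
  (-1, (p (p (x 0) (x 3)) (p (a (x 1) (x 2) (x 5)) (x 4)))),
  (-1, (p (a (x 3) (x 5) (p (p (x 1) (x 4)) (x 2))) (x 0))),
  (1, (p (p (a (x 2) (x 5) (p (x 4) (x 3))) (x 1)) (x 0))),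
  (1, (a (x 1) (p (x 4) (x 0)) (p (p (x 5) (x 2)) (x 3)))),
  (1, (p (p (x 1) (a (x 2) (x 3) (x 5))) (p (x 0) (x 4)))),
  (1, (p (a (x 3) (p (x 0) (x 4)) (p (x 1) (x 5))) (x 2))),
  (-1, (p (p (p (x 3) (a (x 1) (x 4) (x 5))) (x 2)) (x 0))),
  (-1, (p (a (x 0) (x 5) (p (p (x 4) (x 1)) (x 3))) (x 2))),
  (1, (p (a (x 0) (x 5) (p (x 2) (x 4))) (p (x 1) (x 3)))),
  (-1, (p (a (x 0) (x 1) (p (x 3) (x 4))) (p (x 5) (x 2)))),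
  (-1, (p (p (x 1) (x 3)) (a (x 2) (x 4) (p (x 0) (x 5))))),
  (-1, (p (p (a (x 0) (x 3) (p (x 1) (x 4))) (x 5)) (x 2))),
  (1, (p (x 2) (a (x 0) (x 5) (p (p (x 1) (x 3)) (x 4))))),
  (1, (p (p (a (x 0) (x 1) (x 4)) (x 3)) (p (x 2) (x 5)))),
  (-1, (a (x 0) (x 4) (p (x 1) (p (p (x 2) (x 3)) (x 5))))),
  (1, (p (x 0) (a (x 1) (x 5) (p (p (x 2) (x 4)) (x 3))))),
  (-1, (p (a (x 1) (x 3) (p (p (x 2) (x 4)) (x 5))) (x 0))),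
  (-1, (p (a (x 1) (x 3) (p (x 5) (x 0))) (p (x 4) (x 2)))),
  (-1, (p (p (x 0) (x 5)) (p (a (x 2) (x 3) (x 4)) (x 1)))),
  (-1, (p (p (a (x 0) (x 1) (x 3)) (x 2)) (p (x 4) (x 5)))),
  (1, (a (x 0) (x 1) (p (p (x 2) (x 5)) (p (x 3) (x 4))))),
  (-1, (a (x 0) (x 3) (p (p (x 1) (x 2)) (p (x 5) (x 4))))),
  (-1, (p (p (x 0) (a (x 2) (x 5) (p (x 3) (x 4)))) (x 1))),
  (-1, (p (a (x 0) (x 2) (p (p (x 4) (x 5)) (x 3))) (x 1))),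
  (1, (p (a (x 2) (x 3) (p (x 5) (p (x 1) (x 4)))) (x 0))),
  (1, (p (x 2) (a (x 3) (p (x 0) (x 4)) (p (x 5) (x 1))))),
  (-1, (a (x 1) (x 5) (p (p (p (x 3) (x 2)) (x 4)) (x 0)))),
  (-1, (p (x 0) (p (x 1) (a (x 4) (x 5) (p (x 3) (x 2)))))),
  (-1, (p (a (x 2) (p (x 1) (x 3)) (p (x 4) (x 5))) (x 0))),
  (1, (p (a (x 2) (x 3) (p (p (x 5) (x 0)) (x 4))) (x 1))),
  (1, (a (x 0) (p (x 5) (x 3)) (p (p (x 1) (x 2)) (x 4)))),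
  (-1, (p (x 1) (p (p (a (x 2) (x 4) (x 5)) (x 0)) (x 3)))),
  (1, (p (a (x 0) (x 2) (x 5)) (p (p (x 1) (x 3)) (x 4)))),
  (-1, (p (a (x 0) (x 2) (p (x 3) (p (x 5) (x 4)))) (x 1))),
  (-1, (p (x 1) (a (x 0) (x 2) (p (x 3) (p (x 4) (x 5)))))),
  (1, (p (p (a (x 1) (x 2) (p (x 3) (x 5))) (x 0)) (x 4))),
  (1, (p (a (x 0) (x 1) (p (p (x 3) (x 4)) (x 5))) (x 2))),
  (1, (p (x 0) (p (x 2) (a (x 1) (x 5) (p (x 4) (x 3)))))),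
  (-1, (p (p (x 2) (x 5)) (a (x 1) (x 3) (p (x 0) (x 4))))),
  (-1, (p (p (a (x 2) (x 3) (x 5)) (x 0)) (p (x 1) (x 4)))),
  (1, (a (p (x 0) (x 3)) (p (x 1) (x 5)) (p (x 4) (x 2)))),
  (1, (p (p (a (x 2) (x 3) (p (x 1) (x 5))) (x 0)) (x 4)))]

def f5 : FS := [
  (-1, (p (x 1) (a (x 0) (p (x 2) (x 5)) (p (x 4) (x 3))))),
  (-1, (a (x 1) (p (x 4) (x 5)) (p (x 2) (p (x 3) (x 0))))),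
  (1, (a (x 0) (p (x 2) (x 5)) (p (x 1) (p (x 4) (x 3))))),
  (1, (a (x 0) (x 1) (p (p (x 2) (p (x 3) (x 4))) (x 5)))),
  (1, (p (x 0) (p (x 3) (a (x 2) (x 4) (p (x 5) (x 1)))))),
  (1, (p (x 0) (p (a (x 1) (x 2) (x 4)) (p (x 3) (x 5))))),
  (1, (p (p (a (x 0) (x 1) (x 3)) (x 4)) (p (x 2) (x 5)))),
  (-1, (p (a (x 3) (x 5) (p (x 1) (x 4))) (p (x 0) (x 2)))),
  (-1, (p (p (p (a (x 2) (x 3) (x 5)) (x 4)) (x 0)) (x 1))),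
  (1, (p (a (x 3) (x 5) (p (x 2) (x 1))) (p (x 0) (x 4)))),
  (1, (p (x 0) (a (x 1) (p (x 2) (x 4)) (p (x 5) (x 3))))),
  (1, (p (p (x 4) (a (x 0) (x 5) (p (x 1) (x 3)))) (x 2))),
  (1, (p (x 0) (p (a (x 2) (x 4) (p (x 5) (x 1))) (x 3)))),
  (-1, (p (a (x 1) (x 5) (p (p (x 0) (x 3)) (x 4))) (x 2))),
  (-1, (p (a (x 4) (p (x 1) (x 5)) (p (x 2) (x 3))) (x 0))),
  (-1, (p (x 1) (p (x 0) (a (x 3) (x 4) (p (x 5) (x 2)))))),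
  (1, (p (p (x 3) (p (a (x 1) (x 2) (x 4)) (x 5))) (x 0))),
  (1, (p (p (p (x 3) (x 4)) (a (x 0) (x 2) (x 5))) (x 1))),
  (1, (p (x 0) (p (x 3) (p (a (x 1) (x 2) (x 4)) (x 5))))),
  (1, (a (x 1) (p (x 2) (x 0)) (p (p (x 4) (x 3)) (x 5)))),
  (-1, (p (p (x 3) (p (a (x 0) (x 4) (x 5)) (x 2))) (x 1))),
  (1, (p (x 0) (p (a (x 2) (x 3) (x 4)) (p (x 1) (x 5))))),
  (1, (a (x 2) (p (x 1) (x 3)) (p (p (x 4) (x 5)) (x 0)))),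
  (1, (p (p (a (x 2) (x 3) (x 4)) (p (x 1) (x 5))) (x 0))),
  (1, (p (x 2) (p (x 0) (a (x 1) (x 5) (p (x 4) (x 3)))))),
  (1, (a (x 0) (x 2) (p (p (p (x 1) (x 3)) (x 4)) (x 5)))),
  (1, (p (a (x 1) (x 4) (p (p (x 5) (x 2)) (x 3))) (x 0))),
  (-1, (p (p (a (x 0) (x 3) (x 5)) (x 4)) (p (x 1) (x 2)))),
  (-1, (p (p (x 2) (p (a (x 0) (x 3) (x 4)) (x 5))) (x 1))),
  (-1, (p (a (x 1) (x 3) (p (p (x 5) (x 4)) (x 2))) (x 0))),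
  (-1, (p (p (x 0) (x 5)) (p (a (x 1) (x 3) (x 4)) (x 2)))),
  (-1, (p (a (x 2) (x 4) (p (x 5) (x 3))) (p (x 0) (x 1)))),
  (1, (p (a (x 3) (p (x 4) (x 2)) (p (x 5) (x 1))) (x 0))),
  (1, (p (x 0) (a (x 2) (x 4) (p (p (x 3) (x 5)) (x 1))))),
  (-1, (p (a (x 3) (p (x 2) (x 5)) (p (x 4) (x 1))) (x 0))),
  (1, (p (p (x 1) (a (x 3) (x 5) (p (x 0) (x 4)))) (x 2))),
  (-1, (p (a (x 1) (x 2) (x 4)) (p (p (x 0) (x 3)) (x 5)))),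
  (1, (p (x 0) (p (x 1) (a (x 3) (x 4) (p (x 5) (x 2)))))),
  (1, (a (x 0) (p (x 3) (x 5)) (p (x 2) (p (x 1) (x 4))))),
  (-1, (p (a (x 0) (x 2) (p (x 1) (x 4))) (p (x 3) (x 5)))),
  (1, (a (x 1) (x 2) (p (p (x 3) (p (x 4) (x 5))) (x 0)))),
  (-1, (p (a (x 1) (x 4) (p (p (x 5) (x 3)) (x 2))) (x 0))),
  (1, (p (x 2) (a (x 0) (x 1) (p (x 5) (p (x 3) (x 4)))))),
  (-1, (p (x 2) (a (x 0) (x 1) (p (x 4) (p (x 5) (x 3)))))),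
  (-1, (p (p (a (x 0) (x 3) (p (x 2) (x 5))) (x 4)) (x 1))),
  (-1, (p (a (x 1) (x 2) (p (x 5) (x 3))) (p (x 4) (x 0)))),
  (-1, (p (x 0) (a (x 2) (x 3) (p (p (x 1) (x 5)) (x 4))))),
  (-1, (p (x 0) (p (p (a (x 1) (x 3) (x 4)) (x 5)) (x 2)))),
  (1, (p (x 1) (a (x 0) (x 5) (p (x 3) (p (x 2) (x 4)))))),
  (1, (p (a (x 1) (p (x 2) (x 3)) (p (x 5) (x 4))) (x 0))),
  (1, (a (p (x 0) (x 3)) (p (x 4) (x 1)) (p (x 5) (x 2)))),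
  (1, (p (x 1) (p (a (x 3) (x 4) (p (x 5) (x 2))) (x 0)))),
  (1, (p (a (x 3) (p (x 0) (x 5)) (p (x 4) (x 2))) (x 1))),
  (-1, (p (p (x 0) (x 4)) (p (a (x 1) (x 2) (x 5)) (x 3)))),
  (-1, (p (x 1) (a (x 3) (x 4) (p (p (x 0) (x 5)) (x 2))))),
  (1, (p (p (a (x 2) (x 3) (p (x 1) (x 4))) (x 0)) (x 5))),
  (1, (p (x 1) (a (x 0) (p (x 4) (x 3)) (p (x 5) (x 2))))),
  (-1, (p (x 0) (p (x 4) (p (a (x 1) (x 3) (x 5)) (x 2))))),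
  (1, (p (p (x 1) (x 3)) (a (x 0) (x 2) (p (x 5) (x 4))))),
  (1, (p (p (p (x 1) (x 4)) (a (x 2) (x 3) (x 5))) (x 0))),
  (1, (p (p (x 1) (p (x 0) (a (x 3) (x 4) (x 5)))) (x 2))),
  (1, (p (a (x 1) (x 3) (p (p (x 5) (x 4)) (x 0))) (x 2))),
  (-1, (p (p (x 0) (x 5)) (a (x 2) (x 4) (p (x 1) (x 3))))),
  (-1, (p (p (p (x 4) (x 3)) (a (x 0) (x 2) (x 5))) (x 1))),
  (-1, (p (x 0) (a (x 1) (x 4) (p (p (x 2) (x 3)) (x 5))))),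
  (1, (a (p (x 0) (x 5)) (p (x 1) (x 4)) (p (x 3) (x 2)))),
  (1, (p (a (x 0) (x 4) (p (x 3) (p (x 5) (x 2)))) (x 1))),
  (1, (a (x 1) (x 5) (p (x 2) (p (p (x 0) (x 3)) (x 4))))),
  (-1, (p (p (x 1) (x 4)) (a (x 2) (x 3) (p (x 0) (x 5))))),
  (1, (a (p (x 0) (x 4)) (p (x 2) (x 3)) (p (x 5) (x 1)))),
  (1, (p (x 0) (a (x 2) (p (x 1) (x 5)) (p (x 3) (x 4))))),
  (1, (p (a (x 0) (x 5) (p (p (x 2) (x 3)) (x 4))) (x 1))),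
  (-2, (p (a (x 1) (x 5) (p (x 3) (x 4))) (p (x 0) (x 2)))),
  (1, (a (p (x 0) (x 4)) (p (x 3) (x 2)) (p (x 5) (x 1)))),
  (-1, (p (p (x 4) (a (x 1) (x 5) (p (x 2) (x 3)))) (x 0))),
  (-1, (p (a (x 2) (x 5) (p (x 3) (p (x 1) (x 4)))) (x 0))),
  (-1, (p (p (x 2) (x 5)) (a (x 0) (x 3) (p (x 1) (x 4))))),
  (-1, (p (a (x 1) (x 2) (p (p (x 3) (x 4)) (x 5))) (x 0))),
  (-1, (p (p (x 2) (x 5)) (a (x 0) (x 1) (p (x 3) (x 4))))),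
  (-1, (p (p (p (a (x 2) (x 4) (x 5)) (x 0)) (x 3)) (x 1))),
  (1, (a (x 0) (x 4) (p (x 2) (p (p (x 1) (x 3)) (x 5))))),
  (1, (a (x 0) (p (x 5) (x 2)) (p (p (x 1) (x 3)) (x 4)))),
  (1, (p (p (x 2) (x 4)) (a (x 1) (x 3) (p (x 0) (x 5))))),
  (-1, (p (p (a (x 3) (x 5) (p (x 0) (x 4))) (x 2)) (x 1))),
  (1, (p (a (x 3) (p (x 0) (x 5)) (p (x 2) (x 4))) (x 1))),
  (1, (p (p (x 3) (x 2)) (p (x 0) (a (x 1) (x 4) (x 5))))),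
  (-1, (p (p (p (a (x 2) (x 3) (x 5)) (x 1)) (x 4)) (x 0))),
  (1, (p (a (x 0) (p (x 2) (x 4)) (p (x 3) (x 5))) (x 1))),
  (1, (p (a (x 1) (x 4) (p (p (x 3) (x 5)) (x 2))) (x 0))),
  (1, (a (x 1) (p (x 2) (x 4)) (p (p (x 5) (x 3)) (x 0)))),
  (-1, (p (x 1) (a (x 3) (p (x 0) (x 2)) (p (x 5) (x 4))))),
  (-1, (p (x 1) (a (x 2) (p (x 0) (x 5)) (p (x 4) (x 3))))),
  (1, (p (x 1) (p (a (x 2) (x 3) (p (x 5) (x 4))) (x 0)))),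
  (1, (p (p (x 0) (p (x 3) (x 5))) (a (x 1) (x 2) (x 4)))),
  (-1, (p (x 0) (a (x 3) (p (x 1) (x 4)) (p (x 2) (x 5))))),
  (-1, (p (a (x 1) (x 3) (p (x 4) (x 0))) (p (x 2) (x 5)))),
  (1, (p (x 0) (p (x 5) (p (x 2) (a (x 1) (x 3) (x 4)))))),
  (-1, (p (p (a (x 3) (x 5) (p (x 2) (x 1))) (x 0)) (x 4))),
  (1, (a (x 0) (x 4) (p (p (p (x 1) (x 3)) (x 5)) (x 2)))),
  (1, (p (a (x 0) (x 1) (p (x 2) (x 4))) (p (x 5) (x 3))))]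

def f6 : FS := [
  (1, (a (p (x 0) (x 3)) (p (x 1) (x 2)) (p (x 5) (x 4)))),
  (-1, (p (p (a (x 2) (x 5) (p (x 1) (x 3))) (x 0)) (x 4))),
  (-1, (a (x 0) (x 3) (p (x 2) (p (p (x 5) (x 4)) (x 1))))),
  (1, (p (a (x 1) (x 2) (x 5)) (p (p (x 0) (x 3)) (x 4)))),
  (1, (p (p (x 4) (x 0)) (p (a (x 1) (x 3) (x 5)) (x 2)))),
  (1, (p (x 1) (p (p (a (x 0) (x 3) (x 5)) (x 4)) (x 2)))),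
  (-1, (a (x 1) (x 2) (p (x 4) (p (p (x 5) (x 0)) (x 3))))),
  (2, (p (p (p (a (x 1) (x 4) (x 5)) (x 2)) (x 3)) (x 0))),
  (-1, (p (p (x 4) (x 0)) (a (x 2) (x 3) (p (x 1) (x 5))))),
  (1, (p (x 1) (p (x 3) (a (x 2) (x 4) (p (x 5) (x 0)))))),
  (1, (a (x 2) (p (x 1) (x 5)) (p (p (x 0) (x 4)) (x 3)))),
  (-1, (p (x 2) (a (x 1) (x 5) (p (p (x 3) (x 4)) (x 0))))),
  (-1, (a (p (x 0) (x 4)) (p (x 1) (x 5)) (p (x 2) (x 3)))),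
  (-2, (p (p (p (a (x 2) (x 3) (x 4)) (x 0)) (x 5)) (x 1))),
  (-1, (p (p (a (x 0) (x 2) (x 3)) (x 1)) (p (x 4) (x 5)))),
  (1, (p (a (x 2) (x 5) (p (x 3) (p (x 0) (x 4)))) (x 1))),
  (-1, (p (p (x 4) (x 1)) (p (x 0) (a (x 2) (x 3) (x 5))))),
  (-1, (a (x 1) (x 3) (p (p (x 2) (x 4)) (p (x 0) (x 5))))),
  (1, (p (x 0) (p (x 1) (p (a (x 2) (x 3) (x 5)) (x 4))))),
  (-1, (p (x 1) (a (x 0) (x 4) (p (x 2) (p (x 5) (x 3)))))),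
  (1, (p (p (a (x 1) (x 3) (x 5)) (x 0)) (p (x 4) (x 2)))),
  (-1, (p (a (x 0) (x 1) (p (x 3) (p (x 4) (x 5)))) (x 2))),
  (-1, (p (x 0) (a (x 1) (p (x 2) (x 3)) (p (x 4) (x 5))))),
  (1, (p (p (p (x 2) (a (x 0) (x 3) (x 4))) (x 5)) (x 1))),
  (1, (a (x 0) (p (x 2) (x 3)) (p (p (x 1) (x 5)) (x 4)))),
  (1, (p (x 1) (p (a (x 2) (x 4) (p (x 3) (x 5))) (x 0)))),
  (1, (p (a (x 2) (x 3) (p (x 5) (p (x 4) (x 1)))) (x 0))),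
  (-1, (p (p (x 3) (x 4)) (p (a (x 0) (x 2) (x 5)) (x 1)))),
  (-1, (a (x 1) (p (x 3) (x 2)) (p (p (x 5) (x 0)) (x 4)))),
  (1, (p (a (x 3) (p (x 4) (x 2)) (p (x 5) (x 0))) (x 1))),
  (1, (p (x 1) (a (x 0) (x 3) (p (p (x 2) (x 4)) (x 5))))),
  (1, (p (p (x 0) (x 3)) (p (x 1) (a (x 2) (x 4) (x 5))))),
  (-1, (p (a (x 1) (x 3) (p (p (x 4) (x 5)) (x 0))) (x 2))),
  (1, (a (x 0) (x 2) (p (x 1) (p (p (x 5) (x 3)) (x 4))))),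
  (-1, (p (p (a (x 1) (x 2) (p (x 3) (x 4))) (x 5)) (x 0))),
  (1, (a (p (x 2) (x 1)) (p (x 3) (x 0)) (p (x 5) (x 4)))),
  (1, (p (a (x 1) (x 3) (p (x 2) (p (x 5) (x 4)))) (x 0))),
  (1, (p (a (x 1) (x 2) (x 4)) (p (x 0) (p (x 3) (x 5))))),
  (-1, (p (a (x 2) (x 5) (p (p (x 3) (x 4)) (x 0))) (x 1))),
  (-1, (p (a (x 5) (p (x 1) (x 3)) (p (x 2) (x 4))) (x 0))),
  (-1, (p (p (x 5) (x 4)) (a (x 1) (x 2) (p (x 3) (x 0))))),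
  (1, (p (x 2) (p (x 3) (a (x 1) (x 5) (p (x 0) (x 4)))))),
  (-1, (p (p (p (a (x 1) (x 2) (x 5)) (x 4)) (x 3)) (x 0))),
  (1, (p (a (x 4) (x 5) (p (x 3) (x 0))) (p (x 1) (x 2)))),
  (2, (p (x 1) (a (x 0) (p (x 3) (x 2)) (p (x 4) (x 5))))),
  (1, (p (x 1) (a (x 2) (x 3) (p (x 4) (p (x 5) (x 0)))))),
  (-1, (p (p (a (x 3) (x 4) (x 5)) (x 0)) (p (x 1) (x 2)))),
  (1, (p (a (x 3) (p (x 0) (x 4)) (p (x 2) (x 5))) (x 1))),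
  (1, (a (p (x 0) (x 2)) (p (x 1) (x 4)) (p (x 5) (x 3)))),
  (1, (p (p (x 3) (a (x 2) (x 4) (x 5))) (p (x 0) (x 1)))),
  (1, (p (x 0) (a (x 1) (x 3) (p (p (x 2) (x 4)) (x 5))))),
  (-1, (a (x 0) (x 1) (p (p (x 2) (p (x 3) (x 5))) (x 4)))),
  (-1, (a (p (x 0) (x 1)) (p (x 4) (x 2)) (p (x 5) (x 3)))),
  (-1, (p (x 0) (p (a (x 1) (x 3) (p (x 2) (x 5))) (x 4)))),
  (1, (p (x 2) (p (a (x 0) (x 3) (x 5)) (p (x 4) (x 1))))),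
  (-1, (p (x 2) (a (x 1) (x 4) (p (p (x 5) (x 0)) (x 3))))),
  (-1, (a (x 1) (p (x 2) (x 3)) (p (p (x 5) (x 4)) (x 0)))),
  (1, (p (p (a (x 1) (x 2) (p (x 5) (x 3))) (x 0)) (x 4))),
  (-1, (a (p (x 0) (x 1)) (p (x 3) (x 2)) (p (x 4) (x 5)))),
  (1, (p (p (x 2) (x 3)) (a (x 0) (x 1) (p (x 4) (x 5))))),
  (1, (p (x 0) (p (p (a (x 2) (x 3) (x 4)) (x 5)) (x 1)))),
  (-1, (p (a (x 1) (p (x 3) (x 0)) (p (x 5) (x 4))) (x 2))),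
  (1, (p (x 2) (a (x 3) (p (x 4) (x 1)) (p (x 5) (x 0))))),
  (-1, (p (a (x 0) (x 3) (p (x 4) (x 5))) (p (x 1) (x 2)))),
  (1, (p (p (p (a (x 1) (x 3) (x 5)) (x 2)) (x 4)) (x 0))),
  (-1, (p (p (a (x 1) (x 3) (x 4)) (p (x 2) (x 5))) (x 0))),
  (-1, (a (p (x 1) (x 2)) (p (x 3) (x 0)) (p (x 4) (x 5)))),
  (1, (p (x 1) (p (a (x 2) (x 4) (x 5)) (p (x 0) (x 3))))),
  (-1, (p (p (p (a (x 1) (x 2) (x 3)) (x 5)) (x 4)) (x 0))),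
  (1, (p (x 1) (p (x 0) (p (x 3) (a (x 2) (x 4) (x 5)))))),
  (-1, (a (x 0) (x 5) (p (p (p (x 2) (x 4)) (x 3)) (x 1)))),
  (-1, (p (p (x 3) (a (x 0) (x 5) (p (x 2) (x 4)))) (x 1))),
  (-1, (a (x 1) (x 4) (p (x 2) (p (p (x 0) (x 3)) (x 5))))),
  (1, (p (p (p (x 2) (a (x 0) (x 4) (x 5))) (x 3)) (x 1))),
  (-1, (a (x 0) (x 1) (p (x 5) (p (p (x 2) (x 4)) (x 3))))),
  (1, (p (x 0) (a (x 5) (p (x 1) (x 2)) (p (x 3) (x 4))))),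
  (-1, (p (a (x 0) (x 2) (p (p (x 5) (x 4)) (x 3))) (x 1))),
  (1, (p (p (a (x 2) (x 4) (p (x 3) (x 5))) (x 0)) (x 1))),
  (1, (p (x 1) (a (x 3) (p (x 2) (x 5)) (p (x 4) (x 0))))),
  (1, (p (x 1) (p (x 3) (a (x 2) (x 4) (p (x 0) (x 5)))))),
  (-1, (p (a (x 2) (x 4) (p (p (x 0) (x 5)) (x 3))) (x 1))),
  (-1, (p (a (x 0) (x 3) (p (x 1) (x 4))) (p (x 2) (x 5)))),
  (1, (a (x 0) (x 2) (p (p (p (x 1) (x 3)) (x 5)) (x 4)))),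
  (1, (a (x 1) (p (x 5) (x 4)) (p (x 0) (p (x 2) (x 3))))),
  (1, (p (p (a (x 0) (x 1) (x 4)) (x 5)) (p (x 2) (x 3)))),
  (-1, (a (x 1) (p (x 4) (x 3)) (p (p (x 5) (x 2)) (x 0)))),
  (-1, (p (a (x 0) (x 4) (p (p (x 5) (x 3)) (x 1))) (x 2))),
  (-1, (p (x 0) (p (a (x 2) (x 3) (x 5)) (p (x 4) (x 1))))),
  (1, (p (p (a (x 1) (x 3) (p (x 5) (x 2))) (x 0)) (x 4))),
  (-1, (p (a (x 1) (x 5) (p (p (x 2) (x 3)) (x 4))) (x 0))),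
  (-1, (p (p (x 2) (p (a (x 1) (x 3) (x 5)) (x 4))) (x 0))),
  (1, (p (a (x 0) (x 3) (p (x 5) (p (x 1) (x 4)))) (x 2))),
  (-1, (p (p (x 0) (a (x 3) (x 5) (p (x 4) (x 2)))) (x 1))),
  (1, (p (x 2) (a (x 1) (x 3) (p (x 4) (p (x 0) (x 5)))))),
  (-1, (a (x 1) (x 2) (p (p (x 0) (x 3)) (p (x 4) (x 5))))),
  (-1, (p (a (x 3) (x 4) (p (x 5) (x 1))) (p (x 0) (x 2)))),
  (-1, (p (a (x 1) (x 4) (p (x 3) (p (x 5) (x 2)))) (x 0))),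
  (1, (p (x 0) (p (a (x 1) (x 3) (x 5)) (p (x 2) (x 4))))),
  (-1, (p (x 0) (p (p (x 5) (x 2)) (a (x 1) (x 3) (x 4))))),
  (-1, (a (p (x 0) (x 5)) (p (x 1) (x 2)) (p (x 3) (x 4))))]

def f7 : FS := [
  (-1, (p (a (x 1) (p (x 2) (x 4)) (p (x 5) (x 3))) (x 0))),
  (-2, (p (a (x 0) (x 5) (p (x 2) (p (x 3) (x 4)))) (x 1))),
  (1, (a (p (x 0) (x 5)) (p (x 2) (x 1)) (p (x 4) (x 3)))),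
  (1, (a (x 0) (x 2) (p (p (x 3) (x 4)) (p (x 1) (x 5))))),
  (1, (p (x 1) (p (p (a (x 2) (x 4) (x 5)) (x 3)) (x 0)))),
  (1, (a (x 1) (p (x 2) (x 5)) (p (x 0) (p (x 4) (x 3))))),
  (-1, (a (x 0) (x 1) (p (p (p (x 3) (x 2)) (x 5)) (x 4)))),
  (-1, (a (x 1) (p (x 3) (x 2)) (p (x 0) (p (x 5) (x 4))))),
  (1, (p (a (x 1) (x 3) (p (x 2) (p (x 4) (x 5)))) (x 0))),
  (-1, (p (x 0) (a (x 2) (x 3) (p (p (x 5) (x 1)) (x 4))))),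
  (-1, (a (x 0) (p (x 5) (x 1)) (p (p (x 2) (x 3)) (x 4)))),
  (-1, (p (a (x 4) (x 5) (p (x 2) (x 3))) (p (x 0) (x 1)))),
  (1, (p (a (x 0) (x 2) (p (x 4) (p (x 5) (x 3)))) (x 1))),
  (1, (a (x 1) (p (x 3) (x 2)) (p (p (x 4) (x 5)) (x 0)))),
  (-1, (p (x 1) (p (a (x 0) (x 2) (p (x 3) (x 4))) (x 5)))),
  (-1, (p (x 1) (p (p (a (x 2) (x 3) (x 4)) (x 5)) (x 0)))),
  (-1, (p (a (x 4) (p (x 2) (x 5)) (p (x 3) (x 0))) (x 1))),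
  (-1, (a (x 2) (p (x 0) (x 4)) (p (p (x 3) (x 5)) (x 1)))),
  (1, (p (p (x 0) (x 3)) (p (a (x 1) (x 4) (x 5)) (x 2)))),
  (-1, (p (p (a (x 0) (x 5) (p (x 2) (x 4))) (x 1)) (x 3))),
  (1, (p (x 1) (a (x 2) (x 3) (p (x 5) (p (x 4) (x 0)))))),
  (-1, (p (p (a (x 1) (x 5) (p (x 3) (x 4))) (x 2)) (x 0))),
  (1, (a (x 0) (x 4) (p (p (p (x 1) (x 5)) (x 3)) (x 2)))),
  (1, (a (x 1) (p (x 0) (x 3)) (p (p (x 5) (x 4)) (x 2)))),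
  (-1, (a (x 0) (x 2) (p (p (x 1) (p (x 4) (x 5))) (x 3)))),
  (-1, (a (x 1) (p (x 3) (x 4)) (p (p (x 0) (x 2)) (x 5)))),
  (-1, (a (x 0) (x 2) (p (p (x 1) (p (x 3) (x 4))) (x 5)))),
  (1, (p (x 1) (p (a (x 0) (x 2) (x 4)) (p (x 3) (x 5))))),
  (-1, (a (x 0) (p (x 1) (x 4)) (p (p (x 5) (x 2)) (x 3)))),
  (-1, (a (x 0) (x 3) (p (p (x 1) (x 4)) (p (x 5) (x 2))))),
  (-1, (p (x 2) (a (x 0) (x 4) (p (p (x 1) (x 3)) (x 5))))),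
  (1, (a (x 0) (p (x 2) (x 5)) (p (x 1) (p (x 3) (x 4))))),
  (1, (a (x 0) (x 1) (p (p (p (x 4) (x 5)) (x 3)) (x 2)))),
  (1, (a (x 2) (p (x 1) (x 4)) (p (p (x 0) (x 5)) (x 3)))),
  (-1, (p (p (a (x 1) (x 2) (x 4)) (x 0)) (p (x 5) (x 3)))),
  (1, (p (p (a (x 1) (x 2) (x 3)) (x 5)) (p (x 0) (x 4)))),
  (-1, (p (p (x 0) (a (x 2) (x 3) (x 4))) (p (x 1) (x 5)))),
  (1, (a (x 1) (x 2) (p (p (x 4) (x 0)) (p (x 3) (x 5))))),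
  (-1, (p (x 0) (a (x 2) (p (x 3) (x 5)) (p (x 4) (x 1))))),
  (1, (p (p (p (x 2) (x 3)) (x 5)) (a (x 0) (x 1) (x 4)))),
  (-1, (p (a (x 0) (p (x 3) (x 1)) (p (x 5) (x 4))) (x 2))),
  (-1, (p (a (x 1) (x 4) (p (p (x 0) (x 5)) (x 3))) (x 2))),
  (-1, (a (x 1) (p (x 5) (x 2)) (p (p (x 0) (x 3)) (x 4)))),
  (-1, (p (x 1) (a (x 0) (x 4) (p (x 3) (p (x 5) (x 2)))))),
  (-1, (p (x 1) (a (x 2) (x 3) (p (p (x 4) (x 5)) (x 0))))),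
  (-1, (p (a (x 2) (x 4) (p (p (x 5) (x 0)) (x 3))) (x 1))),
  (1, (p (p (a (x 3) (x 5) (p (x 0) (x 4))) (x 1)) (x 2))),
  (1, (a (x 0) (p (x 1) (x 5)) (p (p (x 2) (x 4)) (x 3)))),
  (1, (a (x 1) (p (x 2) (x 4)) (p (x 0) (p (x 3) (x 5))))),
  (1, (p (x 2) (a (x 0) (x 1) (p (p (x 3) (x 4)) (x 5))))),
  (-1, (p (p (a (x 1) (x 2) (x 5)) (x 3)) (p (x 0) (x 4)))),
  (-1, (p (a (x 0) (x 5) (p (x 3) (x 2))) (p (x 4) (x 1)))),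
  (-1, (p (x 0) (a (x 2) (x 4) (p (p (x 1) (x 3)) (x 5))))),
  (-1, (p (p (p (a (x 1) (x 2) (x 5)) (x 4)) (x 0)) (x 3))),
  (1, (p (p (x 3) (p (a (x 1) (x 4) (x 5)) (x 2))) (x 0))),
  (-1, (p (x 1) (p (x 3) (p (a (x 2) (x 4) (x 5)) (x 0))))),
  (-1, (p (x 2) (p (a (x 0) (x 5) (p (x 3) (x 4))) (x 1)))),
  (-1, (p (p (x 2) (x 5)) (a (x 0) (x 4) (p (x 1) (x 3))))),
  (-1, (p (a (x 1) (x 5) (p (x 3) (p (x 4) (x 2)))) (x 0))),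
  (-1, (p (x 0) (p (x 1) (a (x 2) (x 3) (p (x 4) (x 5)))))),
  (1, (p (p (x 4) (x 1)) (a (x 0) (x 3) (p (x 5) (x 2))))),
  (1, (p (x 0) (a (x 4) (p (x 1) (x 2)) (p (x 3) (x 5))))),
  (1, (p (x 1) (a (x 4) (p (x 0) (x 2)) (p (x 5) (x 3))))),
  (-1, (p (x 0) (a (x 1) (x 3) (p (x 2) (p (x 4) (x 5)))))),
  (-1, (p (p (a (x 1) (x 3) (x 4)) (p (x 0) (x 5))) (x 2))),
  (-1, (a (p (x 1) (x 2)) (p (x 3) (x 0)) (p (x 5) (x 4)))),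
  (2, (p (p (a (x 2) (x 3) (x 4)) (p (x 0) (x 5))) (x 1))),
  (1, (p (p (a (x 2) (x 3) (p (x 4) (x 0))) (x 1)) (x 5))),
  (-1, (p (p (a (x 0) (x 1) (x 5)) (p (x 3) (x 4))) (x 2))),
  (1, (p (a (x 2) (x 4) (x 5)) (p (x 0) (p (x 3) (x 1))))),
  (1, (a (x 1) (x 5) (p (p (x 0) (p (x 3) (x 4))) (x 2)))),
  (-1, (p (p (a (x 1) (x 2) (p (x 4) (x 5))) (x 0)) (x 3))),
  (1, (p (p (x 0) (p (a (x 1) (x 4) (x 5)) (x 3))) (x 2))),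
  (-1, (p (p (a (x 0) (x 1) (x 2)) (x 3)) (p (x 4) (x 5)))),
  (1, (p (p (a (x 0) (x 1) (x 3)) (x 2)) (p (x 5) (x 4)))),
  (-1, (p (a (x 0) (x 1) (p (p (x 5) (x 3)) (x 4))) (x 2))),
  (-1, (p (p (a (x 1) (x 3) (x 5)) (x 2)) (p (x 4) (x 0)))),
  (-1, (p (p (x 3) (p (a (x 2) (x 4) (x 5)) (x 0))) (x 1))),
  (-1, (a (x 1) (x 2) (p (p (p (x 3) (x 4)) (x 5)) (x 0)))),
  (1, (p (x 1) (p (a (x 2) (x 5) (p (x 4) (x 3))) (x 0)))),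
  (-1, (p (a (x 0) (x 4) (p (p (x 3) (x 5)) (x 2))) (x 1))),
  (1, (p (a (x 2) (p (x 0) (x 5)) (p (x 3) (x 4))) (x 1))),
  (1, (p (p (x 1) (p (a (x 2) (x 3) (x 4)) (x 5))) (x 0))),
  (-1, (p (p (x 3) (p (a (x 0) (x 1) (x 4)) (x 5))) (x 2))),
  (1, (p (a (x 1) (p (x 3) (x 5)) (p (x 4) (x 0))) (x 2))),
  (1, (p (a (x 3) (p (x 2) (x 5)) (p (x 4) (x 0))) (x 1))),
  (-1, (p (x 1) (a (x 0) (x 4) (p (x 3) (p (x 2) (x 5)))))),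
  (-1, (p (x 0) (a (x 2) (x 5) (p (p (x 4) (x 3)) (x 1))))),
  (-1, (p (a (x 2) (p (x 3) (x 0)) (p (x 4) (x 5))) (x 1))),
  (1, (p (x 1) (a (x 0) (x 4) (p (p (x 3) (x 5)) (x 2))))),
  (1, (p (p (x 1) (a (x 0) (x 2) (x 3))) (p (x 5) (x 4)))),
  (-1, (p (x 0) (a (x 1) (x 5) (p (p (x 2) (x 3)) (x 4))))),
  (-1, (p (x 0) (p (p (a (x 2) (x 3) (x 4)) (x 1)) (x 5)))),
  (-1, (p (a (x 1) (x 4) (x 5)) (p (x 0) (p (x 2) (x 3))))),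
  (-1, (a (x 1) (x 4) (p (p (p (x 0) (x 2)) (x 3)) (x 5)))),
  (-1, (p (x 2) (a (x 0) (x 1) (p (x 3) (p (x 4) (x 5)))))),
  (1, (p (p (x 4) (a (x 0) (x 3) (p (x 1) (x 5)))) (x 2))),
  (1, (p (x 1) (p (x 5) (p (x 2) (a (x 0) (x 3) (x 4)))))),
  (-1, (p (x 1) (a (x 5) (p (x 2) (x 3)) (p (x 4) (x 0))))),
  (1, (p (x 0) (p (a (x 1) (x 3) (x 4)) (p (x 2) (x 5)))))]

def f8 : FS := [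
  (1, (p (p (x 1) (x 3)) (p (x 0) (a (x 2) (x 4) (x 5))))),
  (-1, (p (p (a (x 0) (x 4) (p (x 2) (x 5))) (x 3)) (x 1))),
  (2, (p (p (x 3) (a (x 2) (x 5) (p (x 1) (x 4)))) (x 0))),
  (-1, (p (x 0) (a (x 1) (x 4) (p (p (x 5) (x 2)) (x 3))))),
  (-1, (p (a (x 1) (x 5) (p (x 4) (x 3))) (p (x 0) (x 2)))),
  (1, (p (x 1) (a (x 0) (x 4) (p (p (x 5) (x 2)) (x 3))))),
  (1, (p (x 0) (p (a (x 1) (x 2) (p (x 4) (x 5))) (x 3)))),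
  (1, (p (a (x 0) (x 5) (p (p (x 1) (x 4)) (x 3))) (x 2))),
  (1, (a (x 0) (x 3) (p (p (p (x 1) (x 4)) (x 5)) (x 2)))),
  (-1, (a (x 1) (p (x 5) (x 0)) (p (p (x 4) (x 3)) (x 2)))),
  (1, (p (p (x 0) (a (x 1) (x 3) (p (x 4) (x 5)))) (x 2))),
  (-1, (a (x 0) (x 5) (p (p (x 1) (x 2)) (p (x 4) (x 3))))),
  (1, (p (p (p (a (x 0) (x 4) (x 5)) (x 3)) (x 2)) (x 1))),
  (-1, (p (x 2) (a (x 0) (x 4) (p (p (x 3) (x 5)) (x 1))))),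
  (1, (p (p (x 2) (p (x 3) (x 4))) (a (x 0) (x 1) (x 5)))),
  (-1, (p (p (a (x 0) (x 4) (p (x 5) (x 3))) (x 2)) (x 1))),
  (1, (p (a (x 1) (x 2) (x 3)) (p (x 0) (p (x 4) (x 5))))),
  (-1, (p (a (x 0) (x 1) (p (x 4) (x 3))) (p (x 2) (x 5)))),
  (-1, (p (p (x 3) (p (x 0) (a (x 2) (x 4) (x 5)))) (x 1))),
  (1, (a (x 0) (x 3) (p (x 1) (p (x 2) (p (x 5) (x 4)))))),
  (-1, (p (p (a (x 2) (x 3) (p (x 5) (x 4))) (x 0)) (x 1))),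
  (1, (a (x 0) (p (x 5) (x 1)) (p (x 2) (p (x 3) (x 4))))),
  (1, (a (x 0) (p (x 2) (x 4)) (p (p (x 3) (x 1)) (x 5)))),
  (-1, (a (x 0) (x 2) (p (x 1) (p (x 3) (p (x 4) (x 5)))))),
  (1, (p (a (x 3) (x 5) (p (p (x 0) (x 4)) (x 2))) (x 1))),
  (-1, (p (x 0) (p (x 2) (a (x 1) (x 3) (p (x 5) (x 4)))))),
  (-1, (a (x 0) (x 1) (p (p (x 3) (x 5)) (p (x 2) (x 4))))),
  (1, (p (a (x 2) (x 5) (p (x 1) (x 3))) (p (x 0) (x 4)))),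
  (1, (a (x 0) (x 1) (p (p (p (x 2) (x 3)) (x 5)) (x 4)))),
  (1, (p (x 0) (p (x 4) (a (x 1) (x 2) (p (x 3) (x 5)))))),
  (-1, (p (a (x 1) (p (x 0) (x 3)) (p (x 5) (x 4))) (x 2))),
  (1, (p (x 1) (a (x 2) (p (x 0) (x 3)) (p (x 4) (x 5))))),
  (-1, (p (x 0) (a (x 2) (x 5) (p (p (x 1) (x 3)) (x 4))))),
  (1, (p (x 1) (a (x 4) (p (x 0) (x 2)) (p (x 3) (x 5))))),
  (1, (p (p (x 1) (x 3)) (p (a (x 0) (x 4) (x 5)) (x 2)))),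
  (-1, (p (a (x 1) (x 2) (p (x 0) (x 4))) (p (x 3) (x 5)))),
  (1, (p (p (a (x 1) (x 3) (p (x 0) (x 5))) (x 4)) (x 2))),
  (1, (a (x 0) (p (x 3) (x 4)) (p (p (x 1) (x 2)) (x 5)))),
  (-1, (p (p (x 4) (x 5)) (a (x 1) (x 2) (p (x 3) (x 0))))),
  (1, (a (p (x 0) (x 5)) (p (x 2) (x 3)) (p (x 4) (x 1)))),
  (1, (p (x 2) (p (a (x 1) (x 5) (p (x 0) (x 4))) (x 3)))),
  (-1, (p (p (p (a (x 1) (x 3) (x 5)) (x 0)) (x 4)) (x 2))),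
  (1, (p (x 1) (a (x 3) (p (x 0) (x 4)) (p (x 5) (x 2))))),
  (1, (p (p (x 2) (x 0)) (a (x 1) (x 3) (p (x 4) (x 5))))),
  (-1, (p (a (x 4) (p (x 3) (x 2)) (p (x 5) (x 1))) (x 0))),
  (-1, (a (x 1) (p (x 2) (x 4)) (p (p (x 0) (x 3)) (x 5)))),
  (-1, (p (x 1) (a (x 5) (p (x 0) (x 4)) (p (x 2) (x 3))))),
  (-1, (p (p (a (x 1) (x 4) (p (x 5) (x 2))) (x 3)) (x 0))),
  (-1, (p (p (x 2) (x 4)) (a (x 0) (x 5) (p (x 3) (x 1))))),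
  (-1, (p (x 1) (p (x 3) (a (x 2) (x 5) (p (x 0) (x 4)))))),
  (1, (p (p (p (a (x 2) (x 3) (x 4)) (x 5)) (x 0)) (x 1))),
  (1, (p (p (x 2) (a (x 1) (x 4) (p (x 5) (x 3)))) (x 0))),
  (-1, (p (a (x 1) (x 4) (p (x 0) (x 5))) (p (x 2) (x 3)))),
  (-1, (a (x 0) (x 1) (p (p (p (x 2) (x 3)) (x 4)) (x 5)))),
  (-1, (p (p (a (x 2) (x 3) (p (x 0) (x 4))) (x 1)) (x 5))),
  (-1, (p (p (x 5) (x 1)) (p (a (x 0) (x 2) (x 4)) (x 3)))),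
  (-1, (p (p (x 2) (x 1)) (p (a (x 0) (x 3) (x 5)) (x 4)))),
  (1, (p (a (x 2) (p (x 4) (x 3)) (p (x 5) (x 0))) (x 1))),
  (-1, (p (p (x 0) (a (x 2) (x 3) (x 4))) (p (x 5) (x 1)))),
  (-1, (p (p (p (a (x 1) (x 2) (x 3)) (x 5)) (x 0)) (x 4))),
  (1, (p (a (x 0) (x 2) (x 3)) (p (p (x 1) (x 4)) (x 5)))),
  (1, (p (x 0) (p (a (x 1) (x 3) (x 4)) (p (x 5) (x 2))))),
  (-1, (p (p (x 2) (a (x 0) (x 3) (p (x 5) (x 4)))) (x 1))),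
  (-1, (p (p (p (a (x 0) (x 2) (x 4)) (x 5)) (x 3)) (x 1))),
  (-1, (p (a (x 3) (x 4) (p (x 1) (x 5))) (p (x 0) (x 2)))),
  (-1, (p (p (a (x 3) (x 4) (p (x 2) (x 5))) (x 1)) (x 0))),
  (1, (p (p (x 3) (x 2)) (a (x 0) (x 5) (p (x 4) (x 1))))),
  (-1, (p (x 0) (p (a (x 1) (x 2) (p (x 3) (x 5))) (x 4)))),
  (1, (a (p (x 0) (x 5)) (p (x 3) (x 2)) (p (x 4) (x 1)))),
  (-1, (p (p (x 1) (x 4)) (p (a (x 0) (x 2) (x 5)) (x 3)))),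
  (1, (p (a (x 2) (p (x 3) (x 5)) (p (x 4) (x 0))) (x 1))),
  (-1, (a (x 1) (p (x 0) (x 5)) (p (p (x 2) (x 3)) (x 4)))),
  (1, (p (a (x 0) (x 4) (p (x 2) (x 5))) (p (x 1) (x 3)))),
  (1, (p (p (x 3) (a (x 0) (x 1) (p (x 5) (x 4)))) (x 2))),
  (1, (p (p (a (x 0) (x 2) (x 4)) (x 3)) (p (x 5) (x 1)))),
  (1, (p (p (x 2) (p (x 3) (a (x 0) (x 4) (x 5)))) (x 1))),
  (-1, (p (a (x 4) (x 5) (p (x 3) (x 1))) (p (x 0) (x 2)))),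
  (1, (a (p (x 0) (x 5)) (p (x 3) (x 1)) (p (x 4) (x 2)))),
  (1, (a (x 1) (x 3) (p (p (x 0) (p (x 2) (x 5))) (x 4)))),
  (-1, (a (x 2) (p (x 4) (x 0)) (p (x 1) (p (x 3) (x 5))))),
  (1, (p (x 0) (a (x 1) (x 5) (p (p (x 3) (x 4)) (x 2))))),
  (-1, (p (x 2) (p (x 5) (a (x 0) (x 4) (p (x 1) (x 3)))))),
  (-1, (p (x 2) (p (a (x 1) (x 5) (p (x 3) (x 4))) (x 0)))),
  (1, (a (x 1) (x 2) (p (p (p (x 3) (x 5)) (x 4)) (x 0)))),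
  (1, (p (a (x 0) (x 5) (p (p (x 4) (x 2)) (x 3))) (x 1))),
  (-1, (a (x 1) (x 2) (p (x 3) (p (p (x 0) (x 4)) (x 5))))),
  (-2, (p (p (x 3) (a (x 2) (x 5) (p (x 0) (x 4)))) (x 1))),
  (1, (a (x 0) (x 1) (p (x 5) (p (p (x 3) (x 2)) (x 4))))),
  (1, (p (x 1) (p (a (x 2) (x 3) (p (x 0) (x 5))) (x 4)))),
  (1, (a (x 2) (p (x 0) (x 3)) (p (p (x 1) (x 5)) (x 4)))),
  (-1, (p (a (x 1) (x 4) (p (x 3) (x 2))) (p (x 0) (x 5)))),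
  (-1, (p (p (a (x 4) (x 5) (p (x 3) (x 0))) (x 1)) (x 2))),
  (1, (p (x 1) (p (x 0) (a (x 3) (x 5) (p (x 4) (x 2)))))),
  (-1, (p (a (x 1) (p (x 2) (x 5)) (p (x 4) (x 3))) (x 0))),
  (2, (p (x 0) (p (a (x 2) (x 5) (p (x 4) (x 3))) (x 1)))),
  (-1, (p (x 2) (p (x 3) (p (x 1) (a (x 0) (x 4) (x 5)))))),
  (1, (p (x 1) (p (a (x 3) (x 4) (p (x 0) (x 5))) (x 2)))),
  (-1, (p (x 2) (a (x 0) (x 3) (p (x 5) (p (x 4) (x 1)))))),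
  (-1, (p (x 2) (p (p (x 3) (a (x 0) (x 4) (x 5))) (x 1)))),
  (-1, (a (x 2) (p (x 4) (x 1)) (p (p (x 0) (x 3)) (x 5))))]

def f9 : FS := [
  (1, (a (x 0) (x 4) (p (x 1) (p (x 2) (p (x 3) (x 5)))))),
  (1, (p (p (x 0) (a (x 1) (x 3) (p (x 5) (x 4)))) (x 2))),
  (-1, (p (a (x 0) (x 4) (p (p (x 5) (x 3)) (x 2))) (x 1))),
  (1, (a (x 1) (x 2) (p (p (x 0) (x 4)) (p (x 3) (x 5))))),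
  (1, (p (p (x 0) (a (x 1) (x 4) (p (x 5) (x 3)))) (x 2))),
  (1, (p (a (x 3) (p (x 1) (x 5)) (p (x 2) (x 4))) (x 0))),
  (-1, (p (a (x 0) (x 3) (p (x 2) (p (x 4) (x 5)))) (x 1))),
  (-1, (a (x 1) (p (x 5) (x 3)) (p (x 0) (p (x 2) (x 4))))),
  (-1, (p (p (p (a (x 0) (x 3) (x 4)) (x 5)) (x 1)) (x 2))),
  (-1, (p (a (x 1) (x 2) (x 5)) (p (x 0) (p (x 3) (x 4))))),
  (-2, (a (x 0) (p (x 5) (x 3)) (p (x 1) (p (x 2) (x 4))))),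
  (-1, (a (p (x 0) (x 4)) (p (x 1) (x 2)) (p (x 3) (x 5)))),
  (1, (p (x 1) (p (x 3) (a (x 0) (x 4) (p (x 5) (x 2)))))),
  (1, (p (x 0) (p (a (x 3) (x 4) (x 5)) (p (x 1) (x 2))))),
  (1, (a (x 0) (x 3) (p (p (p (x 2) (x 4)) (x 5)) (x 1)))),
  (-1, (p (x 1) (p (x 5) (a (x 2) (x 3) (p (x 4) (x 0)))))),
  (-1, (p (a (x 1) (x 2) (p (x 5) (x 3))) (p (x 0) (x 4)))),
  (-1, (p (p (p (a (x 0) (x 2) (x 4)) (x 3)) (x 1)) (x 5))),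
  (1, (p (x 0) (p (a (x 1) (x 4) (p (x 2) (x 5))) (x 3)))),
  (1, (a (x 0) (x 2) (p (x 3) (p (p (x 1) (x 4)) (x 5))))),
  (1, (a (x 2) (p (x 3) (x 0)) (p (p (x 1) (x 5)) (x 4)))),
  (1, (a (x 0) (x 5) (p (p (p (x 2) (x 3)) (x 4)) (x 1)))),
  (1, (p (x 1) (a (x 5) (p (x 0) (x 2)) (p (x 3) (x 4))))),
  (-1, (a (x 1) (p (x 0) (x 2)) (p (p (x 3) (x 4)) (x 5)))),
  (-1, (p (x 2) (p (a (x 3) (x 5) (p (x 1) (x 4))) (x 0)))),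
  (-1, (a (x 1) (p (x 5) (x 4)) (p (p (x 0) (x 2)) (x 3)))),
  (-1, (p (a (x 2) (x 5) (p (x 0) (x 3))) (p (x 4) (x 1)))),
  (1, (p (p (a (x 0) (x 4) (x 5)) (p (x 2) (x 3))) (x 1))),
  (1, (p (a (x 1) (x 2) (p (x 0) (x 3))) (p (x 5) (x 4)))),
  (1, (p (p (a (x 2) (x 3) (x 5)) (p (x 1) (x 4))) (x 0))),
  (-1, (p (p (p (a (x 1) (x 3) (x 5)) (x 4)) (x 0)) (x 2))),
  (-1, (p (p (x 1) (a (x 2) (x 3) (x 4))) (p (x 0) (x 5)))),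
  (-1, (a (x 1) (x 2) (p (p (x 3) (x 4)) (p (x 0) (x 5))))),
  (1, (p (a (x 1) (p (x 2) (x 4)) (p (x 3) (x 5))) (x 0))),
  (-1, (p (p (a (x 2) (x 3) (x 4)) (x 5)) (p (x 0) (x 1)))),
  (-1, (a (x 0) (p (x 2) (x 4)) (p (x 1) (p (x 3) (x 5))))),
  (1, (p (a (x 0) (x 4) (p (p (x 3) (x 5)) (x 1))) (x 2))),
  (1, (p (p (x 2) (x 0)) (a (x 1) (x 3) (p (x 5) (x 4))))),
  (1, (p (x 1) (p (p (x 0) (a (x 3) (x 4) (x 5))) (x 2)))),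
  (-1, (p (p (a (x 3) (x 4) (p (x 1) (x 5))) (x 0)) (x 2))),
  (1, (a (x 1) (p (x 0) (x 2)) (p (p (x 5) (x 4)) (x 3)))),
  (1, (p (a (x 3) (p (x 0) (x 4)) (p (x 5) (x 1))) (x 2))),
  (-1, (p (a (x 0) (x 5) (p (x 2) (x 3))) (p (x 4) (x 1)))),
  (-1, (p (p (x 2) (x 4)) (p (x 0) (a (x 1) (x 3) (x 5))))),
  (-1, (p (a (x 0) (x 4) (p (x 1) (p (x 3) (x 5)))) (x 2))),
  (-1, (p (p (a (x 2) (x 3) (x 4)) (p (x 5) (x 0))) (x 1))),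
  (1, (p (a (x 1) (x 3) (p (p (x 5) (x 0)) (x 4))) (x 2))),
  (-1, (p (x 0) (p (a (x 1) (x 3) (p (x 4) (x 5))) (x 2)))),
  (-1, (p (x 0) (p (x 3) (a (x 1) (x 5) (p (x 2) (x 4)))))),
  (-1, (p (p (x 4) (x 5)) (a (x 0) (x 1) (p (x 3) (x 2))))),
  (-1, (p (p (a (x 2) (x 3) (p (x 1) (x 5))) (x 4)) (x 0))),
  (1, (p (p (x 0) (x 4)) (a (x 1) (x 5) (p (x 2) (x 3))))),
  (1, (p (a (x 3) (p (x 1) (x 4)) (p (x 5) (x 2))) (x 0))),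
  (-1, (p (x 1) (p (x 3) (p (x 0) (a (x 2) (x 4) (x 5)))))),
  (1, (p (a (x 2) (p (x 0) (x 5)) (p (x 4) (x 3))) (x 1))),
  (-1, (p (x 2) (p (x 5) (a (x 0) (x 1) (p (x 4) (x 3)))))),
  (1, (p (p (a (x 2) (x 5) (p (x 0) (x 4))) (x 1)) (x 3))),
  (-1, (p (p (p (a (x 2) (x 4) (x 5)) (x 3)) (x 0)) (x 1))),
  (1, (p (p (x 2) (x 4)) (p (a (x 0) (x 1) (x 5)) (x 3)))),
  (-1, (p (a (x 2) (x 3) (p (x 1) (x 5))) (p (x 0) (x 4)))),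
  (-1, (a (p (x 0) (x 1)) (p (x 2) (x 5)) (p (x 4) (x 3)))),
  (1, (p (a (x 1) (x 3) (p (x 5) (p (x 4) (x 2)))) (x 0))),
  (1, (p (p (p (a (x 1) (x 2) (x 5)) (x 3)) (x 0)) (x 4))),
  (-1, (p (x 1) (a (x 4) (p (x 2) (x 5)) (p (x 3) (x 0))))),
  (1, (p (p (a (x 1) (x 2) (x 5)) (x 4)) (p (x 0) (x 3)))),
  (1, (p (a (x 1) (x 2) (p (x 4) (p (x 3) (x 5)))) (x 0))),
  (1, (p (x 2) (a (x 1) (p (x 3) (x 5)) (p (x 4) (x 0))))),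
  (1, (p (p (a (x 4) (x 5) (p (x 3) (x 1))) (x 0)) (x 2))),
  (-1, (p (p (x 2) (x 4)) (a (x 0) (x 3) (p (x 1) (x 5))))),
  (-1, (p (a (x 0) (x 5) (p (x 1) (x 4))) (p (x 2) (x 3)))),
  (-1, (p (p (x 1) (x 3)) (a (x 0) (x 4) (p (x 5) (x 2))))),
  (-1, (p (a (x 0) (x 2) (p (x 3) (x 4))) (p (x 1) (x 5)))),
  (1, (p (a (x 2) (x 4) (p (x 0) (x 3))) (p (x 1) (x 5)))),
  (-1, (p (a (x 0) (x 3) (p (x 2) (x 5))) (p (x 4) (x 1)))),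
  (-1, (p (a (x 1) (x 3) (p (x 5) (x 2))) (p (x 0) (x 4)))),
  (-1, (p (a (x 2) (x 3) (x 4)) (p (x 0) (p (x 5) (x 1))))),
  (1, (p (p (x 1) (x 2)) (p (a (x 3) (x 4) (x 5)) (x 0)))),
  (-1, (p (x 0) (a (x 1) (x 3) (p (x 4) (p (x 2) (x 5)))))),
  (1, (p (a (x 2) (x 3) (x 5)) (p (x 0) (p (x 1) (x 4))))),
  (-1, (p (p (x 1) (x 2)) (p (a (x 0) (x 3) (x 5)) (x 4)))),
  (-1, (p (a (x 1) (x 4) (p (x 3) (x 5))) (p (x 0) (x 2)))),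
  (-1, (p (x 1) (p (a (x 0) (x 3) (p (x 4) (x 5))) (x 2)))),
  (-1, (p (a (x 0) (x 2) (p (x 3) (p (x 4) (x 5)))) (x 1))),
  (1, (p (p (p (a (x 1) (x 3) (x 4)) (x 0)) (x 5)) (x 2))),
  (-1, (p (a (x 0) (x 2) (p (p (x 4) (x 3)) (x 5))) (x 1))),
  (-1, (p (a (x 3) (x 5) (p (x 0) (x 2))) (p (x 1) (x 4)))),
  (1, (a (p (x 0) (x 2)) (p (x 4) (x 1)) (p (x 5) (x 3)))),
  (1, (p (p (p (x 2) (a (x 3) (x 4) (x 5))) (x 1)) (x 0))),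
  (1, (p (p (a (x 3) (x 5) (p (x 0) (x 2))) (x 1)) (x 4))),
  (-1, (p (x 1) (a (x 0) (x 3) (p (x 5) (p (x 4) (x 2)))))),
  (-1, (a (x 0) (p (x 4) (x 1)) (p (p (x 3) (x 5)) (x 2)))),
  (-1, (p (x 2) (p (p (a (x 0) (x 4) (x 5)) (x 3)) (x 1)))),
  (1, (a (x 0) (p (x 5) (x 1)) (p (p (x 3) (x 2)) (x 4)))),
  (-1, (p (p (p (a (x 2) (x 3) (x 4)) (x 1)) (x 5)) (x 0))),
  (2, (p (p (a (x 1) (x 3) (x 5)) (p (x 0) (x 4))) (x 2))),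
  (1, (p (x 2) (a (x 1) (x 4) (p (p (x 3) (x 5)) (x 0))))),
  (1, (a (x 2) (p (x 4) (x 0)) (p (p (x 5) (x 3)) (x 1)))),
  (-1, (a (x 0) (x 5) (p (p (x 2) (x 3)) (p (x 1) (x 4))))),
  (1, (p (p (x 0) (x 4)) (a (x 1) (x 2) (p (x 3) (x 5))))),
  (1, (p (x 2) (p (x 1) (a (x 0) (x 5) (p (x 3) (x 4))))))]

def f10 : FS := [
  (-1, (p (p (x 3) (p (a (x 0) (x 1) (x 5)) (x 4))) (x 2))),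
  (-1, (p (p (x 0) (x 2)) (a (x 1) (x 5) (p (x 4) (x 3))))),
  (1, (p (a (x 1) (p (x 0) (x 5)) (p (x 4) (x 3))) (x 2))),
  (-1, (p (a (x 0) (x 1) (p (x 3) (x 4))) (p (x 2) (x 5)))),
  (-1, (p (a (x 2) (x 4) (p (x 0) (x 3))) (p (x 5) (x 1)))),
  (1, (a (x 1) (p (x 2) (x 3)) (p (p (x 4) (x 5)) (x 0)))),
  (1, (p (x 1) (p (a (x 0) (x 5) (p (x 2) (x 3))) (x 4)))),
  (-1, (p (x 0) (a (x 1) (p (x 4) (x 3)) (p (x 5) (x 2))))),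
  (-1, (a (x 1) (p (x 2) (x 5)) (p (p (x 0) (x 3)) (x 4)))),
  (-1, (p (x 0) (a (x 3) (x 4) (p (x 1) (p (x 2) (x 5)))))),
  (-1, (p (p (p (x 2) (a (x 0) (x 3) (x 4))) (x 1)) (x 5))),
  (-1, (p (x 0) (a (x 5) (p (x 1) (x 4)) (p (x 3) (x 2))))),
  (1, (p (x 0) (a (x 1) (p (x 3) (x 2)) (p (x 4) (x 5))))),
  (-1, (p (x 1) (a (x 0) (x 5) (p (x 2) (p (x 4) (x 3)))))),
  (-1, (a (x 0) (x 3) (p (p (x 1) (p (x 4) (x 5))) (x 2)))),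
  (-1, (a (x 1) (x 2) (p (p (p (x 4) (x 3)) (x 5)) (x 0)))),
  (-1, (p (x 1) (a (x 0) (x 4) (p (p (x 5) (x 3)) (x 2))))),
  (-1, (p (a (x 1) (x 4) (p (x 2) (p (x 5) (x 3)))) (x 0))),
  (1, (p (p (x 4) (x 2)) (a (x 0) (x 1) (p (x 5) (x 3))))),
  (1, (p (a (x 2) (x 4) (p (p (x 1) (x 3)) (x 5))) (x 0))),
  (1, (p (a (x 1) (x 2) (x 4)) (p (x 0) (p (x 5) (x 3))))),
  (1, (p (a (x 0) (x 3) (p (x 1) (p (x 4) (x 5)))) (x 2))),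
  (-1, (p (a (x 3) (p (x 4) (x 1)) (p (x 5) (x 2))) (x 0))),
  (1, (a (x 0) (x 4) (p (p (p (x 3) (x 5)) (x 2)) (x 1)))),
  (-1, (p (p (x 3) (x 2)) (a (x 0) (x 5) (p (x 1) (x 4))))),
  (1, (p (x 2) (p (x 5) (p (a (x 0) (x 1) (x 3)) (x 4))))),
  (1, (p (p (p (x 5) (x 4)) (a (x 0) (x 2) (x 3))) (x 1))),
  (1, (p (a (x 1) (x 5) (p (p (x 4) (x 0)) (x 3))) (x 2))),
  (-1, (p (a (x 2) (x 5) (p (p (x 0) (x 4)) (x 3))) (x 1))),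
  (1, (p (p (a (x 1) (x 5) (p (x 2) (x 4))) (x 0)) (x 3))),
  (1, (p (p (a (x 1) (x 4) (p (x 2) (x 5))) (x 0)) (x 3))),
  (-1, (p (x 1) (p (x 4) (a (x 0) (x 3) (p (x 2) (x 5)))))),
  (1, (p (x 0) (p (p (a (x 2) (x 4) (x 5)) (x 3)) (x 1)))),
  (1, (p (p (a (x 0) (x 3) (p (x 5) (x 2))) (x 1)) (x 4))),
  (1, (a (x 0) (p (x 2) (x 5)) (p (p (x 3) (x 1)) (x 4)))),
  (-1, (p (p (a (x 1) (x 4) (p (x 5) (x 3))) (x 0)) (x 2))),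
  (1, (p (x 2) (p (x 0) (a (x 1) (x 5) (p (x 3) (x 4)))))),
  (-1, (p (p (a (x 0) (x 3) (x 5)) (p (x 4) (x 2))) (x 1))),
  (1, (p (x 0) (p (a (x 2) (x 5) (p (x 3) (x 4))) (x 1)))),
  (1, (a (x 1) (p (x 3) (x 5)) (p (x 2) (p (x 0) (x 4))))),
  (-1, (a (p (x 1) (x 5)) (p (x 2) (x 0)) (p (x 4) (x 3)))),
  (1, (a (x 0) (x 2) (p (x 1) (p (p (x 3) (x 4)) (x 5))))),
  (1, (a (x 1) (p (x 3) (x 2)) (p (p (x 0) (x 4)) (x 5)))),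
  (-1, (p (p (x 0) (a (x 2) (x 3) (p (x 5) (x 4)))) (x 1))),
  (1, (p (a (x 0) (x 2) (x 4)) (p (x 1) (p (x 3) (x 5))))),
  (1, (p (a (x 1) (p (x 3) (x 4)) (p (x 5) (x 0))) (x 2))),
  (1, (a (x 1) (x 3) (p (p (p (x 5) (x 2)) (x 4)) (x 0)))),
  (1, (p (x 2) (p (x 0) (a (x 1) (x 4) (p (x 3) (x 5)))))),
  (-1, (p (a (x 0) (x 3) (p (x 2) (x 4))) (p (x 5) (x 1)))),
  (1, (p (a (x 0) (x 3) (p (x 1) (p (x 5) (x 4)))) (x 2))),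
  (-1, (p (x 2) (p (a (x 0) (x 1) (p (x 5) (x 4))) (x 3)))),
  (-1, (a (x 1) (p (x 0) (x 5)) (p (p (x 4) (x 2)) (x 3)))),
  (1, (a (x 1) (x 3) (p (p (x 4) (x 5)) (p (x 0) (x 2))))),
  (1, (p (p (a (x 0) (x 2) (p (x 3) (x 5))) (x 1)) (x 4))),
  (-1, (p (p (x 1) (a (x 3) (x 5) (p (x 4) (x 2)))) (x 0))),
  (-1, (a (x 0) (p (x 2) (x 3)) (p (x 1) (p (x 5) (x 4))))),
  (1, (p (a (x 0) (x 1) (p (x 3) (x 5))) (p (x 4) (x 2)))),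
  (-1, (p (p (x 0) (p (x 3) (a (x 1) (x 4) (x 5)))) (x 2))),
  (-1, (p (p (a (x 0) (x 3) (x 4)) (x 1)) (p (x 2) (x 5)))),
  (1, (p (a (x 1) (x 5) (p (x 2) (p (x 3) (x 4)))) (x 0))),
  (1, (p (a (x 2) (x 5) (p (x 3) (x 1))) (p (x 0) (x 4)))),
  (1, (a (p (x 0) (x 1)) (p (x 3) (x 4)) (p (x 5) (x 2)))),
  (-1, (p (p (x 0) (x 3)) (p (a (x 1) (x 2) (x 4)) (x 5)))),
  (-1, (p (p (p (x 2) (a (x 0) (x 4) (x 5))) (x 1)) (x 3))),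
  (1, (p (x 1) (a (x 4) (p (x 0) (x 3)) (p (x 5) (x 2))))),
  (-1, (p (x 0) (a (x 2) (p (x 4) (x 1)) (p (x 5) (x 3))))),
  (1, (p (a (x 1) (x 5) (p (x 0) (p (x 3) (x 4)))) (x 2))),
  (-1, (p (p (a (x 3) (x 5) (p (x 4) (x 1))) (x 0)) (x 2))),
  (-1, (p (p (x 0) (p (a (x 3) (x 4) (x 5)) (x 2))) (x 1))),
  (1, (a (x 2) (p (x 4) (x 1)) (p (p (x 5) (x 0)) (x 3)))),
  (-1, (p (p (x 3) (a (x 2) (x 5) (p (x 4) (x 0)))) (x 1))),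
  (1, (a (x 1) (x 4) (p (p (x 0) (p (x 2) (x 3))) (x 5)))),
  (1, (p (x 2) (p (x 0) (a (x 3) (x 5) (p (x 4) (x 1)))))),
  (1, (p (x 2) (p (a (x 0) (x 4) (p (x 5) (x 3))) (x 1)))),
  (1, (p (p (x 1) (p (a (x 0) (x 3) (x 4)) (x 5))) (x 2))),
  (1, (p (p (x 2) (a (x 3) (x 4) (x 5))) (p (x 0) (x 1)))),
  (-1, (p (x 0) (a (x 1) (x 4) (p (p (x 2) (x 5)) (x 3))))),
  (-1, (p (p (x 1) (x 2)) (p (a (x 0) (x 4) (x 5)) (x 3)))),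
  (-1, (p (p (x 4) (x 0)) (a (x 1) (x 5) (p (x 2) (x 3))))),
  (1, (p (x 2) (a (x 0) (x 3) (p (p (x 5) (x 4)) (x 1))))),
  (-1, (a (x 0) (x 1) (p (x 3) (p (p (x 2) (x 4)) (x 5))))),
  (1, (p (x 0) (p (p (a (x 2) (x 3) (x 5)) (x 1)) (x 4)))),
  (1, (p (a (x 0) (x 3) (p (p (x 2) (x 4)) (x 5))) (x 1))),
  (-1, (p (p (x 4) (a (x 2) (x 3) (p (x 1) (x 5)))) (x 0))),
  (-1, (p (x 1) (p (x 2) (a (x 0) (x 5) (p (x 3) (x 4)))))),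
  (1, (p (x 1) (p (a (x 2) (x 5) (p (x 3) (x 4))) (x 0)))),
  (-1, (p (p (p (x 0) (x 3)) (x 5)) (a (x 1) (x 2) (x 4)))),
  (1, (p (a (x 1) (x 2) (p (x 4) (p (x 5) (x 3)))) (x 0)))]

def nc : Nat := 28
def nf : Nat := 11
end Run7.h727.Cert
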